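import Pool.Agent.TH794.QD.Lap

/-! Existence of the evolution. -/

set_option autoImplicit false
set_option linter.unusedSectionVars false

open scoped BigOperators Topology InnerProductSpace
open MeasureTheory Filter Set

namespace Pool.Agent.TH794.QD

open Pool.Agent.W788.LD.Spec (S)
open Pool.Agent.H4R2.LO (Zd)

variable {d : ℕ}

/-- the Hilbert space -/
abbrev HS (d : ℕ) : Type := lp (fun _ : Zd d => ℂ) 2

theorem hs_sum (u : HS d) : HasSum (fun x => ‖u x‖ ^ 2) (‖u‖ ^ 2) := by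
  have h := lp.hasSum_norm (p := 2) (by norm_num) u
  simpa using h

theorem hs_mem (u : Zd d → ℂ) (h : Summable fun x => ‖u x‖ ^ 2) : Memℓp u 2 := by
  rw [memℓp_gen_iff (by norm_num)]
  simpa using h

/-- an element of the Hilbert space -/
def hmk (u : Zd d → ℂ) (h : Summable fun x => ‖u x‖ ^ 2) : HS d := ⟨u, hs_mem u h⟩

theorem hmk_apply (u : Zd d → ℂ) (h : Summable fun x => ‖u x‖ ^ 2) (x : Zd d) :
    hmk u h x = u x := rfl

theorem hmk_le (u : Zd d → ℂ) (h : Summable fun x => ‖u x‖ ^ 2) (C : ℝ) (hC : 0 ≤ C)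
    (h2 : ∑' x, ‖u x‖ ^ 2 ≤ C ^ 2) : ‖hmk u h‖ ≤ C := by
  have h1 := hs_sum (hmk u h)
  have h3 : ‖hmk u h‖ ^ 2 = ∑' x, ‖u x‖ ^ 2 := h1.tsum_eq.symm
  rw [← h3] at h2
  exact (pow_le_pow_iff_left₀ (norm_nonneg _) hC two_ne_zero).1 h2

theorem tr_sum (e : Zd d) (u : HS d) : Summable fun x => ‖u (x + e)‖ ^ 2 :=
  (Equiv.addRight e).summable_iff.2 (hs_sum u).summable

theorem tr_tsum (e : Zd d) (u : HS d) : ∑' x, ‖u (x + e)‖ ^ 2 = ‖u‖ ^ 2 := by
  rw [← (hs_sum u).tsum_eq]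
  exact (Equiv.addRight e).tsum_eq fun x => ‖u x‖ ^ 2

/-- translation -/
noncomputable def Tr (e : Zd d) : HS d →L[ℂ] HS d :=
  LinearMap.mkContinuous
    { toFun := fun u => hmk (fun x => u (x + e)) (tr_sum e u)
      map_add' := fun u v => rfl
      map_smul' := fun c u => rfl } 1 (fun u => by
      rw [one_mul]
      exact hmk_le _ (tr_sum e u) _ (norm_nonneg _) (tr_tsum e u).le)

theorem Tr_apply (e : Zd d) (u : HS d) (x : Zd d) : Tr e u x = u (x + e) := rfl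

theorem mv_sum (V : Zd d → ℝ) (B : ℝ) (hV : ∀ x, |V x| ≤ B) (u : HS d) :
    (Summable fun x => ‖(V x : ℂ) * u x‖ ^ 2) ∧ ∑' x, ‖(V x : ℂ) * u x‖ ^ 2 ≤ (B * ‖u‖) ^ 2 := by
  have h0 : ∀ x, ‖(V x : ℂ) * u x‖ ^ 2 ≤ B ^ 2 * ‖u x‖ ^ 2 := by
    intro x
    rw [norm_mul, mul_pow, Complex.norm_real, Real.norm_eq_abs]
    have := hV x
    gcongr
  have h1 : Summable fun x => B ^ 2 * ‖u x‖ ^ 2 := (hs_sum u).summable.mul_left _
  have h2 : Summable fun x => ‖(V x : ℂ) * u x‖ ^ 2 :=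
    Summable.of_nonneg_of_le (fun x => by positivity) h0 h1
  refine ⟨h2, (h2.tsum_le_tsum h0 h1).trans (le_of_eq ?_)⟩
  rw [tsum_mul_left, (hs_sum u).tsum_eq, mul_pow]

/-- multiplication -/
noncomputable def Mu (V : Zd d → ℝ) (B : ℝ) (hB : 0 ≤ B) (hV : ∀ x, |V x| ≤ B) :
    HS d →L[ℂ] HS d :=
  LinearMap.mkContinuous
    { toFun := fun u => hmk (fun x => (V x : ℂ) * u x) (mv_sum V B hV u).1
      map_add' := fun u v => by
        ext x
        change (V x : ℂ) * (u x + v x) = (V x : ℂ) * u x + (V x : ℂ) * v x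
        ring
      map_smul' := fun c u => by
        ext x
        change (V x : ℂ) * (c * u x) = c * ((V x : ℂ) * u x)
        ring } B (fun u => by
      exact hmk_le _ (mv_sum V B hV u).1 _ (by positivity) (mv_sum V B hV u).2)

theorem Mu_apply (V : Zd d → ℝ) (B : ℝ) (hB : 0 ≤ B) (hV : ∀ x, |V x| ≤ B) (u : HS d)
    (x : Zd d) : Mu V B hB hV u x = (V x : ℂ) * u x := rfl

/-- the Hamiltonian -/
noncomputable def Hop (V : Zd d → ℝ) (B : ℝ) (hB : 0 ≤ B) (hV : ∀ x, |V x| ≤ B) :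
    HS d →L[ℂ] HS d :=
  Mu V B hB hV - ∑ i : Fin d, (Tr (Pi.single i 1) + Tr (-Pi.single i 1))

/-- evaluation -/
noncomputable def evl (x : Zd d) : HS d →L[ℂ] ℂ :=
  LinearMap.mkContinuous
    { toFun := fun u => u x
      map_add' := fun _ _ => rfl
      map_smul' := fun _ _ => rfl } 1 (fun u => by
      rw [one_mul]
      exact lp.norm_apply_le_norm (by norm_num) u x)

theorem evl_apply (x : Zd d) (u : HS d) : evl x u = u x := rfl

theorem Hop_apply (V : Zd d → ℝ) (B : ℝ) (hB : 0 ≤ B) (hV : ∀ x, |V x| ≤ B) (u : HS d)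
    (x : Zd d) : Hop V B hB hV u x = -S (fun y => u y) x + (V x : ℂ) * u x := by
  rw [← evl_apply x (Hop V B hB hV u)]
  unfold Hop S
  rw [ContinuousLinearMap.sub_apply, map_sub, ContinuousLinearMap.sum_apply, map_sum]
  have h1 : ∀ i : Fin d, evl x ((Tr (Pi.single i 1) + Tr (-Pi.single i 1) : HS d →L[ℂ] HS d) u) =
      u (x + Pi.single i 1) + u (x - Pi.single i 1) := by
    intro i
    rw [ContinuousLinearMap.add_apply, map_add, evl_apply, evl_apply, Tr_apply, Tr_apply,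
      sub_eq_add_neg]
  rw [Finset.sum_congr rfl fun i _ => h1 i, evl_apply, Mu_apply]
  ring

/-- the Hamiltonian is symmetric -/
theorem Hop_symm (V : Zd d → ℝ) (B : ℝ) (hB : 0 ≤ B) (hV : ∀ x, |V x| ≤ B) (u v : HS d) :
    ⟪Hop V B hB hV u, v⟫_ℂ = ⟪u, Hop V B hB hV v⟫_ℂ := by
  have hu := (hs_sum u).summable
  have hv := (hs_sum v).summable
  obtain ⟨s1, s2, e1⟩ := Pool.Agent.W788.LD.Spec.symm (fun x => u x) (fun x => v x) hu hv
  have i1 := lp.hasSum_inner (𝕜 := ℂ) (Hop V B hB hV u) v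
  have i2 := lp.hasSum_inner (𝕜 := ℂ) u (Hop V B hB hV v)
  have i3 := lp.hasSum_inner (𝕜 := ℂ) (Mu V B hB hV u) v
  have t1 : ∀ x, ⟪Hop V B hB hV u x, v x⟫_ℂ =
      ⟪Mu V B hB hV u x, v x⟫_ℂ - (starRingEnd ℂ) (S (fun y => u y) x) * v x := by
    intro x
    rw [RCLike.inner_apply, RCLike.inner_apply, Hop_apply, Mu_apply, map_add, map_neg]
    ring
  have t2 : ∀ x, ⟪u x, Hop V B hB hV v x⟫_ℂ =
      ⟪Mu V B hB hV u x, v x⟫_ℂ - (starRingEnd ℂ) (u x) * S (fun y => v y) x := by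
    intro x
    rw [RCLike.inner_apply, RCLike.inner_apply, Hop_apply, Mu_apply, map_mul, Complex.conj_ofReal]
    ring
  have j1 : HasSum (fun x => ⟪Hop V B hB hV u x, v x⟫_ℂ) (⟪Mu V B hB hV u, v⟫_ℂ -
      ∑' x, (starRingEnd ℂ) (S (fun y => u y) x) * v x) := by
    simp only [t1]
    exact i3.sub s2.hasSum
  have j2 : HasSum (fun x => ⟪u x, Hop V B hB hV v x⟫_ℂ) (⟪Mu V B hB hV u, v⟫_ℂ -
      ∑' x, (starRingEnd ℂ) (u x) * S (fun y => v y) x) := by
    simp only [t2]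
    exact i3.sub s1.hasSum
  rw [i1.unique j1, i2.unique j2, e1]

/-- the generator -/
theorem gen_skew (V : Zd d → ℝ) (B : ℝ) (hB : 0 ≤ B) (hV : ∀ x, |V x| ≤ B) (s : ℝ) :
    ((s : ℂ) • (-Complex.I) • Hop V B hB hV) ∈ skewAdjoint (HS d →L[ℂ] HS d) := by
  have h1 : IsSelfAdjoint (Hop V B hB hV) := by
    rw [ContinuousLinearMap.isSelfAdjoint_iff_isSymmetric]
    exact fun u v => Hop_symm V B hB hV u v
  rw [skewAdjoint.mem_iff, star_smul, star_smul, h1.star_eq]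
  rw [smul_smul, smul_smul, ← neg_smul]
  congr 1
  simp

/-- **existence of the evolution** -/
theorem exists_sol (V : Zd d → ℝ) (B : ℝ) (hV : ∀ x, |V x| ≤ B) (a : Zd d) :
    ∃ ψ : ℝ → Zd d → ℂ, Sol d V a ψ := by
  have hB : 0 ≤ B := (abs_nonneg _).trans (hV 0)
  obtain ⟨A, hA⟩ : ∃ A : HS d →L[ℂ] HS d, A = (-Complex.I) • Hop V B hB hV := ⟨_, rfl⟩
  have hs1 : HasSum (fun x : Zd d => ‖if x = a then (1 : ℂ) else 0‖ ^ 2) 1 := by
    have := hasSum_single (f := fun x : Zd d => ‖if x = a then (1 : ℂ) else 0‖ ^ 2) a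
      (fun x hx => by
        rw [if_neg hx]
        simp)
    simp only [if_true, norm_one, one_pow] at this
    exact this
  obtain ⟨δ, hδ⟩ : ∃ δ : HS d, δ = hmk (fun x => if x = a then (1 : ℂ) else 0) hs1.summable :=
    ⟨_, rfl⟩
  have hδ1 : ‖δ‖ ^ 2 = 1 := by
    have h1 := hs_sum δ
    rw [hδ] at h1 ⊢
    exact h1.unique hs1
  refine ⟨fun s x => NormedSpace.exp ((s : ℂ) • A) δ x, ?_, ?_, ?_⟩
  · intro x
    simp only [Complex.ofReal_zero, zero_smul, NormedSpace.exp_zero]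
    rw [hδ]
    rfl
  · intro s x
    have h1 := hasDerivAt_exp_smul_const' (𝕂 := ℂ) A (s : ℂ)
    have h2 : HasDerivAt (fun z : ℂ => ((evl x).comp (ContinuousLinearMap.apply ℂ (HS d) δ))
        (NormedSpace.exp (z • A))) (((evl x).comp (ContinuousLinearMap.apply ℂ (HS d) δ))
        (A * NormedSpace.exp ((s : ℂ) • A))) (s : ℂ) :=
      (ContinuousLinearMap.hasFDerivAt _).comp_hasDerivAt (s : ℂ) h1
    have h3 := h2.comp_ofReal
    have e1 : ∀ L : HS d →L[ℂ] HS d,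
        ((evl x).comp (ContinuousLinearMap.apply ℂ (HS d) δ)) L = L δ x := fun L => rfl
    simp only [e1] at h3
    refine h3.congr_deriv ?_
    rw [ContinuousLinearMap.mul_apply]
    obtain ⟨w, hw⟩ : ∃ w, w = NormedSpace.exp ((s : ℂ) • A) δ := ⟨_, rfl⟩
    rw [← hw, hA, ← Hop_apply V B hB hV w x, ← evl_apply x, ContinuousLinearMap.smul_apply,
      map_smul, smul_eq_mul, evl_apply]
  · intro s
    have h1 := hs_sum (NormedSpace.exp ((s : ℂ) • A) δ)
    have h2 : ‖NormedSpace.exp ((s : ℂ) • A) δ‖ = ‖δ‖ := by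
      have h3 : NormedSpace.exp ((s : ℂ) • A) ∈ unitary (HS d →L[ℂ] HS d) := by
        let +nondep : NormedAlgebra ℚ (HS d →L[ℂ] HS d) := NormedAlgebra.restrictScalars ℚ ℂ _
        apply NormedSpace.exp_mem_unitary_of_mem_skewAdjoint
        rw [hA]
        exact gen_skew V B hB hV s
      exact ContinuousLinearMap.norm_map_of_mem_unitary h3 δ
    rw [h2, hδ1] at h1
    exact h1

end Pool.Agent.TH794.QD
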