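import Pool.Agent.TH794.QD.Lat6

/-! The Laplace transform of a solution of the Schrödinger equation. -/

set_option autoImplicit false
set_option linter.unusedSectionVars false

open scoped BigOperators Topology
open MeasureTheory Filter Set

namespace Pool.Agent.TH794.QD

open Pool.Agent.W788.LD.Spec (S)
open Pool.Agent.H4R2.LO (Zd)
open Pool.Agent.TH794.FG (LS)

variable {d : ℕ}

/-- solutions of the Schrödinger equation starting at `a` -/
structure Sol (d : ℕ) (V : Zd d → ℝ) (a : Zd d) (ψ : ℝ → Zd d → ℂ) : Prop where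
  init : ∀ x, ψ 0 x = if x = a then 1 else 0
  ode : ∀ s x, HasDerivAt (fun s => ψ s x) (-Complex.I * (-S (ψ s) x + (V x : ℂ) * ψ s x)) s
  norm : ∀ s, HasSum (fun x => ‖ψ s x‖ ^ 2) 1

namespace Sol

variable {V : Zd d → ℝ} {a : Zd d} {ψ : ℝ → Zd d → ℂ}

theorem cont (h : Sol d V a ψ) (x : Zd d) : Continuous fun s => ψ s x :=
  continuous_iff_continuousAt.2 fun s => (h.ode s x).continuousAt

theorem le_one (h : Sol d V a ψ) (s : ℝ) (x : Zd d) : ‖ψ s x‖ ≤ 1 := by
  have h1 := (h.norm s).summable.le_tsum x fun y _ => sq_nonneg _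
  rw [(h.norm s).tsum_eq] at h1
  exact (sq_le_one_iff₀ (norm_nonneg _)).1 h1

end Sol

/-- the exponential weight -/
noncomputable def ew (E t s : ℝ) : ℂ := Complex.exp ((Complex.I * E - t) * s)

theorem ew_norm (E t s : ℝ) : ‖ew E t s‖ = Real.exp (-t * s) := by
  unfold ew
  rw [Complex.norm_exp]
  congr 1
  simp

theorem ew_cont (E t : ℝ) : Continuous (ew E t) := by
  unfold ew
  fun_prop

theorem ew_zero (E t : ℝ) : ew E t 0 = 1 := by
  unfold ew
  simp

theorem ew_deriv (E t s : ℝ) : HasDerivAt (ew E t) (((Complex.I * E - t)) * ew E t s) s := by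
  unfold ew
  have h1 : HasDerivAt (fun s : ℝ => (Complex.I * E - t) * (s : ℂ)) ((Complex.I * E - t) * 1) s :=
    (Complex.ofRealCLM.hasDerivAt (x := s)).const_mul _
  have h2 := h1.cexp
  rw [mul_one] at h2
  exact h2.congr_deriv (by ring)

/-- the Laplace transform -/
noncomputable def La (ψ : ℝ → Zd d → ℂ) (E t : ℝ) (x : Zd d) : ℂ :=
  ∫ s in Ioi (0 : ℝ), ew E t s * ψ s x

theorem exp_int (t : ℝ) (ht : 0 < t) : IntegrableOn (fun s => Real.exp (-t * s)) (Ioi (0 : ℝ)) :=
  exp_neg_integrableOn_Ioi 0 ht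

theorem exp_val (t : ℝ) (ht : 0 < t) : ∫ s in Ioi (0 : ℝ), Real.exp (-t * s) = t⁻¹ := by
  have h := integral_exp_mul_Ioi (a := -t) (by linarith) 0
  rw [h]
  simp

section

variable {V : Zd d → ℝ} {a : Zd d} {ψ : ℝ → Zd d → ℂ}

theorem La_int (h : Sol d V a ψ) (E t : ℝ) (ht : 0 < t) (x : Zd d) :
    IntegrableOn (fun s => ew E t s * ψ s x) (Ioi (0 : ℝ)) := by
  refine Integrable.mono' (exp_int t ht) ?_ ?_
  · exact ((ew_cont E t).mul (h.cont x)).aestronglyMeasurable
  · refine Filter.Eventually.of_forall fun s => ?_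
    rw [norm_mul, ew_norm]
    exact mul_le_of_le_one_right (Real.exp_pos _).le (h.le_one s x)

theorem La_eq (h : Sol d V a ψ) (E t : ℝ) (ht : 0 < t) (x : Zd d) :
    -S (fun y => Complex.I * La ψ E t y) x + (V x : ℂ) * (Complex.I * La ψ E t x) -
      ((E : ℂ) + (t : ℂ) * Complex.I) * (Complex.I * La ψ E t x) = if x = a then 1 else 0 := by
  have hS : ∀ s, ew E t s * S (ψ s) x = ∑ i : Fin d, (ew E t s * ψ s (x + Pi.single i 1) +
      ew E t s * ψ s (x - Pi.single i 1)) := by
    intro s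
    unfold S
    rw [Finset.mul_sum]
    exact Finset.sum_congr rfl fun i _ => by ring
  have hadd : ∀ i : Fin d, Integrable (fun s => ew E t s * ψ s (x + Pi.single i 1) +
      ew E t s * ψ s (x - Pi.single i 1)) (volume.restrict (Ioi (0 : ℝ))) :=
    fun i => (La_int h E t ht _).add (La_int h E t ht _)
  have hSi : IntegrableOn (fun s => ew E t s * S (ψ s) x) (Ioi (0 : ℝ)) := by
    simp only [hS]
    exact integrable_finsetSum _ fun i _ => hadd i
  have hSv : ∫ s in Ioi (0 : ℝ), ew E t s * S (ψ s) x = S (La ψ E t) x := by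
    simp only [hS]
    rw [integral_finsetSum _ fun i _ => hadd i]
    unfold S
    refine Finset.sum_congr rfl fun i _ => ?_
    rw [integral_add (La_int h E t ht _) (La_int h E t ht _)]
    rfl
  have hd : ∀ s, HasDerivAt (fun s => ew E t s * ψ s x)
      ((Complex.I * E - t) * (ew E t s * ψ s x) +
        (Complex.I * (ew E t s * S (ψ s) x) +
          (-Complex.I * (V x : ℂ)) * (ew E t s * ψ s x))) s := by
    intro s
    have h1 := (ew_deriv E t s).mul (h.ode s x)
    refine h1.congr_deriv ?_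
    ring
  have hi1 := (La_int h E t ht x).const_mul (Complex.I * E - t)
  have hi2 := hSi.const_mul Complex.I
  have hi3 := (La_int h E t ht x).const_mul (-Complex.I * (V x : ℂ))
  have hlim : Tendsto (fun s => ew E t s * ψ s x) atTop (𝓝 0) := by
    rw [tendsto_zero_iff_norm_tendsto_zero]
    have h2 : Tendsto (fun s : ℝ => Real.exp (-t * s)) atTop (𝓝 0) := by
      have h3 : Tendsto (fun s : ℝ => t * s) atTop atTop := tendsto_id.const_mul_atTop ht
      have h4 := Real.tendsto_exp_neg_atTop_nhds_zero.comp h3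
      refine h4.congr fun s => ?_
      simp [neg_mul]
    refine squeeze_zero (fun s => norm_nonneg _) (fun s => ?_) h2
    rw [norm_mul, ew_norm]
    exact mul_le_of_le_one_right (Real.exp_pos _).le (h.le_one s x)
  have hi23 : Integrable (fun s => Complex.I * (ew E t s * S (ψ s) x) +
      (-Complex.I * (V x : ℂ)) * (ew E t s * ψ s x)) (volume.restrict (Ioi (0 : ℝ))) :=
    hi2.add hi3
  have h1 := integral_Ioi_of_hasDerivAt_of_tendsto' (a := (0 : ℝ)) (fun s _ => hd s)
    (hi1.add hi23) hlim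
  have h23 : ∫ s in Ioi (0 : ℝ), ((Complex.I * E - t) * (ew E t s * ψ s x) +
        (Complex.I * (ew E t s * S (ψ s) x) +
          (-Complex.I * (V x : ℂ)) * (ew E t s * ψ s x))) =
      (Complex.I * E - t) * La ψ E t x + (Complex.I * S (La ψ E t) x +
        (-Complex.I * (V x : ℂ)) * La ψ E t x) := by
    rw [integral_add hi1 hi23, integral_add hi2 hi3, integral_const_mul,
      integral_const_mul, integral_const_mul, hSv]
    rfl
  rw [h23, ew_zero, one_mul, h.init x] at h1
  have hS2 : S (fun y => Complex.I * La ψ E t y) x = Complex.I * S (La ψ E t) x := by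
    unfold S
    rw [Finset.mul_sum]
    exact Finset.sum_congr rfl fun i _ => by ring
  rw [hS2]
  have h4 : (if x = a then (1 : ℂ) else 0) = -((Complex.I * E - t) * La ψ E t x +
      (Complex.I * S (La ψ E t) x + (-Complex.I * (V x : ℂ)) * La ψ E t x)) := by
    rw [h1]
    ring
  rw [h4]
  have h5 : Complex.I * Complex.I = -1 := Complex.I_mul_I
  linear_combination (-(t * La ψ E t x)) * h5

/-- Cauchy-Schwarz for the Laplace transform -/
theorem La_cs (h : Sol d V a ψ) (E t : ℝ) (ht : 0 < t) (x : Zd d) :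
    t * ‖La ψ E t x‖ ^ 2 ≤ ∫ s in Ioi (0 : ℝ), Real.exp (-t * s) * ‖ψ s x‖ ^ 2 := by
  have hb : ∀ s, ‖ψ s x‖ ≤ 1 := fun s => h.le_one s x
  have hi1 : IntegrableOn (fun s => Real.exp (-t * s) * ‖ψ s x‖) (Ioi (0 : ℝ)) := by
    refine Integrable.mono' (exp_int t ht) ?_ ?_
    · exact (Continuous.mul (by fun_prop) (h.cont x).norm).aestronglyMeasurable
    · refine Filter.Eventually.of_forall fun s => ?_
      rw [norm_mul, Real.norm_eq_abs, abs_of_pos (Real.exp_pos _), norm_norm]
      exact mul_le_of_le_one_right (Real.exp_pos _).le (hb s)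
  have hi2 : IntegrableOn (fun s => Real.exp (-t * s) * ‖ψ s x‖ ^ 2) (Ioi (0 : ℝ)) := by
    refine Integrable.mono' (exp_int t ht) ?_ ?_
    · exact (Continuous.mul (by fun_prop) ((h.cont x).norm.pow 2)).aestronglyMeasurable
    · refine Filter.Eventually.of_forall fun s => ?_
      rw [norm_mul, Real.norm_eq_abs, abs_of_pos (Real.exp_pos _), norm_pow, norm_norm]
      exact mul_le_of_le_one_right (Real.exp_pos _).le (pow_le_one₀ (norm_nonneg _) (hb s))
  obtain ⟨c, hc⟩ : ∃ c, c = ∫ s in Ioi (0 : ℝ), Real.exp (-t * s) * ‖ψ s x‖ := ⟨_, rfl⟩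
  have h1 : ‖La ψ E t x‖ ≤ c := by
    unfold La
    rw [hc]
    refine (norm_integral_le_integral_norm _).trans (le_of_eq ?_)
    refine integral_congr_ae (Filter.Eventually.of_forall fun s => ?_)
    simp only
    rw [norm_mul, ew_norm]
  have hc0 : 0 ≤ c := (norm_nonneg _).trans h1
  have h2 : 0 ≤ ∫ s in Ioi (0 : ℝ), Real.exp (-t * s) * (‖ψ s x‖ - t * c) ^ 2 :=
    integral_nonneg fun s => by positivity
  have h3 : ∫ s in Ioi (0 : ℝ), Real.exp (-t * s) * (‖ψ s x‖ - t * c) ^ 2 =
      ∫ s in Ioi (0 : ℝ), ((Real.exp (-t * s) * ‖ψ s x‖ ^ 2 -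
        (2 * t * c) * (Real.exp (-t * s) * ‖ψ s x‖)) + (t * c) ^ 2 * Real.exp (-t * s)) := by
    refine integral_congr_ae (Filter.Eventually.of_forall fun s => ?_)
    simp only
    ring
  have hi3 : Integrable (fun s => Real.exp (-t * s) * ‖ψ s x‖ ^ 2 -
      (2 * t * c) * (Real.exp (-t * s) * ‖ψ s x‖)) (volume.restrict (Ioi (0 : ℝ))) :=
    hi2.sub (hi1.const_mul _)
  rw [h3, integral_add hi3 ((exp_int t ht).const_mul _),
    integral_sub hi2 (hi1.const_mul _), integral_const_mul, integral_const_mul, ← hc,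
    exp_val t ht] at h2
  have h4 : (t * c) ^ 2 * t⁻¹ = t * c ^ 2 := by
    field_simp
  rw [h4] at h2
  have h5 : ‖La ψ E t x‖ ^ 2 ≤ c ^ 2 := pow_le_pow_left₀ (norm_nonneg _) h1 2
  nlinarith

/-- the Laplace transform is square summable -/
theorem La_sum (h : Sol d V a ψ) (E t : ℝ) (ht : 0 < t) :
    Summable fun x => ‖Complex.I * La ψ E t x‖ ^ 2 := by
  have hi2 : ∀ x, IntegrableOn (fun s => Real.exp (-t * s) * ‖ψ s x‖ ^ 2) (Ioi (0 : ℝ)) := by
    intro x
    refine Integrable.mono' (exp_int t ht) ?_ ?_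
    · exact (Continuous.mul (by fun_prop) ((h.cont x).norm.pow 2)).aestronglyMeasurable
    · refine Filter.Eventually.of_forall fun s => ?_
      rw [norm_mul, Real.norm_eq_abs, abs_of_pos (Real.exp_pos _), norm_pow, norm_norm]
      exact mul_le_of_le_one_right (Real.exp_pos _).le (pow_le_one₀ (norm_nonneg _) (h.le_one s x))
  refine summable_of_sum_le (c := (t⁻¹) ^ 2) (fun x => by positivity) fun F => ?_
  have h1 : t * ∑ x ∈ F, ‖Complex.I * La ψ E t x‖ ^ 2 ≤ t⁻¹ := by
    rw [Finset.mul_sum]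
    calc ∑ x ∈ F, t * ‖Complex.I * La ψ E t x‖ ^ 2 ≤
        ∑ x ∈ F, ∫ s in Ioi (0 : ℝ), Real.exp (-t * s) * ‖ψ s x‖ ^ 2 := by
          refine Finset.sum_le_sum fun x _ => ?_
          rw [norm_mul, Complex.norm_I, one_mul]
          exact La_cs h E t ht x
      _ = ∫ s in Ioi (0 : ℝ), ∑ x ∈ F, Real.exp (-t * s) * ‖ψ s x‖ ^ 2 :=
          (integral_finsetSum _ fun x _ => hi2 x).symm
      _ ≤ ∫ s in Ioi (0 : ℝ), Real.exp (-t * s) := by
          refine integral_mono (integrable_finsetSum _ fun x _ => hi2 x) (exp_int t ht) fun s => ?_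
          simp only
          rw [← Finset.mul_sum]
          refine mul_le_of_le_one_right (Real.exp_pos _).le ?_
          have h2 := (h.norm s).summable.sum_le_tsum F fun x _ => sq_nonneg _
          rw [(h.norm s).tsum_eq] at h2
          exact h2
      _ = t⁻¹ := exp_val t ht
  have h2 := mul_le_mul_of_nonneg_left h1 (inv_pos.2 ht).le
  rw [← mul_assoc, inv_mul_cancel₀ ht.ne', one_mul, ← sq] at h2
  exact h2

/-- **the Laplace transform is a resolvent** -/
theorem La_LS (h : Sol d V a ψ) (ξ : Zd d → ℝ) (c0 σ : ℝ) (hV : ∀ x, V x = c0 - σ * ξ x)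
    (E t : ℝ) (ht : 0 < t) :
    LS d σ ξ (fun x => (Pi.single (M := fun _ => ℝ) 0 1 : Zd d → ℝ) (x - a)) (fun _ => 0)
      (c0 - E) t (fun x => -(Complex.I * La ψ E t x).re) (fun x => (Complex.I * La ψ E t x).im) := by
  have hu := La_sum h E t ht
  have heq := La_eq h E t ht
  obtain ⟨u, hud⟩ : ∃ u : Zd d → ℂ, u = fun x => Complex.I * La ψ E t x := ⟨_, rfl⟩
  have hux : ∀ x, Complex.I * La ψ E t x = u x := fun x => by rw [hud]
  simp only [hux] at hu heq ⊢
  have hn : ∀ x, ‖u x‖ ^ 2 = (u x).re ^ 2 + (u x).im ^ 2 := by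
    intro x
    rw [← Complex.normSq_eq_norm_sq, Complex.normSq_apply]
    ring
  have hs : ∀ x : Zd d, (Pi.single (M := fun _ => ℝ) 0 1 : Zd d → ℝ) (x - a) =
      if x = a then 1 else 0 := by
    intro x
    by_cases hx : x = a
    · rw [if_pos hx, hx, sub_self, Pi.single_eq_same]
    · rw [if_neg hx, Pi.single_eq_of_ne (sub_ne_zero.2 hx)]
  refine ⟨?_, ?_, ?_, ?_⟩
  · refine Summable.of_nonneg_of_le (fun x => sq_nonneg _) (fun x => ?_) hu
    rw [hn x]
    nlinarith [sq_nonneg (u x).im]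
  · refine Summable.of_nonneg_of_le (fun x => sq_nonneg _) (fun x => ?_) hu
    rw [hn x]
    nlinarith [sq_nonneg (u x).re]
  · intro x
    have h3 := congrArg Complex.re (heq x)
    rw [hV x] at h3
    have h4 : (if x = a then (1 : ℂ) else 0).re = if x = a then 1 else 0 := by
      split_ifs <;> simp
    rw [h4] at h3
    have h5 : ∑ i : Fin d, (-(u (x + Pi.single i 1)).re + -(u (x - Pi.single i 1)).re) =
        -∑ i : Fin d, ((u (x + Pi.single i 1)).re + (u (x - Pi.single i 1)).re) := by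
      rw [← Finset.sum_neg_distrib]
      exact Finset.sum_congr rfl fun i _ => by ring
    rw [h5, hs]
    simp [S] at h3
    linarith
  · intro x
    have h3 := congrArg Complex.im (heq x)
    rw [hV x] at h3
    have h4 : (if x = a then (1 : ℂ) else 0).im = 0 := by
      split_ifs <;> simp
    rw [h4] at h3
    simp [S] at h3
    linarith

end

end Pool.Agent.TH794.QD
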