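import Pool.Agent.TH794.QD.Lat6
import Pool.Agent.TH794.QD.Num9
import Pool.Agent.TH794.QD.Num10
import Pool.Agent.TH794.LL2.Par2

/-! The choice of the parameters for the diffusion. -/

set_option autoImplicit false
set_option linter.unusedSectionVars false

open scoped BigOperators Matrix
open MeasureTheory

namespace Pool.Agent.TH794.QD

open Pool.Agent.W788.BK
open Pool.Agent.W788.MFP.Four (T e NN adj K ft Op q NN_pos e_zero)
open Pool.Agent.W788.MF2.Dom Pool.Agent.W788.MF2.FormG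
open Pool.Agent.H4R2.LO (Zd)
open Pool.Agent.W788.BK.Num
open Pool.Agent.TH794.LL2
open Pool.Agent.H695R3.AN (lf)

/-- the two shell constant -/
theorem numQ6 (CQ y δ θ κ Q : ℝ) (hCQ : 0 ≤ CQ) (hy1 : 1 ≤ y)
    (hδ : δ = Real.exp (-(97 / 50) * y)) (hκ1 : κ ≤ 37 / 50)
    (hθ : θ = 1 / 2 * Real.exp (-κ * y))
    (hQ : Q = CQ * (97 / 50 * y) ^ 2 / Real.sqrt (δ * θ)) :
    Q ≤ 8 * CQ * y ^ 2 * Real.exp (67 / 50 * y) := by
  rw [hQ, div_eq_mul_inv]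
  have h1 : (Real.sqrt (δ * θ))⁻¹ ≤ 2 * Real.exp (67 / 50 * y) := by
    have h2 : (1 / 2 * Real.exp (-(67 / 50) * y)) ≤ Real.sqrt (δ * θ) := by
      apply Real.le_sqrt_of_sq_le
      have h3 : Real.exp (-(37 / 50) * y) ≤ Real.exp (-κ * y) := hexle hy1 _ _ (by linarith)
      calc (1 / 2 * Real.exp (-(67 / 50) * y)) ^ 2 =
          1 / 4 * (Real.exp (-(97 / 50) * y) * Real.exp (-(37 / 50) * y)) := by
            rw [mul_pow, ex_pow, ex_mul]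
            norm_num
        _ ≤ 1 / 4 * (Real.exp (-(97 / 50) * y) * Real.exp (-κ * y)) := by gcongr
        _ ≤ 1 / 2 * (Real.exp (-(97 / 50) * y) * Real.exp (-κ * y)) := by
            have : 0 < Real.exp (-(97 / 50) * y) * Real.exp (-κ * y) := by positivity
            linarith
        _ = _ := by
            rw [hδ, hθ]
            ring
    have h3 : (Real.sqrt (δ * θ))⁻¹ ≤ (1 / 2 * Real.exp (-(67 / 50) * y))⁻¹ :=
      inv_anti₀ (by positivity) h2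
    refine h3.trans (le_of_eq ?_)
    rw [mul_inv, ex_inv]
    norm_num
  calc CQ * (97 / 50 * y) ^ 2 * (Real.sqrt (δ * θ))⁻¹ ≤
      CQ * (2 * y) ^ 2 * (2 * Real.exp (67 / 50 * y)) := by
        have : 97 / 50 * y ≤ 2 * y := by linarith
        gcongr
    _ = _ := by ring

/-- **the engine** -/
theorem engine6 (hES : S_ES) (hTH : S_THIRD) (hFL : S_FLUCT) (hIN : S_INV)
    (hSU : S_SUP) (hQB : S_QB) (hLO : S_LOW) (hAD : S_ADM) (hFA : S_FAC) (hO : S_OSC)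
    (d : ℕ) (hd : 3 ≤ d) (b v : ℝ) (hb : 0 < b) (hv : 0 < v) :
    ∃ y0 : ℝ, ∀ y : ℝ, y0 ≤ y →
    ∀ (ν : Measure ℝ), IsProbabilityMeasure ν → (∀ᵐ s ∂ν, |s| ≤ b) → ∫ s, s ∂ν = 0 →
    ∀ Vv : ℝ, ∫ s, s ^ 2 ∂ν = Vv → v ≤ Vv →
    ∀ t : ℝ, Real.exp (-(81 / 40) * y) ≤ t → t ≤ Real.exp (-2 * y) * Vv →
    ∃ G : Set (Zd d → ℝ), MeasurableSet G ∧
      1 - Real.exp (-Real.exp (y / 100)) ≤ (Measure.infinitePi fun _ : Zd d => ν).real G ∧
      ∀ ξ ∈ G, QLaw d (Real.exp (-1 * y)) (Real.exp (Real.exp (y / 100)))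
        t (3 * d) (Real.exp (-(1 / 250) * y))
        (Real.exp (-2 * y) * Vv) (t / (Real.exp (-2 * y) * Vv)) ξ := by
  obtain ⟨CQ, hCQ, hqb⟩ := hQB
  obtain ⟨A1, hA1⟩ : ∃ A1, A1 = 3 * C1 + 2 := ⟨_, rfl⟩
  obtain ⟨c, hc⟩ : ∃ c, c = b / m1 := ⟨_, rfl⟩
  have hC1 := C1_ge
  have hA10 : 0 < A1 := by rw [hA1]; linarith
  have hCH := CH_nonneg d
  obtain ⟨y0, hy0⟩ := Filter.eventually_atTop.1 ((Filter.eventually_ge_atTop (1 : ℝ)).and
    ((numK6 b A1 CQ hb hCQ hA10).and ((numM6 b A1 hb hA10).and ((numP6 d b A1 (CH d) hb hA10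
    hCH).and ((numC6 d b A1 hb hA10).and ((numE6 d b (CH d) hb hCH).and ((prob6 d b c A1 hb
    hA10).and ((ev2 9 5 6 0 (by norm_num)).and ((ev2 125 (291 / 50) 12 0 (by norm_num)).and
    ((ev2 2 (37 / 50) 6 0 (by norm_num)).and ((ev2 2 6 7 0 (by norm_num)).and
    ((ev2 128 (-(1 / 5)) 0 0 (by norm_num)).and ((ev2 40 (-(1 / 10)) 0 0 (by norm_num)).and
    ((ev2 (b ^ 2) (-2) (-(1999 / 1000)) 0 (by norm_num)).and ((ev2 4 (-(2 / 25)) 0 0 (by norm_num)).and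
    (ev2 4 (-(1 / 10)) 0 0 (by norm_num)))))))))))))))))
  refine ⟨y0, fun y hy ν hν hνb hν0 Vv hVv hvV t htl htV => ?_⟩
  obtain ⟨hy1, hK5, hM5, hP5, hC5, hE5, hPr, n1, n2, n3, n4, n5, n6, n7, n8, n9⟩ := hy0 y hy
  simp only [pow_zero, mul_one, zero_mul, Real.exp_zero] at n1 n2 n3 n4 n5 n6 n7 n8 n9
  have hd3 : (3 : ℝ) ≤ d := by exact_mod_cast hd
  -- the parameters
  obtain ⟨σ, hσ⟩ : ∃ σ, σ = Real.exp (-1 * y) := ⟨_, rfl⟩
  obtain ⟨δ, hδ⟩ : ∃ δ, δ = Real.exp (-(97 / 50) * y) := ⟨_, rfl⟩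
  have hδ0 : 0 < δ := by rw [hδ]; positivity
  obtain ⟨η, hηd⟩ : ∃ η, η = t / δ := ⟨_, rfl⟩
  have htηδ : η * δ = t := by
    rw [hηd]
    field_simp
  have hVvb : Vv ≤ b ^ 2 := by
    rw [← hVv]
    have h1 : ∫ s, s ^ 2 ∂ν ≤ ∫ _s, b ^ 2 ∂ν := by
      apply integral_mono_of_nonneg (Filter.Eventually.of_forall fun s => sq_nonneg _)
        (integrable_const _)
      filter_upwards [hνb] with s hs
      rw [← sq_abs s]
      exact pow_le_pow_left₀ (abs_nonneg _) hs 2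
    rw [integral_const, probReal_univ, one_smul] at h1
    exact h1
  have htu : t ≤ Real.exp (-(1999 / 1000) * y) := by
    calc t ≤ Real.exp (-2 * y) * Vv := htV
      _ ≤ Real.exp (-2 * y) * b ^ 2 := by gcongr
      _ = b ^ 2 * Real.exp (-2 * y) := by ring
      _ ≤ _ := n7
  have hη : Real.exp (-(17 / 200) * y) ≤ η := by
    rw [hηd, le_div_iff₀ hδ0]
    refine le_trans (le_of_eq ?_) htl
    rw [hδ, ex_mul]
    norm_num
  have hη' : η ≤ Real.exp (-(59 / 1000) * y) := by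
    rw [hηd, div_le_iff₀ hδ0]
    refine htu.trans (le_of_eq ?_)
    rw [hδ, ex_mul]
    norm_num
  obtain ⟨κ, hκ⟩ : ∃ κ : ℝ, κ = 11 / (5 * d) := ⟨_, rfl⟩
  have hκ1 : κ ≤ 37 / 50 := by
    rw [hκ, div_le_div_iff₀ (by positivity) (by norm_num)]
    linarith
  have hκ0 : 0 < κ := by rw [hκ]; positivity
  have hκd : d * κ = 11 / 5 := by
    rw [hκ]
    field_simp
  obtain ⟨θ, hθ⟩ : ∃ θ, θ = 1 / 2 * Real.exp (-κ * y) := ⟨_, rfl⟩
  obtain ⟨L, hL⟩ : ∃ L : ℕ, L = ⌈Real.exp (6 * y)⌉₊ := ⟨_, rfl⟩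
  have hσ0 : 0 < σ := by rw [hσ]; positivity
  have hη0 : 0 < η := lt_of_lt_of_le (Real.exp_pos _) hη
  have ht0 : 0 < t := lt_of_lt_of_le (Real.exp_pos _) htl
  have hθ0 : 0 < θ := by rw [hθ]; positivity
  have hη1 : η ≤ 1 := hη'.trans (Real.exp_le_one_iff.2 (by linarith))
  have hx4 : Real.exp (-(1 / 10) * y) ≤ 1 / 4 := by linarith
  have hδ2 : δ ≤ 1 / 2 := by
    have : δ ≤ Real.exp (-(1 / 10) * y) := by
      rw [hδ]
      exact hexle hy1 _ _ (by norm_num)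
    linarith
  have hL1 : Real.exp (6 * y) ≤ L := by
    rw [hL]
    exact Nat.le_ceil _
  have hL2 : (L : ℝ) ≤ Real.exp (7 * y) := by
    have h1 := Nat.ceil_lt_add_one (show 0 ≤ Real.exp (6 * y) by positivity)
    rw [← hL] at h1
    have h3 : (1 : ℝ) ≤ Real.exp (6 * y) := Real.one_le_exp (by linarith)
    linarith
  have hLp : (0 : ℝ) < L := lt_of_lt_of_le (by positivity) hL1
  have hLne : NeZero L := ⟨by
    intro h0
    rw [h0] at hLp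
    simp at hLp⟩
  have hθ1 : θ ≤ 1 := by
    rw [hθ]
    have : Real.exp (-κ * y) ≤ 1 := Real.exp_le_one_iff.2 (by nlinarith)
    linarith
  have hθd : (2 * θ) ^ d = Real.exp (-(11 / 5) * y) := by
    rw [hθ, ← mul_assoc]
    norm_num
    rw [← neg_mul, ex_pow]
    congr 1
    rw [mul_neg, hκd]
    ring
  have hθL : 1 ≤ θ * L := by
    have h2 : Real.exp (κ * y) ≤ Real.exp (37 / 50 * y) := by
      apply Real.exp_le_exp.2
      apply mul_le_mul_of_nonneg_right hκ1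
      linarith
    have h3 : Real.exp (-κ * y) * Real.exp (κ * y) = 1 := by
      rw [ex_mul]
      simp
    calc (1 : ℝ) = 1 / 2 * (Real.exp (-κ * y) * (2 * Real.exp (κ * y))) := by
          linear_combination (-1) * h3
      _ ≤ 1 / 2 * (Real.exp (-κ * y) * L) := by
          have : 2 * Real.exp (κ * y) ≤ L := by linarith
          gcongr
      _ = _ := by rw [hθ]; ring
  -- the momenta
  obtain ⟨N, hNdef⟩ : ∃ N, N = NN d L := ⟨_, rfl⟩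
  have hN0 : 0 < N := by rw [hNdef]; exact NN_pos
  obtain ⟨cnt, hcnt⟩ : ∃ cnt, cnt = ∑ Q : T d L, (1 - hi θ Q) := ⟨_, rfl⟩
  have hcnt1 : 1 ≤ cnt := by rw [hcnt]; exact cnt_ge θ
  have hcnt2 : cnt ≤ 2 * Real.exp (-(11 / 5) * y) * N := by
    rw [hcnt, hNdef, ← hθd]
    exact hLO d L θ hθ0.le hθ1 hθL
  have hLδ : 1 / (L : ℝ) ≤ t := by
    rw [div_le_iff₀ hLp]
    have h1 : Real.exp (-(81 / 40) * y) * Real.exp (6 * y) ≤ t * L := by
      gcongr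
    rw [ex_mul] at h1
    have h2 : (1 : ℝ) ≤ Real.exp ((-(81 / 40) + 6) * y) := Real.one_le_exp (by linarith)
    linarith
  have htδ : t ≤ δ := by
    rw [← htηδ]
    exact mul_le_of_le_one_left hδ0.le hη1
  obtain ⟨g1, hg1⟩ : ∃ g1, g1 = C1 * (97 / 50 * y) := ⟨_, rfl⟩
  obtain ⟨g, hg⟩ : ∃ g, g = C1 * (81 / 40 * y) := ⟨_, rfl⟩
  have hlogδ : Real.log (1 / δ) = 97 / 50 * y := by
    rw [hδ, one_div, Real.log_inv, Real.log_exp]
    ring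
  have hlogt : Real.log (1 / t) ≤ 81 / 40 * y := by
    rw [one_div, Real.log_inv]
    have h1 := Real.log_le_log (Real.exp_pos _) htl
    rw [Real.log_exp] at h1
    linarith
  have hg10 : 0 ≤ g1 := by rw [hg1]; positivity
  have hg0 : 0 ≤ g := by rw [hg]; positivity
  have hC1y : 0 ≤ C1 * y := by positivity
  have hg1A : g1 + 2 ≤ A1 * y := by
    rw [hg1, hA1]
    linarith
  have hgA : g ≤ A1 * y := by
    rw [hg, hA1]
    linarith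
  have ht2 : t ≤ 1 / 2 := htδ.trans hδ2
  have hsumδ : ∀ E : ℝ, ∑ k : T d L, (JJ E δ k)⁻¹ ≤ g1 * N := by
    intro E
    have h1 := sumJ (d := d) (L := L) hd δ (hLδ.trans htδ) hδ2 E
    rw [hlogδ, ← hg1, ← hNdef] at h1
    exact h1
  have hsumt : ∀ E : ℝ, ∑ k : T d L, (JJ E t k)⁻¹ ≤ g * N := by
    intro E
    have h1 := sumJ (d := d) (L := L) hd t hLδ ht2 E
    rw [← hNdef] at h1
    refine h1.trans ?_
    rw [hg]
    have hC10 : 0 ≤ C1 := by linarith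
    gcongr
  have hL6 : Real.exp (12 * y) ≤ (L : ℝ) ^ 2 := by
    calc Real.exp (12 * y) = Real.exp (6 * y) ^ 2 := by
          rw [ex_pow]
          norm_num
      _ ≤ (L : ℝ) ^ 2 := by gcongr
  have hδinv : δ⁻¹ = Real.exp (97 / 50 * y) := by
    rw [hδ, ex_inv]
    norm_num
  have htinv : t⁻¹ ≤ Real.exp (81 / 40 * y) := by
    have h1 := inv_anti₀ (Real.exp_pos _) htl
    rw [ex_inv] at h1
    norm_num at h1 ⊢
    exact h1
  have hL43 : (1 + 4 / δ) ^ 3 ≤ (L : ℝ) ^ 2 := by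
    have h1 : 1 + 4 / δ ≤ 5 * Real.exp (97 / 50 * y) := by
      have h3 : (1 : ℝ) ≤ Real.exp (97 / 50 * y) := Real.one_le_exp (by linarith)
      rw [div_eq_mul_inv, hδinv]
      linarith
    refine le_trans ?_ hL6
    calc (1 + 4 / δ) ^ 3 ≤ (5 * Real.exp (97 / 50 * y)) ^ 3 := by gcongr
      _ = 125 * Real.exp (291 / 50 * y) := by
          rw [mul_pow, ex_pow]
          norm_num
      _ ≤ Real.exp (12 * y) := n2
  obtain ⟨Q, hQ⟩ : ∃ Q, Q = CQ * Real.log (1 / δ) ^ 2 / Real.sqrt (δ * θ) := ⟨_, rfl⟩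
  have hQ0 : 0 ≤ Q := by rw [hQ]; positivity
  obtain ⟨a, ha⟩ : ∃ a, a = g1 + cnt / (N * δ) := ⟨_, rfl⟩
  obtain ⟨v2, hv2⟩ : ∃ v2, v2 = g1 / δ := ⟨_, rfl⟩
  have hadm : ∀ E, Adm (D0 E δ) (AA (d := d) (L := L) E δ θ) a v2 Q := by
    intro E
    rw [ha, hv2, hcnt, hNdef]
    refine hAD d L E δ θ g1 Q hδ0 hg10 hQ0 (by rw [← hNdef]; exact hsumδ E) ?_
    intro P hP
    rw [hQ]
    exact hqb d L hd θ δ E hθ0 hθ1 hδ0 hδ2 hL43 P hP
  -- bounds of the parameters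
  have ha1 : a ≤ A1 * y := by
    refine le_trans ?_ hg1A
    rw [ha]
    have h1 : cnt / (N * δ) ≤ 2 := by
      rw [div_le_iff₀ (by positivity)]
      have h2 : Real.exp (-(11 / 5) * y) ≤ δ := by
        rw [hδ]
        apply Real.exp_le_exp.2
        linarith
      calc cnt ≤ 2 * Real.exp (-(11 / 5) * y) * N := hcnt2
        _ ≤ 2 * δ * N := by gcongr
        _ = _ := by ring
    linarith
  have ha0 : 0 ≤ a := by rw [ha]; positivity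
  have hv21 : v2 ≤ A1 * y * Real.exp (97 / 50 * y) := by
    rw [hv2, div_eq_mul_inv, hδinv]
    have : g1 ≤ A1 * y := by linarith
    gcongr
  have hv20 : 0 ≤ v2 := by rw [hv2]; positivity
  have hQ1 : Q ≤ 8 * CQ * y ^ 2 * Real.exp (67 / 50 * y) := by
    rw [hlogδ] at hQ
    exact numQ6 CQ y δ θ κ Q hCQ.le hy1 hδ hκ1 hθ hQ
  -- the law
  obtain ⟨μ, hμdef⟩ : ∃ μ, μ = ν.map fun s => σ * s := ⟨_, rfl⟩
  have hmσ : Measurable fun s : ℝ => σ * s := by fun_prop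
  have hμp : IsProbabilityMeasure μ := by
    rw [hμdef]
    exact Measure.isProbabilityMeasure_map hmσ.aemeasurable
  obtain ⟨β, hβ⟩ : ∃ β, β = b * σ := ⟨_, rfl⟩
  have hβ0 : 0 < β := by rw [hβ]; positivity
  have hμb : ∀ᵐ s ∂μ, |s| ≤ β := by
    rw [hμdef, ae_map_iff hmσ.aemeasurable (measurableSet_le (by fun_prop) (by fun_prop))]
    filter_upwards [hνb] with s hs
    rw [abs_mul, abs_of_pos hσ0, hβ, mul_comm b]
    gcongr
  have hμ0 : ∫ s, s ∂μ = 0 := by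
    rw [hμdef, integral_map hmσ.aemeasurable (by fun_prop), integral_const_mul, hν0, mul_zero]
  obtain ⟨s2, hs2⟩ : ∃ s2, ∫ s, s ^ 2 ∂μ = s2 := ⟨_, rfl⟩
  have hs20 : 0 ≤ s2 := by
    rw [← hs2]
    exact integral_nonneg fun s => sq_nonneg _
  have hs2β : s2 ≤ β ^ 2 := by
    rw [← hs2]
    have h1 : ∫ s, s ^ 2 ∂μ ≤ ∫ _s, β ^ 2 ∂μ := by
      apply integral_mono_of_nonneg (Filter.Eventually.of_forall fun s => sq_nonneg _)
        (integrable_const _)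
      filter_upwards [hμb] with s hs
      rw [← sq_abs s]
      exact pow_le_pow_left₀ (abs_nonneg _) hs 2
    rw [integral_const, probReal_univ, one_smul] at h1
    exact h1
  have hββ : β = b * Real.exp (-1 * y) := by rw [hβ, hσ]
  have hAy1 : 1 ≤ A1 * y := by
    have : 1 ≤ A1 := by rw [hA1]; linarith
    exact one_le_mul_of_one_le_of_one_le this hy1
  have hg1A' : g1 ≤ A1 * y := by linarith
  have hVv0 : 0 < Vv := hv.trans_le hvV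
  have hs2V : s2 = Real.exp (-2 * y) * Vv := by
    rw [← hs2, hμdef, integral_map hmσ.aemeasurable (by fun_prop)]
    simp only [mul_pow]
    rw [integral_const_mul, hVv, hσ, ex_pow]
    norm_num
  have hs2p : 0 < s2 := by rw [hs2V]; positivity
  -- the conditions
  obtain ⟨k0, k1, k2, k3, k3', k4, k5, k6⟩ := hK5 β a v2 Q s2 cnt N η δ g1 hββ
    ha0 ha1 hAy1 hv20 hv21 hQ0 hQ1 hs2β hs20 hN0 hcnt1 hcnt2 hη (by rw [htηδ]; exact htl) hg10 hg1A'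
  obtain ⟨ε, hε⟩ : ∃ ε, ε = Real.exp (-(17 / 50) * y) := ⟨_, rfl⟩
  obtain ⟨e1, he1⟩ : ∃ e1, e1 = Real.exp (-(1 / 10) * y) := ⟨_, rfl⟩
  have hε0 : 0 < ε := by rw [hε]; positivity
  have he10 : 0 < e1 := by rw [he1]; positivity
  have he14 : e1 ≤ 1 / 4 := by rw [he1]; exact hx4
  have hε2 : ε ≤ 1 / 2 := by
    have : ε ≤ e1 := by
      rw [hε, he1]
      exact hexle hy1 _ _ (by norm_num)
    linarith
  obtain ⟨k7, k8⟩ := hM5 β s2 g η δ hββ hg0 hgA hs20 hs2β hη hη' hδ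
  rw [← hε] at k3 k3' k7 k8
  rw [← he1] at k4 k7 k8
  obtain ⟨c0, hc0⟩ : ∃ c0, c0 = 4 / 3 * (ε + e1 + (2 * η + 8 * s2 ^ 2 * g ^ 2 / δ ^ 2)) := ⟨_, rfl⟩
  rw [← hc0] at k7 k8
  rw [htηδ] at k8
  have hc00 : 0 ≤ c0 := by rw [hc0]; positivity
  have hg1' : 1 ≤ g := by
    rw [hg]
    exact one_le_mul_of_one_le_of_one_le hC1 (by linarith only [hy1])
  have hc01 : c0 ≤ 1 := by
    have h1 : c0 ≤ c0 * g := le_mul_of_one_le_right hc00 hg1'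
    have h2 : Real.exp (-(29 / 500) * y) ≤ 1 := Real.exp_le_one_iff.2 (by linarith)
    linarith
  obtain ⟨p1, p2, p3, p4, p5⟩ := hP5 β s2 g c0 ε t L hββ hg1' hgA hs2p hs2β hc00 k8 hε htl htu
    hL1
  obtain ⟨D1, hD1⟩ : ∃ D, D = Real.exp (-(37 / 500) * y) := ⟨_, rfl⟩
  obtain ⟨D2, hD2⟩ : ∃ D, D = Real.exp (-(1 / 5) * y) := ⟨_, rfl⟩
  have hD10 : 0 < D1 := by rw [hD1]; positivity
  have hD20 : 0 < D2 := by rw [hD2]; positivity
  have hD2128 : D2 ≤ 1 / 128 := by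
    rw [hD2]
    linarith
  have hsD : Real.sqrt D2 = Real.exp (-(1 / 10) * y) := by
    rw [hD2]
    exact sqrt_ex _ _ y (by norm_num)
  rw [← hD2] at k5
  rw [← hD1] at k6
  -- the net
  obtain ⟨ζ, hζ⟩ : ∃ ζ, ζ = Real.exp (-10 * y) := ⟨_, rfl⟩
  have hζ0 : 0 < ζ := by rw [hζ]; positivity
  have hζinv : ζ⁻¹ = Real.exp (10 * y) := by
    rw [hζ, ex_inv]
    norm_num
  obtain ⟨M, hM⟩ : ∃ M : ℕ, M = ⌈3 * d / ζ⌉₊ + 1 := ⟨_, rfl⟩
  have hM1 : 3 * d + ζ ≤ ζ * M := by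
    have h1 : 3 * d / ζ ≤ (⌈3 * d / ζ⌉₊ : ℝ) := Nat.le_ceil _
    rw [div_le_iff₀ hζ0] at h1
    rw [hM]
    push_cast
    linarith
  have hM2 : (2 * M + 1 : ℝ) ≤ (6 * d + 5) * Real.exp (10 * y) := by
    have h1 := Nat.ceil_lt_add_one (show 0 ≤ 3 * d / ζ by positivity)
    have h2 : (1 : ℝ) ≤ Real.exp (10 * y) := Real.one_le_exp (by linarith)
    have h3 : 3 * d / ζ = 3 * d * Real.exp (10 * y) := by rw [div_eq_mul_inv, hζinv]
    rw [h3] at h1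
    rw [hM, h3]
    push_cast
    linarith
  obtain ⟨τ, hτ⟩ : ∃ τ, τ = Real.exp (-(209 / 100) * y) := ⟨_, rfl⟩
  have hτ0 : 0 < τ := by rw [hτ]; positivity
  -- the cut-off
  obtain ⟨ℓ, hℓ⟩ : ∃ ℓ, ℓ = Real.exp (5 * y) := ⟨_, rfl⟩
  have hℓ0 : 0 < ℓ := by rw [hℓ]; positivity
  have hℓinv : ℓ⁻¹ = Real.exp (-5 * y) := by
    rw [hℓ, ex_inv]
  have hL4 : 4 * ℓ + 4 < L := by
    have h2 : (1 : ℝ) ≤ Real.exp (5 * y) := Real.one_le_exp (by linarith)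
    rw [hℓ]
    linarith
  obtain ⟨u0, hu0⟩ : ∃ u0, u0 = η * δ / s2 := ⟨_, rfl⟩
  obtain ⟨ω1, hω1⟩ : ∃ ω1, ω1 = Real.exp (-(1 / 50) * y) := ⟨_, rfl⟩
  have hts : η * δ ≤ s2 := by
    rw [htηδ, hs2V]
    exact htV
  have hgood := good5_prob (d := d) (L := L) hES hTH hFL hIN hSU hFA hO hd δ θ η τ ζ a v2 Q β s2 g
    g1 ε e1 c0 (Real.exp (-(1 / 10) * y)) D1 D2 M hδ0 hη0 hη1 hτ0 hadm μ hβ0 hμb hμ0 hs2 hs2p k1 k0
    k2 hε0.le hε2 he10.le he14 k3' k3 (by rw [htηδ, ← hNdef]; exact hsumt) hg1'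
    (by rw [← hNdef]; exact hsumδ) (by rw [← hcnt, ← hNdef]; exact k4) hc0 hc01
    (c0 * g * s2 / (η * δ)) (ε * g ^ 2 * s2 ^ 2 / (η * δ) ^ 2) u0 rfl rfl
    (by rw [htηδ]; exact p1) (by rw [htηδ]; exact p2) hts hu0 (by rw [htηδ]; linarith)
    (Real.exp_pos _) (Real.exp (-(9 / 100) * y))
    (28 * d / L / (η * δ) ^ 2 + CH d * (s2 * (2 * g) + η * δ) ^ (1 / 8 : ℝ)) ω1
    (by rw [htηδ]; exact p3) p4 rfl (by rw [hu0, hω1, htηδ]; exact p5) hD10 k6 hD20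
    (by rw [hsD]; exact n6) hD2128 k5
  rw [hμdef, ← hcnt, ← hNdef] at hgood
  -- the form bound
  obtain ⟨kf, hkf⟩ : ∃ kf, kf = Real.exp (-(23 / 1000) * y) := ⟨_, rfl⟩
  have hkf0 : 0 < kf := by rw [hkf]; positivity
  obtain ⟨p, hp⟩ : ∃ p : ℕ, p = ⌈Real.exp (1 / 80 * y)⌉₊ := ⟨_, rfl⟩
  have hp1 : Real.exp (1 / 80 * y) ≤ p := by
    rw [hp]
    exact Nat.le_ceil _
  have hp0 : p ≠ 0 := by
    intro h0
    rw [h0] at hp1
    have := Real.exp_pos (1 / 80 * y)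
    push_cast at hp1
    linarith
  obtain ⟨ρ, hρ⟩ : ∃ ρ, ρ = 2 * d * Real.exp (-(119 / 40) * y) := ⟨_, rfl⟩
  have hρ0 : 0 < ρ := by rw [hρ]; positivity
  have hρℓ : 2 * d / ℓ * t⁻¹ ≤ ρ := by
    calc 2 * d / ℓ * t⁻¹ ≤ 2 * d / ℓ * Real.exp (81 / 40 * y) := by gcongr
      _ = ρ := by
        rw [hρ, hℓ, div_eq_mul_inv, ex_inv, mul_assoc, ex_mul]
        norm_num
  obtain ⟨ρ2, hρ2⟩ : ∃ ρ2, ρ2 = (8 * d + 4) * Real.exp (-(19 / 20) * y) := ⟨_, rfl⟩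
  have hρ20 : 0 < ρ2 := by rw [hρ2]; positivity
  have hρ2ℓ : (8 * d + 4) / ℓ * (t⁻¹) ^ 2 ≤ ρ2 := by
    calc (8 * d + 4) / ℓ * (t⁻¹) ^ 2 ≤ (8 * d + 4) / ℓ * (Real.exp (81 / 40 * y)) ^ 2 := by
          gcongr
      _ = ρ2 := by
        rw [hρ2, hℓ, div_eq_mul_inv, ex_inv, mul_assoc, ex_pow, ex_mul]
        norm_num
  have hR1 : 1 ≤ Real.exp (Real.exp (y / 100)) := Real.one_le_exp (Real.exp_pos _).le
  have hdom : DomBy ν c := by
    rw [hc]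
    exact dom_bdd ν b hb hνb hν0
  obtain ⟨r1, r2, r3⟩ := hC5 β s2 g1 (4 * g) η δ t kf ρ ρ2 ζ τ (2 * (ρ + ζ * t⁻¹))
    (2 * (ρ2 + ζ * (2 * (t⁻¹) ^ 2))) (Real.sqrt ((4 * g + 1) / t)) hββ hs2p hs2β hAy1 hg1A'
    (by linarith) (by linarith) hη hη' hδ htηδ.symm hkf hρ hρ2 hζ hτ rfl rfl rfl
  obtain ⟨s1, s3, s4⟩ := hE5 β s2 t ζ hββ hs2p hs2β htl htu hζ
  have hkf2 : kf ≤ 1 / 2 := by
    have h1 : 0 ≤ τ / t := by positivity
    linarith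
  have hfin := mainQ (L := L) hO hd ν c hdom σ (Real.exp (Real.exp (y / 100))) δ θ η kf g1 ρ ρ2
    τ (4 * g) ζ s2 u0 ω1 (3 * d) (Real.exp (-(1 / 100) * y)) (Real.exp (-(1 / 200) * y))
    (Real.exp (-(1 / 250) * y)) ℓ M hσ0 hR1 hδ0 hδ2 hη0 hη1 (by rw [htηδ]; linarith) hkf0 hkf2 hζ0
    hM1 (by rw [← hNdef]; exact hsumδ) hg10 hs2p hu0 (by rw [hω1]; exact s4) hρ0.le hρ20.le hτ0.le
    (by linarith) (by rw [htηδ]; exact r1) (2 * (ρ + ζ * t⁻¹)) (2 * (ρ2 + ζ * (2 * (t⁻¹) ^ 2)))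
    (by rw [htηδ]) (by rw [htηδ]) (by rw [htηδ]; exact r2) (Real.sqrt ((4 * g + 1) / t)) _ _
    (by rw [htηδ]) rfl rfl (by rw [htηδ]; exact r3) (Real.exp_le_one_iff.2 (by linarith))
    (by rw [hω1, hu0, htηδ]; exact s1) hℓ0 hL4 (by rw [htηδ]; exact hρℓ)
    (by rw [htηδ]; exact hρ2ℓ) (by rw [htηδ, hℓ]; exact s3) p hp0 _
    (Real.exp (-Real.exp (y / 100))) hgood ?_
  · obtain ⟨G, hG, hP, hLL⟩ := hfin
    refine ⟨G, hG, hP, fun ξ hξ => ?_⟩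
    have h1 := hLL ξ hξ
    rw [htηδ] at h1
    rw [← hσ, ← hs2V]
    rw [htηδ] at hu0
    rw [← hu0]
    exact h1
  -- the probability
  have hNL : N = (L : ℝ) ^ d := hNdef
  have := hPr (Real.exp (y / 100)) (Real.exp (Real.exp (y / 100))) δ kf σ g1 τ β N cnt D1 D2 t s2 L
    p M rfl rfl hL2 hδ hkf hσ hg10 hg1A' hp hNL hN0 hτ hββ hcnt1 hcnt2 hD1 hD2 hM2 htl hs2p hs2β
  rw [hu0, hω1, htηδ]
  exact this

end Pool.Agent.TH794.QD
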