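import Mathlib

/-! A quantitative Tauberian theorem (Karamata). -/

set_option autoImplicit false

open MeasureTheory Set Filter Polynomial

namespace Pool.Agent.TH794.QD

/-- the Laplace transform at the time scale `T` -/
noncomputable def FL (B : ℝ → ℝ) (T : ℝ) : ℝ := ∫ s in Ioi (0 : ℝ), Real.exp (-s / T) * B s

theorem fl_int (B : ℝ → ℝ) (T S : ℝ) (hS : 0 < S) (hST : S ≤ T)
    (hi : IntegrableOn (fun s => Real.exp (-s / T) * B s) (Ioi 0)) :
    IntegrableOn (fun s => Real.exp (-s / S) * B s) (Ioi 0) := by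
  have hT : 0 < T := hS.trans_le hST
  have h1 : (fun s => Real.exp (-s / S) * B s) =
      fun s => Real.exp (-s / S + s / T) * (Real.exp (-s / T) * B s) := by
    funext s
    rw [← mul_assoc, ← Real.exp_add]
    congr 2
    ring
  rw [h1]
  refine Integrable.bdd_mul (c := 1) hi
    (Continuous.aestronglyMeasurable (by fun_prop)) ?_
  rw [ae_restrict_iff' measurableSet_Ioi]
  refine Eventually.of_forall fun s hs => ?_
  have hs0 : 0 < s := hs
  rw [Real.norm_eq_abs, abs_of_pos (Real.exp_pos _)]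
  apply Real.exp_le_one_iff.2
  have h2 : s / T ≤ s / S := by gcongr
  rw [neg_div]
  linarith

theorem fl_loc (B : ℝ → ℝ) (S R : ℝ) (hS : 0 < S)
    (hi : IntegrableOn (fun s => Real.exp (-s / S) * B s) (Ioi 0)) :
    IntegrableOn B (Ioc 0 R) := by
  have h1 : B = fun s => Real.exp (s / S) * (Real.exp (-s / S) * B s) := by
    funext s
    rw [← mul_assoc, ← Real.exp_add, neg_div, add_neg_cancel, Real.exp_zero, one_mul]
  rw [h1]
  refine Integrable.bdd_mul (c := Real.exp (R / S)) (hi.mono_set Ioc_subset_Ioi_self)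
    (Continuous.aestronglyMeasurable (by fun_prop)) ?_
  rw [ae_restrict_iff' measurableSet_Ioc]
  refine Eventually.of_forall fun s hs => ?_
  rw [Real.norm_eq_abs, abs_of_pos (Real.exp_pos _)]
  apply Real.exp_le_exp.2
  have := hs.2
  gcongr

theorem exp_k (s T : ℝ) (k : ℕ) :
    Real.exp (-s / T) * Real.exp (-s / T) ^ k = Real.exp (-s / (T / (k + 1))) := by
  rw [← Real.exp_nat_mul, ← Real.exp_add]
  congr 1
  have : (k : ℝ) + 1 ≠ 0 := by positivity
  field_simp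
  ring

theorem fl_poly (B : ℝ → ℝ) (T : ℝ) (hT : 0 < T)
    (hi : IntegrableOn (fun s => Real.exp (-s / T) * B s) (Ioi 0)) (p : ℝ[X]) :
    IntegrableOn (fun s => Real.exp (-s / T) * p.eval (Real.exp (-s / T)) * B s) (Ioi 0) ∧
    ∫ s in Ioi (0 : ℝ), Real.exp (-s / T) * p.eval (Real.exp (-s / T)) * B s =
      ∑ k ∈ Finset.range (p.natDegree + 1), p.coeff k * FL B (T / (k + 1)) := by
  have h1 : ∀ s, Real.exp (-s / T) * p.eval (Real.exp (-s / T)) * B s =
      ∑ k ∈ Finset.range (p.natDegree + 1),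
        p.coeff k * (Real.exp (-s / (T / (k + 1))) * B s) := by
    intro s
    rw [Polynomial.eval_eq_sum_range, Finset.mul_sum, Finset.sum_mul]
    refine Finset.sum_congr rfl fun k _ => ?_
    rw [← exp_k]
    ring
  have h2 : ∀ k : ℕ, IntegrableOn (fun s => p.coeff k * (Real.exp (-s / (T / (k + 1))) * B s))
      (Ioi 0) := by
    intro k
    have hk : (0 : ℝ) < (k : ℝ) + 1 := by positivity
    refine (fl_int B T (T / (k + 1)) (by positivity) ?_ hi).const_mul _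
    apply div_le_self hT.le
    have : (0 : ℝ) ≤ k := Nat.cast_nonneg k
    linarith
  simp only [h1]
  refine ⟨integrable_finsetSum _ fun k _ => h2 k, ?_⟩
  rw [integral_finsetSum _ fun k _ => h2 k]
  refine Finset.sum_congr rfl fun k _ => ?_
  rw [integral_const_mul]
  rfl

theorem exp_mem (s T : ℝ) (hT : 0 < T) (hs : 0 < s) : Real.exp (-s / T) ∈ Icc (0 : ℝ) 1 := by
  refine ⟨(Real.exp_pos _).le, Real.exp_le_one_iff.2 ?_⟩
  rw [neg_div]
  have : 0 < s / T := by positivity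
  linarith

theorem fl_bdd (B : ℝ → ℝ) (T : ℝ) (hT : 0 < T)
    (hi : IntegrableOn (fun s => Real.exp (-s / T) * B s) (Ioi 0)) (g : ℝ → ℝ)
    (hg : Continuous g) (C : ℝ) (hb : ∀ y ∈ Icc (0 : ℝ) 1, |g y| ≤ C) :
    IntegrableOn (fun s => Real.exp (-s / T) * g (Real.exp (-s / T)) * B s) (Ioi 0) := by
  have h1 : (fun s => Real.exp (-s / T) * g (Real.exp (-s / T)) * B s) =
      fun s => g (Real.exp (-s / T)) * (Real.exp (-s / T) * B s) := by
    funext s
    ring
  rw [h1]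
  refine Integrable.bdd_mul (c := C) hi
    (Continuous.aestronglyMeasurable (hg.comp (by fun_prop))) ?_
  rw [ae_restrict_iff' measurableSet_Ioi]
  refine Eventually.of_forall fun s hs => ?_
  rw [Real.norm_eq_abs]
  exact hb _ (exp_mem s T hT hs)

theorem fl_approx (B : ℝ → ℝ) (hB : ∀ s, 0 ≤ B s) (T : ℝ) (hT : 0 < T)
    (hi : IntegrableOn (fun s => Real.exp (-s / T) * B s) (Ioi 0)) (g : ℝ → ℝ)
    (hg : Continuous g) (C : ℝ) (hb : ∀ y ∈ Icc (0 : ℝ) 1, |g y| ≤ C) (p : ℝ[X]) (ε : ℝ)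
    (hp : ∀ y ∈ Icc (0 : ℝ) 1, |p.eval y - g y| < ε) :
    |(∫ s in Ioi (0 : ℝ), Real.exp (-s / T) * g (Real.exp (-s / T)) * B s) -
      ∑ k ∈ Finset.range (p.natDegree + 1), p.coeff k * FL B (T / (k + 1))| ≤ ε * FL B T := by
  obtain ⟨i1, e1⟩ := fl_poly B T hT hi p
  have i2 := fl_bdd B T hT hi g hg C hb
  rw [← e1, ← integral_sub i2 i1]
  unfold FL
  rw [← integral_const_mul, ← Real.norm_eq_abs]
  refine norm_integral_le_of_norm_le (hi.const_mul ε) ?_
  rw [ae_restrict_iff' measurableSet_Ioi]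
  refine Eventually.of_forall fun s hs => ?_
  have h1 : Real.exp (-s / T) * g (Real.exp (-s / T)) * B s -
      Real.exp (-s / T) * p.eval (Real.exp (-s / T)) * B s =
      -((p.eval (Real.exp (-s / T)) - g (Real.exp (-s / T))) * (Real.exp (-s / T) * B s)) := by
    ring
  rw [h1, norm_neg, norm_mul, Real.norm_eq_abs, Real.norm_eq_abs]
  have h2 : 0 ≤ Real.exp (-s / T) * B s := mul_nonneg (Real.exp_pos _).le (hB s)
  rw [abs_of_nonneg h2]
  exact mul_le_mul_of_nonneg_right (hp _ (exp_mem s T hT hs)).le h2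

/-- the cut-off -/
noncomputable def hh (η r : ℝ) : ℝ := max 0 (min 1 ((1 + η - r) / η))

/-- the cut-off in the exponential variable -/
noncomputable def gg (η y : ℝ) : ℝ :=
  hh η (-Real.log (max y (Real.exp (-2)))) / max y (Real.exp (-2))

theorem hh_nonneg (η r : ℝ) : 0 ≤ hh η r := le_max_left _ _

theorem hh_le (η r : ℝ) : hh η r ≤ 1 := max_le zero_le_one (min_le_left _ _)

theorem hh_one (η r : ℝ) (hη : 0 < η) (hr : r ≤ 1) : hh η r = 1 := by
  unfold hh
  rw [min_eq_left, max_eq_right zero_le_one]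
  rw [one_le_div hη]
  linarith

theorem hh_zero (η r : ℝ) (hη : 0 < η) (hr : 1 + η ≤ r) : hh η r = 0 := by
  unfold hh
  apply max_eq_left
  refine (min_le_right _ _).trans ?_
  apply div_nonpos_of_nonpos_of_nonneg _ hη.le
  linarith

theorem hh_cont (η : ℝ) : Continuous (hh η) := by
  unfold hh
  fun_prop

theorem mx_pos (y : ℝ) : 0 < max y (Real.exp (-2)) := lt_max_of_lt_right (Real.exp_pos _)

theorem gg_cont (η : ℝ) : Continuous (gg η) := by
  unfold gg
  have h1 : Continuous fun y : ℝ => max y (Real.exp (-2)) := by fun_prop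
  refine Continuous.div ?_ h1 fun y => (mx_pos y).ne'
  exact (hh_cont η).comp (Continuous.neg (h1.log fun y => (mx_pos y).ne'))

theorem gg_bdd (η y : ℝ) : |gg η y| ≤ Real.exp 2 := by
  unfold gg
  rw [abs_div, abs_of_pos (mx_pos y), abs_of_nonneg (hh_nonneg _ _), div_le_iff₀ (mx_pos y)]
  have h1 : Real.exp 2 * Real.exp (-2) = 1 := by
    rw [← Real.exp_add]
    simp
  calc hh η _ ≤ 1 := hh_le _ _
    _ = Real.exp 2 * Real.exp (-2) := h1.symm
    _ ≤ Real.exp 2 * max y (Real.exp (-2)) := by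
        have := le_max_right y (Real.exp (-2))
        gcongr

theorem gg_eq (η r : ℝ) (hη : 0 < η) (hη1 : η ≤ 1) :
    Real.exp (-r) * gg η (Real.exp (-r)) = hh η r := by
  unfold gg
  rcases le_total r 2 with h | h
  · have h1 : max (Real.exp (-r)) (Real.exp (-2)) = Real.exp (-r) := by
      apply max_eq_left
      apply Real.exp_le_exp.2
      linarith
    rw [h1, Real.log_exp, neg_neg]
    field_simp
  · have h1 : max (Real.exp (-r)) (Real.exp (-2)) = Real.exp (-2) := by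
      apply max_eq_right
      apply Real.exp_le_exp.2
      linarith
    rw [h1, Real.log_exp, neg_neg, hh_zero η 2 hη (by linarith), hh_zero η r hη (by linarith)]
    simp

theorem gg_hh (B : ℝ → ℝ) (η S : ℝ) (hη : 0 < η) (hη1 : η ≤ 1) (s : ℝ) :
    Real.exp (-s / S) * gg η (Real.exp (-s / S)) * B s = hh η (s / S) * B s := by
  rw [neg_div, gg_eq η (s / S) hη hη1]

/-- the sandwich -/
theorem sand (B : ℝ → ℝ) (hB : ∀ s, 0 ≤ B s) (η S : ℝ) (hη : 0 < η) (hη1 : η ≤ 1) (hS : 0 < S)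
    (hi : IntegrableOn (fun s => Real.exp (-s / S) * B s) (Ioi 0)) :
    ∫ s in Ioc 0 S, B s ≤ ∫ s in Ioi (0 : ℝ), hh η (s / S) * B s ∧
    ∫ s in Ioi (0 : ℝ), hh η (s / S) * B s ≤ ∫ s in Ioc 0 ((1 + η) * S), B s := by
  have i1 : IntegrableOn (fun s => hh η (s / S) * B s) (Ioi 0) := by
    have h1 := fl_bdd B S hS hi (gg η) (gg_cont η) (Real.exp 2) fun y _ => gg_bdd η y
    simp only [gg_hh B η S hη hη1] at h1
    exact h1
  constructor
  · calc ∫ s in Ioc 0 S, B s = ∫ s in Ioc 0 S, hh η (s / S) * B s := by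
          refine setIntegral_congr_fun measurableSet_Ioc fun s hs => ?_
          have h1 : s / S ≤ 1 := by
            rw [div_le_one hS]
            exact hs.2
          rw [hh_one η _ hη h1, one_mul]
      _ ≤ _ := by
          refine setIntegral_mono_set i1 (Eventually.of_forall fun s => ?_)
            (Eventually.of_forall Ioc_subset_Ioi_self)
          exact mul_nonneg (hh_nonneg _ _) (hB s)
  · have h1 : ∫ s in Ioi (0 : ℝ), hh η (s / S) * B s =
        ∫ s in Ioc 0 ((1 + η) * S), hh η (s / S) * B s := by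
      refine setIntegral_eq_of_subset_of_forall_sdiff_eq_zero measurableSet_Ioi
        Ioc_subset_Ioi_self fun s hs => ?_
      have h2 : 1 + η ≤ s / S := by
        rw [le_div_iff₀ hS]
        by_contra hcon
        exact hs.2 ⟨hs.1, (not_le.1 hcon).le⟩
      rw [hh_zero η _ hη h2, zero_mul]
    rw [h1]
    refine setIntegral_mono_on (i1.mono_set Ioc_subset_Ioi_self) (fl_loc B S _ hS hi)
      measurableSet_Ioc fun s _ => ?_
    exact mul_le_of_le_one_left (hB s) (hh_le _ _)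

theorem id_int (T : ℝ) (hT : 0 < T) : IntegrableOn (fun s : ℝ => Real.exp (-s / T) * s) (Ioi 0) ∧
    FL (fun s => s) T = T ^ 2 := by
  have h1 := Real.integral_rpow_mul_exp_neg_mul_Ioi (a := 2) (r := 1 / T) (by norm_num)
    (by positivity)
  have h2 := integrableOn_rpow_mul_exp_neg_mul_rpow (s := 1) (p := 1) (b := 1 / T) (by norm_num)
    one_pos (by positivity)
  constructor
  · refine h2.congr_fun (fun s _ => ?_) measurableSet_Ioi
    simp only [Real.rpow_one]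
    rw [mul_comm]
    congr 2
    field_simp
  · unfold FL
    have h3 : ∫ s in Ioi (0 : ℝ), Real.exp (-s / T) * s =
        ∫ s in Ioi (0 : ℝ), s ^ ((2 : ℝ) - 1) * Real.exp (-(1 / T * s)) := by
      refine setIntegral_congr_fun measurableSet_Ioi fun s _ => ?_
      have e1 : (2 : ℝ) - 1 = 1 := by norm_num
      simp only [e1, Real.rpow_one]
      rw [mul_comm]
      congr 2
      field_simp
    rw [h3, h1]
    have h4 : Real.Gamma 2 = 1 := Real.Gamma_two
    rw [h4, one_div_one_div, mul_one]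
    norm_num

theorem J_bd (η : ℝ) (hη : 0 < η) (hη1 : η ≤ 1) :
    1 / 2 ≤ ∫ s in Ioi (0 : ℝ), hh η (s / 1) * max 0 s ∧
    ∫ s in Ioi (0 : ℝ), hh η (s / 1) * max 0 s ≤ (1 + η) ^ 2 / 2 := by
  have hi : IntegrableOn (fun s : ℝ => Real.exp (-s / 1) * max 0 s) (Ioi 0) := by
    refine (id_int 1 one_pos).1.congr_fun (fun s hs => ?_) measurableSet_Ioi
    have hs0 : (0 : ℝ) < s := hs
    simp only
    rw [max_eq_right hs0.le]
  obtain ⟨h1, h2⟩ := sand (fun s => max 0 s) (fun s => le_max_left _ _) η 1 hη hη1 one_pos hi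
  have h3 : ∀ R : ℝ, 0 ≤ R → ∫ s in Ioc 0 R, max 0 s = R ^ 2 / 2 := by
    intro R hR
    have h4 : ∫ s in Ioc 0 R, max 0 s = ∫ s in Ioc 0 R, s := by
      refine setIntegral_congr_fun measurableSet_Ioc fun s hs => ?_
      have hs0 : (0 : ℝ) < s := hs.1
      rw [max_eq_right hs0.le]
    rw [h4, ← intervalIntegral.integral_of_le hR, integral_id]
    ring
  rw [h3 1 zero_le_one] at h1
  rw [h3 _ (by linarith)] at h2
  constructor
  · linarith
  · refine h2.trans (le_of_eq ?_)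
    ring

theorem max_int (T : ℝ) (hT : 0 < T) :
    IntegrableOn (fun s : ℝ => Real.exp (-s / T) * max 0 s) (Ioi 0) ∧
    FL (fun s => max 0 s) T = T ^ 2 := by
  have h1 := id_int T hT
  constructor
  · refine h1.1.congr_fun (fun s hs => ?_) measurableSet_Ioi
    have hs0 : (0 : ℝ) < s := hs
    simp only
    rw [max_eq_right hs0.le]
  · rw [← h1.2]
    unfold FL
    refine setIntegral_congr_fun measurableSet_Ioi fun s hs => ?_
    have hs0 : (0 : ℝ) < s := hs
    simp only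
    rw [max_eq_right hs0.le]

theorem kar_core (η : ℝ) (hη : 0 < η) (hη1 : η ≤ 1) (p : ℝ[X]) (ε : ℝ) (hε : 0 < ε)
    (hp : ∀ y ∈ Icc (0 : ℝ) 1, |p.eval y - gg η y| < ε) (B : ℝ → ℝ) (hB : ∀ s, 0 ≤ B s)
    (c S δ : ℝ) (hc : 0 ≤ c) (hS : 0 < S) (hδ : 0 ≤ δ)
    (hi : IntegrableOn (fun s => Real.exp (-s / S) * B s) (Ioi 0))
    (hF : ∀ k ∈ Finset.range (p.natDegree + 1),
      |FL B (S / (k + 1)) - c * (S / (k + 1)) ^ 2| ≤ δ * c * (S / (k + 1)) ^ 2) :
    |(∫ s in Ioi (0 : ℝ), hh η (s / S) * B s) -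
      c * S ^ 2 * ∫ s in Ioi (0 : ℝ), hh η (s / 1) * max 0 s| ≤
      c * S ^ 2 * (ε * (2 + δ) + δ * ∑ k ∈ Finset.range (p.natDegree + 1), |p.coeff k|) := by
  have h1 := fl_approx B hB S hS hi (gg η) (gg_cont η) (Real.exp 2) (fun y _ => gg_bdd η y) p ε hp
  have h2 := fl_approx (fun s => max 0 s) (fun s => le_max_left _ _) 1 one_pos
    (max_int 1 one_pos).1 (gg η) (gg_cont η) (Real.exp 2) (fun y _ => gg_bdd η y) p ε hp
  have e1 : ∀ s, Real.exp (-s / S) * gg η (Real.exp (-s / S)) * B s = hh η (s / S) * B s :=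
    fun s => gg_hh B η S hη hη1 s
  have e2 : ∀ s : ℝ, Real.exp (-s / 1) * gg η (Real.exp (-s / 1)) * max 0 s =
      hh η (s / 1) * max 0 s := fun s => gg_hh (fun s => max 0 s) η 1 hη hη1 s
  simp only [e1] at h1
  simp only [e2] at h2
  obtain ⟨X, hX⟩ : ∃ X, X = ∫ s in Ioi (0 : ℝ), hh η (s / S) * B s := ⟨_, rfl⟩
  obtain ⟨J, hJ⟩ : ∃ J, J = ∫ s in Ioi (0 : ℝ), hh η (s / 1) * max 0 s := ⟨_, rfl⟩
  rw [← hX] at h1 ⊢
  rw [← hJ] at h2 ⊢
  have hk : ∀ k : ℕ, (0 : ℝ) < (k : ℝ) + 1 := fun k => by positivity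
  have h3 : ∀ k : ℕ, FL (fun s => max 0 s) (1 / ((k : ℝ) + 1)) = (1 / ((k : ℝ) + 1)) ^ 2 :=
    fun k => (max_int _ (by positivity)).2
  simp only [h3] at h2
  rw [(max_int 1 one_pos).2, one_pow, mul_one] at h2
  have h4 : FL B S ≤ (1 + δ) * (c * S ^ 2) := by
    have h5 := hF 0 (by simp)
    simp only [Nat.cast_zero, zero_add, div_one] at h5
    have := (abs_le.1 h5).2
    linarith
  obtain ⟨P, hP⟩ : ∃ P, P = ∑ k ∈ Finset.range (p.natDegree + 1), |p.coeff k| := ⟨_, rfl⟩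
  obtain ⟨A1, hA1⟩ : ∃ A, A = ∑ k ∈ Finset.range (p.natDegree + 1),
    p.coeff k * FL B (S / (k + 1)) := ⟨_, rfl⟩
  obtain ⟨A2, hA2⟩ : ∃ A, A = ∑ k ∈ Finset.range (p.natDegree + 1),
    p.coeff k * (1 / ((k : ℝ) + 1)) ^ 2 := ⟨_, rfl⟩
  rw [← hA1] at h1
  rw [← hA2] at h2
  rw [← hP]
  have hcS : 0 ≤ c * S ^ 2 := by positivity
  have h6 : |A1 - c * S ^ 2 * A2| ≤ c * S ^ 2 * (δ * P) := by
    rw [hA1, hA2, Finset.mul_sum, ← Finset.sum_sub_distrib, hP, Finset.mul_sum, Finset.mul_sum]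
    refine (Finset.abs_sum_le_sum_abs _ _).trans (Finset.sum_le_sum fun k hkr => ?_)
    have e3 : p.coeff k * FL B (S / (k + 1)) - c * S ^ 2 * (p.coeff k * (1 / ((k : ℝ) + 1)) ^ 2) =
        p.coeff k * (FL B (S / (k + 1)) - c * (S / (k + 1)) ^ 2) := by
      ring
    rw [e3, abs_mul]
    have h7 := hF k hkr
    have h8 : (S / ((k : ℝ) + 1)) ^ 2 ≤ S ^ 2 := by
      apply pow_le_pow_left₀ (by positivity)
      apply div_le_self hS.le
      have : (0 : ℝ) ≤ k := Nat.cast_nonneg k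
      linarith
    calc |p.coeff k| * |FL B (S / (k + 1)) - c * (S / (k + 1)) ^ 2| ≤
        |p.coeff k| * (δ * c * (S / (k + 1)) ^ 2) := by gcongr
      _ ≤ |p.coeff k| * (δ * c * S ^ 2) := by gcongr
      _ = _ := by ring
  have h9 : |c * S ^ 2 * A2 - c * S ^ 2 * J| ≤ c * S ^ 2 * ε := by
    rw [← mul_sub, abs_mul, abs_of_nonneg hcS, abs_sub_comm]
    gcongr
  have h10 := abs_sub_le X A1 (c * S ^ 2 * J)
  have h11 := abs_sub_le A1 (c * S ^ 2 * A2) (c * S ^ 2 * J)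
  have h12 : ε * FL B S ≤ ε * ((1 + δ) * (c * S ^ 2)) := by gcongr
  linarith

/-- **Karamata's theorem** in a quantitative form -/
theorem karamata (ε : ℝ) (hε : 0 < ε) : ∃ (N : ℕ) (δ : ℝ), 0 < N ∧ 0 < δ ∧
    ∀ (B : ℝ → ℝ), (∀ s, 0 ≤ B s) → ∀ (c T : ℝ), 0 ≤ c → 0 < T →
    IntegrableOn (fun s => Real.exp (-s / T) * B s) (Ioi 0) →
    (∀ T' : ℝ, T / N ≤ T' → T' ≤ T → |FL B T' - c * T' ^ 2| ≤ δ * c * T' ^ 2) →
    |(∫ s in Ioc 0 T, B s) - c * T ^ 2 / 2| ≤ ε * (c * T ^ 2) := by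
  obtain ⟨η, hη⟩ : ∃ η, η = min 1 (ε / 3) := ⟨_, rfl⟩
  have hη0 : 0 < η := by rw [hη]; exact lt_min one_pos (by positivity)
  have hη1 : η ≤ 1 := by rw [hη]; exact min_le_left _ _
  have hη3 : η ≤ ε / 3 := by rw [hη]; exact min_le_right _ _
  obtain ⟨p, hp⟩ := exists_polynomial_near_of_continuousOn 0 1 (gg η) (gg_cont η).continuousOn
    (ε / 12) (by positivity)
  obtain ⟨P, hP⟩ : ∃ P, P = ∑ k ∈ Finset.range (p.natDegree + 1), |p.coeff k| := ⟨_, rfl⟩
  have hP0 : 0 ≤ P := by rw [hP]; exact Finset.sum_nonneg fun k _ => abs_nonneg _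
  obtain ⟨δ, hδ⟩ : ∃ δ, δ = min 1 (ε / (4 * (P + 1))) := ⟨_, rfl⟩
  have hδ0 : 0 < δ := by rw [hδ]; exact lt_min one_pos (by positivity)
  have hδ1 : δ ≤ 1 := by rw [hδ]; exact min_le_left _ _
  have hδP : δ * P ≤ ε / 4 := by
    have h1 : δ ≤ ε / (4 * (P + 1)) := by rw [hδ]; exact min_le_right _ _
    calc δ * P ≤ ε / (4 * (P + 1)) * (P + 1) := by
          gcongr
          linarith
      _ = ε / 4 := by
          field_simp
  refine ⟨2 * (p.natDegree + 1), δ, by omega, hδ0, ?_⟩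
  intro B hB c T hc hT hi hF
  -- the estimate at a scale between `T / 2` and `T`
  have key : ∀ S : ℝ, T / 2 ≤ S → S ≤ T →
      |(∫ s in Ioi (0 : ℝ), hh η (s / S) * B s) -
        c * S ^ 2 * ∫ s in Ioi (0 : ℝ), hh η (s / 1) * max 0 s| ≤ c * S ^ 2 * (ε / 2) := by
    intro S hS1 hS2
    have hS0 : 0 < S := by linarith
    have hiS := fl_int B T S hS0 hS2 hi
    have h1 := kar_core η hη0 hη1 p (ε / 12) (by positivity) hp B hB c S δ hc hS0 hδ0.le hiS ?_
    · refine h1.trans ?_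
      rw [← hP]
      apply mul_le_mul_of_nonneg_left _ (by positivity)
      nlinarith
    · intro k hk
      have hk1 : (k : ℝ) + 1 ≤ p.natDegree + 1 := by
        have := Finset.mem_range.1 hk
        exact_mod_cast this
      have hk0 : (0 : ℝ) < (k : ℝ) + 1 := by positivity
      apply hF
      · push_cast
        calc T / (2 * ((p.natDegree : ℝ) + 1)) = (T / 2) / ((p.natDegree : ℝ) + 1) := by
              field_simp
          _ ≤ S / ((k : ℝ) + 1) := by gcongr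
      · refine (div_le_self hS0.le ?_).trans hS2
        have : (0 : ℝ) ≤ k := Nat.cast_nonneg k
        linarith
  obtain ⟨J, hJ⟩ : ∃ J, J = ∫ s in Ioi (0 : ℝ), hh η (s / 1) * max 0 s := ⟨_, rfl⟩
  obtain ⟨j1, j2⟩ := J_bd η hη0 hη1
  rw [← hJ] at key j1 j2
  have hcT : 0 ≤ c * T ^ 2 := by positivity
  rw [abs_le]
  constructor
  · -- the lower bound
    obtain ⟨S, hS⟩ : ∃ S, S = T / (1 + η) := ⟨_, rfl⟩
    have hη' : 0 < 1 + η := by linarith
    have hS0 : 0 < S := by rw [hS]; positivity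
    have hS1 : T / 2 ≤ S := by
      rw [hS]
      gcongr
      linarith
    have hS2 : S ≤ T := by
      rw [hS]
      apply div_le_self hT.le
      linarith
    have h1 := (abs_le.1 (key S hS1 hS2)).1
    have h2 := (sand B hB η S hη0 hη1 hS0 (fl_int B T S hS0 hS2 hi)).2
    have e1 : (1 + η) * S = T := by
      rw [hS]
      field_simp
    rw [e1] at h2
    have h3 : T ^ 2 * (1 - 2 * η) ≤ S ^ 2 := by
      rw [← e1]
      have h4 : (1 + η) ^ 2 * (1 - 2 * η) ≤ 1 := by nlinarith [mul_pos hη0 hη0]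
      calc ((1 + η) * S) ^ 2 * (1 - 2 * η) = S ^ 2 * ((1 + η) ^ 2 * (1 - 2 * η)) := by ring
        _ ≤ S ^ 2 * 1 := by gcongr
        _ = S ^ 2 := mul_one _
    have h5 : S ^ 2 ≤ T ^ 2 := pow_le_pow_left₀ hS0.le hS2 2
    have h6 : c * S ^ 2 * (ε / 2) ≤ c * T ^ 2 * (ε / 2) := by gcongr
    have h7 : c * S ^ 2 * (1 / 2) ≤ c * S ^ 2 * J := by gcongr
    have h8 : c * (T ^ 2 * (1 - 2 * η)) ≤ c * S ^ 2 := by gcongr
    have h9 : c * T ^ 2 * η ≤ c * T ^ 2 * (ε / 3) := by gcongr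
    have h10 : 0 ≤ c * T ^ 2 * ε := by positivity
    linarith
  · -- the upper bound
    have h1 := (abs_le.1 (key T (by linarith) le_rfl)).2
    have h2 := (sand B hB η T hη0 hη1 hT hi).1
    have h3 : c * T ^ 2 * J ≤ c * T ^ 2 * ((1 + η) ^ 2 / 2) := by gcongr
    have h4 : (1 + η) ^ 2 / 2 ≤ 1 / 2 + ε / 2 := by nlinarith
    have h5 : c * T ^ 2 * ((1 + η) ^ 2 / 2) ≤ c * T ^ 2 * (1 / 2 + ε / 2) := by gcongr
    linarith

end Pool.Agent.TH794.QD
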