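import Pool.Agent.TH794.QD.Dcon

/-! Interpolation between time scales. -/

set_option autoImplicit false
set_option linter.unusedSectionVars false

open scoped BigOperators Topology
open MeasureTheory Set Filter

namespace Pool.Agent.TH794.QD

open Pool.Agent.W788.BK
open Pool.Agent.TH794.LL2

theorem PfI_anti (hO : S_OSC) (d : ℕ) (hd : 3 ≤ d) (u u' : ℝ) (hu : 0 < u) (huu : u ≤ u') :
    PfI d u' ≤ PfI d u := by
  unfold PfI
  refine integral_mono (Pf_int hO d hd u' (hu.le.trans huu)) (Pf_int hO d hd u hu.le) fun E => ?_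
  have h := GF_im hO d hd (E : ℂ) (by simp)
  unfold Pf
  have h1 : 0 ≤ (GF (F0 d) (E : ℂ)).im := h.1.trans h.2
  exact div_le_div_of_nonneg_left h.1 (by linarith) (by linarith)

theorem PfI_scale (hO : S_OSC) (d : ℕ) (hd : 3 ≤ d) (u ρ : ℝ) (hu : 0 < u) (hρ : 1 ≤ ρ) :
    PfI d (u / ρ) ≤ ρ * PfI d u := by
  unfold PfI
  rw [← integral_const_mul]
  have hρ0 : 0 < ρ := by linarith
  refine integral_mono (Pf_int hO d hd (u / ρ) (by positivity))
    ((Pf_int hO d hd u hu.le).const_mul _) fun E => ?_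
  have h := GF_im hO d hd (E : ℂ) (by simp)
  have h1 : 0 ≤ (GF (F0 d) (E : ℂ)).im := h.1.trans h.2
  simp only
  unfold Pf
  obtain ⟨a, ha⟩ : ∃ a, a = (GF (F1 d) (E : ℂ)).im := ⟨_, rfl⟩
  obtain ⟨c, hc⟩ : ∃ c, c = (GF (F0 d) (E : ℂ)).im := ⟨_, rfl⟩
  rw [← ha, ← hc]
  have ha0 : 0 ≤ a := by rw [ha]; exact h.1
  have hc0 : 0 ≤ c := by rw [hc]; exact h1
  have hup : 0 < u / ρ := by positivity
  rw [mul_div_assoc', div_le_div_iff₀ (by linarith) (by linarith)]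
  have e1 : ρ * a * (u / ρ + c) = a * (u + ρ * c) := by
    field_simp
  rw [e1]
  have h2 : c ≤ ρ * c := le_mul_of_one_le_left hc0 hρ
  gcongr

theorem PfI_le (hO : S_OSC) (d : ℕ) (hd : 3 ≤ d) (u : ℝ) (hu : 0 ≤ u) : PfI d u ≤ 6 * d := by
  have hfm := Iv_fin d
  unfold PfI
  have h1 : ∫ E in Iv d, Pf d u E ≤ ∫ _E in Iv d, (1 : ℝ) :=
    integral_mono (Pf_int hO d hd u hu) (integrable_const _) fun E => Pf_le hO d hd u E hu
  rw [integral_const, Iv_real, smul_eq_mul, mul_one] at h1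
  exact h1

theorem PfI_nonneg (hO : S_OSC) (d : ℕ) (hd : 3 ≤ d) (u : ℝ) (hu : 0 ≤ u) : 0 ≤ PfI d u :=
  integral_nonneg fun E => Pf_nonneg hO d hd u E hu

/-- one step of the net -/
theorem net_step (D : ℝ → ℝ) (M e ρ c w A B T FA FB FT : ℝ) (hA : 0 < A) (hAT : A ≤ T)
    (hTB : T ≤ B) (hBA : B ≤ ρ * A) (hρ : 1 ≤ ρ) (hc : 0 ≤ c) (hw : 0 < w) (he : 0 ≤ e)
    (hanti : ∀ u u' : ℝ, 0 < u → u ≤ u' → D u' ≤ D u)
    (hscale : ∀ u : ℝ, 0 < u → D (u / ρ) ≤ ρ * D u) (hD0 : ∀ u : ℝ, 0 < u → 0 ≤ D u)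
    (hDM : ∀ u : ℝ, 0 < u → D u ≤ M) (hF1 : FA ≤ FT) (hF2 : FT ≤ FB)
    (h1 : |c / A ^ 2 * FA - D (w / A)| ≤ e) (h2 : |c / B ^ 2 * FB - D (w / B)| ≤ e) :
    |c / T ^ 2 * FT - D (w / T)| ≤ (ρ ^ 3 - 1) * M + ρ ^ 2 * e := by
  have hT : 0 < T := hA.trans_le hAT
  have hB : 0 < B := hT.trans_le hTB
  have hρ0 : 0 < ρ := by linarith
  have hBT : B ≤ ρ * T := hBA.trans (by gcongr)
  have hTA : T ≤ ρ * A := hTB.trans hBA
  obtain ⟨Q, hQ⟩ : ∃ Q, Q = D (w / T) := ⟨_, rfl⟩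
  have hQ0 : 0 ≤ Q := by rw [hQ]; exact hD0 _ (by positivity)
  have hQM : Q ≤ M := by rw [hQ]; exact hDM _ (by positivity)
  have hM0 : 0 ≤ M := hQ0.trans hQM
  rw [← hQ]
  have hρ3 : 1 ≤ ρ ^ 3 := one_le_pow₀ hρ
  have hρ2 : 1 ≤ ρ ^ 2 := one_le_pow₀ hρ
  -- the upper bound
  have hDB : D (w / B) ≤ ρ * Q := by
    have h3 : w / T / ρ ≤ w / B := by
      rw [div_div, div_le_div_iff₀ (by positivity) hB]
      have : B ≤ T * ρ := by linarith
      gcongr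
    rw [hQ]
    exact (hanti _ _ (by positivity) h3).trans (hscale _ (by positivity))
  have hDA : Q ≤ ρ * D (w / A) := by
    have h3 : w / A / ρ ≤ w / T := by
      rw [div_div, div_le_div_iff₀ (by positivity) hT]
      have : T ≤ A * ρ := by linarith
      gcongr
    rw [hQ]
    exact (hanti _ _ (by positivity) h3).trans (hscale _ (by positivity))
  have hup : c / T ^ 2 * FT ≤ ρ ^ 3 * Q + ρ ^ 2 * e := by
    have h3 := (abs_le.1 h2).2
    have h4 : c / B ^ 2 * FB ≤ ρ * Q + e := by linarith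
    have h5 : 0 ≤ ρ * Q + e := by positivity
    calc c / T ^ 2 * FT ≤ c / T ^ 2 * FB := by gcongr
      _ = (B / T) ^ 2 * (c / B ^ 2 * FB) := by
          field_simp
      _ ≤ (B / T) ^ 2 * (ρ * Q + e) := by gcongr
      _ ≤ ρ ^ 2 * (ρ * Q + e) := by
          have h6 : B / T ≤ ρ := by
            rw [div_le_iff₀ hT]
            exact hBT
          gcongr
      _ = _ := by ring
  have hlow : Q - (ρ ^ 3 - 1) * M - e ≤ c / T ^ 2 * FT := by
    have h3 := (abs_le.1 h1).1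
    have h4 : D (w / A) - e ≤ c / A ^ 2 * FA := by linarith
    have hr1 : A / T ≤ 1 := by
      rw [div_le_one hT]
      exact hAT
    have hr2 : 1 / ρ ≤ A / T := by
      rw [div_le_div_iff₀ hρ0 hT]
      linarith
    have hr0 : 0 ≤ A / T := by positivity
    have h5 : Q / ρ ^ 3 ≤ (A / T) ^ 2 * D (w / A) := by
      calc Q / ρ ^ 3 = (1 / ρ) ^ 2 * (Q / ρ) := by
            field_simp
        _ ≤ (A / T) ^ 2 * D (w / A) := by
            have h6 : Q / ρ ≤ D (w / A) := by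
              rw [div_le_iff₀ hρ0]
              linarith
            gcongr
    have h7 : Q - (ρ ^ 3 - 1) * M ≤ Q / ρ ^ 3 := by
      have h8 : Q - Q / ρ ^ 3 = Q / ρ ^ 3 * (ρ ^ 3 - 1) := by
        field_simp
      have h9 : Q / ρ ^ 3 ≤ M := (div_le_self hQ0 hρ3).trans hQM
      have h10 : Q / ρ ^ 3 * (ρ ^ 3 - 1) ≤ M * (ρ ^ 3 - 1) := by
        apply mul_le_mul_of_nonneg_right h9
        linarith
      linarith
    have h11 : (A / T) ^ 2 * e ≤ e := mul_le_of_le_one_left he (pow_le_one₀ hr0 hr1)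
    calc Q - (ρ ^ 3 - 1) * M - e ≤ (A / T) ^ 2 * D (w / A) - (A / T) ^ 2 * e := by linarith
      _ = (A / T) ^ 2 * (D (w / A) - e) := by ring
      _ ≤ (A / T) ^ 2 * (c / A ^ 2 * FA) := by gcongr
      _ = c / T ^ 2 * FA := by
          field_simp
      _ ≤ c / T ^ 2 * FT := by gcongr
  have h12 : (ρ ^ 3 - 1) * Q ≤ (ρ ^ 3 - 1) * M := by
    apply mul_le_mul_of_nonneg_left hQM
    linarith
  have h13 : e ≤ ρ ^ 2 * e := le_mul_of_one_le_left he hρ2
  rw [abs_le]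
  constructor
  · linarith
  · linarith

/-- monotonicity in the time scale -/
theorem F_mono (B : ℝ → ℝ) (hB : ∀ s, 0 ≤ B s) (T T' : ℝ) (hT : 0 < T) (hTT : T ≤ T')
    (hi : IntegrableOn (fun s => Real.exp (-s / T) * B s) (Ioi 0))
    (hi' : IntegrableOn (fun s => Real.exp (-s / T') * B s) (Ioi 0)) :
    ∫ s in Ioi (0 : ℝ), Real.exp (-s / T) * B s ≤ ∫ s in Ioi (0 : ℝ), Real.exp (-s / T') * B s := by
  refine setIntegral_mono_on hi hi' measurableSet_Ioi fun s hs => ?_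
  have hs0 : 0 < s := hs
  apply mul_le_mul_of_nonneg_right _ (hB s)
  apply Real.exp_le_exp.2
  rw [neg_div, neg_div, neg_le_neg_iff]
  gcongr

end Pool.Agent.TH794.QD
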