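import Pool.Agent.TH794.QD.Fin6
import Pool.Agent.TH794.QD.Net
import Pool.Agent.TH794.QD.Kar

/-! Quantum diffusion for all time scales simultaneously. -/

set_option autoImplicit false
set_option linter.unusedSectionVars false

open scoped BigOperators Topology
open MeasureTheory Filter Set

namespace Pool.Agent.TH794.QD

open Pool.Agent.W788.BK
open Pool.Agent.H4R2.LO (Zd)
open Pool.Agent.W788.BK.Num
open Pool.Agent.TH794.LL2

/-- the second moment -/
noncomputable def M2 {d : ℕ} (a : Zd d) (j : Fin d) (ψ : ℝ → Zd d → ℂ) (s : ℝ) : ℝ :=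
  ∑' x, ((x j : ℝ) - a j) ^ 2 * ‖ψ s x‖ ^ 2

theorem M2_nonneg {d : ℕ} (a : Zd d) (j : Fin d) (ψ : ℝ → Zd d → ℂ) (s : ℝ) : 0 ≤ M2 a j ψ s :=
  tsum_nonneg fun _ => mul_nonneg (sq_nonneg _) (sq_nonneg _)

/-- **quantum diffusion, all time scales** -/
theorem fin7 (hES : S_ES) (hTH : S_THIRD) (hFL : S_FLUCT) (hIN : S_INV)
    (hSU : S_SUP) (hQB : S_QB) (hLO : S_LOW) (hAD : S_ADM) (hFA : S_FAC) (hO : S_OSC)
    (d : ℕ) (hd : 3 ≤ d) (b v : ℝ) (hb : 0 < b) (hv : 0 < v) :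
    ∃ lam0 : ℝ, 0 < lam0 ∧ ∀ (μ : Measure ℝ), IsProbabilityMeasure μ →
      (∀ᵐ s ∂μ, |s| ≤ b) → ∀ M V : ℝ, ∫ s, s ∂μ = M → ∫ s, (s - M) ^ 2 ∂μ = V → v ≤ V →
      ∀ lam : ℝ, 0 < lam → lam ≤ lam0 →
      ∃ G : Set (Zd d → ℝ), MeasurableSet G ∧
        1 - Real.exp (-lam ^ (-(1 / 101) : ℝ)) ≤
          (Measure.infinitePi fun _ : Zd d => μ).real G ∧
        ∀ ω ∈ G, (∀ a : Zd d, ∃ ψ : ℝ → Zd d → ℂ, Sol d (fun x => 2 * d + lam * ω x) a ψ) ∧
          ∀ a : Zd d, ‖a‖ ≤ Real.exp (lam ^ (-(1 / 101) : ℝ)) →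
          ∀ ψ : ℝ → Zd d → ℂ, Sol d (fun x => 2 * d + lam * ω x) a ψ → ∀ j : Fin d,
            (∀ᵐ s ∂(volume.restrict (Ioi (0 : ℝ))),
              Summable fun x => ((x j : ℝ) - a j) ^ 2 * ‖ψ s x‖ ^ 2) ∧
            ∀ T : ℝ, 1 ≤ 2 * lam ^ 2 * V * T → T ≤ lam ^ (-(81 / 40) : ℝ) / 2 →
            IntegrableOn (fun s => Real.exp (-s / T) * M2 a j ψ s) (Ioi 0) ∧
            |lam ^ 2 * V / (2 * T ^ 2) * FL (M2 a j ψ) T -
                2 / Real.pi * PfI d (1 / (2 * lam ^ 2 * V * T))| ≤ lam ^ (1 / 400 : ℝ) := by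
  obtain ⟨lam1, hlam1, h6⟩ := fin6 hES hTH hFL hIN hSU hQB hLO hAD hFA hO d hd b v hb hv
  obtain ⟨y2, hy2⟩ := Filter.eventually_atTop.1
    ((ev2 4 (1 / 101) (1 / 100) 1 (by norm_num)).and
    ((ev2 ((2 * b) ^ 2) (1 / 40) (299 / 300) 0 (by norm_num)).and
    ((ev2 v⁻¹ (-(1 / 40)) 0 0 (by norm_num)).and
    (ev2 (28 * d + 4) (-(1 / 300)) (-(1 / 400)) 0 (by norm_num)))))
  obtain ⟨y1, hy1⟩ : ∃ y1, y1 = max y2 1 := ⟨_, rfl⟩
  refine ⟨min lam1 (Real.exp (-y1)), lt_min hlam1 (Real.exp_pos _), ?_⟩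
  intro μ hμ hμb M V hM hV hvV lam hlam hlam0
  have hl1 : lam ≤ lam1 := hlam0.trans (min_le_left _ _)
  have hl2 : lam ≤ Real.exp (-y1) := hlam0.trans (min_le_right _ _)
  obtain ⟨y, hy⟩ : ∃ y, y = Real.log (1 / lam) := ⟨_, rfl⟩
  have hloglam : Real.log lam = -y := by
    rw [hy, one_div, Real.log_inv, neg_neg]
  have hyy1 : y1 ≤ y := by
    have h1 := Real.log_le_log hlam hl2
    rw [Real.log_exp, hloglam] at h1
    linarith
  have hyy2 : y2 ≤ y := le_trans (by rw [hy1]; exact le_max_left _ _) hyy1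
  have hyone : 1 ≤ y := le_trans (by rw [hy1]; exact le_max_right _ _) hyy1
  obtain ⟨n1, n2, n3, n4⟩ := hy2 y hyy2
  simp only [pow_zero, mul_one, zero_mul, Real.exp_zero, pow_one] at n1 n2 n3 n4
  have hrp : ∀ p q : ℝ, q = -p → lam ^ p = Real.exp (q * y) := by
    intro p q hpq
    rw [Real.rpow_def_of_pos hlam, hloglam, hpq]
    congr 1
    ring
  have e1 : lam ^ (-(1 / 101) : ℝ) = Real.exp (1 / 101 * y) := hrp _ _ (by norm_num)
  have e1' : lam ^ (-(1 / 100) : ℝ) = Real.exp (1 / 100 * y) := hrp _ _ (by norm_num)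
  have e2 : lam ^ (-(81 / 40) : ℝ) = Real.exp (81 / 40 * y) := hrp _ _ (by norm_num)
  have e3 : lam ^ (1 / 300 : ℝ) = Real.exp (-(1 / 300) * y) := hrp _ _ (by norm_num)
  have e4 : lam ^ (1 / 400 : ℝ) = Real.exp (-(1 / 400) * y) := hrp _ _ (by norm_num)
  have e6 : lam = Real.exp (-1 * y) := by
    rw [neg_one_mul, ← hloglam, Real.exp_log hlam]
  have e7 : lam ^ 2 = Real.exp (-2 * y) := by
    rw [e6, ex_pow]
    norm_num
  have hV0 : 0 < V := hv.trans_le hvV
  have hVb : V ≤ (2 * b) ^ 2 := by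
    have hM0b : |M| ≤ b := by
      rw [← hM, ← Real.norm_eq_abs]
      have h1 := norm_integral_le_of_norm_le_const (μ := μ) (f := fun s : ℝ => s) (C := b) (by
        filter_upwards [hμb] with s hs
        rw [Real.norm_eq_abs]
        exact hs)
      rw [probReal_univ, mul_one] at h1
      exact h1
    rw [← hV]
    have h1 : ∫ s, (s - M) ^ 2 ∂μ ≤ ∫ _s, (2 * b) ^ 2 ∂μ := by
      apply integral_mono_of_nonneg (Filter.Eventually.of_forall fun s => sq_nonneg _)
        (integrable_const _)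
      filter_upwards [hμb] with s hs
      rw [← sq_abs (s - M)]
      refine pow_le_pow_left₀ (abs_nonneg _) ?_ 2
      have h1 := abs_sub s M
      linarith
    rw [integral_const, probReal_univ, one_smul] at h1
    exact h1
  -- the scales
  obtain ⟨T0, hT0⟩ : ∃ T0, T0 = 1 / (2 * lam ^ 2 * V) := ⟨_, rfl⟩
  obtain ⟨T1, hT1⟩ : ∃ T1, T1 = lam ^ (-(81 / 40) : ℝ) / 2 := ⟨_, rfl⟩
  have hT00 : 0 < T0 := by rw [hT0]; positivity
  have hT10 : 0 < T1 := by rw [hT1]; positivity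
  have hT0i : ∀ T : ℝ, T0 ≤ T ↔ 1 ≤ 2 * lam ^ 2 * V * T := by
    intro T
    rw [hT0, div_le_iff₀ (by positivity), mul_comm T]
  have hratio : T1 / T0 = V * Real.exp (1 / 40 * y) := by
    rw [hT1, hT0, e2, e7]
    have h1 : Real.exp (1 / 40 * y) = Real.exp (-2 * y) * Real.exp (81 / 40 * y) := by
      rw [ex_mul]
      norm_num
    rw [h1]
    field_simp
  have hT01 : T0 ≤ T1 := by
    have h1 : 1 ≤ T1 / T0 := by
      rw [hratio]
      have h2 : Real.exp (-(1 / 40) * y) * Real.exp (1 / 40 * y) = 1 := by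
        rw [ex_mul]
        norm_num
      have h3 : v⁻¹ * (Real.exp (-(1 / 40) * y) * Real.exp (1 / 40 * y)) ≤
          Real.exp (1 / 40 * y) := by
        have := mul_le_mul_of_nonneg_right n3 (Real.exp_pos (1 / 40 * y)).le
        linarith
      rw [h2, mul_one, inv_le_iff_one_le_mul₀ hv] at h3
      calc (1 : ℝ) ≤ Real.exp (1 / 40 * y) * v := h3
        _ ≤ V * Real.exp (1 / 40 * y) := by
            rw [mul_comm]
            gcongr
    rwa [one_le_div hT00] at h1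
  obtain ⟨x, hx⟩ : ∃ x, x = Real.exp (-(1 / 300) * y) := ⟨_, rfl⟩
  have hx0 : 0 < x := by rw [hx]; positivity
  have hx1 : x ≤ 1 := by
    rw [hx]
    exact Real.exp_le_one_iff.2 (by linarith)
  obtain ⟨ρ, hρ⟩ : ∃ ρ, ρ = 1 + x := ⟨_, rfl⟩
  have hρ1 : 1 < ρ := by linarith
  have hρ0 : 0 < ρ := by linarith
  obtain ⟨Tk, hTk⟩ : ∃ Tk : ℕ → ℝ, Tk = fun k => min (T0 * ρ ^ k) T1 := ⟨_, rfl⟩
  have hTkk : ∀ k, Tk k = min (T0 * ρ ^ k) T1 := fun k => by rw [hTk]
  have hTkl : ∀ k, T0 ≤ Tk k := by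
    intro k
    rw [hTkk]
    refine le_min ?_ hT01
    exact le_mul_of_one_le_right hT00.le (one_le_pow₀ hρ1.le)
  have hTku : ∀ k, Tk k ≤ T1 := by
    intro k
    rw [hTkk]
    exact min_le_right _ _
  obtain ⟨K, hK⟩ : ∃ K : ℕ, K = ⌈Real.exp y⌉₊ := ⟨_, rfl⟩
  have hK1 : Real.exp y ≤ K := by
    rw [hK]
    exact Nat.le_ceil _
  have hK2 : (K : ℝ) + 1 ≤ Real.exp (y + 2) := by
    have h1 := Nat.ceil_lt_add_one (Real.exp_pos y).le
    rw [← hK] at h1
    have h2 : (1 : ℝ) ≤ Real.exp y := Real.one_le_exp (by linarith)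
    have h3 := Real.add_one_le_exp (2 : ℝ)
    rw [Real.exp_add]
    have h4 : Real.exp y * 3 ≤ Real.exp y * Real.exp 2 := by
      apply mul_le_mul_of_nonneg_left _ (Real.exp_pos y).le
      linarith only [h3]
    linarith only [h1, h2, h4]
  have hρK : T1 / T0 < ρ ^ K := by
    have h1 := one_add_mul_le_pow (a := x) (by linarith) K
    have h2 : Real.exp (299 / 300 * y) ≤ K * x := by
      calc Real.exp (299 / 300 * y) = Real.exp (1 * y) * Real.exp (-(1 / 300) * y) := by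
            rw [ex_mul]
            norm_num
        _ ≤ K * x := by
            rw [hx, one_mul]
            gcongr
    rw [hρ]
    calc T1 / T0 = V * Real.exp (1 / 40 * y) := hratio
      _ ≤ (2 * b) ^ 2 * Real.exp (1 / 40 * y) := by gcongr
      _ ≤ Real.exp (299 / 300 * y) := n2
      _ < 1 + K * x := by linarith
      _ ≤ _ := h1
  -- the events
  choose Gk hGm hGP hGL using fun k : ℕ => h6 μ hμ hμb M V hM hV hvV lam hlam hl1 (Tk k)
    (hT00.trans_le (hTkl k)) ((hT0i _).1 (hTkl k)) (by rw [← hT1]; exact hTku k)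
  have hm : MeasurableSet (⋂ k ∈ Finset.range (K + 1), Gk k) :=
    Finset.measurableSet_biInter _ fun k _ => hGm k
  refine ⟨⋂ k ∈ Finset.range (K + 1), Gk k, hm, ?_, ?_⟩
  · have h2 := probReal_add_probReal_compl (μ := Measure.infinitePi fun _ : Zd d => μ) hm
    have h3 : (Measure.infinitePi fun _ : Zd d => μ).real
        (⋂ k ∈ Finset.range (K + 1), Gk k)ᶜ ≤ Real.exp (-lam ^ (-(1 / 101) : ℝ)) := by
      have e8 : (⋂ k ∈ Finset.range (K + 1), Gk k)ᶜ = ⋃ k ∈ Finset.range (K + 1), (Gk k)ᶜ := by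
        simp only [Set.compl_iInter]
      rw [e8]
      have h4 : ∀ k, (Measure.infinitePi fun _ : Zd d => μ).real (Gk k)ᶜ ≤
          Real.exp (-Real.exp (1 / 100 * y)) := by
        intro k
        have h5 := probReal_add_probReal_compl (μ := Measure.infinitePi fun _ : Zd d => μ) (hGm k)
        have h6' := hGP k
        rw [e1'] at h6'
        linarith
      refine (measureReal_biUnion_finset_le _ _).trans
        ((Finset.sum_le_sum fun k _ => h4 k).trans ?_)
      rw [Finset.sum_const, Finset.card_range, nsmul_eq_mul, e1]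
      push_cast
      have h7 : y + 2 + Real.exp (1 / 101 * y) ≤ Real.exp (1 / 100 * y) := by
        have h8 : (1 : ℝ) ≤ Real.exp (1 / 101 * y) := Real.one_le_exp (by linarith)
        have h9 : y * 1 ≤ y * Real.exp (1 / 101 * y) := by gcongr
        have h10 : 1 * Real.exp (1 / 101 * y) ≤ y * Real.exp (1 / 101 * y) := by gcongr
        have h11 : 1 ≤ y * Real.exp (1 / 101 * y) := by linarith
        have h12 : 4 * y * Real.exp (1 / 101 * y) = 4 * (y * Real.exp (1 / 101 * y)) := by ring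
        linarith
      calc ((K : ℝ) + 1) * Real.exp (-Real.exp (1 / 100 * y)) ≤
          Real.exp (y + 2) * Real.exp (-Real.exp (1 / 100 * y)) := by gcongr
        _ = Real.exp (y + 2 - Real.exp (1 / 100 * y)) := by
            rw [← Real.exp_add]
            congr 1
        _ ≤ Real.exp (-Real.exp (1 / 101 * y)) := by
            apply Real.exp_le_exp.2
            linarith
    linarith
  · intro ω hω
    have hωk : ∀ k, k ≤ K → ω ∈ Gk k := fun k hk =>
      Set.mem_iInter₂.1 hω k (Finset.mem_range.2 (by omega))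
    refine ⟨(hGL 0 ω (hωk 0 (by omega))).1, fun a ha ψ hψ j => ?_⟩
    have ha' : ‖a‖ ≤ Real.exp (lam ^ (-(1 / 100) : ℝ)) := by
      refine ha.trans (Real.exp_le_exp.2 ?_)
      rw [e1, e1']
      apply Real.exp_le_exp.2
      linarith
    have hk : ∀ k, k ≤ K → IntegrableOn (fun s => Real.exp (-s / Tk k) * M2 a j ψ s) (Ioi 0) ∧
        |lam ^ 2 * V / 2 / Tk k ^ 2 * FL (M2 a j ψ) (Tk k) -
          2 / Real.pi * PfI d (1 / (2 * lam ^ 2 * V) / Tk k)| ≤ x := by
      intro k hkK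
      obtain ⟨q1, -, q3⟩ := (hGL k ω (hωk k hkK)).2 a ha' ψ hψ j
      refine ⟨q1, ?_⟩
      rw [e3, ← hx] at q3
      have e9 : lam ^ 2 * V / 2 / Tk k ^ 2 = lam ^ 2 * V / (2 * Tk k ^ 2) := by
        rw [div_div]
      have e10 : 1 / (2 * lam ^ 2 * V) / Tk k = 1 / (2 * lam ^ 2 * V * Tk k) := by
        rw [div_div]
      rw [e9, e10]
      exact q3
    refine ⟨((hGL 0 ω (hωk 0 (by omega))).2 a ha' ψ hψ j).2.1, fun T hTl hTu => ?_⟩
    have hTT0 : T0 ≤ T := (hT0i T).2 hTl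
    have hTT1 : T ≤ T1 := by rw [hT1]; exact hTu
    have hTp : 0 < T := hT00.trans_le hTT0
    obtain ⟨n, hn1, hn2⟩ := exists_nat_pow_near (x := T / T0) (y := ρ)
      (by rwa [one_le_div hT00]) hρ1
    rw [le_div_iff₀ hT00] at hn1
    rw [div_lt_iff₀ hT00] at hn2
    have hnK : n < K := by
      have h1 : ρ ^ n < ρ ^ K := by
        refine lt_of_le_of_lt ?_ hρK
        rw [le_div_iff₀ hT00]
        exact hn1.trans hTT1
      exact (pow_lt_pow_iff_right₀ hρ1).1 h1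
    obtain ⟨iA, bA⟩ := hk n hnK.le
    obtain ⟨iB, bB⟩ := hk (n + 1) (by omega)
    have hAT : Tk n ≤ T := by
      rw [hTkk]
      refine (min_le_left _ _).trans ?_
      linarith
    have hTB : T ≤ Tk (n + 1) := by
      rw [hTkk]
      refine le_min ?_ hTT1
      linarith
    have hA0 : 0 < Tk n := hT00.trans_le (hTkl n)
    have hBA : Tk (n + 1) ≤ ρ * Tk n := by
      rw [hTkk, hTkk, mul_min_of_nonneg _ _ hρ0.le]
      refine min_le_min ?_ ?_
      · rw [pow_succ]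
        apply le_of_eq
        ring
      · exact le_mul_of_one_le_left hT10.le hρ1.le
    have iT := fl_int (M2 a j ψ) (Tk (n + 1)) T hTp hTB iB
    refine ⟨iT, ?_⟩
    have hπ := Real.pi_pos
    have hπ3 := Real.pi_gt_three
    have h2π : 0 ≤ 2 / Real.pi := by positivity
    have hstep := net_step (fun u => 2 / Real.pi * PfI d u) (4 * d) x ρ (lam ^ 2 * V / 2)
      (1 / (2 * lam ^ 2 * V)) (Tk n) (Tk (n + 1)) T (FL (M2 a j ψ) (Tk n))
      (FL (M2 a j ψ) (Tk (n + 1))) (FL (M2 a j ψ) T) hA0 hAT hTB hBA hρ1.le (by positivity)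
      (by positivity) hx0.le
      (fun u u' hu huu => by
        have := PfI_anti hO d hd u u' hu huu
        gcongr)
      (fun u hu => by
        have := PfI_scale hO d hd u ρ hu hρ1.le
        calc 2 / Real.pi * PfI d (u / ρ) ≤ 2 / Real.pi * (ρ * PfI d u) := by gcongr
          _ = _ := by ring)
      (fun u hu => mul_nonneg h2π (PfI_nonneg hO d hd u hu.le))
      (fun u hu => by
        have h1 := PfI_le hO d hd u hu.le
        have h2 : 2 / Real.pi ≤ 2 / 3 := by gcongr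
        calc 2 / Real.pi * PfI d u ≤ 2 / 3 * (6 * d) := by
              have := PfI_nonneg hO d hd u hu.le
              gcongr
          _ = 4 * d := by ring)
      (F_mono (M2 a j ψ) (M2_nonneg a j ψ) (Tk n) T hA0 hAT iA iT)
      (F_mono (M2 a j ψ) (M2_nonneg a j ψ) T (Tk (n + 1)) hTp hTB iT iB) bA bB
    have e9 : lam ^ 2 * V / 2 / T ^ 2 = lam ^ 2 * V / (2 * T ^ 2) := by
      rw [div_div]
    have e10 : 1 / (2 * lam ^ 2 * V) / T = 1 / (2 * lam ^ 2 * V * T) := by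
      rw [div_div]
    rw [e9, e10] at hstep
    refine hstep.trans ?_
    rw [e4]
    refine le_trans ?_ n4
    rw [← hx, hρ]
    have hxx : x ^ 2 ≤ x := by
      rw [sq]
      exact mul_le_of_le_one_left hx0.le hx1
    have hxxx : x ^ 3 ≤ x := by
      calc x ^ 3 = x ^ 2 * x := by ring
        _ ≤ x * 1 := by gcongr
        _ = x := mul_one x
    have h1 : (1 + x) ^ 3 - 1 ≤ 7 * x := by
      have : (1 + x) ^ 3 - 1 = 3 * x + 3 * x ^ 2 + x ^ 3 := by ring
      linarith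
    have h2 : (1 + x) ^ 2 ≤ 4 := by
      calc (1 + x) ^ 2 ≤ 2 ^ 2 := by
            apply pow_le_pow_left₀
            · linarith only [hx0]
            · linarith only [hx1]
        _ = 4 := by norm_num
    calc ((1 + x) ^ 3 - 1) * (4 * d) + (1 + x) ^ 2 * x ≤ 7 * x * (4 * d) + 4 * x := by gcongr
      _ = _ := by ring

end Pool.Agent.TH794.QD
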