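import Pool.Agent.TH794.QD.Dcon
import Pool.Agent.TH794.QD.Net
import Pool.Agent.TH794.QD.Kar

/-! The sharp time average. -/

set_option autoImplicit false
set_option linter.unusedSectionVars false

open scoped BigOperators Topology
open MeasureTheory Filter Set

namespace Pool.Agent.TH794.QD

open Pool.Agent.W788.BK
open Pool.Agent.TH794.LL2

/-- smallness of `λ` from the size of the range of time scales -/
theorem small_lam (lam κ X : ℝ) (hlam : 0 < lam) (hκ : 0 < κ)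
    (hX : (κ ^ 10)⁻¹ / 2 ≤ X) (h : X ≤ lam ^ 2 * (lam ^ (-(81 / 40) : ℝ) / 2)) :
    lam ^ (1 / 400 : ℝ) ≤ κ := by
  obtain ⟨r, hr⟩ : ∃ r, r = lam ^ (1 / 400 : ℝ) := ⟨_, rfl⟩
  have hr0 : 0 < r := by rw [hr]; positivity
  have h1 : lam ^ 2 * (lam ^ (-(81 / 40) : ℝ) / 2) = (r ^ 10)⁻¹ / 2 := by
    have h2 : r ^ 10 = lam ^ (1 / 40 : ℝ) := by
      rw [hr, ← Real.rpow_natCast, ← Real.rpow_mul hlam.le]
      norm_num
    have h3 : lam ^ 2 * lam ^ (-(81 / 40) : ℝ) = (lam ^ (1 / 40 : ℝ))⁻¹ := by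
      rw [← Real.rpow_natCast, ← Real.rpow_add hlam, ← Real.rpow_neg hlam.le]
      norm_num
    rw [h2, ← h3]
    ring
  have h4 : (κ ^ 10)⁻¹ ≤ (r ^ 10)⁻¹ := by
    have := (hX.trans h).trans (le_of_eq h1)
    linarith
  have h5 : r ^ 10 ≤ κ ^ 10 := (inv_le_inv₀ (by positivity) (by positivity)).1 h4
  rw [← hr]
  exact (pow_le_pow_iff_left₀ hr0.le hκ.le (by norm_num)).1 h5

theorem kar_use (hO : S_OSC) (d : ℕ) (hd : 3 ≤ d) (v : ℝ) (hv : 0 < v) (ε : ℝ) (hε : 0 < ε) :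
    ∃ K : ℝ, 0 < K ∧ ∀ (lam V : ℝ), 0 < lam → v ≤ V → ∀ B : ℝ → ℝ, (∀ s, 0 ≤ B s) →
      (∀ T : ℝ, 1 ≤ 2 * lam ^ 2 * V * T → T ≤ lam ^ (-(81 / 40) : ℝ) / 2 →
        IntegrableOn (fun s => Real.exp (-s / T) * B s) (Ioi 0) ∧
        |lam ^ 2 * V / (2 * T ^ 2) * FL B T -
          2 / Real.pi * PfI d (1 / (2 * lam ^ 2 * V * T))| ≤ lam ^ (1 / 400 : ℝ)) →
      ∀ T : ℝ, K ≤ lam ^ 2 * T → T ≤ lam ^ (-(81 / 40) : ℝ) / 2 →
        IntegrableOn B (Ioc 0 T) ∧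
        |lam ^ 2 * V / T ^ 2 * (∫ s in Ioc 0 T, B s) - 2 / Real.pi * PfI d 0| ≤ ε := by
  have hπ := Real.pi_pos
  obtain ⟨D0, hD0⟩ : ∃ D0, D0 = 2 / Real.pi * PfI d 0 := ⟨_, rfl⟩
  have hD00 : 0 < D0 := by
    rw [hD0]
    have := PfI_pos hO d hd
    positivity
  obtain ⟨N, δ, hN, hδ, hkar⟩ := karamata (ε / (2 * D0)) (by positivity)
  have hN1 : (1 : ℝ) ≤ N := by exact_mod_cast hN
  have hN0 : (0 : ℝ) < N := by linarith
  obtain ⟨κ, hκ⟩ : ∃ κ, κ = δ / 2 * D0 := ⟨_, rfl⟩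
  have hκ0 : 0 < κ := by rw [hκ]; positivity
  obtain ⟨u1, hu1, hu2⟩ := PfI_lim hO d hd (Real.pi / 2 * κ) (by positivity)
  obtain ⟨m, hm⟩ : ∃ m, m = min 1 u1 := ⟨_, rfl⟩
  have hm0 : 0 < m := by rw [hm]; exact lt_min one_pos hu1
  have hm1 : m ≤ 1 := by rw [hm]; exact min_le_left _ _
  have hmu : m ≤ u1 := by rw [hm]; exact min_le_right _ _
  refine ⟨max (N / (2 * v * m)) ((κ ^ 10)⁻¹ / 2), lt_max_of_lt_left (by positivity), ?_⟩
  intro lam V hlam hvV B hB hT T hKT hTu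
  have hV0 : 0 < V := hv.trans_le hvV
  have hK1 : N / (2 * v * m) ≤ lam ^ 2 * T := (le_max_left _ _).trans hKT
  have hK2 : (κ ^ 10)⁻¹ / 2 ≤ lam ^ 2 * T := (le_max_right _ _).trans hKT
  have hlT : 0 < lam ^ 2 * T := lt_of_lt_of_le (by positivity) hK1
  have hT0 : 0 < T := by
    by_contra hcon
    have h1 : lam ^ 2 * T ≤ 0 := mul_nonpos_of_nonneg_of_nonpos (by positivity) (not_lt.1 hcon)
    linarith
  have hsm : lam ^ (1 / 400 : ℝ) ≤ κ := by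
    refine small_lam lam κ (lam ^ 2 * T) hlam hκ0 hK2 ?_
    gcongr
  -- all scales between `T / N` and `T`
  have hsc : ∀ T' : ℝ, T / N ≤ T' → T' ≤ T → 0 < T' ∧ 1 ≤ 2 * lam ^ 2 * V * T' ∧
      1 / (2 * lam ^ 2 * V * T') ≤ u1 := by
    intro T' h1 h2
    have hT'0 : 0 < T' := lt_of_lt_of_le (by positivity) h1
    have h3 : 1 / m ≤ 2 * lam ^ 2 * V * T' := by
      rw [div_le_iff₀ (by positivity)] at hK1
      rw [div_le_iff₀ hm0]
      rw [div_le_iff₀ hN0] at h1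
      have h4 : (N : ℝ) ≤ 2 * lam ^ 2 * V * T' * m * N := by
        calc (N : ℝ) ≤ lam ^ 2 * T * (2 * v * m) := hK1
          _ ≤ lam ^ 2 * (T' * N) * (2 * V * m) := by gcongr
          _ = _ := by ring
      have h5 : 1 * (N : ℝ) ≤ 2 * lam ^ 2 * V * T' * m * N := by rw [one_mul]; exact h4
      exact le_of_mul_le_mul_right h5 hN0
    have h4 : 1 ≤ 1 / m := by
      rw [le_div_iff₀ hm0, one_mul]
      exact hm1
    refine ⟨hT'0, h4.trans h3, ?_⟩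
    rw [div_le_iff₀ (by positivity)]
    have h5 : 1 / m * m ≤ 2 * lam ^ 2 * V * T' * m := by gcongr
    rw [one_div_mul_cancel hm0.ne'] at h5
    calc (1 : ℝ) ≤ 2 * lam ^ 2 * V * T' * m := h5
      _ ≤ 2 * lam ^ 2 * V * T' * u1 := by gcongr
      _ = _ := by ring
  have hTN : T / N ≤ T := div_le_self hT0.le hN1
  obtain ⟨-, hs1, -⟩ := hsc T hTN le_rfl
  obtain ⟨iT, -⟩ := hT T hs1 hTu
  refine ⟨fl_loc B T T hT0 iT, ?_⟩
  obtain ⟨c, hc⟩ : ∃ c, c = 2 * D0 / (lam ^ 2 * V) := ⟨_, rfl⟩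
  have hc0 : 0 < c := by rw [hc]; positivity
  have hmain := hkar B hB c T hc0.le hT0 iT (fun T' h1 h2 => by
    obtain ⟨hT'0, hs, hu⟩ := hsc T' h1 h2
    obtain ⟨-, hb⟩ := hT T' hs (h2.trans hTu)
    have h3 := hu2 (1 / (2 * lam ^ 2 * V * T')) (by positivity) hu
    have h4 : |2 / Real.pi * PfI d (1 / (2 * lam ^ 2 * V * T')) - D0| ≤ κ := by
      rw [hD0, ← mul_sub, abs_mul, abs_of_pos (by positivity : 0 < 2 / Real.pi)]
      calc 2 / Real.pi * |PfI d (1 / (2 * lam ^ 2 * V * T')) - PfI d 0| ≤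
          2 / Real.pi * (Real.pi / 2 * κ) := by gcongr
        _ = κ := by field_simp
    obtain ⟨Φ, hΦ⟩ : ∃ Φ, Φ = lam ^ 2 * V / (2 * T' ^ 2) * FL B T' := ⟨_, rfl⟩
    rw [← hΦ] at hb
    have h5 : |Φ - D0| ≤ δ * D0 := by
      have h6 := abs_sub_le Φ (2 / Real.pi * PfI d (1 / (2 * lam ^ 2 * V * T'))) D0
      have h7 : δ * D0 = κ + κ := by
        rw [hκ]
        ring
      linarith
    have e1 : FL B T' = 2 * T' ^ 2 / (lam ^ 2 * V) * Φ := by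
      rw [hΦ]
      field_simp
    have e2 : c * T' ^ 2 = 2 * T' ^ 2 / (lam ^ 2 * V) * D0 := by
      rw [hc]
      ring
    have e3 : δ * c * T' ^ 2 = 2 * T' ^ 2 / (lam ^ 2 * V) * (δ * D0) := by
      rw [hc]
      ring
    rw [e1, e2, e3, ← mul_sub, abs_mul, abs_of_pos (by positivity :
      0 < 2 * T' ^ 2 / (lam ^ 2 * V))]
    gcongr)
  have e4 : lam ^ 2 * V / T ^ 2 * (∫ s in Ioc 0 T, B s) - 2 / Real.pi * PfI d 0 =
      lam ^ 2 * V / T ^ 2 * ((∫ s in Ioc 0 T, B s) - c * T ^ 2 / 2) := by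
    rw [← hD0, hc]
    field_simp
  rw [e4, abs_mul, abs_of_pos (by positivity : 0 < lam ^ 2 * V / T ^ 2)]
  calc lam ^ 2 * V / T ^ 2 * |(∫ s in Ioc 0 T, B s) - c * T ^ 2 / 2| ≤
      lam ^ 2 * V / T ^ 2 * (ε / (2 * D0) * (c * T ^ 2)) := by gcongr
    _ = ε := by
        rw [hc]
        field_simp

end Pool.Agent.TH794.QD
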