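import Pool.Agent.TH794.QD.Prof

/-! The diffusion constant. -/

set_option autoImplicit false
set_option linter.unusedSectionVars false

open scoped BigOperators Topology
open MeasureTheory Set Filter

namespace Pool.Agent.TH794.QD

open Pool.Agent.W788.BK
open Pool.Agent.TH794.LL2
open Pool.Agent.W788.MFP.Four (T e NN adj K ft Op q NN_pos e_zero)

/-- continuity from a Hölder bound -/
theorem cont_of_hol (F : ℝ → ℂ) (C : ℝ) (h : ∀ z z' : ℂ, 0 ≤ z.im → 0 ≤ z'.im →
    ‖GF F z - GF F z'‖ ≤ C * ‖z - z'‖ ^ (1 / 8 : ℝ)) (τ : ℝ) (hτ : 0 ≤ τ) :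
    Continuous fun E : ℝ => GF F ((E : ℂ) + (τ : ℂ) * Complex.I) := by
  rw [continuous_iff_continuousAt]
  intro E0
  unfold ContinuousAt
  rw [tendsto_iff_norm_sub_tendsto_zero]
  have hc : Continuous fun E : ℝ => C * |E - E0| ^ (1 / 8 : ℝ) := by
    refine continuous_const.mul (Continuous.rpow_const (by fun_prop) fun _ => ?_)
    right
    norm_num
  have h1 := hc.tendsto E0
  simp only [sub_self, abs_zero] at h1
  rw [Real.zero_rpow (by norm_num), mul_zero] at h1
  refine squeeze_zero (fun E => norm_nonneg _) (fun E => ?_) h1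
  have h2 := h ((E : ℂ) + (τ : ℂ) * Complex.I) ((E0 : ℂ) + (τ : ℂ) * Complex.I) (by simpa using hτ)
    (by simpa using hτ)
  have e1 : ((E : ℂ) + (τ : ℂ) * Complex.I) - ((E0 : ℂ) + (τ : ℂ) * Complex.I) =
      ((E - E0 : ℝ) : ℂ) := by
    push_cast
    ring
  rw [e1, Complex.norm_real, Real.norm_eq_abs] at h2
  exact h2

theorem cont0 (hO : S_OSC) (d : ℕ) (hd : 3 ≤ d) : Continuous fun E : ℝ => (GF (F0 d) (E : ℂ)).im := by
  have h1 := cont_of_hol (F0 d) (CH d) (hol0 hO d hd) 0 le_rfl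
  simp only [Complex.ofReal_zero, zero_mul, add_zero] at h1
  exact Complex.continuous_im.comp h1

theorem cont1 (hO : S_OSC) (d : ℕ) (hd : 3 ≤ d) : Continuous fun E : ℝ => (GF (F1 d) (E : ℂ)).im := by
  have h1 := cont_of_hol (F1 d) (CH d) (hol1 hO d hd) 0 le_rfl
  simp only [Complex.ofReal_zero, zero_mul, add_zero] at h1
  exact Complex.continuous_im.comp h1

theorem Pf_meas (hO : S_OSC) (d : ℕ) (hd : 3 ≤ d) (u : ℝ) : Measurable (Pf d u) := by
  unfold Pf
  exact (cont1 hO d hd).measurable.div (measurable_const.add (cont0 hO d hd).measurable)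

/-- the interval of energies -/
def Iv (d : ℕ) : Set ℝ := Icc (-(3 * d : ℝ)) (3 * d)

theorem Iv_vol (d : ℕ) : (volume (Iv d)) = ENNReal.ofReal (6 * d) := by
  unfold Iv
  rw [Real.volume_Icc]
  congr 1
  ring

theorem Iv_fin (d : ℕ) : IsFiniteMeasure (volume.restrict (Iv d)) :=
  ⟨by rw [Measure.restrict_apply_univ, Iv_vol]; exact ENNReal.ofReal_lt_top⟩

theorem Iv_real (d : ℕ) : (volume.restrict (Iv d)).real univ = 6 * d := by
  rw [Measure.real, Measure.restrict_apply_univ, Iv_vol, ENNReal.toReal_ofReal (by positivity)]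

theorem Pf_int (hO : S_OSC) (d : ℕ) (hd : 3 ≤ d) (u : ℝ) (hu : 0 ≤ u) :
    Integrable (Pf d u) (volume.restrict (Iv d)) := by
  have := Iv_fin d
  refine Integrable.of_bound (C := 1) (Pf_meas hO d hd u).aestronglyMeasurable ?_
  refine Filter.Eventually.of_forall fun E => ?_
  rw [Real.norm_eq_abs, abs_of_nonneg (Pf_nonneg hO d hd u E hu)]
  exact Pf_le hO d hd u E hu

/-- the integrated profile -/
noncomputable def PfI (d : ℕ) (u : ℝ) : ℝ := ∫ E in Iv d, Pf d u E

theorem PfI_lim (hO : S_OSC) (d : ℕ) (hd : 3 ≤ d) (ε : ℝ) (hε : 0 < ε) :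
    ∃ u1 : ℝ, 0 < u1 ∧ ∀ u : ℝ, 0 < u → u ≤ u1 → |PfI d u - PfI d 0| ≤ ε := by
  have := Iv_fin d
  have h1 : Tendsto (fun u : ℝ => PfI d u) (𝓝[>] 0) (𝓝 (PfI d 0)) := by
    unfold PfI
    refine tendsto_integral_filter_of_dominated_convergence (fun _ => (1 : ℝ)) ?_ ?_
      (integrable_const _) ?_
    · exact Filter.Eventually.of_forall fun u => (Pf_meas hO d hd u).aestronglyMeasurable
    · filter_upwards [self_mem_nhdsWithin] with u hu
      refine Filter.Eventually.of_forall fun E => ?_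
      have hu0 : 0 ≤ u := le_of_lt hu
      rw [Real.norm_eq_abs, abs_of_nonneg (Pf_nonneg hO d hd u E hu0)]
      exact Pf_le hO d hd u E hu0
    · refine Filter.Eventually.of_forall fun E => ?_
      have h := GF_im hO d hd (E : ℂ) (by simp)
      unfold Pf
      by_cases h0 : (GF (F0 d) (E : ℂ)).im = 0
      · have h1 : (GF (F1 d) (E : ℂ)).im = 0 := le_antisymm (by rw [← h0]; exact h.2) h.1
        rw [h1]
        simp only [zero_div]
        exact tendsto_const_nhds
      · have hc : ContinuousAt (fun u : ℝ => (GF (F1 d) (E : ℂ)).im /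
            (u + (GF (F0 d) (E : ℂ)).im)) 0 := by
          refine ContinuousAt.div continuousAt_const (by fun_prop) ?_
          rw [zero_add]
          exact h0
        exact hc.tendsto.mono_left nhdsWithin_le_nhds
  have h2 := (Metric.tendsto_nhdsWithin_nhds.1 h1) ε hε
  obtain ⟨δ, hδ, h3⟩ := h2
  refine ⟨δ / 2, by positivity, fun u hu hu1 => ?_⟩
  have h4 := h3 (x := u) hu (by
    rw [Real.dist_eq, sub_zero, abs_of_pos hu]
    linarith)
  rw [Real.dist_eq] at h4
  exact h4.le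

/-- the Lorentzian -/
theorem lor (d : ℕ) (hd : 3 ≤ d) (a τ : ℝ) (ha : |a| ≤ 2 * d) (hτ : 0 < τ) (hτ1 : τ ≤ 1) :
    1 ≤ ∫ E in Iv d, τ / ((a - E) ^ 2 + τ ^ 2) := by
  have := Iv_fin d
  have hd3 : (3 : ℝ) ≤ d := by exact_mod_cast hd
  have hcont : Continuous fun E : ℝ => τ / ((a - E) ^ 2 + τ ^ 2) := by
    refine continuous_const.div (by fun_prop) fun E => ?_
    positivity
  have hint : ∀ x y : ℝ, IntegrableOn (fun E : ℝ => τ / ((a - E) ^ 2 + τ ^ 2)) (Icc x y) :=
    fun x y => hcont.continuousOn.integrableOn_Icc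
  have hsub : Icc (a - τ) (a + τ) ⊆ Iv d := by
    have h1 := abs_le.1 ha
    unfold Iv
    apply Icc_subset_Icc <;> linarith
  have h1 : ∫ E in Icc (a - τ) (a + τ), τ / ((a - E) ^ 2 + τ ^ 2) ≤
      ∫ E in Iv d, τ / ((a - E) ^ 2 + τ ^ 2) := by
    refine setIntegral_mono_set (hint _ _) (Filter.Eventually.of_forall fun E => ?_)
      (Filter.Eventually.of_forall hsub)
    simp only [Pi.zero_apply]
    positivity
  refine le_trans ?_ h1
  have h2 : ∫ _E in Icc (a - τ) (a + τ), 1 / (2 * τ) ≤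
      ∫ E in Icc (a - τ) (a + τ), τ / ((a - E) ^ 2 + τ ^ 2) := by
    refine setIntegral_mono_on ?_ (hint _ _) measurableSet_Icc fun E hE => ?_
    · exact continuous_const.continuousOn.integrableOn_Icc
    · rw [div_le_div_iff₀ (by positivity) (by positivity)]
      have h3 : (a - E) ^ 2 ≤ τ ^ 2 := by
        rw [← sq_abs]
        refine pow_le_pow_left₀ (abs_nonneg _) ?_ 2
        rw [abs_le]
        constructor <;> linarith [hE.1, hE.2]
      nlinarith
  refine le_trans (le_of_eq ?_) h2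
  rw [setIntegral_const, Measure.real, Real.volume_Icc, ENNReal.toReal_ofReal (by linarith),
    smul_eq_mul]
  field_simp
  ring

theorem qq_zero : qq 0 = ((1 / 2 : ℝ) : ℂ) := by
  have h1 : ∀ x : ℝ, fs 0 x = ((Real.sin (2 * Real.pi * x) ^ 2 : ℝ) : ℂ) := by
    intro x
    unfold fs ff
    simp
  unfold qq
  simp only [h1]
  rw [intervalIntegral.integral_ofReal]
  congr 1
  have h2 := intervalIntegral.integral_comp_mul_left (a := 0) (b := 1)
    (fun y : ℝ => Real.sin y ^ 2) (c := 2 * Real.pi) (by have := Real.pi_ne_zero; simp [this])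
  rw [h2, integral_sin_sq]
  simp
  have := Real.pi_ne_zero
  field_simp

theorem pp_zero : pp 0 = 1 := by
  unfold pp ff
  simp

theorem F1_zero (d : ℕ) : F1 d 0 = ((1 / 2 : ℝ) : ℂ) := by
  unfold F1
  rw [qq_zero, pp_zero, one_pow, mul_one]

section tor

variable {d L : ℕ} [NeZero L]

theorem avg_sg (hd : 1 ≤ d) (j : Fin d) :
    1 / 2 - 14 * d / L ≤ rv (NN d L) (fun k : T d L => sg j k ^ 2) := by
  have h1 := dist1 (d := d) (L := L) hd j 0 le_rfl
  rw [F1_zero] at h1
  simp only [neg_zero, zero_mul, Complex.ofReal_zero, mul_zero, Complex.exp_zero, mul_one,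
    add_zero] at h1
  have e1 : mv (NN d L) (fun k : T d L => ((sg j k ^ 2 : ℝ) : ℂ)) =
      ((rv (NN d L) (fun k : T d L => sg j k ^ 2) : ℝ) : ℂ) := by
    unfold mv rv
    push_cast
    rfl
  rw [e1, ← Complex.ofReal_sub, Complex.norm_real, Real.norm_eq_abs] at h1
  have h2 := (abs_le.1 h1).1
  linarith

theorem adj_le (k : T d L) : |adj k| ≤ 2 * d := by
  unfold adj
  refine (Finset.abs_sum_le_sum_abs _ _).trans ?_
  have h1 : ∀ i : Fin d, |2 * (ZMod.stdAddChar (k i) : ℂ).re| ≤ 2 := by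
    intro i
    rw [abs_mul, abs_two]
    have h2 := Complex.abs_re_le_norm (ZMod.stdAddChar (k i) : ℂ)
    have h3 : ‖(ZMod.stdAddChar (k i) : ℂ)‖ = 1 := by
      rw [ZMod.stdAddChar_apply]
      exact Circle.norm_coe _
    linarith
  refine (Finset.sum_le_sum fun i _ => h1 i).trans (le_of_eq ?_)
  rw [Finset.sum_const, Finset.card_univ, Fintype.card_fin, nsmul_eq_mul, mul_comm]

/-- the integral of the imaginary part on the torus -/
theorem int_tor (hd : 3 ≤ d) (j : Fin d) (τ : ℝ) (hτ : 0 < τ) (hτ1 : τ ≤ 1) :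
    1 / 2 - 14 * d / L ≤
      ∫ E in Iv d, (gW (fun k : T d L => sg j k ^ 2) ((E : ℂ) + (τ : ℂ) * Complex.I)).im := by
  have hN := NN_pos (d := d) (L := L)
  have e1 : ∀ E : ℝ, (gW (fun k : T d L => sg j k ^ 2) ((E : ℂ) + (τ : ℂ) * Complex.I)).im =
      (NN d L)⁻¹ * ∑ k : T d L, sg j k ^ 2 * (τ / ((adj k - E) ^ 2 + τ ^ 2)) := by
    intro E
    unfold gW
    rw [mv_im]
    unfold rv
    congr 1
    refine Finset.sum_congr rfl fun k _ => ?_
    simp only
    rw [Complex.im_ofReal_mul, Complex.inv_im]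
    congr 1
    have h1 : (((adj k : ℝ) : ℂ) - ((E : ℂ) + (τ : ℂ) * Complex.I)).im = -τ := by simp
    have h2 : Complex.normSq (((adj k : ℝ) : ℂ) - ((E : ℂ) + (τ : ℂ) * Complex.I)) =
        (adj k - E) ^ 2 + τ ^ 2 := by
      rw [Complex.normSq_apply]
      simp
      ring
    rw [h1, h2, neg_neg]
  have hint : ∀ k : T d L, Integrable (fun E : ℝ => sg j k ^ 2 * (τ / ((adj k - E) ^ 2 + τ ^ 2)))
      (volume.restrict (Iv d)) := by
    intro k
    have hcont : Continuous fun E : ℝ => sg j k ^ 2 * (τ / ((adj k - E) ^ 2 + τ ^ 2)) := by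
      refine continuous_const.mul (continuous_const.div (by fun_prop) fun E => ?_)
      positivity
    exact hcont.continuousOn.integrableOn_Icc
  simp only [e1]
  rw [integral_const_mul, integral_finsetSum _ fun k _ => hint k]
  refine (avg_sg (by omega) j).trans ?_
  unfold rv
  refine mul_le_mul_of_nonneg_left (Finset.sum_le_sum fun k _ => ?_) (inv_nonneg.2 hN.le)
  rw [integral_const_mul]
  have h1 := lor d hd (adj k) τ (adj_le k) hτ hτ1
  have h2 := mul_le_mul_of_nonneg_left h1 (sq_nonneg (sg j k))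
  linarith

end tor

/-- the integral of the imaginary part -/
theorem int_F1 (hO : S_OSC) (d : ℕ) (hd : 3 ≤ d) :
    1 / 2 ≤ ∫ E in Iv d, (GF (F1 d) (E : ℂ)).im := by
  have hfm := Iv_fin d
  have hvol := Iv_real d
  have hcτ : ∀ τ : ℝ, 0 ≤ τ → Integrable (fun E : ℝ =>
      (GF (F1 d) ((E : ℂ) + (τ : ℂ) * Complex.I)).im) (volume.restrict (Iv d)) := fun τ hτ =>
    (Complex.continuous_im.comp
      (cont_of_hol (F1 d) (CH d) (hol1 hO d hd) τ hτ)).continuousOn.integrableOn_Icc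
  have hcomp : ∀ (f g : ℝ → ℝ) (c : ℝ), Integrable f (volume.restrict (Iv d)) →
      Integrable g (volume.restrict (Iv d)) → (∀ E, f E ≤ g E + c) →
      ∫ E in Iv d, f E ≤ (∫ E in Iv d, g E) + 6 * d * c := by
    intro f g c hf hg h
    have h1 : ∫ E in Iv d, f E ≤ ∫ E in Iv d, (g E + c) :=
      integral_mono hf (hg.add (integrable_const _)) h
    rw [integral_add hg (integrable_const _), integral_const, hvol, smul_eq_mul] at h1
    exact h1
  have key1 : ∀ τ : ℝ, 0 < τ → τ ≤ 1 →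
      1 / 2 ≤ ∫ E in Iv d, (GF (F1 d) ((E : ℂ) + (τ : ℂ) * Complex.I)).im := by
    intro τ hτ hτ1
    apply lim_le _ _ (14 * d + 6 * d * (28 * d / τ ^ 2))
    intro n
    have h1 := int_tor (d := d) (L := n + 1) hd ⟨0, by omega⟩ τ hτ hτ1
    have h2 := hcomp (fun E => (gW (fun k : T d (n + 1) => sg ⟨0, by omega⟩ k ^ 2)
      ((E : ℂ) + (τ : ℂ) * Complex.I)).im)
      (fun E => (GF (F1 d) ((E : ℂ) + (τ : ℂ) * Complex.I)).im) (28 * d / ((n + 1 : ℕ) : ℝ) / τ ^ 2)
      ?_ (hcτ τ hτ.le) ?_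
    · refine h1 |>.trans h2 |> fun h3 => ?_
      have h4 : (1 : ℝ) / 2 ≤ (∫ E in Iv d, (GF (F1 d) ((E : ℂ) + (τ : ℂ) * Complex.I)).im) +
          6 * d * (28 * d / ((n + 1 : ℕ) : ℝ) / τ ^ 2) + 14 * d / ((n + 1 : ℕ) : ℝ) := by linarith
      refine h4.trans (le_of_eq ?_)
      push_cast
      field_simp
      ring
    · have hcont : Continuous fun E : ℝ => gW (fun k : T d (n + 1) => sg ⟨0, by omega⟩ k ^ 2)
          ((E : ℂ) + (τ : ℂ) * Complex.I) := by
        unfold gW mv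
        refine continuous_const.mul (continuous_finsetSum _ fun k _ => continuous_const.mul ?_)
        refine Continuous.inv₀ (by fun_prop) fun E h0 => ?_
        have h5 := congrArg Complex.im h0
        simp at h5
        exact hτ.ne' h5
      exact (Complex.continuous_im.comp hcont).continuousOn.integrableOn_Icc
    · intro E
      have h5 := fin1 (L := n + 1) hO d hd ⟨0, by omega⟩ τ hτ hτ1
        ((E : ℂ) + (τ : ℂ) * Complex.I) (by simp)
      have h6 := (Complex.abs_im_le_norm _).trans h5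
      rw [Complex.sub_im] at h6
      have h7 := (abs_le.1 h6).2
      linarith
  apply lim_le _ _ (6 * d * CH d)
  intro n
  obtain ⟨τ, hτ⟩ : ∃ τ : ℝ, τ = ((n : ℝ) + 1)⁻¹ ^ 8 := ⟨_, rfl⟩
  have hn : (0 : ℝ) < (n : ℝ) + 1 := by positivity
  have hτ0 : 0 < τ := by rw [hτ]; positivity
  have hτ1 : τ ≤ 1 := by
    rw [hτ]
    refine pow_le_one₀ (by positivity) (inv_le_one_of_one_le₀ ?_)
    have : (0 : ℝ) ≤ n := Nat.cast_nonneg n
    linarith
  have hτ8 : τ ^ (1 / 8 : ℝ) = ((n : ℝ) + 1)⁻¹ := by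
    rw [hτ, ← Real.rpow_natCast, ← Real.rpow_mul (by positivity)]
    norm_num
  have h1 := hcomp (fun E => (GF (F1 d) ((E : ℂ) + (τ : ℂ) * Complex.I)).im)
    (fun E => (GF (F1 d) (E : ℂ)).im) (CH d * ((n : ℝ) + 1)⁻¹) (hcτ τ hτ0.le)
    ((cont1 hO d hd).continuousOn.integrableOn_Icc) ?_
  · have h2 := (key1 τ hτ0 hτ1).trans h1
    refine h2.trans (le_of_eq ?_)
    rw [div_eq_mul_inv]
    ring
  · intro E
    have h5 := hol1 hO d hd ((E : ℂ) + (τ : ℂ) * Complex.I) (E : ℂ) (by simpa using hτ0.le)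
      (by simp)
    rw [add_sub_cancel_left, norm_mul, Complex.norm_I, mul_one, Complex.norm_real,
      Real.norm_eq_abs, abs_of_pos hτ0, hτ8] at h5
    have h6 := (Complex.abs_im_le_norm _).trans h5
    rw [Complex.sub_im] at h6
    have h7 := (abs_le.1 h6).2
    linarith

/-- the constant is positive -/
theorem PfI_pos (hO : S_OSC) (d : ℕ) (hd : 3 ≤ d) : 0 < PfI d 0 := by
  have hfm := Iv_fin d
  obtain ⟨B, hB⟩ := (isCompact_Icc (a := -(3 * d : ℝ)) (b := 3 * d)).exists_bound_of_continuousOn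
    (cont0 hO d hd).continuousOn
  obtain ⟨B', hB'⟩ : ∃ B', B' = max B 1 := ⟨_, rfl⟩
  have hB0 : 0 < B' := by rw [hB']; exact lt_max_of_lt_right one_pos
  have h1 : ∫ E in Iv d, (GF (F1 d) (E : ℂ)).im / B' ≤ ∫ E in Iv d, Pf d 0 E := by
    refine setIntegral_mono_on ?_ (Pf_int hO d hd 0 le_rfl) measurableSet_Icc fun E hE => ?_
    · exact ((cont1 hO d hd).div_const _).continuousOn.integrableOn_Icc
    · have h := GF_im hO d hd (E : ℂ) (by simp)
      unfold Pf
      rw [zero_add]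
      by_cases h0 : (GF (F0 d) (E : ℂ)).im = 0
      · have h1 : (GF (F1 d) (E : ℂ)).im = 0 := le_antisymm (by rw [← h0]; exact h.2) h.1
        rw [h1, zero_div, zero_div]
      · have hpos : 0 < (GF (F0 d) (E : ℂ)).im := lt_of_le_of_ne (h.1.trans h.2) (Ne.symm h0)
        apply div_le_div_of_nonneg_left h.1 hpos
        have h2 := hB E hE
        rw [Real.norm_eq_abs] at h2
        exact (le_abs_self _).trans (h2.trans (by rw [hB']; exact le_max_left _ _))
  unfold PfI
  refine lt_of_lt_of_le ?_ h1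
  rw [integral_div]
  have h2 := int_F1 hO d hd
  have h3 : (0 : ℝ) < ∫ E in Iv d, (GF (F1 d) (E : ℂ)).im := by linarith
  positivity

end Pool.Agent.TH794.QD
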