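import Pool.Agent.TH794.QD.Out
import Pool.Agent.TH794.QD.Dcon

/-! From the resolvent to the time evolution. -/

set_option autoImplicit false
set_option linter.unusedSectionVars false

open scoped BigOperators Topology
open MeasureTheory Filter Set

namespace Pool.Agent.TH794.QD

open Pool.Agent.W788.BK
open Pool.Agent.H4R2.LO (Zd)
open Pool.Agent.TH794.FG (LS)

variable {d : ℕ}

/-- the moment around `a` -/
theorem mom_a {σ : ℝ} {ξ : Zd d → ℝ} {E t : ℝ} {ur ui : Zd d → ℝ} (hd : 3 ≤ d) (a : Zd d)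
    (h : LS d σ ξ (fun x => (Pi.single (M := fun _ => ℝ) 0 1 : Zd d → ℝ) (x - a)) (fun _ => 0) E t
      ur ui) (ht : 0 < t) (ht1 : t ≤ 1) (j : Fin d) (hξ : ∀ x, |σ * ξ x| ≤ 1) :
    (Summable fun x => (((x j : ℝ) - a j) * ur x) ^ 2) ∧
    (Summable fun x => (((x j : ℝ) - a j) * ui x) ^ 2) ∧
    ∑' x, (((x j : ℝ) - a j) * ur x) ^ 2 + ∑' x, (((x j : ℝ) - a j) * ui x) ^ 2 ≤
      (2 * (t⁻¹) ^ 2) ^ 2 ∧
    (3 * d ≤ |E| → ∑' x, (((x j : ℝ) - a j) * ur x) ^ 2 +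
      ∑' x, (((x j : ℝ) - a j) * ui x) ^ 2 ≤ 21 * (1 + E ^ 2)⁻¹) := by
  have h0 : LS d σ (fun x => ξ (x + a)) (Pi.single 0 1) (fun _ => 0) E t
      (fun x => ur (x + a)) (fun x => ui (x + a)) :=
    LS.shift (fr := Pi.single 0 1) (fi := fun _ => 0) a h
  obtain ⟨-, hLS, hT2, -⟩ := green h0 ht ht1 j
  have e4 : ∀ (u : Zd d → ℝ) (x : Zd d), (((((Equiv.addRight a) x) j : ℤ) : ℝ) - a j) *
      u ((Equiv.addRight a) x) = cj j x * u (x + a) := by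
    intro u x
    simp only [Equiv.coe_addRight, Pi.add_apply]
    unfold cj
    push_cast
    rw [add_sub_cancel_right]
  have e5 : ∀ u : Zd d → ℝ, ∑' x, (((x j : ℝ) - a j) * u x) ^ 2 =
      ∑' x, (cj j x * u (x + a)) ^ 2 := by
    intro u
    rw [← (Equiv.addRight a).tsum_eq fun x => (((x j : ℝ) - a j) * u x) ^ 2]
    exact tsum_congr fun x => by rw [e4]
  have e6 : ∀ u : Zd d → ℝ, (Summable fun x => (cj j x * u (x + a)) ^ 2) →
      Summable fun x => (((x j : ℝ) - a j) * u x) ^ 2 := by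
    intro u hu
    rw [← (Equiv.addRight a).summable_iff]
    refine hu.congr fun x => ?_
    simp only [Function.comp]
    rw [e4]
  refine ⟨e6 ur hLS.sr, e6 ui hLS.si, ?_, fun hE => ?_⟩
  · rw [e5, e5]
    exact hT2
  · rw [e5, e5]
    exact out2 hd h0 ht ht1 j (fun x => hξ _) hE

theorem tim5 (hO : S_OSC) (hd : 3 ≤ d) (V ξ : Zd d → ℝ) (c0 σ t e3 s2 u0 R : ℝ)
    (hV : ∀ x, V x = c0 - σ * ξ x) (ht : 0 < t) (ht1 : t ≤ 1) (hs2 : 0 ≤ s2) (hu0 : 0 ≤ u0)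
    (hξ : ∀ x, |σ * ξ x| ≤ 1) (hQ : QLaw d σ R t (3 * d) e3 s2 u0 ξ)
    (a : Zd d) (ha : ‖a‖ ≤ R) (ψ : ℝ → Zd d → ℂ) (h : Sol d V a ψ) (j : Fin d) :
    IntegrableOn (fun s => Real.exp (-(2 * t) * s) *
      ∑' x, ((x j : ℝ) - a j) ^ 2 * ‖ψ s x‖ ^ 2) (Ioi 0) ∧
    (∀ᵐ s ∂(volume.restrict (Ioi (0 : ℝ))),
      Summable fun x => ((x j : ℝ) - a j) ^ 2 * ‖ψ s x‖ ^ 2) ∧
    |t ^ 2 * s2 * (2 * Real.pi * ∫ s in Ioi (0 : ℝ), Real.exp (-(2 * t) * s) *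
      ∑' x, ((x j : ℝ) - a j) ^ 2 * ‖ψ s x‖ ^ 2) - 2 * PfI d u0| ≤
        6 * d * e3 + 21 * Real.pi * (t ^ 2 * s2) := by
  obtain ⟨w, hw⟩ : ∃ w : Zd d → ℝ, w = fun x => ((x j : ℝ) - a j) ^ 2 := ⟨_, rfl⟩
  have hwx : ∀ x, ((x j : ℝ) - a j) ^ 2 = w x := fun x => by rw [hw]
  have hw0 : ∀ x, 0 ≤ w x := fun x => by rw [← hwx]; exact sq_nonneg _
  obtain ⟨A, hA⟩ : ∃ A : ℝ → ℝ, A = fun E => ∑' x, w x * ‖La ψ E t x‖ ^ 2 := ⟨_, rfl⟩
  -- the moments at each energy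
  have hterm : ∀ E x, w x * ‖La ψ E t x‖ ^ 2 =
      (((x j : ℝ) - a j) * (fun x => -(Complex.I * La ψ E t x).re) x) ^ 2 +
      (((x j : ℝ) - a j) * (fun x => (Complex.I * La ψ E t x).im) x) ^ 2 := by
    intro E x
    have h1 : ‖La ψ E t x‖ = ‖Complex.I * La ψ E t x‖ := by
      rw [norm_mul, Complex.norm_I, one_mul]
    rw [← hwx, h1, ← Complex.normSq_eq_norm_sq, Complex.normSq_apply]
    ring
  have hLS : ∀ E, LS d σ ξ (fun x => (Pi.single (M := fun _ => ℝ) 0 1 : Zd d → ℝ) (x - a))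
      (fun _ => 0) (c0 - E) t (fun x => -(Complex.I * La ψ E t x).re)
      (fun x => (Complex.I * La ψ E t x).im) := fun E => La_LS h ξ c0 σ hV E t ht
  have hsum : ∀ E, Summable fun x => w x * ‖La ψ E t x‖ ^ 2 := by
    intro E
    obtain ⟨s1, s2, -, -⟩ := mom_a hd a (hLS E) ht ht1 j hξ
    exact (s1.add s2).congr fun x => (hterm E x).symm
  have hAE : ∀ E, A E = ∑' x, (((x j : ℝ) - a j) * (fun x => -(Complex.I * La ψ E t x).re) x) ^ 2 +
      ∑' x, (((x j : ℝ) - a j) * (fun x => (Complex.I * La ψ E t x).im) x) ^ 2 := by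
    intro E
    obtain ⟨s1, s2, -, -⟩ := mom_a hd a (hLS E) ht ht1 j hξ
    rw [hA, ← s1.tsum_add s2]
    exact tsum_congr fun x => hterm E x
  have hA0 : ∀ E, 0 ≤ A E := by
    intro E
    rw [hA]
    exact tsum_nonneg fun x => mul_nonneg (hw0 x) (sq_nonneg _)
  have hA1 : ∀ E, A E ≤ (2 * (t⁻¹) ^ 2) ^ 2 := by
    intro E
    rw [hAE]
    exact (mom_a hd a (hLS E) ht ht1 j hξ).2.2.1
  have hA2 : ∀ E, 3 * d ≤ |c0 - E| → A E ≤ 21 * (1 + (c0 - E) ^ 2)⁻¹ := by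
    intro E hE
    rw [hAE]
    exact (mom_a hd a (hLS E) ht ht1 j hξ).2.2.2 hE
  have hA3 : ∀ E, |c0 - E| ≤ 3 * d → |t ^ 2 * s2 * A E - 2 * Pf d u0 (c0 - E)| ≤ e3 := by
    intro E hE
    rw [hAE]
    exact hQ a ha (c0 - E) hE _ _ (hLS E) j
  -- the dominating function
  obtain ⟨K, hK⟩ : ∃ K, K = 21 + (2 * (t⁻¹) ^ 2) ^ 2 * (1 + 9 * (d : ℝ) ^ 2) := ⟨_, rfl⟩
  have hdom : ∀ E, A E ≤ K * (1 + (c0 - E) ^ 2)⁻¹ := by
    intro E
    have hp : 0 < 1 + (c0 - E) ^ 2 := by positivity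
    rcases le_total (3 * (d : ℝ)) |c0 - E| with h1 | h1
    · refine (hA2 E h1).trans ?_
      refine mul_le_mul_of_nonneg_right ?_ (inv_nonneg.2 hp.le)
      rw [hK]
      have : 0 ≤ (2 * (t⁻¹) ^ 2) ^ 2 * (1 + 9 * (d : ℝ) ^ 2) := by positivity
      linarith
    · rw [← div_eq_mul_inv, le_div_iff₀ hp]
      have h2 : (c0 - E) ^ 2 ≤ 9 * (d : ℝ) ^ 2 := by
        rw [← sq_abs]
        calc |c0 - E| ^ 2 ≤ (3 * (d : ℝ)) ^ 2 := pow_le_pow_left₀ (abs_nonneg _) h1 2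
          _ = _ := by ring
      calc A E * (1 + (c0 - E) ^ 2) ≤ (2 * (t⁻¹) ^ 2) ^ 2 * (1 + 9 * (d : ℝ) ^ 2) :=
            mul_le_mul (hA1 E) (by linarith) hp.le (by positivity)
        _ ≤ K := by rw [hK]; linarith
  have hdint : Integrable fun E : ℝ => K * (1 + (c0 - E) ^ 2)⁻¹ :=
    (integrable_inv_one_add_sq.comp_sub_left c0).const_mul K
  obtain ⟨i1, i2, i3, i4⟩ := La_real h t ht w hw0 hsum _ hdint (fun E => by
    have := hdom E
    rw [hA] at this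
    exact this)
  simp only [hwx]
  refine ⟨i2, i3, ?_⟩
  rw [← i4]
  have hAint : Integrable A := by rw [hA]; exact i1
  have hAf : ∀ E, ∑' x, w x * ‖La ψ E t x‖ ^ 2 = A E := fun E => by rw [hA]
  simp only [hAf]
  -- change of variables
  have hcv : ∫ E, A E = ∫ E, A (c0 - E) := (integral_sub_left_eq_self A volume c0).symm
  have hAint2 : Integrable fun E => A (c0 - E) := hAint.comp_sub_left c0
  have hms : MeasurableSet (Iv d) := measurableSet_Icc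
  rw [hcv, ← integral_add_compl hms hAint2]
  have hIv : ∀ E, E ∈ Iv d ↔ |E| ≤ 3 * d := by
    intro E
    unfold Iv
    rw [abs_le]
    exact Iff.rfl
  -- inside
  have hin : |t ^ 2 * s2 * (∫ E in Iv d, A (c0 - E)) - 2 * PfI d u0| ≤ 6 * d * e3 := by
    unfold PfI
    rw [← integral_const_mul, ← integral_const_mul,
      ← integral_sub (hAint2.integrableOn.const_mul _) ((Pf_int hO d hd u0 hu0).const_mul _)]
    have h1 := MeasureTheory.norm_setIntegral_le_of_norm_le_const (μ := volume) (s := Iv d)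
      (f := fun E => t ^ 2 * s2 * A (c0 - E) - 2 * Pf d u0 E) (C := e3)
      (by rw [Iv_vol]; exact ENNReal.ofReal_lt_top) (fun E hE => by
        have h2 := hA3 (c0 - E) (by rw [sub_sub_cancel]; exact (hIv E).1 hE)
        rw [sub_sub_cancel] at h2
        exact h2)
    have h2 : volume.real (Iv d) = 6 * d := by
      rw [Measure.real, Iv_vol, ENNReal.toReal_ofReal (by positivity)]
    rw [h2, Real.norm_eq_abs] at h1
    linarith
  -- outside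
  have hout0 : 0 ≤ ∫ E in (Iv d)ᶜ, A (c0 - E) := integral_nonneg fun E => hA0 _
  have hout : ∫ E in (Iv d)ᶜ, A (c0 - E) ≤ 21 * Real.pi := by
    have hgi : Integrable fun E : ℝ => 21 * (1 + E ^ 2)⁻¹ := integrable_inv_one_add_sq.const_mul 21
    have h1 : ∫ E in (Iv d)ᶜ, A (c0 - E) ≤ ∫ E in (Iv d)ᶜ, 21 * (1 + E ^ 2)⁻¹ := by
      refine setIntegral_mono_on hAint2.integrableOn hgi.integrableOn hms.compl fun E hE => ?_
      have h2 : 3 * (d : ℝ) ≤ |E| := by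
        have h3 := (not_congr (hIv E)).1 hE
        exact (not_le.1 h3).le
      have h4 := hA2 (c0 - E) (by rw [sub_sub_cancel]; exact h2)
      rw [sub_sub_cancel] at h4
      exact h4
    have h2 : ∫ E in (Iv d)ᶜ, 21 * (1 + E ^ 2)⁻¹ ≤ ∫ E : ℝ, 21 * (1 + E ^ 2)⁻¹ :=
      setIntegral_le_integral hgi (Filter.Eventually.of_forall fun E => by positivity)
    refine h1.trans (h2.trans (le_of_eq ?_))
    rw [integral_const_mul, integral_univ_inv_one_add_sq]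
  have hts : 0 ≤ t ^ 2 * s2 := by positivity
  have hsplit : t ^ 2 * s2 * ((∫ E in Iv d, A (c0 - E)) + ∫ E in (Iv d)ᶜ, A (c0 - E)) -
      2 * PfI d u0 = (t ^ 2 * s2 * (∫ E in Iv d, A (c0 - E)) - 2 * PfI d u0) +
        t ^ 2 * s2 * ∫ E in (Iv d)ᶜ, A (c0 - E) := by ring
  rw [hsplit]
  refine (abs_add_le _ _).trans (add_le_add hin ?_)
  rw [abs_of_nonneg (mul_nonneg hts hout0)]
  calc t ^ 2 * s2 * ∫ E in (Iv d)ᶜ, A (c0 - E) ≤ t ^ 2 * s2 * (21 * Real.pi) := by gcongr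
    _ = _ := by ring

end Pool.Agent.TH794.QD
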