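import Mathlib

/-! Plancherel's theorem for integrable square integrable functions. -/

set_option autoImplicit false

open MeasureTheory FourierTransform SchwartzMap
open scoped ENNReal ContDiff

namespace Pool.Agent.TH794.QD

/-- the two Fourier transforms agree -/
theorem fourier_ae (f : ℝ → ℂ) (h1 : Integrable f) (h2 : MemLp f 2) :
    (𝓕 (h2.toLp f) : Lp (α := ℝ) ℂ 2) =ᵐ[volume] 𝓕 f := by
  obtain ⟨F, hF⟩ : ∃ F : Lp (α := ℝ) ℂ 2, F = h2.toLp f := ⟨_, rfl⟩
  rw [← hF]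
  have hFf : (F : ℝ → ℂ) =ᵐ[volume] f := by
    rw [hF]
    exact h2.coeFn_toLp
  have hc : Continuous (𝓕 f) := by
    exact VectorFourier.fourierIntegral_continuous Real.continuous_fourierChar
      (by exact continuous_inner) h1
  apply ae_eq_of_integral_contDiff_smul_eq
  · exact (Lp.memLp _).locallyIntegrable (by norm_num)
  · exact hc.locallyIntegrable
  · intro g g_smooth g_cpt
    have hg₁ : HasCompactSupport (Complex.ofRealCLM ∘ g) := g_cpt.comp_left rfl
    have hg₂ : ContDiff ℝ ∞ (Complex.ofRealCLM ∘ g) := by fun_prop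
    obtain ⟨G, hG⟩ : ∃ G : 𝓢(ℝ, ℂ), G = hg₁.toSchwartzMap hg₂ := ⟨_, rfl⟩
    have hGg : ∀ x, G x = (g x : ℂ) := by
      intro x
      rw [hG]
      rfl
    have e1 := congrArg (fun D => D G) (MeasureTheory.Lp.fourier_toTemperedDistribution_eq F)
    simp only [TemperedDistribution.fourier_apply, MeasureTheory.Lp.toTemperedDistribution_apply]
      at e1
    obtain ⟨H, hH⟩ : ∃ H : Lp (α := ℝ) ℂ 2, H = 𝓕 F := ⟨_, rfl⟩
    rw [← hH] at e1 ⊢
    have e2 : ∫ x, g x • H x = ∫ x, G x • H x := by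
      refine integral_congr_ae (Filter.Eventually.of_forall fun x => ?_)
      simp only
      rw [hGg]
      rfl
    rw [e2, ← e1]
    have e3 : ∫ x, (𝓕 G) x • F x = ∫ x, (𝓕 (G : ℝ → ℂ)) x • f x := by
      refine integral_congr_ae ?_
      filter_upwards [hFf] with x hx
      rw [hx]
      rfl
    rw [e3]
    have e4 := VectorFourier.integral_fourierIntegral_smul_eq_flip (μ := volume) (ν := volume)
      (L := innerₗ ℝ) Real.continuous_fourierChar continuous_inner (G.integrable (μ := volume)) h1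
    have e5 : ∫ x, g x • (𝓕 f) x = ∫ x, G x • (𝓕 f) x := by
      refine integral_congr_ae (Filter.Eventually.of_forall fun x => ?_)
      simp only
      rw [hGg]
      rfl
    rw [e5]
    simpa using! e4

/-- **Plancherel** -/
theorem plancherel (f : ℝ → ℂ) (h1 : Integrable f) (h2 : MemLp f 2) :
    ∫⁻ ξ, ‖𝓕 f ξ‖ₑ ^ 2 = ∫⁻ x, ‖f x‖ₑ ^ 2 := by
  have e1 := fourier_ae f h1 h2
  have e0 := MeasureTheory.Lp.norm_fourier_eq (h2.toLp f)
  obtain ⟨H, hH⟩ : ∃ H : Lp (α := ℝ) ℂ 2, H = 𝓕 (h2.toLp f) := ⟨_, rfl⟩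
  rw [← hH] at e0 e1
  have e2 : ‖H‖ₑ = ‖h2.toLp f‖ₑ := by
    rw [← ofReal_norm, ← ofReal_norm, e0]
  rw [Lp.enorm_def, Lp.enorm_def, eLpNorm_congr_ae e1, eLpNorm_congr_ae h2.coeFn_toLp] at e2
  have e3 : ∀ g : ℝ → ℂ, eLpNorm g 2 volume ^ 2 = ∫⁻ x, ‖g x‖ₑ ^ 2 := by
    intro g
    rw [eLpNorm_eq_lintegral_rpow_enorm_toReal (by norm_num) (by norm_num)]
    rw [← ENNReal.rpow_natCast, ← ENNReal.rpow_mul]
    norm_num
  rw [← e3, ← e3, e2]

end Pool.Agent.TH794.QD
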