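import Pool.Agent.TH794.QD.Mom
import Pool.Agent.TH794.QD.Tor6
import Pool.Agent.TH794.FG.Lat5

/-! From the torus to the lattice, for the second moment. -/

set_option autoImplicit false
set_option linter.unusedSectionVars false

open scoped BigOperators Matrix
open MeasureTheory

namespace Pool.Agent.TH794.QD

open Pool.Agent.W788.BK
open Pool.Agent.W788
open Pool.Agent.W788.MFP.Four Pool.Agent.W788.MFP.Dos Pool.Agent.W788.MFP.Form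
open Pool.Agent.W788.MFP.Ball Pool.Agent.W788.MFP.Crit Pool.Agent.W788.MFP.Cut
open Pool.Agent.W788.MFP.Site Pool.Agent.W788.MF2.Dom Pool.Agent.W788.MF2.FinG
open Pool.Agent.W788.MF2.FormG Pool.Agent.W788.LD.Main Pool.Agent.H4R2
open Pool.Agent.H4R2.LO (Zd)
open Pool.Agent.H695R3.AN (lf lf_inj lf_add lf_sub)
open Pool.Agent.TH794.LL2 (Bq Bq_nonneg cut2)
open Pool.Agent.TH794.FG

variable {d L : ℕ} [NeZero L]

/-- the source on the torus -/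
theorem single_lf (ℓ : ℝ) (hℓ0 : 0 < ℓ) (hL : 4 * ℓ + 4 < L) (y : T d L) :
    φ ℓ (lf y) * (Pi.single (M := fun _ => ℝ) 0 1 : Zd d → ℝ) (lf y) =
      (Pi.single (M := fun _ => ℝ) 0 1 : T d L → ℝ) y := by
  have hz : z L (0 : Zd d) = (0 : T d L) := by
    funext i
    simp [z]
  have h7 : lf (0 : T d L) = 0 := by
    rw [← hz]
    apply lf_z 0
    rw [norm_zero]
    linarith
  by_cases hy : y = 0
  · rw [hy, h7, Pi.single_eq_same, Pi.single_eq_same, mul_one]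
    exact φ_one ℓ hℓ0 0 (by rw [norm_zero]; exact hℓ0.le)
  · rw [Pi.single_eq_of_ne hy, Pi.single_eq_of_ne, mul_zero]
    intro h
    apply hy
    apply lf_inj
    rw [h, h7]

/-- the commutator of the cutoff with the difference -/
theorem Dj_cut (ℓ : ℝ) (hℓ0 : 0 < ℓ) (hL : 4 * ℓ + 4 < L) (j : Fin d) (u : Zd d → ℝ)
    (hu : Summable fun x => u x ^ 2) :
    ∑ y : T d L, (φ ℓ (lf y) * Df j u (lf y) -
      Dj j (fun y : T d L => φ ℓ (lf y) * u (lf y)) y) ^ 2 ≤ 4 / ℓ ^ 2 * ∑' x, u x ^ 2 := by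
  obtain ⟨s1, s2, t1, t2⟩ := shift_sum u (Pi.single j 1) hu
  have h1 : ∀ y : T d L, (φ ℓ (lf y) * Df j u (lf y) -
      Dj j (fun y : T d L => φ ℓ (lf y) * u (lf y)) y) ^ 2 ≤
      2 / ℓ ^ 2 * (u (lf y + Pi.single j 1) ^ 2 + u (lf y - Pi.single j 1) ^ 2) := by
    intro y
    obtain ⟨b1, b2⟩ := MFP.Cut.step ℓ hℓ0 hL u y j
    unfold Df Dj
    obtain ⟨A, hA⟩ : ∃ A, A = φ ℓ (lf (y + Pi.single j 1)) * u (lf (y + Pi.single j 1)) -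
      φ ℓ (lf y) * u (lf y + Pi.single j 1) := ⟨_, rfl⟩
    obtain ⟨B, hB⟩ : ∃ B, B = φ ℓ (lf (y - Pi.single j 1)) * u (lf (y - Pi.single j 1)) -
      φ ℓ (lf y) * u (lf y - Pi.single j 1) := ⟨_, rfl⟩
    rw [← hA] at b1
    rw [← hB] at b2
    have e0 : φ ℓ (lf y) * (u (lf y + Pi.single j 1) - u (lf y - Pi.single j 1)) -
        (φ ℓ (lf (y + Pi.single j 1)) * u (lf (y + Pi.single j 1)) -
          φ ℓ (lf (y - Pi.single j 1)) * u (lf (y - Pi.single j 1))) = B - A := by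
      rw [hA, hB]
      ring
    rw [e0]
    have e1 : A ^ 2 ≤ (1 / ℓ) ^ 2 * u (lf y + Pi.single j 1) ^ 2 := by
      rw [← sq_abs A, ← sq_abs (u (lf y + Pi.single j 1)), ← mul_pow]
      exact pow_le_pow_left₀ (abs_nonneg _) b1 2
    have e2 : B ^ 2 ≤ (1 / ℓ) ^ 2 * u (lf y - Pi.single j 1) ^ 2 := by
      rw [← sq_abs B, ← sq_abs (u (lf y - Pi.single j 1)), ← mul_pow]
      exact pow_le_pow_left₀ (abs_nonneg _) b2 2
    have e3 : (B - A) ^ 2 ≤ 2 * (A ^ 2 + B ^ 2) := by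
      nlinarith [sq_nonneg (A + B)]
    calc (B - A) ^ 2 ≤ 2 * ((1 / ℓ) ^ 2 * u (lf y + Pi.single j 1) ^ 2 +
          (1 / ℓ) ^ 2 * u (lf y - Pi.single j 1) ^ 2) := by linarith
      _ = _ := by ring
  refine (Finset.sum_le_sum fun y _ => h1 y).trans ?_
  rw [← Finset.mul_sum, Finset.sum_add_distrib]
  have h2 := sum_lf (L := L) (fun x => u (x + Pi.single j 1) ^ 2) (fun x => sq_nonneg _) s1
  have h3 := sum_lf (L := L) (fun x => u (x - Pi.single j 1) ^ 2) (fun x => sq_nonneg _) s2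
  rw [t1] at h2
  rw [t2] at h3
  calc 2 / ℓ ^ 2 * (∑ y : T d L, u (lf y + Pi.single j 1) ^ 2 +
        ∑ y : T d L, u (lf y - Pi.single j 1) ^ 2) ≤
      2 / ℓ ^ 2 * (∑' x, u x ^ 2 + ∑' x, u x ^ 2) := by gcongr
    _ = _ := by ring

/-- the tail -/
theorem tail_cut (ℓ : ℝ) (hℓ0 : 0 < ℓ) (hL : 4 * ℓ + 4 < L) (u : Zd d → ℝ)
    (hu : Summable fun x => u x ^ 2) (hx : ∀ i : Fin d, Summable fun x => (cj i x * u x) ^ 2) :
    ∑ y : T d L, (φ ℓ (lf y) * u (lf y)) ^ 2 ≤ ∑' x, u x ^ 2 ∧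
    ∑' x, u x ^ 2 ≤ ∑ y : T d L, (φ ℓ (lf y) * u (lf y)) ^ 2 +
      1 / ℓ ^ 2 * ∑ i : Fin d, ∑' x, (cj i x * u x) ^ 2 := by
  have e0 := sum_tor (L := L) (2 * ℓ) (by linarith) (fun x => (φ ℓ x * u x) ^ 2) (fun x hx => by
    rw [φ_zero ℓ hℓ0 x hx.le]
    ring)
  have h1 : ∀ x, (φ ℓ x * u x) ^ 2 ≤ u x ^ 2 := by
    intro x
    rw [mul_pow]
    exact mul_le_of_le_one_left (sq_nonneg _) (pow_le_one₀ (φ_nonneg _ _) (φ_le_one _ _))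
  have s1 : Summable fun x => (φ ℓ x * u x) ^ 2 :=
    Summable.of_nonneg_of_le (fun x => sq_nonneg _) h1 hu
  rw [e0]
  refine ⟨s1.tsum_le_tsum h1 hu, ?_⟩
  have s2 : Summable fun x => 1 / ℓ ^ 2 * ∑ i : Fin d, (cj i x * u x) ^ 2 :=
    (summable_sum fun i _ => hx i).mul_left _
  have h2 : ∀ x, u x ^ 2 ≤ (φ ℓ x * u x) ^ 2 + 1 / ℓ ^ 2 * ∑ i : Fin d, (cj i x * u x) ^ 2 := by
    intro x
    have hnn : 0 ≤ 1 / ℓ ^ 2 * ∑ i : Fin d, (cj i x * u x) ^ 2 :=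
      mul_nonneg (by positivity) (Finset.sum_nonneg fun _ _ => sq_nonneg _)
    rcases le_or_gt ‖x‖ ℓ with h | h
    · rw [φ_one ℓ hℓ0 x h, one_mul]
      linarith
    · have h3 : ∃ i : Fin d, ℓ < |cj i x| := by
        by_contra hcon
        push Not at hcon
        have : ‖x‖ ≤ ℓ := by
          rw [pi_norm_le_iff_of_nonneg hℓ0.le]
          intro i
          have := hcon i
          unfold cj at this
          rw [Int.norm_eq_abs]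
          exact this
        linarith
      obtain ⟨i, hi⟩ := h3
      have h4 : u x ^ 2 ≤ 1 / ℓ ^ 2 * (cj i x * u x) ^ 2 := by
        rw [mul_pow, ← mul_assoc]
        apply le_mul_of_one_le_left (sq_nonneg _)
        rw [one_div, inv_mul_eq_div, one_le_div (by positivity), ← sq_abs (cj i x)]
        exact pow_le_pow_left₀ hℓ0.le hi.le 2
      have h5 : (cj i x * u x) ^ 2 ≤ ∑ i : Fin d, (cj i x * u x) ^ 2 :=
        Finset.single_le_sum (f := fun i : Fin d => (cj i x * u x) ^ 2)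
          (fun _ _ => sq_nonneg _) (Finset.mem_univ i)
      have h6 : 1 / ℓ ^ 2 * (cj i x * u x) ^ 2 ≤ 1 / ℓ ^ 2 * ∑ i : Fin d, (cj i x * u x) ^ 2 :=
        mul_le_mul_of_nonneg_left h5 (by positivity)
      have := sq_nonneg (φ ℓ x * u x)
      linarith
  refine (hu.tsum_le_tsum h2 (s1.add s2)).trans (le_of_eq ?_)
  rw [s1.tsum_add s2, tsum_mul_left, Summable.tsum_finsetSum fun i _ => hx i]

theorem two_sq (a b A B : ℝ) (hA : 0 ≤ A) (hB : 0 ≤ B) (ha : a ≤ A ^ 2) (hb : b ≤ B ^ 2) :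
    2 * a + 2 * b ≤ (2 * (A + B)) ^ 2 := by
  have := mul_nonneg hA hB
  nlinarith [sq_nonneg A, sq_nonneg B]

/-- **the Green function and its moment as approximate solutions on the torus** -/
theorem tor_green {σ : ℝ} {ξ : Zd d → ℝ} {E t : ℝ} {ur ui : Zd d → ℝ} (ℓ : ℝ) (hℓ0 : 0 < ℓ)
    (hL : 4 * ℓ + 4 < L) (ht : 0 < t) (ht1 : t ≤ 1)
    (h : LS d σ ξ (Pi.single 0 1) (fun _ => 0) E t ur ui) (j : Fin d) :
    ∃ vr vi rr ri wr wi sr si : T d L → ℝ,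
      Sol3 E t (fun y => σ * ξ (lf y)) (Pi.single 0 1) (fun _ => 0) vr vi rr ri ∧
      Sol3 E t (fun y => σ * ξ (lf y)) (Dj j vr) (Dj j vi) wr wi sr si ∧
      Real.sqrt (Bq vr vi) ≤ t⁻¹ ∧ Real.sqrt (Bq rr ri) ≤ 2 * d / ℓ * t⁻¹ ∧
      Real.sqrt (Bq wr wi) ≤ 2 * (t⁻¹) ^ 2 ∧
      Real.sqrt (Bq sr si) ≤ (8 * d + 4) / ℓ * (t⁻¹) ^ 2 ∧
      |Bq wr wi - (∑' x, (cj j x * ur x) ^ 2 + ∑' x, (cj j x * ui x) ^ 2)| ≤
        176 * d / ℓ ^ 2 * (t⁻¹) ^ 6 := by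
  obtain ⟨hT, hLS, hT2, hT3⟩ := green h ht ht1 j
  have hti : 1 ≤ t⁻¹ := by
    rw [one_le_inv₀ ht]
    exact ht1
  obtain ⟨rr, hr1, hr2, hr3⟩ := cut2 (L := L) σ E ℓ hℓ0 hL ξ ur _ h.sr h.er
  obtain ⟨ri, hi1, hi2, hi3⟩ := cut2 (L := L) σ E ℓ hℓ0 hL ξ ui _ h.si h.ei
  obtain ⟨pr', hp1, hp2, hp3⟩ := cut2 (L := L) σ E ℓ hℓ0 hL ξ _ _ hLS.sr hLS.er
  obtain ⟨pi', hq1, hq2, hq3⟩ := cut2 (L := L) σ E ℓ hℓ0 hL ξ _ _ hLS.si hLS.ei
  obtain ⟨vr, hvr⟩ : ∃ vr : T d L → ℝ, vr = fun y => φ ℓ (lf y) * ur (lf y) := ⟨_, rfl⟩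
  obtain ⟨vi, hvi⟩ : ∃ vi : T d L → ℝ, vi = fun y => φ ℓ (lf y) * ui (lf y) := ⟨_, rfl⟩
  obtain ⟨cr, hcr⟩ : ∃ cr : T d L → ℝ, cr = fun y => φ ℓ (lf y) * Df j ur (lf y) - Dj j vr y :=
    ⟨_, rfl⟩
  obtain ⟨ci, hci⟩ : ∃ ci : T d L → ℝ, ci = fun y => φ ℓ (lf y) * Df j ui (lf y) - Dj j vi y :=
    ⟨_, rfl⟩
  have hDr := Dj_cut (L := L) ℓ hℓ0 hL j ur h.sr
  have hDi := Dj_cut (L := L) ℓ hℓ0 hL j ui h.si
  refine ⟨vr, vi, rr, ri, fun y => φ ℓ (lf y) * (cj j (lf y) * ur (lf y)),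
    fun y => φ ℓ (lf y) * (cj j (lf y) * ui (lf y)), fun y => pr' y + cr y,
    fun y => pi' y + ci y, ?_, ?_, ?_, ?_, ?_, ?_, ?_⟩
  · refine ⟨fun x => ?_, fun x => ?_⟩
    · rw [hvr, hvi, hr1 x, mul_sub, single_lf ℓ hℓ0 hL]
      ring
    · rw [hvr, hvi, hi1 x]
      ring
  · refine ⟨fun x => ?_, fun x => ?_⟩
    · rw [hp1 x, hcr]
      ring
    · rw [hq1 x, hci]
      ring
  · rw [Real.sqrt_le_left (inv_nonneg.2 ht.le), hvr, hvi]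
    refine le_trans ?_ hT
    exact add_le_add hr2 hi2
  · rw [Real.sqrt_le_left (by positivity)]
    calc Bq rr ri ≤ (2 * d / ℓ) ^ 2 * ∑' x, ur x ^ 2 + (2 * d / ℓ) ^ 2 * ∑' x, ui x ^ 2 :=
          add_le_add hr3 hi3
      _ = (2 * d / ℓ) ^ 2 * (∑' x, ur x ^ 2 + ∑' x, ui x ^ 2) := by ring
      _ ≤ (2 * d / ℓ) ^ 2 * (t⁻¹) ^ 2 := by gcongr
      _ = _ := by ring
  · rw [Real.sqrt_le_left (by positivity)]
    refine le_trans ?_ hT2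
    exact add_le_add hp2 hq2
  · rw [Real.sqrt_le_left (by positivity)]
    have e1 : Bq (fun y => pr' y + cr y) (fun y => pi' y + ci y) ≤
        2 * Bq pr' pi' + 2 * Bq cr ci := by
      unfold Bq
      have hfg : ∀ f g : T d L → ℝ, ∑ y, (f y + g y) ^ 2 ≤
          2 * ∑ y, f y ^ 2 + 2 * ∑ y, g y ^ 2 := by
        intro f g
        rw [Finset.mul_sum, Finset.mul_sum, ← Finset.sum_add_distrib]
        refine Finset.sum_le_sum fun y _ => ?_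
        have := add_sq_le (a := f y) (b := g y)
        linarith
      have := hfg pr' cr
      have := hfg pi' ci
      linarith
    have e2 : Bq pr' pi' ≤ ((2 * d / ℓ) * (2 * (t⁻¹) ^ 2)) ^ 2 := by
      calc Bq pr' pi' ≤ (2 * d / ℓ) ^ 2 * ∑' x, (cj j x * ur x) ^ 2 +
            (2 * d / ℓ) ^ 2 * ∑' x, (cj j x * ui x) ^ 2 := add_le_add hp3 hq3
        _ = (2 * d / ℓ) ^ 2 * (∑' x, (cj j x * ur x) ^ 2 + ∑' x, (cj j x * ui x) ^ 2) := by ring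
        _ ≤ (2 * d / ℓ) ^ 2 * (2 * (t⁻¹) ^ 2) ^ 2 := by gcongr
        _ = _ := by ring
    have e3 : Bq cr ci ≤ (2 / ℓ * (t⁻¹) ^ 2) ^ 2 := by
      have a1 : Bq cr ci ≤ 4 / ℓ ^ 2 * ∑' x, ur x ^ 2 + 4 / ℓ ^ 2 * ∑' x, ui x ^ 2 := by
        rw [hcr, hci, hvr, hvi]
        exact add_le_add hDr hDi
      have a2 : (t⁻¹) ^ 2 ≤ ((t⁻¹) ^ 2) ^ 2 := by
        have : 1 ≤ (t⁻¹) ^ 2 := one_le_pow₀ hti
        nlinarith
      calc Bq cr ci ≤ 4 / ℓ ^ 2 * (∑' x, ur x ^ 2 + ∑' x, ui x ^ 2) := by linarith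
        _ ≤ 4 / ℓ ^ 2 * ((t⁻¹) ^ 2) ^ 2 := by gcongr; exact hT.trans a2
        _ = _ := by ring
    refine e1.trans ((two_sq _ _ _ _ (by positivity) (by positivity) e2 e3).trans (le_of_eq ?_))
    ring
  · have hwr : ∀ u : Zd d → ℝ, (fun y : T d L => φ ℓ (lf y) * (cj j (lf y) * u (lf y))) =
        fun y => φ ℓ (lf y) * (fun x => cj j x * u x) (lf y) := fun u => rfl
    have b1 := tail_cut (L := L) ℓ hℓ0 hL (fun x => cj j x * ur x) hLS.sr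
      (fun i => (hT3 i).1)
    have b2 := tail_cut (L := L) ℓ hℓ0 hL (fun x => cj j x * ui x) hLS.si
      (fun i => (hT3 i).2.1)
    have b3 : ∑ i : Fin d, ∑' x, (cj i x * (cj j x * ur x)) ^ 2 +
        ∑ i : Fin d, ∑' x, (cj i x * (cj j x * ui x)) ^ 2 ≤ d * (176 * (t⁻¹) ^ 6) := by
      rw [← Finset.sum_add_distrib]
      refine (Finset.sum_le_sum fun i _ => (hT3 i).2.2).trans (le_of_eq ?_)
      rw [Finset.sum_const, Finset.card_univ, Fintype.card_fin, nsmul_eq_mul]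
    have b4 : 1 / ℓ ^ 2 * (∑ i : Fin d, ∑' x, (cj i x * (cj j x * ur x)) ^ 2 +
        ∑ i : Fin d, ∑' x, (cj i x * (cj j x * ui x)) ^ 2) ≤ 176 * d / ℓ ^ 2 * (t⁻¹) ^ 6 := by
      calc _ ≤ 1 / ℓ ^ 2 * (d * (176 * (t⁻¹) ^ 6)) :=
            mul_le_mul_of_nonneg_left b3 (by positivity)
        _ = _ := by ring
    unfold Bq
    rw [abs_le]
    have b5 := b1.1
    have b6 := b1.2
    have b7 := b2.1
    have b8 := b2.2
    have b9 : 0 ≤ 176 * d / ℓ ^ 2 * (t⁻¹) ^ 6 := by positivity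
    constructor
    · linarith
    · linarith

/-- the law of the second moment -/
def QLaw (d : ℕ) (σ R t W e3 s2 u0 : ℝ) (ξ : Zd d → ℝ) : Prop :=
  ∀ a : Zd d, ‖a‖ ≤ R → ∀ E : ℝ, |E| ≤ W → ∀ ur ui : Zd d → ℝ,
    LS d σ ξ (fun x => (Pi.single (M := fun _ => ℝ) 0 1 : Zd d → ℝ) (x - a)) (fun _ => 0) E t
      ur ui → ∀ j : Fin d,
    |t ^ 2 * s2 * (∑' x, (((x j : ℝ) - a j) * ur x) ^ 2 + ∑' x, (((x j : ℝ) - a j) * ui x) ^ 2) -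
      2 * Pf d u0 E| ≤ e3

theorem continuous_FQ (E δ θ η : ℝ) (hη : 0 < η) (σ : T d L → ℝ) :
    Continuous fun V : T d L → ℝ => FQ E δ θ η σ V := by
  have hX := Pool.Agent.W363.BK.D0_herm (d := d) (L := L) E δ
  have hA := fun y => Pool.Agent.W363.BK.AA_herm (d := d) (L := L) E δ θ y
  simp only [FQ_nsq _ _ _ _ _ _ hη]
  refine continuous_const.mul ?_
  have hc := continuous_RR hX hA hη
  have h1 : Continuous fun V : T d L → ℝ => RR (D0 E δ) (AA E δ θ) η V *ᵥ (SD E δ σ *ᵥ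
      (RR (D0 E δ) (AA E δ θ) η V *ᵥ w0 (d := d) (L := L) E δ)) :=
    hc.matrix_mulVec (continuous_const.matrix_mulVec (hc.matrix_mulVec continuous_const))
  unfold nsq
  refine continuous_finsetSum _ fun k _ => ?_
  exact ((continuous_apply k).comp h1).norm.pow 2

/-- **the lattice event** -/
theorem mainQ (hO : S_OSC) (hd : 3 ≤ d) (μ : Measure ℝ) [IsProbabilityMeasure μ] (c : ℝ)
    (hμ : DomBy μ c) (σ R δ θ η κ g1 ρ ρ2 τ Kf ζ s2 u0 ω1 W α e3 e4 ℓ : ℝ) (M : ℕ) (hσ : 0 < σ)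
    (hR : 1 ≤ R) (hδ : 0 < δ) (hδ1 : δ ≤ 1 / 2) (hη : 0 < η) (hη1 : η ≤ 1) (ht1 : η * δ ≤ 1)
    (hκ : 0 < κ) (hκ2 : κ ≤ 1 / 2)
    (hζ : 0 < ζ) (hM : W + ζ ≤ ζ * M)
    (hg : ∀ E, ∑ k : T d L, (JJ E δ k)⁻¹ ≤ g1 * NN d L) (hg0 : 0 ≤ g1)
    (hs2 : 0 < s2) (hu0 : u0 = η * δ / s2) (hω1 : ω1 ≤ 1 / 4)
    (hρ0 : 0 ≤ ρ) (hρ20 : 0 ≤ ρ2) (hτ : 0 ≤ τ) (hKf : 0 ≤ Kf)
    (hκ' : τ / (η * δ) + 4 * (κ + η) ≤ 1 / 2)
    (ρ' ρ2' : ℝ) (hρ' : ρ' = 2 * (ρ + ζ * (η * δ)⁻¹))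
    (hρ2' : ρ2' = 2 * (ρ2 + ζ * (2 * ((η * δ)⁻¹) ^ 2)))
    (h1 : 2 * (τ / (η * δ) + 2 * (κ + η)) * (Kf + ρ' / (η * δ)) +
      2 * Real.sqrt Kf * (2 * (Real.sqrt η * Real.sqrt g1) +
        3 * (ρ' / Real.sqrt (η * δ))) + ρ' / (η * δ) ≤ 1)
    (B A1 A2 : ℝ) (hB : B = Real.sqrt ((Kf + 1) / (η * δ)))
    (hA1 : A1 = 2 / δ * (η⁻¹ * (η⁻¹ * ((Real.sqrt δ)⁻¹ * (ρ' + τ * B) + η * (2 * Real.sqrt g1 +
      2 * (κ + η) * (Real.sqrt δ * B) + 2 * ((Real.sqrt δ)⁻¹ * ρ'))))))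
    (hA2 : A2 = 8 * ((Real.sqrt δ)⁻¹ * B) + (η⁻¹ + 4) * ((Real.sqrt δ)⁻¹ * ρ2'))
    (hα : η * δ * Real.sqrt (s2 / δ) * (A1 + A2) + 2 * (τ / (η * δ) + 4 * (κ + η)) ≤ α)
    (hα1 : α ≤ 1)
    (he3 : 12 * α + 8 * ω1 + 4 * CH d * ζ ^ (1 / 8 : ℝ) / u0 ≤ e3)
    (hℓ0 : 0 < ℓ) (hL : 4 * ℓ + 4 < L) (hρℓ : 2 * d / ℓ * (η * δ)⁻¹ ≤ ρ)
    (hρ2ℓ : (8 * d + 4) / ℓ * ((η * δ)⁻¹) ^ 2 ≤ ρ2)
    (he4 : e3 + (η * δ) ^ 2 * s2 * (176 * d / ℓ ^ 2 * ((η * δ)⁻¹) ^ 6) ≤ e4)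
    (p : ℕ) (hp : p ≠ 0) (ε1 ε : ℝ)
    (hgood : (PP (T d L) (μ.map fun s => σ * s)).real
      (Good5 (d := d) (L := L) δ θ η τ ζ Kf u0 ω1 M)ᶜ ≤ ε1)
    (hε : (3 * R) ^ d * ((8 * d / δ) * ((8 * p * g1 * c ^ 2 * σ ^ 2 / (δ * κ ^ 2)) ^ p *
      (L : ℝ) ^ d) + ε1) ≤ ε) :
    ∃ G : Set (Zd d → ℝ), MeasurableSet G ∧
      1 - ε ≤ (Measure.infinitePi fun _ : Zd d => μ).real G ∧
      ∀ ξ ∈ G, QLaw d σ R (η * δ) W e4 s2 u0 ξ := by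
  have hmeas : MeasurableSet (Good5 (d := d) (L := L) δ θ η τ ζ Kf u0 ω1 M) :=
    good5_meas δ θ η τ ζ Kf u0 ω1 M hη fun E j => continuous_FQ E δ θ η hη (sg j)
  have ht : 0 < η * δ := by positivity
  have hGB : GB d L δ g1 := by
    intro E
    have e1 := hg E
    rw [inv_mul_le_iff₀ NN_pos]
    have e2 : ∑ k : T d L, (J E δ k)⁻¹ = ∑ k : T d L, (JJ E δ k)⁻¹ := rfl
    rw [e2]
    linarith
  obtain ⟨G1, hG1, hP1, hb⟩ := formE (d := d) (L := L) (by omega) μ c hμ δ g1 hδ hδ1 hGB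
    (κ / (2 * σ)) (by positivity) p hp
  have hsm : Measurable fun (V : T d L → ℝ) y => σ * V y := by fun_prop
  obtain ⟨G2, hG2⟩ : ∃ G2, G2 = (fun (V : T d L → ℝ) y => σ * V y) ⁻¹'
    Good5 (d := d) (L := L) δ θ η τ ζ Kf u0 ω1 M := ⟨_, rfl⟩
  have hG2m : MeasurableSet G2 := by
    rw [hG2]
    exact hsm hmeas
  have hpm : IsProbabilityMeasure (μ.map fun s => σ * s) :=
    Measure.isProbabilityMeasure_map (by fun_prop)
  have hP2 : (Measure.pi fun _ : T d L => μ).real G2ᶜ ≤ ε1 := by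
    have e1 : PP (T d L) (μ.map fun s => σ * s) =
        (Measure.pi fun _ : T d L => μ).map (fun (V : T d L → ℝ) y => σ * V y) := by
      unfold PP
      rw [Measure.pi_map_pi (μ := fun _ : T d L => μ) (f := fun _ (s : ℝ) => σ * s)]
      intro i
      fun_prop
    rw [e1, map_measureReal_apply hsm hmeas.compl] at hgood
    rw [hG2]
    exact hgood
  have hG : MeasurableSet (G1 ∩ G2) := hG1.inter hG2m
  have hP : (3 * R) ^ d * (Measure.pi fun _ : T d L => μ).real (G1 ∩ G2)ᶜ ≤ ε := by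
    refine le_trans ?_ hε
    apply mul_le_mul_of_nonneg_left _ (by positivity)
    rw [Set.compl_inter]
    refine (measureReal_union_le _ _).trans (add_le_add ?_ hP2)
    refine hP1.trans ?_
    apply mul_le_mul_of_nonneg_left _ (by positivity)
    have e1 : 2 * p * g1 * δ⁻¹ * c ^ 2 / (κ / (2 * σ)) ^ 2 =
        8 * p * g1 * c ^ 2 * σ ^ 2 / (δ * κ ^ 2) := by
      field_simp
      ring
    rw [e1]
    exact le_refl _
  set Bx : Finset (Zd d) := LO.bx (0 : Zd d) ⌊R⌋₊ with hBx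
  set Rr : Zd d → (Zd d → ℝ) → (T d L → ℝ) := fun a ω y => ω (lf y + a) with hRr
  have hRm : ∀ a, Measurable (Rr a) := fun a => measurable_pi_iff.2 fun y => measurable_pi_apply _
  have hPa : ∀ a, (Measure.infinitePi fun _ : Zd d => μ).real (Rr a ⁻¹' (G1 ∩ G2))ᶜ =
      (Measure.pi fun _ : T d L => μ).real (G1 ∩ G2)ᶜ := by
    intro a
    have h1 : (Measure.infinitePi fun _ : Zd d => μ).real (Rr a ⁻¹' (G1 ∩ G2)ᶜ) =
        (Measure.pi fun _ : T d L => μ).real (G1 ∩ G2)ᶜ := by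
      rw [← Gen3.law_shift (d := d) (L := L) μ a, map_measureReal_apply (hRm a) hG.compl]
    exact h1
  have hm : MeasurableSet (⋂ a ∈ Bx, Rr a ⁻¹' (G1 ∩ G2)) :=
    Finset.measurableSet_biInter _ fun a _ => hRm a hG
  refine ⟨⋂ a ∈ Bx, Rr a ⁻¹' (G1 ∩ G2), hm, ?_, ?_⟩
  · have h2 := probReal_add_probReal_compl (μ := Measure.infinitePi fun _ : Zd d => μ) hm
    have h3 : (Measure.infinitePi fun _ : Zd d => μ).real (⋂ a ∈ Bx, Rr a ⁻¹' (G1 ∩ G2))ᶜ ≤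
        (3 * R) ^ d * (Measure.pi fun _ : T d L => μ).real (G1 ∩ G2)ᶜ := by
      have e1 : (⋂ a ∈ Bx, Rr a ⁻¹' (G1 ∩ G2))ᶜ = ⋃ a ∈ Bx, (Rr a ⁻¹' (G1 ∩ G2))ᶜ := by
        simp only [Set.compl_iInter]
      rw [e1]
      refine (measureReal_biUnion_finset_le _ _).trans
        ((Finset.sum_le_sum fun a _ => (hPa a).le).trans ?_)
      rw [Finset.sum_const, nsmul_eq_mul, hBx, LO.Em.card_bx]
      apply mul_le_mul_of_nonneg_right _ measureReal_nonneg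
      push_cast
      apply pow_le_pow_left₀ (by positivity)
      have := Nat.floor_le (show 0 ≤ R by linarith)
      linarith
    linarith
  · intro ξ hξ a ha E hE ur ui hLS j
    have haB : a ∈ Bx := Gen3.norm_zd a R ha
    have hV : Rr a ξ ∈ G1 ∩ G2 := Set.mem_iInter₂.1 hξ a haB
    have hV2 := hV.2
    rw [hG2] at hV2
    have hLS0 : LS d σ (fun x => ξ (x + a)) (Pi.single 0 1) (fun _ => 0) E (η * δ)
        (fun x => ur (x + a)) (fun x => ui (x + a)) :=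
      LS.shift (fr := Pi.single 0 1) (fi := fun _ => 0) a hLS
    obtain ⟨vr, vi, rr, ri, wr, wi, sr, si, hs1, hs2', hv1, hv2, hw1, hw2, hfin⟩ :=
      tor_green (L := L) ℓ hℓ0 hL ht ht1 hLS0 j
    have hform : ∀ (E : ℝ) (w : T d L → ℝ),
        |∑ x, (σ * ξ (lf x + a)) * w x ^ 2| ≤ κ * q (JJ E δ) w := by
      intro E w
      have e1 := hb _ hV.1 E w
      have e2 : ∑ x, (σ * ξ (lf x + a)) * w x ^ 2 = σ * ∑ x, Rr a ξ x * w x ^ 2 := by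
        rw [Finset.mul_sum]
        exact Finset.sum_congr rfl fun x _ => by rw [hRr]; ring
      rw [e2, abs_mul, abs_of_pos hσ]
      calc σ * |∑ x, Rr a ξ x * w x ^ 2| ≤ σ * (2 * (κ / (2 * σ)) * q (J E δ) w) :=
            mul_le_mul_of_nonneg_left e1 hσ.le
        _ = κ * q (J E δ) w := by
            field_simp
        _ = _ := rfl
    have hq := tor5 hO hd δ θ η κ g1 ρ ρ2 τ Kf ζ s2 u0 ω1 W α e3 M j hδ hη hη1 hκ hκ2 hζ hM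
      (fun y => σ * ξ (lf y + a)) hV2 hform hg hg0 hs2 hu0 hω1 hρ0 hρ20 hτ hKf hκ' ρ' ρ2' hρ' hρ2'
      h1 B A1 A2 hB hA1 hA2 hα hα1 he3 E hE vr vi rr ri wr wi sr si hs1 hs2' (hv2.trans hρℓ)
      (hw2.trans hρ2ℓ) hv1 hw1
    have e5 : ∀ u : Zd d → ℝ, ∑' x, (((x j : ℝ) - a j) * u x) ^ 2 =
        ∑' x, (cj j x * u (x + a)) ^ 2 := by
      intro u
      rw [← (Equiv.addRight a).tsum_eq fun x => (((x j : ℝ) - a j) * u x) ^ 2]
      refine tsum_congr fun x => ?_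
      simp only [Equiv.coe_addRight, Pi.add_apply]
      unfold cj
      push_cast
      rw [add_sub_cancel_right]
    rw [e5, e5]
    obtain ⟨S, hS⟩ : ∃ S, S = ∑' x, (cj j x * ur (x + a)) ^ 2 + ∑' x, (cj j x * ui (x + a)) ^ 2 :=
      ⟨_, rfl⟩
    rw [← hS] at hfin ⊢
    have e6 : |(η * δ) ^ 2 * s2 * S - (η * δ) ^ 2 * s2 * Bq wr wi| ≤
        (η * δ) ^ 2 * s2 * (176 * d / ℓ ^ 2 * ((η * δ)⁻¹) ^ 6) := by
      rw [← mul_sub, abs_mul, abs_of_nonneg (by positivity : 0 ≤ (η * δ) ^ 2 * s2), abs_sub_comm]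
      gcongr
    have e7 := abs_sub_le ((η * δ) ^ 2 * s2 * S) ((η * δ) ^ 2 * s2 * Bq wr wi) (2 * Pf d u0 E)
    linarith

end Pool.Agent.TH794.QD
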