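import Pool.Agent.TH794.QD.Lap
import Pool.Agent.TH794.QD.Planch

/-! Plancherel for the Laplace transform, and the sum over the lattice. -/

set_option autoImplicit false
set_option linter.unusedSectionVars false

open scoped BigOperators Topology ENNReal FourierTransform
open MeasureTheory Filter Set

namespace Pool.Agent.TH794.QD

open Pool.Agent.H4R2.LO (Zd)

variable {d : ℕ} {V : Zd d → ℝ} {a : Zd d} {ψ : ℝ → Zd d → ℂ}

/-- the function to be transformed -/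
noncomputable def fx (ψ : ℝ → Zd d → ℂ) (t : ℝ) (x : Zd d) (s : ℝ) : ℂ :=
  (Ioi (0 : ℝ)).indicator (fun s => ew 0 t s * ψ s x) s

theorem fx_fourier (t : ℝ) (x : Zd d) (w : ℝ) :
    𝓕 (fx ψ t x) w = La ψ (-2 * Real.pi * w) t x := by
  rw [Real.fourier_real_eq_integral_exp_smul]
  unfold La fx
  rw [← integral_indicator measurableSet_Ioi]
  refine integral_congr_ae (Filter.Eventually.of_forall fun s => ?_)
  simp only
  by_cases hs : s ∈ Ioi (0 : ℝ)
  · rw [indicator_of_mem hs, indicator_of_mem hs, smul_eq_mul, ← mul_assoc]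
    congr 1
    unfold ew
    rw [← Complex.exp_add]
    congr 1
    push_cast
    ring
  · rw [indicator_of_notMem hs, indicator_of_notMem hs, smul_zero]

theorem fx_int (h : Sol d V a ψ) (t : ℝ) (ht : 0 < t) (x : Zd d) : Integrable (fx ψ t x) := by
  have h1 := La_int h 0 t ht x
  exact (integrable_indicator_iff measurableSet_Ioi).2 h1

theorem fx_le (h : Sol d V a ψ) (t : ℝ) (ht : 0 < t) (x : Zd d) (s : ℝ) : ‖fx ψ t x s‖ ≤ 1 := by
  unfold fx
  by_cases hs : s ∈ Ioi (0 : ℝ)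
  · rw [indicator_of_mem hs, norm_mul, ew_norm]
    have hs0 : 0 < s := hs
    have h1 : Real.exp (-t * s) ≤ 1 := by
      apply Real.exp_le_one_iff.2
      nlinarith
    exact mul_le_one₀ h1 (norm_nonneg _) (h.le_one s x)
  · rw [indicator_of_notMem hs, norm_zero]
    exact zero_le_one

theorem fx_two (h : Sol d V a ψ) (t : ℝ) (ht : 0 < t) (x : Zd d) : MemLp (fx ψ t x) 2 := by
  have h1 := fx_int h t ht x
  rw [memLp_two_iff_integrable_sq_norm h1.aestronglyMeasurable]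
  refine Integrable.mono' h1.norm (h1.aestronglyMeasurable.norm.pow 2) ?_
  refine Filter.Eventually.of_forall fun s => ?_
  rw [norm_pow, norm_norm, sq]
  exact mul_le_of_le_one_left (norm_nonneg _) (fx_le h t ht x s)

theorem La_cont (h : Sol d V a ψ) (t : ℝ) (ht : 0 < t) (x : Zd d) :
    Continuous fun E => La ψ E t x := by
  have h1 : Continuous (𝓕 (fx ψ t x)) :=
    VectorFourier.fourierIntegral_continuous Real.continuous_fourierChar
      (by exact continuous_inner) (fx_int h t ht x)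
  have h2 : (fun E => La ψ E t x) = fun E => 𝓕 (fx ψ t x) (E * (-2 * Real.pi)⁻¹) := by
    funext E
    rw [fx_fourier]
    congr 1
    have := Real.pi_ne_zero
    field_simp
  rw [h2]
  exact h1.comp (by fun_prop)

theorem scale (g : ℝ → ℝ≥0∞) (hg : Measurable g) :
    ∫⁻ E, g E = ENNReal.ofReal (2 * Real.pi) * ∫⁻ w, g (-2 * Real.pi * w) := by
  have hp : (-2 * Real.pi) ≠ 0 := by
    have := Real.pi_ne_zero
    simp [this]
  have h1 := Real.map_volume_mul_left hp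
  have h2 : ∫⁻ w, g (-2 * Real.pi * w) = ∫⁻ E, g E ∂(Measure.map (-2 * Real.pi * ·) volume) := by
    rw [lintegral_map hg (by fun_prop)]
  rw [h2, h1, lintegral_smul_measure, smul_eq_mul, ← mul_assoc, ← ENNReal.ofReal_mul (by positivity)]
  have h3 : 2 * Real.pi * |(-2 * Real.pi)⁻¹| = 1 := by
    rw [abs_inv, abs_mul, abs_neg, abs_two, abs_of_pos Real.pi_pos]
    have := Real.pi_ne_zero
    field_simp
  rw [h3, ENNReal.ofReal_one, one_mul]

/-- Plancherel at a site -/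
theorem La_pl (h : Sol d V a ψ) (t : ℝ) (ht : 0 < t) (x : Zd d) :
    ∫⁻ E, ‖La ψ E t x‖ₑ ^ 2 =
      ENNReal.ofReal (2 * Real.pi) * ∫⁻ s in Ioi (0 : ℝ), ‖ew 0 t s * ψ s x‖ₑ ^ 2 := by
  rw [scale _ ((La_cont h t ht x).enorm.measurable.pow_const 2)]
  congr 1
  have h1 := plancherel (fx ψ t x) (fx_int h t ht x) (fx_two h t ht x)
  simp only [fx_fourier] at h1
  rw [h1, ← lintegral_indicator measurableSet_Ioi]
  refine lintegral_congr fun s => ?_
  unfold fx
  by_cases hs : s ∈ Ioi (0 : ℝ)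
  · rw [indicator_of_mem hs, indicator_of_mem hs]
  · rw [indicator_of_notMem hs, indicator_of_notMem hs]
    simp

/-- the sum over the lattice -/
theorem La_tsum (h : Sol d V a ψ) (t : ℝ) (ht : 0 < t) (w : Zd d → ℝ≥0∞) :
    ∫⁻ E, ∑' x, w x * ‖La ψ E t x‖ₑ ^ 2 =
      ENNReal.ofReal (2 * Real.pi) *
        ∫⁻ s in Ioi (0 : ℝ), ∑' x, w x * ‖ew 0 t s * ψ s x‖ₑ ^ 2 := by
  have m1 : ∀ x, Measurable fun E => ‖La ψ E t x‖ₑ ^ 2 := fun x =>
    (La_cont h t ht x).enorm.measurable.pow_const 2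
  have m2 : ∀ x, Measurable fun s => ‖ew 0 t s * ψ s x‖ₑ ^ 2 := fun x =>
    ((ew_cont 0 t).mul (h.cont x)).enorm.measurable.pow_const 2
  rw [lintegral_tsum fun x => ((m1 x).const_mul (w x)).aemeasurable,
    lintegral_tsum fun x => ((m2 x).const_mul (w x)).aemeasurable, ← ENNReal.tsum_mul_left]
  refine tsum_congr fun x => ?_
  rw [lintegral_const_mul _ (m1 x), lintegral_const_mul _ (m2 x), La_pl h t ht x]
  ring

/-- the real form -/
theorem La_real (h : Sol d V a ψ) (t : ℝ) (ht : 0 < t) (w : Zd d → ℝ) (hw : ∀ x, 0 ≤ w x)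
    (hs : ∀ E, Summable fun x => w x * ‖La ψ E t x‖ ^ 2) (C : ℝ → ℝ)
    (hC : Integrable C) (hC2 : ∀ E, ∑' x, w x * ‖La ψ E t x‖ ^ 2 ≤ C E) :
    Integrable (fun E => ∑' x, w x * ‖La ψ E t x‖ ^ 2) ∧
    IntegrableOn (fun s => Real.exp (-(2 * t) * s) * ∑' x, w x * ‖ψ s x‖ ^ 2) (Ioi 0) ∧
    (∀ᵐ s ∂(volume.restrict (Ioi (0 : ℝ))), Summable fun x => w x * ‖ψ s x‖ ^ 2) ∧
    ∫ E, ∑' x, w x * ‖La ψ E t x‖ ^ 2 =
      2 * Real.pi * ∫ s in Ioi (0 : ℝ), Real.exp (-(2 * t) * s) * ∑' x, w x * ‖ψ s x‖ ^ 2 := by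
  obtain ⟨W, hW⟩ : ∃ W : Zd d → ℝ≥0∞, W = fun x => ENNReal.ofReal (w x) := ⟨_, rfl⟩
  have hmain := La_tsum h t ht W
  have m1 : Measurable fun E => ∑' x, W x * ‖La ψ E t x‖ₑ ^ 2 :=
    Measurable.ennreal_tsum fun x =>
      ((La_cont h t ht x).enorm.measurable.pow_const 2).const_mul (W x)
  have m2 : Measurable fun s => ∑' x, W x * ‖ew 0 t s * ψ s x‖ₑ ^ 2 :=
    Measurable.ennreal_tsum fun x =>
      (((ew_cont 0 t).mul (h.cont x)).enorm.measurable.pow_const 2).const_mul (W x)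
  have hterm : ∀ (x : Zd d) (c : ℂ), W x * ‖c‖ₑ ^ 2 = ENNReal.ofReal (w x * ‖c‖ ^ 2) := by
    intro x c
    rw [hW, ENNReal.ofReal_mul (hw x), ENNReal.ofReal_pow (norm_nonneg _), ofReal_norm]
  have e1 : ∀ E, (∑' x, W x * ‖La ψ E t x‖ₑ ^ 2) = ENNReal.ofReal (∑' x, w x * ‖La ψ E t x‖ ^ 2) := by
    intro E
    simp only [hterm]
    rw [ENNReal.ofReal_tsum_of_nonneg (fun x => mul_nonneg (hw x) (sq_nonneg _)) (hs E)]
  have e2 : ∀ s, (∑' x, W x * ‖ew 0 t s * ψ s x‖ₑ ^ 2).toReal =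
      Real.exp (-(2 * t) * s) * ∑' x, w x * ‖ψ s x‖ ^ 2 := by
    intro s
    simp only [hterm]
    rw [ENNReal.tsum_toReal_eq fun x => ENNReal.ofReal_ne_top, ← tsum_mul_left]
    refine tsum_congr fun x => ?_
    rw [ENNReal.toReal_ofReal (mul_nonneg (hw x) (sq_nonneg _)), norm_mul, ew_norm, mul_pow,
      ← Real.exp_nat_mul]
    have e3 : ((2 : ℕ) : ℝ) * (-t * s) = -(2 * t) * s := by
      push_cast
      ring
    rw [e3]
    ring
  have hA0 : ∀ E, 0 ≤ ∑' x, w x * ‖La ψ E t x‖ ^ 2 := fun E =>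
    tsum_nonneg fun x => mul_nonneg (hw x) (sq_nonneg _)
  have hfin : ∫⁻ E, ∑' x, W x * ‖La ψ E t x‖ₑ ^ 2 ≠ ∞ := by
    simp only [e1]
    have h1 : ∫⁻ E, ENNReal.ofReal (∑' x, w x * ‖La ψ E t x‖ ^ 2) ≤
        ∫⁻ E, ENNReal.ofReal (C E) :=
      lintegral_mono fun E => ENNReal.ofReal_le_ofReal (hC2 E)
    refine ne_top_of_le_ne_top ?_ h1
    exact hC.lintegral_lt_top.ne
  have hfin2 : ∫⁻ s in Ioi (0 : ℝ), ∑' x, W x * ‖ew 0 t s * ψ s x‖ₑ ^ 2 ≠ ∞ := by
    intro h0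
    rw [h0, ENNReal.mul_top] at hmain
    · exact hfin hmain
    · simp [Real.pi_pos]
  have hae := ae_lt_top m2 hfin2
  have i1 : Integrable (fun E => ∑' x, w x * ‖La ψ E t x‖ ^ 2) := by
    have h1 := integrable_toReal_of_lintegral_ne_top m1.aemeasurable hfin
    refine h1.congr (Filter.Eventually.of_forall fun E => ?_)
    simp only
    rw [e1, ENNReal.toReal_ofReal (hA0 E)]
  have i2 : IntegrableOn (fun s => Real.exp (-(2 * t) * s) * ∑' x, w x * ‖ψ s x‖ ^ 2) (Ioi 0) := by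
    have h1 := integrable_toReal_of_lintegral_ne_top m2.aemeasurable hfin2
    refine h1.congr (Filter.Eventually.of_forall fun s => ?_)
    simp only
    rw [e2]
  refine ⟨i1, i2, ?_, ?_⟩
  · filter_upwards [hae] with s hs1
    simp only [hterm] at hs1
    have h1 := ENNReal.summable_toReal hs1.ne
    have h2 : ∀ x, (ENNReal.ofReal (w x * ‖ew 0 t s * ψ s x‖ ^ 2)).toReal =
        Real.exp (-(2 * t) * s) * (w x * ‖ψ s x‖ ^ 2) := by
      intro x
      rw [ENNReal.toReal_ofReal (mul_nonneg (hw x) (sq_nonneg _)), norm_mul, ew_norm, mul_pow,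
        ← Real.exp_nat_mul]
      have e3 : ((2 : ℕ) : ℝ) * (-t * s) = -(2 * t) * s := by
        push_cast
        ring
      rw [e3]
      ring
    simp only [h2] at h1
    exact (summable_mul_left_iff (Real.exp_pos _).ne').1 h1
  · have h1 : ∫ E, ∑' x, w x * ‖La ψ E t x‖ ^ 2 = (∫⁻ E, ∑' x, W x * ‖La ψ E t x‖ₑ ^ 2).toReal := by
      rw [← integral_toReal m1.aemeasurable (ae_lt_top m1 hfin)]
      refine integral_congr_ae (Filter.Eventually.of_forall fun E => ?_)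
      simp only
      rw [e1, ENNReal.toReal_ofReal (hA0 E)]
    have h2 : ∫ s in Ioi (0 : ℝ), Real.exp (-(2 * t) * s) * ∑' x, w x * ‖ψ s x‖ ^ 2 =
        (∫⁻ s in Ioi (0 : ℝ), ∑' x, W x * ‖ew 0 t s * ψ s x‖ₑ ^ 2).toReal := by
      rw [← integral_toReal m2.aemeasurable hae]
      refine integral_congr_ae (Filter.Eventually.of_forall fun s => ?_)
      simp only
      rw [e2]
    rw [h1, h2, hmain, ENNReal.toReal_mul, ENNReal.toReal_ofReal (by positivity)]

end Pool.Agent.TH794.QD
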