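import Pool.Agent.TH794.QD.Free3

/-! The profile. -/

set_option autoImplicit false
set_option linter.unusedSectionVars false

open scoped BigOperators Topology
open MeasureTheory Set Filter

namespace Pool.Agent.TH794.QD

open Pool.Agent.W788.BK
open Pool.Agent.TH794.LL2
open Pool.Agent.W788.MFP.Four (T e NN adj K ft Op q NN_pos e_zero)

theorem lim_le (a b K : ℝ) (h : ∀ n : ℕ, a ≤ b + K / (n + 1)) : a ≤ b := by
  have h1 : Tendsto (fun n : ℕ => b + K / (n + 1)) atTop (𝓝 (b + 0)) := by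
    refine Tendsto.const_add b ?_
    exact tendsto_const_div_atTop_nhds_zero_nat K |>.comp (tendsto_add_atTop_nat 1) |>.congr
      (fun n => by simp)
  rw [add_zero] at h1
  exact ge_of_tendsto' h1 h

section tor

variable {d L : ℕ} [NeZero L]

theorem gW_im_mono (w w' : T d L → ℝ) (h : ∀ k, w k ≤ w' k) (z : ℂ) (hz : 0 < z.im) :
    (gW w z).im ≤ (gW w' z).im := by
  unfold gW
  rw [mv_im, mv_im]
  refine rv_mono NN_pos fun k => ?_
  rw [Complex.im_ofReal_mul, Complex.im_ofReal_mul]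
  apply mul_le_mul_of_nonneg_right (h k)
  rw [Complex.inv_im]
  have h1 : (((adj k : ℝ) : ℂ) - z).im = -z.im := by simp
  rw [h1, neg_neg]
  exact div_nonneg hz.le (Complex.normSq_nonneg _)

theorem gW_zero (z : ℂ) : gW (fun _ : T d L => 0) z = 0 := by
  unfold gW mv
  simp

theorem gW_one (z : ℂ) : gW (fun _ : T d L => 1) z = gL d L z := by
  unfold gW gL mv
  simp

end tor

/-- the Hölder constant -/
noncomputable def CH (d : ℕ) : ℝ := 2 * (80 * 10 ^ d) * K9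

theorem CH_nonneg (d : ℕ) : 0 ≤ CH d := by
  unfold CH
  have := K9_nonneg
  positivity

theorem hol0 (hO : S_OSC) (d : ℕ) (hd : 3 ≤ d) (z z' : ℂ) (hz : 0 ≤ z.im) (hz' : 0 ≤ z'.im) :
    ‖GF (F0 d) z - GF (F0 d) z'‖ ≤ CH d * ‖z - z'‖ ^ (1 / 8 : ℝ) :=
  (amp0 hO d hd).holder z z' hz hz'

theorem hol1 (hO : S_OSC) (d : ℕ) (hd : 3 ≤ d) (z z' : ℂ) (hz : 0 ≤ z.im) (hz' : 0 ≤ z'.im) :
    ‖GF (F1 d) z - GF (F1 d) z'‖ ≤ CH d * ‖z - z'‖ ^ (1 / 8 : ℝ) :=
  (amp1 hO d hd).holder z z' hz hz'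

theorem fin0 {L : ℕ} [NeZero L] (hO : S_OSC) (d : ℕ) (hd : 3 ≤ d) (t : ℝ) (ht : 0 < t)
    (ht1 : t ≤ 1) (z : ℂ) (hz : t ≤ z.im) :
    ‖gL d L z - GF (F0 d) z‖ ≤ 28 * d / L / t ^ 2 := by
  have h1 := gW_GF (d := d) (L := L) (fun _ => 1) (fun k => by simp) (amp0 hO d hd) (14 * d / L)
    (by positivity) (fun s hs => dist0 s hs) t ht ht1 z hz
  rw [gW_one] at h1
  refine h1.trans (le_of_eq ?_)
  ring

theorem fin1 {L : ℕ} [NeZero L] (hO : S_OSC) (d : ℕ) (hd : 3 ≤ d) (j : Fin d) (t : ℝ)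
    (ht : 0 < t) (ht1 : t ≤ 1) (z : ℂ) (hz : t ≤ z.im) :
    ‖gW (fun k : T d L => sg j k ^ 2) z - GF (F1 d) z‖ ≤ 28 * d / L / t ^ 2 := by
  have h1 := gW_GF (d := d) (L := L) (fun k => sg j k ^ 2) (fun k => by
    rw [abs_of_nonneg (sq_nonneg _)]
    exact sg_sq_le j k) (amp1 hO d hd) (14 * d / L)
    (by positivity) (fun s hs => dist1 (by omega) j s hs) t ht ht1 z hz
  refine h1.trans (le_of_eq ?_)
  ring

/-- positivity in the upper half plane -/
theorem GF_im0 (hO : S_OSC) (d : ℕ) (hd : 3 ≤ d) (z : ℂ) (hz : 0 < z.im) :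
    0 ≤ (GF (F1 d) z).im ∧ (GF (F1 d) z).im ≤ (GF (F0 d) z).im := by
  obtain ⟨t, ht⟩ : ∃ t, t = min 1 z.im := ⟨_, rfl⟩
  have ht0 : 0 < t := by rw [ht]; exact lt_min one_pos hz
  have ht1 : t ≤ 1 := by rw [ht]; exact min_le_left _ _
  have htz : t ≤ z.im := by rw [ht]; exact min_le_right _ _
  have key : ∀ n : ℕ, |(gL d (n + 1) z).im - (GF (F0 d) z).im| ≤ 28 * d / t ^ 2 / (n + 1) ∧
      |(gW (fun k : T d (n + 1) => sg ⟨0, by omega⟩ k ^ 2) z).im - (GF (F1 d) z).im| ≤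
        28 * d / t ^ 2 / (n + 1) := by
    intro n
    have h1 := fin0 (L := n + 1) hO d hd t ht0 ht1 z htz
    have h2 := fin1 (L := n + 1) hO d hd ⟨0, by omega⟩ t ht0 ht1 z htz
    have e1 : 28 * (d : ℝ) / ((n + 1 : ℕ) : ℝ) / t ^ 2 = 28 * d / t ^ 2 / (n + 1) := by
      push_cast
      ring
    rw [e1] at h1 h2
    constructor
    · rw [← Complex.sub_im]
      exact (Complex.abs_im_le_norm _).trans h1
    · rw [← Complex.sub_im]
      exact (Complex.abs_im_le_norm _).trans h2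
  constructor
  · apply lim_le _ _ (28 * d / t ^ 2)
    intro n
    have h1 := (abs_le.1 (key n).2).2
    have h2 := gW_im_mono (d := d) (L := n + 1) (fun _ => 0) (fun k => sg ⟨0, by omega⟩ k ^ 2)
      (fun k => sq_nonneg _) z hz
    rw [gW_zero, Complex.zero_im] at h2
    linarith
  · apply lim_le _ _ (28 * d / t ^ 2 + 28 * d / t ^ 2)
    intro n
    have h1 := (abs_le.1 (key n).2).1
    have h3 := (abs_le.1 (key n).1).2
    have h2 := gW_im_mono (d := d) (L := n + 1) (fun k => sg ⟨0, by omega⟩ k ^ 2) (fun _ => 1)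
      (fun k => sg_sq_le _ k) z hz
    rw [gW_one] at h2
    rw [add_div]
    linarith

/-- positivity up to the real axis -/
theorem GF_im (hO : S_OSC) (d : ℕ) (hd : 3 ≤ d) (z : ℂ) (hz : 0 ≤ z.im) :
    0 ≤ (GF (F1 d) z).im ∧ (GF (F1 d) z).im ≤ (GF (F0 d) z).im := by
  have key : ∀ n : ℕ, ∃ z' : ℂ, 0 < z'.im ∧
      |(GF (F0 d) z').im - (GF (F0 d) z).im| ≤ CH d / (n + 1) ∧
      |(GF (F1 d) z').im - (GF (F1 d) z).im| ≤ CH d / (n + 1) := by
    intro n
    obtain ⟨ε, hε⟩ : ∃ ε : ℝ, ε = ((n : ℝ) + 1)⁻¹ ^ 8 := ⟨_, rfl⟩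
    have hε0 : 0 < ε := by rw [hε]; positivity
    obtain ⟨z', hz'⟩ : ∃ z' : ℂ, z' = z + (ε : ℂ) * Complex.I := ⟨_, rfl⟩
    have hi : z'.im = z.im + ε := by rw [hz']; simp
    have hn : ‖z' - z‖ ^ (1 / 8 : ℝ) = ((n : ℝ) + 1)⁻¹ := by
      rw [hz', add_sub_cancel_left, norm_mul, Complex.norm_I, mul_one, Complex.norm_real,
        Real.norm_of_nonneg hε0.le, hε, ← Real.rpow_natCast, ← Real.rpow_mul (by positivity)]
      norm_num
    have h1 := hol0 hO d hd z' z (by rw [hi]; positivity) hz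
    have h2 := hol1 hO d hd z' z (by rw [hi]; positivity) hz
    rw [hn, ← div_eq_mul_inv] at h1 h2
    refine ⟨z', by rw [hi]; positivity, ?_, ?_⟩
    · rw [← Complex.sub_im]
      exact (Complex.abs_im_le_norm _).trans h1
    · rw [← Complex.sub_im]
      exact (Complex.abs_im_le_norm _).trans h2
  constructor
  · apply lim_le _ _ (CH d)
    intro n
    obtain ⟨z', h1, h2, h3⟩ := key n
    have := (GF_im0 hO d hd z' h1).1
    have := (abs_le.1 h3).2
    linarith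
  · apply lim_le _ _ (CH d + CH d)
    intro n
    obtain ⟨z', h1, h2, h3⟩ := key n
    have := (GF_im0 hO d hd z' h1).2
    have := (abs_le.1 h3).1
    have := (abs_le.1 h2).2
    rw [add_div]
    linarith

/-- the profile -/
noncomputable def Pf (d : ℕ) (u E : ℝ) : ℝ :=
  (GF (F1 d) (E : ℂ)).im / (u + (GF (F0 d) (E : ℂ)).im)

theorem frac_diff (a b a' b' u : ℝ) (hu : 0 < u) (hb : 0 ≤ b) (ha' : 0 ≤ a') (hab : a' ≤ b') :
    |a / (u + b) - a' / (u + b')| ≤ (|a - a'| + |b - b'|) / u := by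
  have h1 : 0 < u + b := by linarith
  have h2 : 0 < u + b' := by linarith
  have e1 : a / (u + b) - a' / (u + b') = (a - a') / (u + b) +
      a' / (u + b') * ((b' - b) / (u + b)) := by
    field_simp
    ring
  rw [e1, add_div]
  refine (abs_add_le _ _).trans (add_le_add ?_ ?_)
  · rw [abs_div, abs_of_pos h1]
    apply div_le_div_of_nonneg_left (abs_nonneg _) hu
    linarith
  · rw [abs_mul, abs_div (b' - b), abs_of_pos h1, abs_of_nonneg (by positivity : 0 ≤ a' / (u + b')),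
      abs_sub_comm b b']
    calc a' / (u + b') * (|b' - b| / (u + b)) ≤ 1 * (|b' - b| / u) := by
          apply mul_le_mul _ _ (by positivity) zero_le_one
          · rw [div_le_one h2]
            linarith
          · apply div_le_div_of_nonneg_left (abs_nonneg _) hu
            linarith
      _ = _ := one_mul _

theorem Pf_nonneg (hO : S_OSC) (d : ℕ) (hd : 3 ≤ d) (u E : ℝ) (hu : 0 ≤ u) : 0 ≤ Pf d u E := by
  have h := GF_im hO d hd (E : ℂ) (by simp)
  unfold Pf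
  exact div_nonneg h.1 (add_nonneg hu (h.1.trans h.2))

theorem Pf_le (hO : S_OSC) (d : ℕ) (hd : 3 ≤ d) (u E : ℝ) (hu : 0 ≤ u) : Pf d u E ≤ 1 := by
  have h := GF_im hO d hd (E : ℂ) (by simp)
  unfold Pf
  apply div_le_one_of_le₀ _ (add_nonneg hu (h.1.trans h.2))
  linarith

theorem Pf_lip (hO : S_OSC) (d : ℕ) (hd : 3 ≤ d) (u E E' : ℝ) (hu : 0 < u) :
    |Pf d u E - Pf d u E'| ≤ 2 * CH d * |E - E'| ^ (1 / 8 : ℝ) / u := by
  have h := GF_im hO d hd (E : ℂ) (by simp)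
  have h' := GF_im hO d hd (E' : ℂ) (by simp)
  unfold Pf
  refine (frac_diff _ _ _ _ u hu (h.1.trans h.2) h'.1 h'.2).trans ?_
  apply div_le_div_of_nonneg_right _ hu.le
  have h1 := hol0 hO d hd (E : ℂ) (E' : ℂ) (by simp) (by simp)
  have h2 := hol1 hO d hd (E : ℂ) (E' : ℂ) (by simp) (by simp)
  have e1 : ‖(E : ℂ) - (E' : ℂ)‖ = |E - E'| := by
    rw [← Complex.ofReal_sub, Complex.norm_real, Real.norm_eq_abs]
  rw [e1] at h1 h2
  have h3 : |(GF (F1 d) (E : ℂ)).im - (GF (F1 d) (E' : ℂ)).im| ≤ CH d * |E - E'| ^ (1 / 8 : ℝ) := by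
    rw [← Complex.sub_im]
    exact (Complex.abs_im_le_norm _).trans h2
  have h4 : |(GF (F0 d) (E : ℂ)).im - (GF (F0 d) (E' : ℂ)).im| ≤ CH d * |E - E'| ^ (1 / 8 : ℝ) := by
    rw [← Complex.sub_im]
    exact (Complex.abs_im_le_norm _).trans h1
  linarith

/-- the square of the resolvent: smallness -/
theorem gW2_small {L : ℕ} [NeZero L] (hO : S_OSC) (d : ℕ) (hd : 3 ≤ d) (w : T d L → ℝ)
    (hw : ∀ k, |w k| ≤ 1) (F : ℝ → ℂ) (hF : Amp F (80 * 10 ^ d)) (t s2 τ c g : ℝ) (m z : ℂ)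
    (hfin : ∀ z : ℂ, t ≤ z.im → ‖gW w z - GF F z‖ ≤ 28 * d / L / t ^ 2)
    (ht : 0 < t) (hs2 : 0 < s2) (hτ : 0 < τ) (hz : z.im = s2 * m.im + t) (hm : 0 ≤ m.im)
    (hmg : ‖m - gL d L z‖ ≤ c * g) :
    s2 * ‖gW2 w z‖ ≤ s2 * (CH d * (τ * t) ^ (-(7 / 8) : ℝ) + 56 * d / L / t ^ 2 / (τ * t)) +
      τ * (1 + c * g * s2 / t) := by
  have hcg : 0 ≤ c * g := (norm_nonneg _).trans hmg
  have hzt : t ≤ z.im := by
    rw [hz]
    have := mul_nonneg hs2.le hm
    linarith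
  have hz0 : 0 < z.im := ht.trans_le hzt
  have h1 := gW2_le w hw z hz0 τ hτ
  obtain ⟨z', hz'⟩ : ∃ z', z' = z + ((τ * z.im : ℝ) : ℂ) * Complex.I := ⟨_, rfl⟩
  rw [← hz'] at h1
  have hy : 0 < τ * z.im := by positivity
  have hz'i : z'.im = z.im + τ * z.im := by
    rw [hz']
    simp
  have h2 : ‖gW w z' - gW w z‖ ≤ CH d * (τ * z.im) ^ (1 / 8 : ℝ) + 56 * d / L / t ^ 2 := by
    have a1 := hfin z hzt
    have a2 := hfin z' (by rw [hz'i]; linarith)
    have a3 := hF.holder z' z (by rw [hz'i]; linarith) hz0.le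
    have e1 : ‖z' - z‖ = τ * z.im := by
      rw [hz', add_sub_cancel_left, norm_mul, Complex.norm_I, mul_one, Complex.norm_real,
        Real.norm_of_nonneg hy.le]
    rw [e1] at a3
    have e2 : gW w z' - gW w z = (gW w z' - GF F z') + (GF F z' - GF F z) -
        (gW w z - GF F z) := by ring
    rw [e2]
    refine (norm_sub_le _ _).trans ?_
    have a4 := norm_add_le (gW w z' - GF F z') (GF F z' - GF F z)
    unfold CH
    have e3 : 56 * (d : ℝ) / L / t ^ 2 = 28 * d / L / t ^ 2 + 28 * d / L / t ^ 2 := by ring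
    rw [e3]
    linarith
  have h3 : ‖gW w z' - gW w z‖ / (τ * z.im) ≤ CH d * (τ * t) ^ (-(7 / 8) : ℝ) +
      56 * d / L / t ^ 2 / (τ * t) := by
    refine (div_le_div_of_nonneg_right h2 hy.le).trans ?_
    rw [add_div]
    apply add_le_add
    · rw [mul_div_assoc]
      apply mul_le_mul_of_nonneg_left _ (CH_nonneg d)
      have e1 : (τ * z.im) ^ (1 / 8 : ℝ) / (τ * z.im) = (τ * z.im) ^ (-(7 / 8) : ℝ) := by
        nth_rewrite 2 [← Real.rpow_one (τ * z.im)]
        rw [← Real.rpow_sub hy]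
        norm_num
      rw [e1]
      apply Real.rpow_le_rpow_of_nonpos (by positivity) _ (by norm_num)
      gcongr
    · apply div_le_div_of_nonneg_left (by positivity) (by positivity)
      gcongr
  have h4 : s2 * ((gL d L z).im / z.im) ≤ 1 + c * g * s2 / t := by
    have a1 : (gL d L z).im ≤ m.im + c * g := by
      have a2 : |(m - gL d L z).im| ≤ c * g := (Complex.abs_im_le_norm _).trans hmg
      rw [Complex.sub_im] at a2
      have := (abs_le.1 a2).1
      linarith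
    rw [← mul_div_assoc]
    calc s2 * (gL d L z).im / z.im ≤ (s2 * (m.im + c * g)) / z.im := by gcongr
      _ = s2 * m.im / z.im + c * g * s2 / z.im := by ring
      _ ≤ 1 + c * g * s2 / t := by
          apply add_le_add
          · rw [div_le_one hz0, hz]
            linarith
          · apply div_le_div_of_nonneg_left (by positivity) ht hzt
  calc s2 * ‖gW2 w z‖ ≤ s2 * (‖gW w z' - gW w z‖ / (τ * z.im) +
        τ * ((gL d L z).im / z.im)) := by gcongr
    _ = s2 * (‖gW w z' - gW w z‖ / (τ * z.im)) + τ * (s2 * ((gL d L z).im / z.im)) := by ring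
    _ ≤ _ := by gcongr

/-- the profile of the mean -/
theorem prof {L : ℕ} [NeZero L] (hO : S_OSC) (d : ℕ) (hd : 3 ≤ d) (j : Fin d)
    (t s2 c g E u X : ℝ) (m z : ℂ) (ht : 0 < t) (ht1 : t ≤ 1) (hs2 : 0 < s2)
    (hz : z = (E : ℂ) + (s2 : ℂ) * m + ((t : ℝ) : ℂ) * Complex.I) (hm : 0 ≤ m.im)
    (hm2 : ‖m‖ ≤ 2 * g) (hg0 : 0 ≤ g)
    (hmg : ‖m - gL d L z‖ ≤ c * g) (hu : u = t / s2)
    (hX : X = 28 * d / L / t ^ 2 + CH d * (s2 * (2 * g) + t) ^ (1 / 8 : ℝ)) :
    |(gW (fun k : T d L => sg j k ^ 2) z).im / (u + m.im) - Pf d u E| ≤ (2 * X + c * g) / u := by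
  have hu0 : 0 < u := by rw [hu]; positivity
  have h := GF_im hO d hd (E : ℂ) (by simp)
  have hzi : z.im = s2 * m.im + t := by
    rw [hz]
    simp
  have hzt : t ≤ z.im := by
    rw [hzi]
    have := mul_nonneg hs2.le hm
    linarith
  have hze : ‖z - (E : ℂ)‖ ≤ s2 * (2 * g) + t := by
    have e1 : z - (E : ℂ) = (s2 : ℂ) * m + ((t : ℝ) : ℂ) * Complex.I := by
      rw [hz]
      ring
    rw [e1]
    refine (norm_add_le _ _).trans (add_le_add ?_ ?_)
    · rw [norm_mul, Complex.norm_real, Real.norm_of_nonneg hs2.le]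
      gcongr
    · rw [norm_mul, Complex.norm_I, mul_one, Complex.norm_real, Real.norm_of_nonneg ht.le]
  have hze8 : ‖z - (E : ℂ)‖ ^ (1 / 8 : ℝ) ≤ (s2 * (2 * g) + t) ^ (1 / 8 : ℝ) :=
    Real.rpow_le_rpow (norm_nonneg _) hze (by norm_num)
  have hCH := CH_nonneg d
  have b0 : ‖gL d L z - GF (F0 d) (E : ℂ)‖ ≤ X := by
    have a1 := fin0 (L := L) hO d hd t ht ht1 z hzt
    have a2 := hol0 hO d hd z (E : ℂ) (ht.le.trans hzt) (by simp)
    have a3 := mul_le_mul_of_nonneg_left hze8 hCH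
    have e1 : gL d L z - GF (F0 d) (E : ℂ) = (gL d L z - GF (F0 d) z) +
        (GF (F0 d) z - GF (F0 d) (E : ℂ)) := by ring
    rw [e1, hX]
    exact (norm_add_le _ _).trans (add_le_add a1 (a2.trans a3))
  have b1 : ‖gW (fun k : T d L => sg j k ^ 2) z - GF (F1 d) (E : ℂ)‖ ≤ X := by
    have a1 := fin1 (L := L) hO d hd j t ht ht1 z hzt
    have a2 := hol1 hO d hd z (E : ℂ) (ht.le.trans hzt) (by simp)
    have a3 := mul_le_mul_of_nonneg_left hze8 hCH
    have e1 : gW (fun k : T d L => sg j k ^ 2) z - GF (F1 d) (E : ℂ) =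
        (gW (fun k : T d L => sg j k ^ 2) z - GF (F1 d) z) +
        (GF (F1 d) z - GF (F1 d) (E : ℂ)) := by ring
    rw [e1, hX]
    exact (norm_add_le _ _).trans (add_le_add a1 (a2.trans a3))
  unfold Pf
  refine (frac_diff _ _ _ _ u hu0 hm h.1 h.2).trans ?_
  apply div_le_div_of_nonneg_right _ hu0.le
  have c1 : |(gW (fun k : T d L => sg j k ^ 2) z).im - (GF (F1 d) (E : ℂ)).im| ≤ X := by
    rw [← Complex.sub_im]
    exact (Complex.abs_im_le_norm _).trans b1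
  have c2 : |m.im - (GF (F0 d) (E : ℂ)).im| ≤ X + c * g := by
    rw [← Complex.sub_im]
    refine (Complex.abs_im_le_norm _).trans ?_
    have e1 : m - GF (F0 d) (E : ℂ) = (m - gL d L z) + (gL d L z - GF (F0 d) (E : ℂ)) := by ring
    rw [e1]
    refine (norm_add_le _ _).trans ?_
    linarith
  linarith

end Pool.Agent.TH794.QD
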