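import Pool.Agent.TH794.QD.Lap2

/-! Energies outside the spectrum. -/

set_option autoImplicit false
set_option linter.unusedSectionVars false

open scoped BigOperators Topology
open MeasureTheory Filter Set

namespace Pool.Agent.TH794.QD

open Pool.Agent.H4R2.LO (Zd)
open Pool.Agent.TH794.FG (LS)

variable {d : ℕ}

theorem ab_le (a b : ℝ) : |a * b| ≤ (a ^ 2 + b ^ 2) / 2 := by
  rw [abs_le]
  constructor
  · nlinarith [sq_nonneg (a + b)]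
  · nlinarith [sq_nonneg (a - b)]

theorem nb_le (u : Zd d → ℝ) (x : Zd d) :
    |u x * ∑ i, (u (x + Pi.single i 1) + u (x - Pi.single i 1))| ≤
      d * u x ^ 2 + ∑ i, (u (x + Pi.single i 1) ^ 2 + u (x - Pi.single i 1) ^ 2) / 2 := by
  rw [Finset.mul_sum]
  refine (Finset.abs_sum_le_sum_abs _ _).trans ?_
  have h1 : ∀ i : Fin d, |u x * (u (x + Pi.single i 1) + u (x - Pi.single i 1))| ≤
      u x ^ 2 + (u (x + Pi.single i 1) ^ 2 + u (x - Pi.single i 1) ^ 2) / 2 := by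
    intro i
    have e1 := ab_le (u x) (u (x + Pi.single i 1))
    have e2 := ab_le (u x) (u (x - Pi.single i 1))
    rw [mul_add]
    refine (abs_add_le _ _).trans ?_
    linarith
  refine (Finset.sum_le_sum fun i _ => h1 i).trans (le_of_eq ?_)
  rw [Finset.sum_add_distrib, Finset.sum_const, Finset.card_univ, Fintype.card_fin, nsmul_eq_mul]

theorem nb_sum (u : Zd d → ℝ) (hu : Summable fun x => u x ^ 2) :
    HasSum (fun x : Zd d => ∑ i : Fin d,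
      (u (x + Pi.single i 1) ^ 2 + u (x - Pi.single i 1) ^ 2) / 2)
      (d * ∑' x, u x ^ 2) := by
  have h1 : ∀ i : Fin d, HasSum (fun x : Zd d => (u (x + Pi.single i 1) ^ 2 +
      u (x - Pi.single i 1) ^ 2) / 2) (∑' x, u x ^ 2) := by
    intro i
    obtain ⟨s1, s2, t1, t2⟩ := shift_sum u (Pi.single i 1) hu
    have h2 := (s1.hasSum.add s2.hasSum).div_const 2
    rw [t1, t2] at h2
    have e : (∑' x, u x ^ 2 + ∑' x, u x ^ 2) / 2 = ∑' x, u x ^ 2 := by ring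
    rw [e] at h2
    exact h2
  have h3 := hasSum_sum (s := Finset.univ) fun i _ => h1 i
  rw [Finset.sum_const, Finset.card_univ, Fintype.card_fin, nsmul_eq_mul] at h3
  exact h3

/-- the resolvent outside the spectrum -/
theorem out {σ : ℝ} {ξ fr fi : Zd d → ℝ} {E t : ℝ} {ur ui : Zd d → ℝ}
    (h : LS d σ ξ fr fi E t ur ui) (hr : Summable fun x => fr x ^ 2)
    (hi : Summable fun x => fi x ^ 2) (hξ : ∀ x, |σ * ξ x| ≤ 1) (κ : ℝ) (hκ : 0 < κ)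
    (hE : 2 * d + 1 + κ ≤ |E|) :
    κ ^ 2 * (∑' x, ur x ^ 2 + ∑' x, ui x ^ 2) ≤ ∑' x, fr x ^ 2 + ∑' x, fi x ^ 2 := by
  have key : ∀ x, |E| * (ur x ^ 2 + ui x ^ 2) ≤
      ((d + 1 + κ / 2) * ur x ^ 2 + ∑ i, (ur (x + Pi.single i 1) ^ 2 +
        ur (x - Pi.single i 1) ^ 2) / 2 + 1 / (2 * κ) * fr x ^ 2) +
      ((d + 1 + κ / 2) * ui x ^ 2 + ∑ i, (ui (x + Pi.single i 1) ^ 2 +
        ui (x - Pi.single i 1) ^ 2) / 2 + 1 / (2 * κ) * fi x ^ 2) := by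
    intro x
    have e1 := h.er x
    have e2 := h.ei x
    have n1 := nb_le ur x
    have n2 := nb_le ui x
    obtain ⟨P, hP⟩ : ∃ P, P = ∑ i : Fin d, (ur (x + Pi.single i 1) + ur (x - Pi.single i 1)) :=
      ⟨_, rfl⟩
    obtain ⟨Q, hQ⟩ : ∃ Q, Q = ∑ i : Fin d, (ui (x + Pi.single i 1) + ui (x - Pi.single i 1)) :=
      ⟨_, rfl⟩
    rw [← hP] at e1 n1
    rw [← hQ] at e2 n2
    have e3 : E * (ur x ^ 2 + ui x ^ 2) = ur x * P + ui x * Q +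
        σ * ξ x * (ur x ^ 2 + ui x ^ 2) - (fr x * ur x + fi x * ui x) := by
      linear_combination (-ur x) * e1 + (-ui x) * e2
    have e4 : |E| * (ur x ^ 2 + ui x ^ 2) = |E * (ur x ^ 2 + ui x ^ 2)| := by
      rw [abs_mul, abs_of_nonneg (by positivity : 0 ≤ ur x ^ 2 + ui x ^ 2)]
    have hc : ∀ f u : ℝ, |f * u| ≤ κ / 2 * u ^ 2 + 1 / (2 * κ) * f ^ 2 := by
      intro f u
      have h1 : 0 ≤ (f - κ * u) ^ 2 / (2 * κ) := by positivity
      have h2 : 0 ≤ (f + κ * u) ^ 2 / (2 * κ) := by positivity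
      have h3 : (f - κ * u) ^ 2 / (2 * κ) = κ / 2 * u ^ 2 + 1 / (2 * κ) * f ^ 2 - f * u := by
        field_simp
        ring
      have h4 : (f + κ * u) ^ 2 / (2 * κ) = κ / 2 * u ^ 2 + 1 / (2 * κ) * f ^ 2 + f * u := by
        field_simp
        ring
      rw [abs_le]
      constructor <;> linarith
    have c1 := hc (fr x) (ur x)
    have c2 := hc (fi x) (ui x)
    have c3 : |σ * ξ x * (ur x ^ 2 + ui x ^ 2)| ≤ ur x ^ 2 + ui x ^ 2 := by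
      rw [abs_mul, abs_of_nonneg (by positivity : 0 ≤ ur x ^ 2 + ui x ^ 2)]
      exact mul_le_of_le_one_left (by positivity) (hξ x)
    rw [e4, e3]
    have a1 := abs_sub (ur x * P + ui x * Q + σ * ξ x * (ur x ^ 2 + ui x ^ 2))
      (fr x * ur x + fi x * ui x)
    have a2 := abs_add_le (ur x * P + ui x * Q) (σ * ξ x * (ur x ^ 2 + ui x ^ 2))
    have a3 := abs_add_le (ur x * P) (ui x * Q)
    have a4 := abs_add_le (fr x * ur x) (fi x * ui x)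
    linarith
  have hs : ∀ u f : Zd d → ℝ, (Summable fun x => u x ^ 2) → (Summable fun x => f x ^ 2) →
      HasSum (fun x : Zd d => (d + 1 + κ / 2) * u x ^ 2 + ∑ i : Fin d, (u (x + Pi.single i 1) ^ 2 +
        u (x - Pi.single i 1) ^ 2) / 2 + 1 / (2 * κ) * f x ^ 2)
        ((d + 1 + κ / 2) * ∑' x, u x ^ 2 + d * ∑' x, u x ^ 2 + 1 / (2 * κ) * ∑' x, f x ^ 2) :=
    fun u f hu hf => ((hu.hasSum.mul_left _).add (nb_sum u hu)).add (hf.hasSum.mul_left _)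
  have h2 := hasSum_le key ((h.sr.hasSum.add h.si.hasSum).mul_left |E|)
    ((hs ur fr h.sr hr).add (hs ui fi h.si hi))
  have N1 : 0 ≤ ∑' x, ur x ^ 2 := tsum_nonneg fun x => sq_nonneg _
  have N2 : 0 ≤ ∑' x, ui x ^ 2 := tsum_nonneg fun x => sq_nonneg _
  obtain ⟨N, hN⟩ : ∃ N, N = ∑' x, ur x ^ 2 + ∑' x, ui x ^ 2 := ⟨_, rfl⟩
  obtain ⟨F, hF⟩ : ∃ F, F = ∑' x, fr x ^ 2 + ∑' x, fi x ^ 2 := ⟨_, rfl⟩
  have h3 : |E| * N ≤ (2 * d + 1 + κ / 2) * N + 1 / (2 * κ) * F := by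
    rw [hN, hF]
    linarith
  rw [← hN, ← hF]
  have hN0 : 0 ≤ N := by rw [hN]; exact add_nonneg N1 N2
  have h4 : (2 * d + 1 + κ) * N ≤ |E| * N := mul_le_mul_of_nonneg_right hE hN0
  have h5 : κ / 2 * N ≤ 1 / (2 * κ) * F := by linarith
  have h6 := mul_le_mul_of_nonneg_left h5 (by positivity : 0 ≤ 2 * κ)
  have e1 : 2 * κ * (κ / 2 * N) = κ ^ 2 * N := by ring
  have e2 : 2 * κ * (1 / (2 * κ) * F) = F := by field_simp
  rw [e1, e2] at h6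
  exact h6

/-- the moment outside the spectrum -/
theorem out2 {σ : ℝ} {ξ : Zd d → ℝ} {E t : ℝ} {ur ui : Zd d → ℝ} (hd : 3 ≤ d)
    (h : LS d σ ξ (Pi.single 0 1) (fun _ => 0) E t ur ui) (ht : 0 < t) (ht1 : t ≤ 1)
    (j : Fin d) (hξ : ∀ x, |σ * ξ x| ≤ 1) (hE : 3 * d ≤ |E|) :
    ∑' x, (cj j x * ur x) ^ 2 + ∑' x, (cj j x * ui x) ^ 2 ≤ 21 * (1 + E ^ 2)⁻¹ := by
  obtain ⟨hT, hLS, hT2, -⟩ := green h ht ht1 j
  have hs1 : HasSum (fun x : Zd d => (Pi.single (M := fun _ => ℝ) 0 1 : Zd d → ℝ) x ^ 2) 1 := by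
    have := hasSum_single (f := fun x : Zd d => (Pi.single (M := fun _ => ℝ) 0 1 : Zd d → ℝ) x ^ 2)
      0 (fun x hx => by
        rw [Pi.single_eq_of_ne hx]
        ring)
    simp only [Pi.single_eq_same, one_pow] at this
    exact this
  have hz : Summable fun _ : Zd d => (0 : ℝ) ^ 2 := by
    simp only [zero_pow two_ne_zero]
    exact summable_zero
  have hz0 : ∑' _ : Zd d, (0 : ℝ) ^ 2 = 0 := by
    simp
  have hd9 : (3 : ℝ) ≤ d := by exact_mod_cast hd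
  obtain ⟨κ, hκ⟩ : ∃ κ, κ = 2 / 9 * |E| := ⟨_, rfl⟩
  have hκ0 : 0 < κ := by rw [hκ]; linarith
  have hκE : 2 * d + 1 + κ ≤ |E| := by rw [hκ]; linarith
  have h1 := out h hs1.summable hz hξ κ hκ0 hκE
  rw [hs1.tsum_eq, hz0, add_zero] at h1
  obtain ⟨a1, a2⟩ := Df_sum j ur h.sr
  obtain ⟨b1, b2⟩ := Df_sum j ui h.si
  have h2 := out hLS a1 b1 hξ κ hκ0 hκE
  obtain ⟨N, hN⟩ : ∃ N, N = ∑' x, ur x ^ 2 + ∑' x, ui x ^ 2 := ⟨_, rfl⟩
  obtain ⟨X, hX⟩ : ∃ X, X = ∑' x, (cj j x * ur x) ^ 2 + ∑' x, (cj j x * ui x) ^ 2 := ⟨_, rfl⟩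
  rw [← hN] at h1
  rw [← hX] at h2 ⊢
  have h3 : κ ^ 2 * X ≤ 4 * N := by
    rw [hN]
    linarith
  have h4 : κ ^ 4 * X ≤ 4 := by
    have h5 := mul_le_mul_of_nonneg_left h3 (sq_nonneg κ)
    calc κ ^ 4 * X = κ ^ 2 * (κ ^ 2 * X) := by ring
      _ ≤ κ ^ 2 * (4 * N) := h5
      _ = 4 * (κ ^ 2 * N) := by ring
      _ ≤ 4 * 1 := by gcongr
      _ = 4 := by norm_num
  have hE2 : κ ^ 4 = 16 / 6561 * (E ^ 2) ^ 2 := by
    rw [hκ, mul_pow, ← sq_abs E]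
    ring
  rw [hE2] at h4
  obtain ⟨w, hw⟩ : ∃ w, w = E ^ 2 := ⟨_, rfl⟩
  have hw81 : 81 ≤ w := by
    rw [hw, ← sq_abs]
    nlinarith [abs_nonneg E]
  rw [← hw] at h4 ⊢
  have h6 : X * (1 + w) ≤ 21 := by
    have hX0 : 0 ≤ X := by
      rw [hX]
      exact add_nonneg (tsum_nonneg fun x => sq_nonneg _) (tsum_nonneg fun x => sq_nonneg _)
    have h7 : 1 + w ≤ 82 / 6561 * w ^ 2 := by nlinarith
    calc X * (1 + w) ≤ X * (82 / 6561 * w ^ 2) := by gcongr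
      _ = 82 / 16 * (16 / 6561 * w ^ 2 * X) := by ring
      _ ≤ 82 / 16 * 4 := by gcongr
      _ ≤ 21 := by norm_num
  rw [← div_eq_mul_inv, le_div_iff₀ (by linarith)]
  exact h6

end Pool.Agent.TH794.QD
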