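import Pool.Agent.TH794.QD.Free2

/-! Boundary values of the weighted free resolvent. -/

set_option autoImplicit false
set_option linter.unusedSectionVars false

open scoped BigOperators Topology
open MeasureTheory Set Filter

namespace Pool.Agent.TH794.QD

open Pool.Agent.W788.BK
open Pool.Agent.TH794.LL2
open Pool.Agent.W788.MFP.Four (T e NN adj K ft Op q NN_pos e_zero)

/-- the resolvent of an amplitude -/
noncomputable def GF (F : ℝ → ℂ) (z : ℂ) : ℂ :=
  Complex.I * ∫ s in Ioi (0 : ℝ), F s * Complex.exp (Complex.I * z * s)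

/-- an amplitude -/
structure Amp (F : ℝ → ℂ) (C : ℝ) : Prop where
  cont : Continuous F
  one : ∀ s, ‖F s‖ ≤ 1
  C0 : 0 ≤ C
  dec : ∀ s, 0 ≤ s → ‖F s‖ ≤ C * (s + 1) ^ (-(5 / 4) : ℝ)

/-- a constant -/
noncomputable def K9 : ℝ := ∫ s in Ioi (0 : ℝ), (s + 1) ^ (-(9 / 8) : ℝ)

theorem K9_nonneg : 0 ≤ K9 := by
  unfold K9
  refine setIntegral_nonneg measurableSet_Ioi fun s hs => ?_
  have : (0 : ℝ) < s := hs
  positivity

theorem int_K9 : IntegrableOn (fun s : ℝ => (s + 1) ^ (-(9 / 8) : ℝ)) (Ioi 0) :=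
  integrableOn_add_rpow_Ioi_of_lt (by norm_num) (by norm_num)

theorem min_le8 (x : ℝ) (hx : 0 ≤ x) : min 2 x ≤ 2 * x ^ (1 / 8 : ℝ) := by
  rcases le_or_gt x 1 with h | h
  · have h1 : x ≤ x ^ (1 / 8 : ℝ) := by
      rcases hx.eq_or_lt with h0 | h0
      · rw [← h0, Real.zero_rpow (by norm_num)]
      · have := Real.rpow_le_rpow_of_exponent_ge h0 h (show (1 / 8 : ℝ) ≤ 1 by norm_num)
        rwa [Real.rpow_one] at this
    have h2 : 0 ≤ x ^ (1 / 8 : ℝ) := by positivity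
    exact (min_le_right _ _).trans (by linarith)
  · have h1 : 1 ≤ x ^ (1 / 8 : ℝ) := Real.one_le_rpow h.le (by norm_num)
    exact (min_le_left _ _).trans (by linarith)

theorem exp_norm_le {z : ℂ} (hz : 0 ≤ z.im) {s : ℝ} (hs : 0 ≤ s) :
    ‖Complex.exp (Complex.I * z * s)‖ ≤ 1 := by
  rw [Complex.norm_exp]
  apply Real.exp_le_one_iff.2
  have : (Complex.I * z * s).re = -(z.im * s) := by simp
  rw [this]
  have := mul_nonneg hz hs
  linarith

theorem Amp.int {F : ℝ → ℂ} {C : ℝ} (h : Amp F C) {z : ℂ} (hz : 0 ≤ z.im) :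
    IntegrableOn (fun s : ℝ => F s * Complex.exp (Complex.I * z * s)) (Ioi 0) := by
  refine Integrable.mono' (int_K5.const_mul C)
    ((h.cont.mul (by fun_prop)).aestronglyMeasurable) ?_
  rw [ae_restrict_iff' measurableSet_Ioi]
  refine Eventually.of_forall fun s hs => ?_
  have hs0 : (0 : ℝ) < s := hs
  rw [norm_mul]
  calc ‖F s‖ * ‖Complex.exp (Complex.I * z * s)‖ ≤ (C * (s + 1) ^ (-(5 / 4) : ℝ)) * 1 :=
        mul_le_mul (h.dec s hs0.le) (exp_norm_le hz hs0.le) (norm_nonneg _)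
          (mul_nonneg h.C0 (by positivity))
    _ = _ := mul_one _

/-- **Hölder continuity up to the real axis** -/
theorem Amp.holder {F : ℝ → ℂ} {C : ℝ} (h : Amp F C) (z z' : ℂ) (hz : 0 ≤ z.im)
    (hz' : 0 ≤ z'.im) : ‖GF F z - GF F z'‖ ≤ 2 * C * K9 * ‖z - z'‖ ^ (1 / 8 : ℝ) := by
  unfold GF
  rw [← mul_sub, norm_mul, Complex.norm_I, one_mul, ← integral_sub (h.int hz) (h.int hz')]
  obtain ⟨Δ, hΔ⟩ : ∃ Δ, Δ = ‖z - z'‖ := ⟨_, rfl⟩
  have hΔ0 : 0 ≤ Δ := by rw [hΔ]; exact norm_nonneg _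
  have hC0 := h.C0
  rw [← hΔ]
  have hpt : ∀ s ∈ Ioi (0 : ℝ), ‖F s * Complex.exp (Complex.I * z * s) -
      F s * Complex.exp (Complex.I * z' * s)‖ ≤
      (2 * C * Δ ^ (1 / 8 : ℝ)) * (s + 1) ^ (-(9 / 8) : ℝ) := by
    intro s hs
    have hs0 : 0 < s := hs
    rw [← mul_sub, norm_mul]
    have h2 : ‖Complex.exp (Complex.I * z * s) - Complex.exp (Complex.I * z' * s)‖ ≤ 2 := by
      refine (norm_sub_le _ _).trans ?_
      have := exp_norm_le hz hs0.le
      have := exp_norm_le hz' hs0.le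
      linarith
    have hre : ∀ w : ℂ, 0 ≤ w.im → (Complex.I * w * s).re ≤ 0 := by
      intro w hw
      have : (Complex.I * w * s).re = -(w.im * s) := by simp
      rw [this]
      have := mul_nonneg hw hs0.le
      linarith
    have h3 : ‖Complex.exp (Complex.I * z * s) - Complex.exp (Complex.I * z' * s)‖ ≤ s * Δ := by
      refine (exp_sub_le _ _ (hre z hz) (hre z' hz')).trans (le_of_eq ?_)
      rw [← sub_mul, ← mul_sub, norm_mul, norm_mul, Complex.norm_I, one_mul, Complex.norm_real,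
        Real.norm_eq_abs, abs_of_pos hs0, hΔ, mul_comm]
    have h5 : ‖Complex.exp (Complex.I * z * s) - Complex.exp (Complex.I * z' * s)‖ ≤
        2 * ((s + 1) ^ (1 / 8 : ℝ) * Δ ^ (1 / 8 : ℝ)) := by
      have h7 : ‖Complex.exp (Complex.I * z * s) - Complex.exp (Complex.I * z' * s)‖ ≤
          min 2 (s * Δ) := le_min h2 h3
      refine h7.trans ((min_le8 (s * Δ) (by positivity)).trans ?_)
      rw [Real.mul_rpow hs0.le hΔ0]
      have : s ^ (1 / 8 : ℝ) ≤ (s + 1) ^ (1 / 8 : ℝ) :=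
        Real.rpow_le_rpow hs0.le (by linarith) (by norm_num)
      gcongr
    calc ‖F s‖ * ‖Complex.exp (Complex.I * z * s) - Complex.exp (Complex.I * z' * s)‖ ≤
        (C * (s + 1) ^ (-(5 / 4) : ℝ)) *
          (2 * ((s + 1) ^ (1 / 8 : ℝ) * Δ ^ (1 / 8 : ℝ))) :=
          mul_le_mul (h.dec s hs0.le) h5 (norm_nonneg _) (mul_nonneg h.C0 (by positivity))
      _ = (2 * C * Δ ^ (1 / 8 : ℝ)) * ((s + 1) ^ (-(5 / 4) : ℝ) *
          (s + 1) ^ (1 / 8 : ℝ)) := by ring
      _ = (2 * C * Δ ^ (1 / 8 : ℝ)) * (s + 1) ^ (-(9 / 8) : ℝ) := by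
          rw [← Real.rpow_add (by linarith)]
          norm_num
  refine (norm_integral_le_integral_norm _).trans ?_
  refine (setIntegral_mono_on ((h.int hz).sub (h.int hz')).norm (int_K9.const_mul _)
    measurableSet_Ioi hpt).trans ?_
  rw [integral_const_mul]
  refine le_of_eq ?_
  unfold K9
  ring

theorem int_s_exp (t : ℝ) (ht : 0 < t) : IntegrableOn (fun s : ℝ => (1 + s) * Real.exp (-t * s))
    (Ioi 0) ∧ ∫ s in Ioi (0 : ℝ), (1 + s) * Real.exp (-t * s) = 1 / t + 1 / t ^ 2 := by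
  have h1 : IntegrableOn (fun s : ℝ => Real.exp (-t * s)) (Ioi 0) :=
    integrableOn_exp_mul_Ioi (by linarith) 0
  have h2 : IntegrableOn (fun s : ℝ => s * Real.exp (-t * s)) (Ioi 0) := by
    have := integrableOn_rpow_mul_exp_neg_mul_rpow (s := 1) (p := 1) (b := t) (by norm_num)
      one_pos ht
    refine this.congr_fun (fun s hs => ?_) measurableSet_Ioi
    simp only [Real.rpow_one]
  have e1 : ∀ s : ℝ, (1 + s) * Real.exp (-t * s) = Real.exp (-t * s) + s * Real.exp (-t * s) :=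
    fun s => by ring
  simp only [e1]
  refine ⟨h1.add h2, ?_⟩
  rw [integral_add h1 h2, integral_exp_mul_Ioi (by linarith) 0]
  have h3 : ∫ s in Ioi (0 : ℝ), s * Real.exp (-t * s) = 1 / t ^ 2 := by
    have h4 := Real.integral_rpow_mul_exp_neg_mul_Ioi (a := 2) (r := t) (by norm_num) ht
    have e2 : (2 : ℝ) - 1 = 1 := by norm_num
    rw [e2, Real.Gamma_two, mul_one] at h4
    have h5 : ∫ s in Ioi (0 : ℝ), s * Real.exp (-t * s) =
        ∫ s in Ioi (0 : ℝ), s ^ (1 : ℝ) * Real.exp (-(t * s)) := by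
      refine setIntegral_congr_fun measurableSet_Ioi fun s hs => ?_
      simp only [Real.rpow_one]
      congr 2
      ring
    rw [h5, h4, Real.rpow_two, one_div, inv_pow, one_div]
  rw [h3]
  simp

section tor

variable {d L : ℕ} [NeZero L]

/-- the time representation -/
theorem gW_time (w : T d L → ℝ) (z : ℂ) (hz : 0 < z.im) :
    gW w z = GF (fun s => mv (NN d L) fun k : T d L => ((w k : ℝ) : ℂ) *
      Complex.exp (Complex.I * ((-s * adj k : ℝ) : ℂ))) z := by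
  unfold gW GF mv
  have h1 : ∀ k : T d L, (((adj k : ℝ) : ℂ) - z)⁻¹ =
      Complex.I * ∫ s in Ioi (0 : ℝ), Complex.exp (Complex.I * (z - adj k) * s) :=
    fun k => inv_time (adj k) z hz
  have h2 : ∀ k : T d L, ((w k : ℝ) : ℂ) * (((adj k : ℝ) : ℂ) - z)⁻¹ =
      Complex.I * ∫ s in Ioi (0 : ℝ), ((w k : ℝ) : ℂ) *
        Complex.exp (Complex.I * (z - adj k) * s) := by
    intro k
    rw [h1, integral_const_mul]
    ring
  simp only [h2]
  rw [← Finset.mul_sum, ← integral_finsetSum]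
  · rw [← mul_assoc, mul_comm _ Complex.I, mul_assoc, ← integral_const_mul]
    congr 1
    refine setIntegral_congr_fun measurableSet_Ioi fun s _ => ?_
    beta_reduce
    rw [mul_assoc, Finset.sum_mul]
    refine congrArg (fun t => ((NN d L : ℝ) : ℂ)⁻¹ * t) (Finset.sum_congr rfl fun k _ => ?_)
    rw [mul_assoc ((w k : ℝ) : ℂ), ← Complex.exp_add]
    congr 2
    push_cast
    ring
  · intro k _
    refine Integrable.const_mul ?_ _
    refine integrableOn_exp_mul_complex_Ioi ?_ 0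
    simp
    exact hz

/-- finite and infinite volume -/
theorem gW_GF (w : T d L → ℝ) (hw : ∀ k, |w k| ≤ 1) {F : ℝ → ℂ} {C : ℝ} (hF : Amp F C) (K1 : ℝ)
    (hK : 0 ≤ K1)
    (h : ∀ s : ℝ, 0 ≤ s → ‖(mv (NN d L) fun k : T d L => ((w k : ℝ) : ℂ) *
      Complex.exp (Complex.I * ((-s * adj k : ℝ) : ℂ))) - F s‖ ≤ K1 * (1 + s))
    (t : ℝ) (ht : 0 < t) (ht1 : t ≤ 1) (z : ℂ) (hz : t ≤ z.im) :
    ‖gW w z - GF F z‖ ≤ 2 * K1 / t ^ 2 := by
  have hN := NN_pos (d := d) (L := L)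
  have hz0 : 0 < z.im := ht.trans_le hz
  rw [gW_time w z hz0]
  obtain ⟨A, hA⟩ : ∃ A : ℝ → ℂ, A = fun s => mv (NN d L) fun k : T d L => ((w k : ℝ) : ℂ) *
      Complex.exp (Complex.I * ((-s * adj k : ℝ) : ℂ)) := ⟨_, rfl⟩
  rw [← hA]
  have hh : ∀ s : ℝ, 0 ≤ s → ‖A s - F s‖ ≤ K1 * (1 + s) := by
    intro s hs
    rw [hA]
    exact h s hs
  have hAc : Continuous A := by
    rw [hA]
    unfold mv
    fun_prop
  have hen : ∀ s : ℝ, 0 ≤ s → ‖Complex.exp (Complex.I * z * s)‖ ≤ Real.exp (-t * s) := by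
    intro s hs
    rw [Complex.norm_exp]
    apply Real.exp_le_exp.2
    have : (Complex.I * z * s).re = -(z.im * s) := by simp
    rw [this]
    have := mul_le_mul_of_nonneg_right hz hs
    linarith
  obtain ⟨i1, i2⟩ := int_s_exp t ht
  have hdi : IntegrableOn (fun s : ℝ => (A s - F s) * Complex.exp (Complex.I * z * s))
      (Ioi 0) := by
    refine Integrable.mono' (i1.const_mul K1)
      (((hAc.sub hF.cont).mul (by fun_prop)).aestronglyMeasurable) ?_
    rw [ae_restrict_iff' measurableSet_Ioi]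
    refine Eventually.of_forall fun s hs => ?_
    have hs0 : (0 : ℝ) < s := hs
    rw [norm_mul, ← mul_assoc]
    exact mul_le_mul (hh s hs0.le) (hen s hs0.le) (norm_nonneg _) (by positivity)
  have hFi := hF.int hz0.le
  have hAi : IntegrableOn (fun s : ℝ => A s * Complex.exp (Complex.I * z * s)) (Ioi 0) := by
    have := hdi.add hFi
    refine this.congr_fun (fun s _ => ?_) measurableSet_Ioi
    simp only [Pi.add_apply]
    ring
  unfold GF
  rw [← mul_sub, norm_mul, Complex.norm_I, one_mul, ← integral_sub hAi hFi]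
  refine (norm_integral_le_integral_norm _).trans ?_
  refine (setIntegral_mono_on (g := fun s => K1 * ((1 + s) * Real.exp (-t * s)))
    (hAi.sub hFi).norm (i1.const_mul K1)
    measurableSet_Ioi fun s hs => ?_).trans ?_
  · have hs0 : (0 : ℝ) < s := hs
    simp only [Pi.sub_apply]
    rw [← sub_mul, norm_mul, ← mul_assoc]
    exact mul_le_mul (hh s hs0.le) (hen s hs0.le) (norm_nonneg _) (by positivity)
  · rw [integral_const_mul, i2, mul_comm 2 K1, mul_div_assoc]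
    apply mul_le_mul_of_nonneg_left _ hK
    have h1 : 1 / t ≤ 1 / t ^ 2 := by
      apply one_div_le_one_div_of_le (by positivity)
      nlinarith
    have h2 : 2 / t ^ 2 = 1 / t ^ 2 + 1 / t ^ 2 := by ring
    linarith

/-- the square of the resolvent -/
theorem gW2_le (w : T d L → ℝ) (hw : ∀ k, |w k| ≤ 1) (z : ℂ) (hz : 0 < z.im) (τ : ℝ)
    (hτ : 0 < τ) :
    ‖gW2 w z‖ ≤ ‖gW w (z + ((τ * z.im : ℝ) : ℂ) * Complex.I) - gW w z‖ / (τ * z.im) +
      τ * ((gL d L z).im / z.im) := by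
  have hN := NN_pos (d := d) (L := L)
  obtain ⟨z', hz'⟩ : ∃ z', z' = z + ((τ * z.im : ℝ) : ℂ) * Complex.I := ⟨_, rfl⟩
  rw [← hz']
  have hh : 0 < τ * z.im := by positivity
  have hne : z' - z ≠ 0 := by
    rw [hz', add_sub_cancel_left]
    apply mul_ne_zero _ Complex.I_ne_zero
    exact_mod_cast hh.ne'
  have hzz : ‖z' - z‖ = τ * z.im := by
    rw [hz', add_sub_cancel_left, norm_mul, Complex.norm_I, mul_one, Complex.norm_real,
      Real.norm_of_nonneg hh.le]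
  have hz'i : z.im ≤ z'.im := by
    rw [hz']
    simp
    positivity
  have hn : ∀ (v : ℂ), 0 < v.im → ∀ k : T d L, v.im ≤ ‖((adj k : ℝ) : ℂ) - v‖ := by
    intro v hv k
    have h3 := Complex.abs_im_le_norm (((adj k : ℝ) : ℂ) - v)
    have h4 : (((adj k : ℝ) : ℂ) - v).im = -v.im := by simp
    rw [h4, abs_neg, abs_of_pos hv] at h3
    exact h3
  have hk1 : ∀ k : T d L, ((adj k : ℝ) : ℂ) - z ≠ 0 := fun k h => by
    have := hn z hz k
    rw [h, norm_zero] at this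
    linarith
  have hk2 : ∀ k : T d L, ((adj k : ℝ) : ℂ) - z' ≠ 0 := fun k h => by
    have := hn z' (by linarith) k
    rw [h, norm_zero] at this
    linarith
  obtain ⟨R, hR⟩ : ∃ R, R = mv (NN d L) fun k : T d L => ((w k : ℝ) : ℂ) *
    ((((adj k : ℝ) : ℂ) - z)⁻¹ * (((adj k : ℝ) : ℂ) - z)⁻¹ * (((adj k : ℝ) : ℂ) - z')⁻¹) :=
    ⟨_, rfl⟩
  have e1 : gW w z' - gW w z = (z' - z) * gW2 w z + (z' - z) ^ 2 * R := by
    unfold gW gW2
    rw [hR, ← mv_sub, ← mv_mul, ← mv_mul, ← mv_add]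
    congr 1
    funext k
    have := hk1 k
    have := hk2 k
    field_simp
    ring
  have e2 : gW2 w z = (gW w z' - gW w z) / (z' - z) - (z' - z) * R := by
    rw [e1]
    field_simp
    ring
  have hRn : ‖R‖ ≤ (z.im)⁻¹ * ((gL d L z).im / z.im) := by
    have h1 : (gL d L z).im / z.im = rv (NN d L) fun k : T d L =>
        ‖((adj k : ℝ) : ℂ) - z‖⁻¹ ^ 2 := by
      have h2 : gL d L z = mv (NN d L) fun k : T d L => (((adj k : ℝ) : ℂ) - z)⁻¹ := rfl
      rw [h2, mv_im]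
      unfold rv
      rw [mul_div_assoc, Finset.sum_div]
      refine congrArg (fun t => (NN d L)⁻¹ * t) (Finset.sum_congr rfl fun k _ => ?_)
      beta_reduce
      rw [Complex.inv_im, inv_pow, ← Complex.normSq_eq_norm_sq]
      have h4 : (((adj k : ℝ) : ℂ) - z).im = -z.im := by simp
      rw [h4, neg_neg]
      field_simp
    rw [h1, ← rv_mul, hR]
    refine mv_le hN fun k => ?_
    rw [norm_mul, norm_mul, norm_mul, norm_inv, norm_inv, Complex.norm_real, Real.norm_eq_abs]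
    have h3 : ‖((adj k : ℝ) : ℂ) - z'‖⁻¹ ≤ z.im⁻¹ :=
      inv_anti₀ hz (hz'i.trans (hn z' (by linarith) k))
    calc |w k| * (‖((adj k : ℝ) : ℂ) - z‖⁻¹ * ‖((adj k : ℝ) : ℂ) - z‖⁻¹ *
          ‖((adj k : ℝ) : ℂ) - z'‖⁻¹) ≤ 1 * (‖((adj k : ℝ) : ℂ) - z‖⁻¹ *
          ‖((adj k : ℝ) : ℂ) - z‖⁻¹ * z.im⁻¹) := by
          have := hw k
          gcongr
      _ = _ := by ring
  rw [e2]
  refine (norm_sub_le _ _).trans ?_
  rw [norm_div, norm_mul, hzz]
  refine add_le_add le_rfl ?_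
  calc τ * z.im * ‖R‖ ≤ τ * z.im * ((z.im)⁻¹ * ((gL d L z).im / z.im)) := by gcongr
    _ = _ := by
        field_simp

end tor

/-- the free amplitude -/
noncomputable def F0 (d : ℕ) (s : ℝ) : ℂ := pp s ^ d

/-- the weighted free amplitude -/
noncomputable def F1 (d : ℕ) (s : ℝ) : ℂ := qq s * pp s ^ (d - 1)

theorem pp_pow (hO : S_OSC) (s : ℝ) (hs : 0 ≤ s) (n : ℕ) :
    ‖pp s‖ ^ n ≤ 10 ^ n * (s + 1) ^ (-(n / 2) : ℝ) := by
  have h1 := pp_decay hO s
  rw [abs_of_nonneg hs] at h1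
  have h2 : 10 / Real.sqrt (1 + s) = 10 * (s + 1) ^ (-(1 / 2) : ℝ) := by
    rw [Real.sqrt_eq_rpow, Real.rpow_neg (by linarith), add_comm 1 s]
    rfl
  rw [h2] at h1
  refine (pow_le_pow_left₀ (norm_nonneg _) h1 n).trans (le_of_eq ?_)
  rw [mul_pow, ← Real.rpow_natCast ((s + 1) ^ (-(1 / 2) : ℝ)), ← Real.rpow_mul (by linarith)]
  congr 2
  ring

theorem amp0 (hO : S_OSC) (d : ℕ) (hd : 3 ≤ d) : Amp (F0 d) (80 * 10 ^ d) where
  cont := pp_cont.pow d
  one s := by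
    unfold F0
    rw [norm_pow]
    exact pow_le_one₀ (norm_nonneg _) (pp_le s)
  C0 := by positivity
  dec s hs := by
    unfold F0
    rw [norm_pow]
    refine (pp_pow hO s hs d).trans ?_
    have h1 : (s + 1) ^ (-(d / 2) : ℝ) ≤ (s + 1) ^ (-(5 / 4) : ℝ) := by
      apply Real.rpow_le_rpow_of_exponent_le (by linarith)
      have : (3 : ℝ) ≤ d := by exact_mod_cast hd
      linarith
    have h2 : (10 : ℝ) ^ d ≤ 80 * 10 ^ d := by
      have : (0 : ℝ) < 10 ^ d := by positivity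
      linarith
    gcongr

theorem amp1 (hO : S_OSC) (d : ℕ) (hd : 3 ≤ d) : Amp (F1 d) (80 * 10 ^ d) where
  cont := qq_cont.mul (pp_cont.pow _)
  one s := by
    unfold F1
    rw [norm_mul, norm_pow]
    exact mul_le_one₀ (qq_le s) (by positivity) (pow_le_one₀ (norm_nonneg _) (pp_le s))
  C0 := by positivity
  dec s hs := by
    unfold F1
    rw [norm_mul, norm_pow]
    have h0 := qq_decay hO s hs
    have h1 := pp_pow hO s hs (d - 1)
    have h2 : (s + 1) ^ (-(((d - 1 : ℕ) : ℝ) / 2) : ℝ) ≤ (s + 1) ^ (-1 : ℝ) := by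
      apply Real.rpow_le_rpow_of_exponent_le (by linarith)
      have : (2 : ℝ) ≤ ((d - 1 : ℕ) : ℝ) := by exact_mod_cast (by omega : 2 ≤ d - 1)
      linarith
    have h3 : (10 : ℝ) ^ (d - 1) ≤ 10 ^ d := pow_le_pow_right₀ (by norm_num) (by omega)
    calc ‖qq s‖ * ‖pp s‖ ^ (d - 1) ≤ (80 * (s + 1) ^ (-(1 / 4) : ℝ)) *
          (10 ^ d * (s + 1) ^ (-1 : ℝ)) := by
          refine mul_le_mul h0 (h1.trans ?_) (by positivity) (by positivity)
          gcongr
      _ = 80 * 10 ^ d * ((s + 1) ^ (-(1 / 4) : ℝ) * (s + 1) ^ (-1 : ℝ)) := by ring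
      _ = _ := by
          rw [← Real.rpow_add (by linarith)]
          norm_num

section tor2

variable {d L : ℕ} [NeZero L]

theorem dist0 (s : ℝ) (hs : 0 ≤ s) : ‖(mv (NN d L) fun k : T d L => (((1 : ℝ)) : ℂ) *
      Complex.exp (Complex.I * ((-s * adj k : ℝ) : ℂ))) - F0 d s‖ ≤
      (14 * d / L) * (1 + s) := by
  have hLp : (0 : ℝ) < L := by exact_mod_cast Nat.pos_of_ne_zero (NeZero.ne L)
  simp only [Complex.ofReal_one, one_mul]
  rw [mv_exp]
  unfold F0
  refine (pow_lip _ _ (cp_le L s) (pp_le s) d).trans ?_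
  have h1 := cp_pp L s
  rw [abs_of_nonneg hs] at h1
  calc (d : ℝ) * ‖cp L s - pp s‖ ≤ d * (14 * s / L) := by gcongr
    _ = (14 * d / L) * s := by ring
    _ ≤ _ := by
        apply mul_le_mul_of_nonneg_left _ (by positivity)
        linarith

theorem dist1 (hd : 1 ≤ d) (j : Fin d) (s : ℝ) (hs : 0 ≤ s) :
    ‖(mv (NN d L) fun k : T d L => ((sg j k ^ 2 : ℝ) : ℂ) *
      Complex.exp (Complex.I * ((-s * adj k : ℝ) : ℂ))) - F1 d s‖ ≤
      (14 * d / L) * (1 + s) := by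
  have hLp : (0 : ℝ) < L := by exact_mod_cast Nat.pos_of_ne_zero (NeZero.ne L)
  rw [mv_sg]
  unfold F1
  have e1 : cq L s * cp L s ^ (d - 1) - qq s * pp s ^ (d - 1) =
      (cq L s - qq s) * cp L s ^ (d - 1) + qq s * (cp L s ^ (d - 1) - pp s ^ (d - 1)) := by ring
  rw [e1]
  refine (norm_add_le _ _).trans ?_
  rw [norm_mul, norm_mul, norm_pow]
  have h1 := cp_pp L s
  have h2 := cq_qq L s
  rw [abs_of_nonneg hs] at h1 h2
  have h3 := pow_lip _ _ (cp_le L s) (pp_le s) (d - 1)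
  have h4 : ‖cp L s‖ ^ (d - 1) ≤ 1 := pow_le_one₀ (norm_nonneg _) (cp_le L s)
  have h5 : ((d - 1 : ℕ) : ℝ) = d - 1 := by
    push_cast [hd]
    ring
  have h6 : ‖cq L s - qq s‖ * ‖cp L s‖ ^ (d - 1) ≤ (14 + 14 * s) / L * 1 :=
    mul_le_mul h2 h4 (by positivity) (by positivity)
  have h7 : ‖qq s‖ * ‖cp L s ^ (d - 1) - pp s ^ (d - 1)‖ ≤ 1 * ((d - 1) * (14 * s / L)) := by
    refine mul_le_mul (qq_le s) (h3.trans ?_) (norm_nonneg _) zero_le_one
    rw [h5]
    apply mul_le_mul_of_nonneg_left h1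
    have : (1 : ℝ) ≤ d := by exact_mod_cast hd
    linarith
  have h8 : (14 * d / L) * (1 + s) = (14 + 14 * s) / L * 1 + 1 * ((d - 1) * (14 * s / L)) +
      14 * (d - 1) / L := by
    field_simp
    ring
  have h9 : 0 ≤ 14 * ((d : ℝ) - 1) / L := by
    apply div_nonneg _ hLp.le
    have : (1 : ℝ) ≤ d := by exact_mod_cast hd
    linarith
  linarith

end tor2

end Pool.Agent.TH794.QD
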