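import Pool.Agent.W788.BK.Stm

/-! Exponential concentration for a functional with bounded discrete gradient. -/

set_option autoImplicit false
set_option linter.unusedSectionVars false

open scoped BigOperators Matrix
open MeasureTheory

namespace Pool.Agent.TH794.QD

open Pool.Agent.W788.BK

variable {m : Type} [Fintype m] [DecidableEq m]

theorem instPP (μ : Measure ℝ) [IsProbabilityMeasure μ] : IsProbabilityMeasure (PP m μ) := by
  unfold PP
  infer_instance

theorem exp_diff (x y : ℝ) (h : |x - y| ≤ 1 / 4) :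
    |Real.exp x - Real.exp y| ≤ Real.exp x * (5 / 4 * |x - y|) := by
  have h1 : Real.exp x - Real.exp y = Real.exp x * (1 - Real.exp (y - x)) := by
    rw [mul_sub, mul_one, ← Real.exp_add]
    congr 2
    ring
  rw [h1, abs_mul, abs_of_pos (Real.exp_pos x)]
  refine mul_le_mul_of_nonneg_left ?_ (Real.exp_pos x).le
  have h2 : |y - x| ≤ 1 := by rw [abs_sub_comm]; linarith
  have h3 := Real.abs_exp_sub_one_sub_id_le h2
  have h4 : |1 - Real.exp (y - x)| ≤ |y - x| + |Real.exp (y - x) - 1 - (y - x)| := by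
    have h5 := abs_add_le (-(y - x)) (-(Real.exp (y - x) - 1 - (y - x)))
    rw [abs_neg, abs_neg] at h5
    refine le_trans (le_of_eq ?_) h5
    congr 1
    ring
  have h6 : (y - x) ^ 2 ≤ 1 / 4 * |x - y| := by
    rw [← sq_abs, abs_sub_comm y x, sq]
    exact mul_le_mul_of_nonneg_right h (abs_nonneg _)
  rw [abs_sub_comm y x] at h4
  linarith

/-- one doubling step -/
theorem dstep (hES : S_ES) (μ : Measure ℝ) [IsProbabilityMeasure μ] (G : (m → ℝ) → ℝ)
    (hG : Continuous G) (C : ℝ) (hC : ∀ V, |G V| ≤ C) (D : ℝ) (hD : 0 < D)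
    (h : ∀ᵐ V ∂(PP m μ), ∑ y, |G V - G (Function.update V y 0)| ^ 2 ≤ D ^ 2)
    (s : ℝ) (hs : 0 ≤ s) (hsD : s * D ≤ 1 / 2) :
    ∫ V, Real.exp (s * G V) ∂(PP m μ) ≤
      Real.exp (s ^ 2 * D ^ 2) * (∫ V, Real.exp (s / 2 * G V) ∂(PP m μ)) ^ 2 := by
  have hP := instPP (m := m) μ
  obtain ⟨F, hF⟩ : ∃ F : (m → ℝ) → ℝ, F = fun V => Real.exp (s / 2 * G V) := ⟨_, rfl⟩
  have hFc : Continuous F := by
    rw [hF]
    exact Real.continuous_exp.comp (continuous_const.mul hG)
  have hF0 : ∀ V, 0 < F V := fun V => by rw [hF]; exact Real.exp_pos _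
  have hFC : ∀ V, F V ≤ Real.exp (s / 2 * C) := by
    intro V
    rw [hF]
    apply Real.exp_le_exp.2
    exact mul_le_mul_of_nonneg_left ((le_abs_self _).trans (hC V)) (by positivity)
  have hF2 : ∀ V, F V ^ 2 = Real.exp (s * G V) := by
    intro V
    rw [hF]
    simp only
    rw [← Real.exp_nat_mul]
    congr 1
    push_cast
    ring
  have int1 : Integrable F (PP m μ) := Integrable.of_bound hFc.aestronglyMeasurable
    (Real.exp (s / 2 * C)) (Filter.Eventually.of_forall fun V => by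
      rw [Real.norm_of_nonneg (hF0 V).le]; exact hFC V)
  have int2 : Integrable (fun V => F V ^ 2) (PP m μ) :=
    Integrable.of_bound (hFc.pow 2).aestronglyMeasurable
    (Real.exp (s / 2 * C) ^ 2) (Filter.Eventually.of_forall fun V => by
      rw [Real.norm_of_nonneg (sq_nonneg _)]
      exact pow_le_pow_left₀ (hF0 V).le (hFC V) 2)
  obtain ⟨E, hE⟩ : ∃ E, E = ∫ V, F V ∂(PP m μ) := ⟨_, rfl⟩
  have hes := hES m μ (fun V => (F V : ℂ)) (Complex.continuous_ofReal.comp hFc)
    ⟨Real.exp (s / 2 * C), fun V => by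
      rw [Complex.norm_real, Real.norm_of_nonneg (hF0 V).le]; exact hFC V⟩
  have hE' : ∫ V, (F V : ℂ) ∂(PP m μ) = (E : ℂ) := by
    rw [hE, integral_complex_ofReal]
  rw [hE'] at hes
  have hl : ∫ V, ‖(F V : ℂ) - (E : ℂ)‖ ^ 2 ∂(PP m μ) = ∫ V, F V ^ 2 ∂(PP m μ) - E ^ 2 := by
    have e1 : ∀ V, ‖(F V : ℂ) - (E : ℂ)‖ ^ 2 = F V ^ 2 - 2 * E * F V + E ^ 2 := by
      intro V
      rw [← Complex.ofReal_sub, Complex.norm_real, Real.norm_eq_abs, sq_abs]
      ring
    simp only [e1]
    have i3 : Integrable (fun V => F V ^ 2 - 2 * E * F V) (PP m μ) := int2.sub (int1.const_mul _)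
    rw [integral_add i3 (integrable_const _), integral_sub int2 (int1.const_mul _),
      integral_const_mul, integral_const, probReal_univ, ← hE]
    simp only [smul_eq_mul]
    ring
  rw [hl] at hes
  have hint : ∀ y, Integrable (fun V : m → ℝ =>
      ‖(F V : ℂ) - (F (Function.update V y 0) : ℂ)‖ ^ 2) (PP m μ) := by
    intro y
    have c1 : Continuous fun V : m → ℝ => Function.update V y (0 : ℝ) :=
      continuous_id.update y continuous_const
    refine Integrable.of_bound (((Complex.continuous_ofReal.comp hFc).sub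
      (Complex.continuous_ofReal.comp (hFc.comp c1))).norm.pow 2).aestronglyMeasurable
      ((Real.exp (s / 2 * C) + Real.exp (s / 2 * C)) ^ 2) ?_
    refine Filter.Eventually.of_forall fun V => ?_
    rw [Real.norm_of_nonneg (by positivity)]
    refine pow_le_pow_left₀ (norm_nonneg _) ((norm_sub_le _ _).trans ?_) 2
    rw [Complex.norm_real, Complex.norm_real, Real.norm_of_nonneg (hF0 _).le,
      Real.norm_of_nonneg (hF0 _).le]
    exact add_le_add (hFC _) (hFC _)
  rw [← integral_finsetSum _ fun y _ => hint y] at hes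
  have hr : ∫ V, ∑ y, ‖(F V : ℂ) - (F (Function.update V y 0) : ℂ)‖ ^ 2 ∂(PP m μ) ≤
      ∫ V, (1 / 2 * (s ^ 2 * D ^ 2)) * F V ^ 2 ∂(PP m μ) := by
    refine integral_mono_ae (integrable_finsetSum _ fun y _ => hint y) (int2.const_mul _) ?_
    filter_upwards [h] with V hV
    have e1 : ∀ y, ‖(F V : ℂ) - (F (Function.update V y 0) : ℂ)‖ ^ 2 ≤
        (F V ^ 2 * (25 / 64 * s ^ 2)) * |G V - G (Function.update V y 0)| ^ 2 := by
      intro y
      have f1 : |G V - G (Function.update V y 0)| ^ 2 ≤ D ^ 2 :=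
        (Finset.single_le_sum (f := fun y => |G V - G (Function.update V y 0)| ^ 2)
          (fun _ _ => by positivity) (Finset.mem_univ y)).trans hV
      have f2 : |G V - G (Function.update V y 0)| ≤ D := abs_le_of_sq_le_sq f1 hD.le |>.trans' (le_abs_self _) |> fun h => by
        simpa using h
      have f3 : |s / 2 * G V - s / 2 * G (Function.update V y 0)| =
          s / 2 * |G V - G (Function.update V y 0)| := by
        rw [← mul_sub, abs_mul, abs_of_nonneg (by positivity)]
      have f4 : |s / 2 * G V - s / 2 * G (Function.update V y 0)| ≤ 1 / 4 := by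
        rw [f3]
        have := mul_le_mul_of_nonneg_left f2 (show 0 ≤ s / 2 by positivity)
        linarith
      have f5 := exp_diff _ _ f4
      rw [f3] at f5
      have f6 : ‖(F V : ℂ) - (F (Function.update V y 0) : ℂ)‖ ≤
          F V * (5 / 4 * (s / 2 * |G V - G (Function.update V y 0)|)) := by
        rw [← Complex.ofReal_sub, Complex.norm_real, Real.norm_eq_abs, hF]
        exact f5
      refine (pow_le_pow_left₀ (norm_nonneg _) f6 2).trans (le_of_eq ?_)
      ring
    refine (Finset.sum_le_sum fun y _ => e1 y).trans ?_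
    rw [← Finset.mul_sum]
    have e2 := mul_le_mul_of_nonneg_left hV
      (show 0 ≤ F V ^ 2 * (25 / 64 * s ^ 2) by positivity)
    have e3 : 0 ≤ F V ^ 2 * (s ^ 2 * D ^ 2) := by positivity
    nlinarith
  rw [integral_const_mul] at hr
  have h4 := hes.trans hr
  simp only [hF2] at h4 hl
  obtain ⟨Λ, hΛ⟩ : ∃ Λ, Λ = ∫ V, Real.exp (s * G V) ∂(PP m μ) := ⟨_, rfl⟩
  rw [← hΛ] at h4 ⊢
  have hE2 : ∫ V, Real.exp (s / 2 * G V) ∂(PP m μ) = E := by rw [hE, hF]
  rw [hE2]
  obtain ⟨x, hx⟩ : ∃ x, x = s ^ 2 * D ^ 2 := ⟨_, rfl⟩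
  rw [← hx] at h4 ⊢
  have hx0 : 0 ≤ x := by rw [hx]; positivity
  have hx1 : x ≤ 1 / 4 := by
    rw [hx, ← mul_pow]
    have := pow_le_pow_left₀ (mul_nonneg hs hD.le) hsD 2
    linarith
  have hΛ0 : 0 ≤ Λ := by rw [hΛ]; exact integral_nonneg fun V => (Real.exp_pos _).le
  have h5 : (1 - x / 2) * Λ ≤ E ^ 2 := by linarith
  have h6 : 1 ≤ Real.exp x * (1 - x / 2) := by
    have := Real.add_one_le_exp x
    nlinarith
  calc Λ ≤ (Real.exp x * (1 - x / 2)) * Λ := le_mul_of_one_le_left hΛ0 h6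
    _ = Real.exp x * ((1 - x / 2) * Λ) := by ring
    _ ≤ Real.exp x * E ^ 2 := mul_le_mul_of_nonneg_left h5 (Real.exp_pos _).le

/-- the iteration -/
theorem diter (hES : S_ES) (μ : Measure ℝ) [IsProbabilityMeasure μ] (G : (m → ℝ) → ℝ)
    (hG : Continuous G) (C : ℝ) (hC : ∀ V, |G V| ≤ C) (D : ℝ) (hD : 0 < D)
    (h : ∀ᵐ V ∂(PP m μ), ∑ y, |G V - G (Function.update V y 0)| ^ 2 ≤ D ^ 2) (k : ℕ) :
    ∀ (s : ℝ), 0 ≤ s → s * D ≤ 1 / 2 → ∫ V, Real.exp (s * G V) ∂(PP m μ) ≤
      Real.exp (2 * (s ^ 2 * D ^ 2)) * (∫ V, Real.exp (s / 2 ^ k * G V) ∂(PP m μ)) ^ (2 ^ k) := by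
  induction k with
  | zero =>
    intro s hs hsD
    simp only [pow_zero, div_one, pow_one]
    refine le_mul_of_one_le_left (integral_nonneg fun V => (Real.exp_pos _).le) ?_
    exact Real.one_le_exp (by positivity)
  | succ k ih =>
    intro s hs hsD
    have h1 := dstep hES μ G hG C hC D hD h s hs hsD
    have h2 := ih (s / 2) (by positivity) (by linarith)
    have e0 : s / 2 / 2 ^ k = s / 2 ^ (k + 1) := by rw [pow_succ]; field_simp
    rw [e0] at h2
    refine h1.trans ?_
    have h3 : (∫ V, Real.exp (s / 2 * G V) ∂(PP m μ)) ^ 2 ≤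
        (Real.exp (2 * ((s / 2) ^ 2 * D ^ 2)) *
          (∫ V, Real.exp (s / 2 ^ (k + 1) * G V) ∂(PP m μ)) ^ (2 ^ k)) ^ 2 :=
      pow_le_pow_left₀ (integral_nonneg fun V => (Real.exp_pos _).le) h2 2
    refine (mul_le_mul_of_nonneg_left h3 (Real.exp_pos _).le).trans (le_of_eq ?_)
    rw [mul_pow, ← Real.exp_nat_mul, ← pow_mul, ← mul_assoc, ← Real.exp_add]
    congr 1
    congr 1
    push_cast
    ring

/-- the exponential moment -/
theorem emom (hES : S_ES) (μ : Measure ℝ) [IsProbabilityMeasure μ] (G : (m → ℝ) → ℝ)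
    (hG : Continuous G) (C : ℝ) (hC : ∀ V, |G V| ≤ C) (hG0 : ∫ V, G V ∂(PP m μ) = 0) (D : ℝ)
    (hD : 0 < D)
    (h : ∀ᵐ V ∂(PP m μ), ∑ y, |G V - G (Function.update V y 0)| ^ 2 ≤ D ^ 2)
    (s : ℝ) (hs : 0 ≤ s) (hsD : s * D ≤ 1 / 2) :
    ∫ V, Real.exp (s * G V) ∂(PP m μ) ≤ Real.exp (2 * (s ^ 2 * D ^ 2)) := by
  have hP := instPP (m := m) μ
  have hC0 : 0 ≤ C := (abs_nonneg _).trans (hC 0)
  have hint : Integrable G (PP m μ) := Integrable.of_bound hG.aestronglyMeasurable C
    (Filter.Eventually.of_forall hC)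
  -- small parameters
  have small : ∀ e : ℝ, 0 ≤ e → e * C ≤ 1 → ∫ V, Real.exp (e * G V) ∂(PP m μ) ≤
      Real.exp (e ^ 2 * C ^ 2) := by
    intro e he heC
    have h1 : ∀ V, Real.exp (e * G V) ≤ 1 + e * G V + e ^ 2 * C ^ 2 := by
      intro V
      have f1 : |e * G V| ≤ e * C := by
        rw [abs_mul, abs_of_nonneg he]
        exact mul_le_mul_of_nonneg_left (hC V) he
      have f2 := (abs_le.1 (Real.abs_exp_sub_one_sub_id_le (f1.trans heC))).2
      have f3 : (e * G V) ^ 2 ≤ (e * C) ^ 2 := by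
        rw [← sq_abs]
        exact pow_le_pow_left₀ (abs_nonneg _) f1 2
      have f4 : (e * C) ^ 2 = e ^ 2 * C ^ 2 := by ring
      linarith
    have h2 : ∫ V, Real.exp (e * G V) ∂(PP m μ) ≤
        ∫ V, (1 + e * G V + e ^ 2 * C ^ 2) ∂(PP m μ) := by
      refine integral_mono_of_nonneg (Filter.Eventually.of_forall fun V => (Real.exp_pos _).le)
        (((integrable_const _).add (hint.const_mul _)).add (integrable_const _))
        (Filter.Eventually.of_forall h1)
    have i1 : Integrable (fun V => 1 + e * G V) (PP m μ) :=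
      (integrable_const _).add (hint.const_mul _)
    rw [integral_add i1 (integrable_const _), integral_add (integrable_const _)
      (hint.const_mul _), integral_const_mul, hG0, integral_const, integral_const,
      probReal_univ] at h2
    simp only [smul_eq_mul, one_mul, mul_zero, add_zero] at h2
    refine h2.trans ?_
    have := Real.add_one_le_exp (e ^ 2 * C ^ 2)
    linarith
  -- the limit
  have key : ∀ k : ℕ, s * C ≤ 2 ^ k → ∫ V, Real.exp (s * G V) ∂(PP m μ) ≤
      Real.exp (2 * (s ^ 2 * D ^ 2) + s ^ 2 * C ^ 2 / 2 ^ k) := by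
    intro k hk
    have h1 := diter hES μ G hG C hC D hD h k s hs hsD
    have h2 := small (s / 2 ^ k) (by positivity) (by
      rw [div_mul_eq_mul_div, div_le_one (by positivity)]
      exact hk)
    refine h1.trans ?_
    rw [Real.exp_add]
    refine mul_le_mul_of_nonneg_left ?_ (Real.exp_pos _).le
    refine (pow_le_pow_left₀ (integral_nonneg fun V => (Real.exp_pos _).le) h2 _).trans ?_
    rw [← Real.exp_nat_mul]
    apply Real.exp_le_exp.2
    have h3 : (0 : ℝ) < 2 ^ k := by positivity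
    push_cast
    rw [div_pow]
    field_simp
    exact le_refl _
  have ht : Filter.Tendsto (fun k : ℕ => Real.exp (2 * (s ^ 2 * D ^ 2) + s ^ 2 * C ^ 2 / 2 ^ k))
      Filter.atTop (nhds (Real.exp (2 * (s ^ 2 * D ^ 2)))) := by
    have h1 : Filter.Tendsto (fun k : ℕ => s ^ 2 * C ^ 2 / (2 : ℝ) ^ k) Filter.atTop (nhds 0) := by
      have h2 : Filter.Tendsto (fun k : ℕ => s ^ 2 * C ^ 2 * ((1 / 2 : ℝ)) ^ k) Filter.atTop
          (nhds (s ^ 2 * C ^ 2 * 0)) :=
        (tendsto_pow_atTop_nhds_zero_of_lt_one (by norm_num) (by norm_num)).const_mul _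
      rw [mul_zero] at h2
      refine h2.congr fun k => ?_
      rw [one_div, inv_pow]
      rfl
    have h3 := h1.const_add (2 * (s ^ 2 * D ^ 2))
    rw [add_zero] at h3
    exact (Real.continuous_exp.tendsto _).comp h3
  refine ge_of_tendsto ht ?_
  obtain ⟨k0, hk0⟩ := pow_unbounded_of_one_lt (s * C) (by norm_num : (1 : ℝ) < 2)
  filter_upwards [Filter.eventually_ge_atTop k0] with k hk
  exact key k (hk0.le.trans (pow_le_pow_right₀ (by norm_num) hk))

/-- **exponential concentration** -/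
theorem addTail (hES : S_ES) (μ : Measure ℝ) [IsProbabilityMeasure μ] (F : (m → ℝ) → ℝ)
    (hF : Continuous F) (C : ℝ) (hC : ∀ V, |F V| ≤ C) (D : ℝ) (hD : 0 < D)
    (h : ∀ᵐ V ∂(PP m μ), ∑ y, |F V - F (Function.update V y 0)| ^ 2 ≤ D ^ 2) (t : ℝ) :
    (PP m μ).real {V | t < |F V - ∫ U, F U ∂(PP m μ)|} ≤ 4 * Real.exp (-(t / (2 * D))) := by
  have hP := instPP (m := m) μ
  obtain ⟨E, hE⟩ : ∃ E, E = ∫ U, F U ∂(PP m μ) := ⟨_, rfl⟩
  rw [← hE]
  have hint : Integrable F (PP m μ) := Integrable.of_bound hF.aestronglyMeasurable C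
    (Filter.Eventually.of_forall hC)
  have one : ∀ G : (m → ℝ) → ℝ, Continuous G → (∀ V, |G V| ≤ C + |E|) →
      ∫ V, G V ∂(PP m μ) = 0 →
      (∀ᵐ V ∂(PP m μ), ∑ y, |G V - G (Function.update V y 0)| ^ 2 ≤ D ^ 2) →
      (PP m μ).real {V | t < G V} ≤ 2 * Real.exp (-(t / (2 * D))) := by
    intro G hG hGC hG0 hGD
    obtain ⟨s, hs⟩ : ∃ s, s = 1 / (2 * D) := ⟨_, rfl⟩
    have hs0 : 0 < s := by rw [hs]; positivity
    have hsD : s * D = 1 / 2 := by rw [hs]; field_simp
    have h1 := emom hES μ G hG _ hGC hG0 D hD hGD s hs0.le hsD.le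
    have h2 : 2 * (s ^ 2 * D ^ 2) = 1 / 2 := by
      rw [← mul_pow, hsD]
      norm_num
    rw [h2] at h1
    have h3 : Real.exp (1 / 2) ≤ 2 := by
      have h4 : Real.exp (1 / 2) ^ 2 ≤ 2 ^ 2 := by
        rw [← Real.exp_nat_mul]
        norm_num
        linarith [Real.exp_one_lt_d9]
      exact abs_le_of_sq_le_sq' h4 (by norm_num) |>.2
    have ie : Integrable (fun V => Real.exp (s * G V)) (PP m μ) := by
      refine Integrable.of_bound (Real.continuous_exp.comp
        (continuous_const.mul hG)).aestronglyMeasurable (Real.exp (s * (C + |E|))) ?_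
      refine Filter.Eventually.of_forall fun V => ?_
      rw [Real.norm_of_nonneg (Real.exp_pos _).le]
      exact Real.exp_le_exp.2 (mul_le_mul_of_nonneg_left ((le_abs_self _).trans (hGC V)) hs0.le)
    have m1 := mul_meas_ge_le_integral_of_nonneg (μ := PP m μ)
      (f := fun V => Real.exp (s * G V))
      (Filter.Eventually.of_forall fun V => (Real.exp_pos _).le) ie (Real.exp (s * t))
    have m2 : (PP m μ).real {V | t < G V} ≤
        (PP m μ).real {V | Real.exp (s * t) ≤ Real.exp (s * G V)} := by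
      refine measureReal_mono fun V hV => ?_
      exact Real.exp_le_exp.2 (mul_le_mul_of_nonneg_left (show t < G V from hV).le hs0.le)
    have m3 : Real.exp (s * t) * (PP m μ).real {V | t < G V} ≤ 2 :=
      (mul_le_mul_of_nonneg_left m2 (Real.exp_pos _).le).trans (m1.trans (h1.trans h3))
    have m4 : Real.exp (s * t) * (2 * Real.exp (-(t / (2 * D)))) = 2 := by
      have : s * t = t / (2 * D) := by rw [hs]; ring
      rw [this, mul_left_comm, ← Real.exp_add, add_neg_cancel, Real.exp_zero, mul_one]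
    refine le_of_mul_le_mul_left ?_ (Real.exp_pos (s * t))
    rw [m4]
    exact m3
  have hmean : ∫ V, (F V - E) ∂(PP m μ) = 0 := by
    rw [integral_sub hint (integrable_const _), integral_const, probReal_univ, ← hE]
    simp
  have a1 := one (fun V => F V - E) (hF.sub continuous_const)
    (fun V => (abs_sub _ _).trans (add_le_add (hC V) le_rfl)) hmean (by
      filter_upwards [h] with V hV
      refine le_trans (le_of_eq ?_) hV
      refine Finset.sum_congr rfl fun y _ => ?_
      congr 2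
      ring)
  have a2 := one (fun V => E - F V) (continuous_const.sub hF)
    (fun V => (abs_sub _ _).trans (by rw [add_comm]; exact add_le_add (hC V) le_rfl)) (by
      have e1 : ∀ V, E - F V = -(F V - E) := fun V => by ring
      simp only [e1]
      rw [integral_neg, hmean, neg_zero]) (by
      filter_upwards [h] with V hV
      refine le_trans (le_of_eq ?_) hV
      refine Finset.sum_congr rfl fun y _ => ?_
      rw [← abs_neg]
      congr 2
      ring)
  have hsub : {V : m → ℝ | t < |F V - E|} ⊆ {V | t < F V - E} ∪ {V | t < E - F V} := by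
    intro V hV
    have hV' : t < |F V - E| := hV
    rcases lt_abs.1 hV' with h1 | h1
    · exact Or.inl h1
    · right
      have : t < -(F V - E) := h1
      show t < E - F V
      linarith
  refine (measureReal_mono hsub).trans ((measureReal_union_le _ _).trans ?_)
  linarith

end Pool.Agent.TH794.QD
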