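import Pool.Agent.TH794.QD.Mean5
import Pool.Agent.TH794.QD.Conc3
import Pool.Agent.TH794.FG.Mean3

/-! The mean and the concentration of the chain on the torus. -/

set_option autoImplicit false
set_option linter.unusedSectionVars false

open scoped BigOperators Matrix
open MeasureTheory

namespace Pool.Agent.TH794.QD

open Pool.Agent.W788.BK
open Pool.Agent.TH794.LL2
open Pool.Agent.W240.BK (ae_PP)
open Pool.Agent.W261.BK (nn nn_nonneg nn_sq nn_add nn_smul nn_le triple IB IM int_bl XX_cont)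
open Pool.Agent.W788.MFP.Four (T e NN adj K ft Op q NN_pos e_zero)

section emb

variable {n : Type} [Fintype n] [DecidableEq n]

/-- a vector in a block -/
def emb (i : Fin 3) (w : n → ℂ) (p : Fin 3 × n) : ℂ := if p.1 = i then w p.2 else 0

theorem form_emb (B : Fin 3 → Fin 3 → Matrix n n ℂ) (i j : Fin 3) (f g : n → ℂ) :
    star (emb i f) ⬝ᵥ (blk B *ᵥ emb j g) = star f ⬝ᵥ (B i j *ᵥ g) := by
  unfold dotProduct Matrix.mulVec dotProduct
  rw [Fintype.sum_prod_type, Finset.sum_eq_single i]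
  · refine Finset.sum_congr rfl fun k _ => ?_
    rw [Fintype.sum_prod_type, Finset.sum_eq_single j]
    · unfold emb
      simp [blk_apply]
    · intro l _ hl
      refine Finset.sum_eq_zero fun p _ => ?_
      unfold emb
      simp [hl]
    · intro h
      exact absurd (Finset.mem_univ j) h
  · intro l _ hl
    refine Finset.sum_eq_zero fun p _ => ?_
    unfold emb
    simp [hl]
  · intro h
    exact absurd (Finset.mem_univ i) h

theorem nsq_emb (i : Fin 3) (w : n → ℂ) : nsq (emb i w) = nsq w := by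
  unfold nsq
  rw [Fintype.sum_prod_type, Finset.sum_eq_single i]
  · unfold emb
    simp
  · intro l _ hl
    refine Finset.sum_eq_zero fun p _ => ?_
    unfold emb
    simp [hl]
  · intro h
    exact absurd (Finset.mem_univ i) h

theorem hs_vmv (a b : n → ℂ) : hs (Matrix.vecMulVec a (star b)) = nsq a * nsq b := by
  unfold hs nsq
  rw [Finset.sum_mul_sum]
  refine Finset.sum_congr rfl fun i _ => ?_
  refine Finset.sum_congr rfl fun j _ => ?_
  rw [Matrix.vecMulVec_apply, norm_mul, Pi.star_apply, norm_star, mul_pow]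

theorem tr_vmv (G : Matrix n n ℂ) (a b : n → ℂ) :
    (G * Matrix.vecMulVec a (star b)).trace = star b ⬝ᵥ (G *ᵥ a) := by
  rw [Matrix.mul_vecMulVec, Matrix.trace_vecMulVec, dotProduct_comm]

end emb

variable {d L : ℕ} [NeZero L]

/-- the weighted free resolvent -/
noncomputable def gW (w : T d L → ℝ) (z : ℂ) : ℂ :=
  mv (NN d L) fun k => ((w k : ℝ) : ℂ) * (((adj k : ℝ) : ℂ) - z)⁻¹

/-- the weighted square of the free resolvent -/
noncomputable def gW2 (w : T d L → ℝ) (z : ℂ) : ℂ :=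
  mv (NN d L) fun k => ((w k : ℝ) : ℂ) * ((((adj k : ℝ) : ℂ) - z)⁻¹ * (((adj k : ℝ) : ℂ) - z)⁻¹)

/-- the regularised chain -/
noncomputable def FQ (E δ θ η : ℝ) (σ : T d L → ℝ) (V : T d L → ℝ) : ℝ :=
  (star (w0 (d := d) (L := L) E δ) ⬝ᵥ (Bf E δ θ η σ V 0 2 *ᵥ w0 E δ)).im

/-- **the mean of the chain** -/
theorem mean6 (hES : S_ES) (hFA : S_FAC) (E δ θ η a v2 Q β s2 g ε e1 c0 : ℝ) (σ : T d L → ℝ)
    (τ : T d L ≃ T d L)
    (hδ : 0 < δ) (hη : 0 < η) (hη1 : η ≤ 1) (hσ : ∀ k, |σ k| ≤ 1)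
    (haτ : ∀ k, adj (τ k) = adj k) (hστ : ∀ k, σ (τ k) = -σ k)
    (hadm : Adm (D0 E δ) (AA (d := d) (L := L) E δ θ) a v2 Q)
    (μ : Measure ℝ) [IsProbabilityMeasure μ] (hβ : 0 < β) (hμ : ∀ᵐ s ∂μ, |s| ≤ β)
    (h0 : ∫ s, s ∂μ = 0) (h2 : ∫ s, s ^ 2 ∂μ = s2) (hs2 : 0 < s2)
    (hβa : β * a * (3 / η) ≤ 1) (hβv : β ^ 2 * v2 ≤ 1)
    (hε0 : 0 ≤ ε) (hε1 : ε ≤ 1 / 2) (he0 : 0 ≤ e1) (he1 : e1 ≤ 1 / 4)
    (hε : 4 * β ^ 3 * a * v2 * (3 / η) ^ 3 +
      s2 * (2 * β * (3 * Q) * Real.sqrt v2 * (3 / η) ^ 4) ≤ ε)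
    (hg : ∀ E' : ℝ, ∑ k : T d L, (JJ E' (η * δ) k)⁻¹ ≤ g * NN d L) (hg1 : 1 ≤ g)
    (hlow : s2 * (∑ P : T d L, (1 - hi θ P)) ≤ e1 * (η ^ 2 * δ ^ 2) * NN d L)
    (hc0 : c0 = 4 / 3 * (ε + e1 + (2 * η + 8 * s2 ^ 2 * g ^ 2 / δ ^ 2)))
    (r1 r2 u0 : ℝ) (hr1 : r1 = c0 * g * s2 / (η * δ)) (hr2 : r2 = ε * g ^ 2 * s2 ^ 2 / (η * δ) ^ 2)
    (hr1s : r1 ≤ 1 / 2000) (hr2s : r2 ≤ 1 / 2000) (hts : η * δ ≤ s2) (hu0 : u0 = η * δ / s2) :
    ∃ m z : ℂ, 0 ≤ m.im ∧ ‖m‖ ≤ 2 * g ∧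
      z = (E : ℂ) + (s2 : ℂ) * m + ((η * δ : ℝ) : ℂ) * Complex.I ∧
      ‖m - gL d L z‖ ≤ c0 * g ∧
      (s2 * ‖gW2 (fun _ : T d L => 1) z‖ ≤ 1 / 4 →
        |∫ V, FQ E δ θ η σ V ∂(PP (T d L) μ) - η * δ / 2 *
          ((gW (fun k => σ k ^ 2) z).im / (η * δ + s2 * m.im))| ≤
        200 * u0 * (r1 + r2) + η * δ / 2 * ‖gW2 (fun k => σ k ^ 2) z‖) := by
  have hXh := hadm.hX0
  have hAh := hadm.hA
  have hH := adG3 hadm (SD E δ σ) η hη hη1 (SD_nsq E δ σ hδ hσ)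
  obtain ⟨M, hM⟩ : ∃ M, M = Mb E δ θ η σ μ 2 2 := ⟨_, rfl⟩
  obtain ⟨U, hU⟩ : ∃ U, U = Mb E δ θ η σ μ 0 1 := ⟨_, rfl⟩
  obtain ⟨P, hP⟩ : ∃ P, P = Mb E δ θ η σ μ 1 2 := ⟨_, rfl⟩
  obtain ⟨W, hW⟩ : ∃ W, W = Mb E δ θ η σ μ 0 2 := ⟨_, rfl⟩
  have h4 := four_eq hES hFA E δ θ η a v2 Q β s2 ε σ hδ hη hη1 hσ hadm μ hβ hμ h0 h2 hs2.le hβa hβv
    hε M U P W hM hU hP hW
  have hMk : ∀ k, M k = ∫ V, RR (D0 E δ) (AA E δ θ) η V k k ∂(PP (T d L) μ) := by
    intro k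
    rw [hM]
    rfl
  have him : ∀ k, 0 ≤ (M k).im := by
    intro k
    have e2 := integrable_RR hXh hAh hη μ k k
    have e3 : (M k).im = ∫ V, (RR (D0 E δ) (AA E δ θ) η V k k).im ∂(PP (T d L) μ) := by
      rw [hMk]
      have := Complex.imCLM.integral_comp_comm e2
      simp only [Complex.imCLM_apply] at this
      exact this.symm
    rw [e3]
    apply integral_nonneg
    intro V
    have e4 := (ward hXh hAh hη V (Pi.single k 1)).1
    rw [form_single] at e4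
    simp only [Pi.zero_apply]
    rw [e4]
    exact mul_nonneg hη.le (nsq_nonneg _)
  have hbd : ∀ k, ‖M k‖ ≤ η⁻¹ := by
    intro k
    rw [hMk]
    refine (norm_integral_le_of_norm_le_const (C := η⁻¹)
      (Filter.Eventually.of_forall fun V => entry_bd hXh hAh hη V k k)).trans ?_
    rw [probReal_univ, mul_one]
  have hbb : ∀ (i j : Fin 3) k, ‖Mb E δ θ η σ μ i j k‖ ≤ 3 / η := by
    intro i j k
    unfold Mb
    refine (norm_integral_le_of_norm_le_const (C := 3 / η)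
      (Filter.Eventually.of_forall fun V => ?_)).trans ?_
    · have := hH.entry V (i, k) (j, k)
      rw [GG_Bf E δ θ η σ V hη hXh hAh, blk_apply] at this
      exact this
    · rw [probReal_univ, mul_one]
  have hhi : ∀ P : T d L, hi θ P ≤ 1 := fun P => hi_le_one θ P
  have hN := NN_pos (d := d) (L := L)
  obtain ⟨m, hm1, hm2, hm3, hm4⟩ := core2 (NN d L) δ η s2 g ε e1 E adj (JJ E δ)
    (fun k p => hi θ (k - p)) (∑ P : T d L, (1 - hi θ P)) M NN_pos hδ hη hs2.le hε0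
    hε1 (by linarith) he0 he1 (fun k => rfl) him hbd (fun k p => hhi _)
    (fun k => Equiv.sum_comp (Equiv.subLeft k) fun P : T d L => (1 - hi θ P)) hlow hg
    (fun k => (h4 k).1)
  obtain ⟨z, hz⟩ : ∃ z, z = (E : ℂ) + (s2 : ℂ) * m + ((η * δ : ℝ) : ℂ) * Complex.I := ⟨_, rfl⟩
  have hDz : ∀ k : T d L, ((adj k : ℝ) : ℂ) - z = ((adj k - E : ℝ) : ℂ) - (s2 : ℂ) * m -
      ((η * δ : ℝ) : ℂ) * Complex.I := by
    intro k
    rw [hz]
    push_cast
    ring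
  refine ⟨m, z, hm2, hm3, hz, ?_, ?_⟩
  · rw [hc0]
    unfold gL
    simp only [hDz]
    exact hm4
  · intro hg'
    have hm' : m = mv (NN d L) fun k => (((JJ E δ k)⁻¹ : ℝ) : ℂ) * M k := by
      rw [hm1]
      unfold mv
      simp only [Complex.ofReal_inv]
    have hmg : ‖m - mv (NN d L) (fun k : T d L => (((adj k : ℝ) : ℂ) - z)⁻¹)‖ ≤ c0 * g := by
      rw [hc0]
      unfold mv
      simp only [hDz]
      exact hm4
    have hg'' : s2 * ‖mv (NN d L) (fun k : T d L => (((adj k : ℝ) : ℂ) - z)⁻¹ *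
        (((adj k : ℝ) : ℂ) - z)⁻¹)‖ ≤ 1 / 4 := by
      unfold gW2 at hg'
      simp only [Complex.ofReal_one, one_mul] at hg'
      exact hg'
    have h7 := core7 (NN d L) δ η s2 g ε e1 E c0 adj (JJ E δ)
      (fun k p => hi θ (k - p)) (∑ P : T d L, (1 - hi θ P)) σ τ M U P W NN_pos hδ hη hs2 hε0 he0
      he1 hg1 (fun k => rfl) hbd (fun k => by rw [hU]; exact hbb 0 1 k)
      (fun k => by rw [hP]; exact hbb 1 2 k) (fun k => by rw [hW]; exact hbb 0 2 k)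
      (fun k p => hhi _)
      (fun k => Equiv.sum_comp (Equiv.subLeft k) fun P : T d L => (1 - hi θ P)) hlow
      (fun k => (h4 k).1) (fun k => (h4 k).2.1) (fun k => (h4 k).2.2.1) (fun k => (h4 k).2.2.2)
      haτ hστ hσ m hm' hm2 hm3 (fun k : T d L => ((adj k : ℝ) : ℂ) - z) hDz hc0 hmg hg r1 r2 u0 hr1 hr2
      hr1s hr2s hts hu0 hg''
    -- the integral
    have hint : ∫ V, FQ E δ θ η σ V ∂(PP (T d L) μ) =
        (mv (NN d L) fun k => (((JJ E δ k)⁻¹ : ℝ) : ℂ) * W k).im := by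
      obtain ⟨Z0, hZ0⟩ : ∃ Z0, Z0 = Z3 (D0 (d := d) (L := L) E δ) ((η : ℂ) • SD E δ σ) η :=
        ⟨_, rfl⟩
      rw [← hZ0] at hH
      have hP' : IsProbabilityMeasure (PP (T d L) μ) := by
        unfold PP
        infer_instance
      have hR : IM (PP (T d L) μ) (fun V => GG Z0 (A3 (AA (d := d) (L := L) E δ θ)) V) := hH.im
      have e1 := int_bl hR (star (emb 0 (w0 (d := d) (L := L) E δ))) (emb 2 (w0 E δ))
      have e2 : ∀ V, star (emb 0 (w0 (d := d) (L := L) E δ)) ⬝ᵥ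
          (GG Z0 (A3 (AA (d := d) (L := L) E δ θ)) V *ᵥ emb 2 (w0 E δ)) =
          star (w0 (d := d) (L := L) E δ) ⬝ᵥ (Bf E δ θ η σ V 0 2 *ᵥ w0 E δ) := by
        intro V
        rw [hZ0, GG_Bf E δ θ η σ V hη hXh hAh, form_emb]
      simp only [e2] at e1
      have hi1 : Integrable (fun V => star (w0 (d := d) (L := L) E δ) ⬝ᵥ
          (Bf E δ θ η σ V 0 2 *ᵥ w0 E δ)) (PP (T d L) μ) := by
        have := (hR.bl (star (emb 0 (w0 (d := d) (L := L) E δ))) (emb 2 (w0 E δ))).int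
        simp only [e2] at this
        exact this
      have e3 : ∫ V, FQ E δ θ η σ V ∂(PP (T d L) μ) = (∫ V, star (w0 (d := d) (L := L) E δ) ⬝ᵥ
          (Bf E δ θ η σ V 0 2 *ᵥ w0 E δ) ∂(PP (T d L) μ)).im := by
        have := Complex.imCLM.integral_comp_comm hi1
        simp only [Complex.imCLM_apply] at this
        exact this
      rw [e3, ← e1]
      congr 1
      obtain ⟨MB, hMB⟩ : ∃ MB : Fin 3 → Fin 3 → Matrix (T d L) (T d L) ℂ, MB = fun i j =>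
        Matrix.of fun k p => ∫ V, Bf E δ θ η σ V i j k p ∂(PP (T d L) μ) := ⟨_, rfl⟩
      have e4 : (Matrix.of fun i j => ∫ V, GG Z0 (A3 (AA (d := d) (L := L) E δ θ)) V i j
          ∂(PP (T d L) μ)) = blk MB := by
        ext ⟨i, k⟩ ⟨j, p⟩
        rw [blk_apply, hMB]
        simp only [Matrix.of_apply]
        refine integral_congr_ae (Filter.Eventually.of_forall fun V => ?_)
        simp only
        rw [hZ0, GG_Bf E δ θ η σ V hη hXh hAh]
        rfl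
      rw [e4, form_emb]
      have hdiag : ∀ k p, k ≠ p → MB 0 2 k p = 0 := by
        intro k p hkp
        rw [hMB]
        simp only [Matrix.of_apply]
        exact (cov_Bf E δ θ η σ 0 2).off μ k p hkp
      have hMW : ∀ k, MB 0 2 k k = W k := by
        intro k
        rw [hMB, hW]
        rfl
      unfold dotProduct mv
      rw [Finset.mul_sum]
      refine Finset.sum_congr rfl fun k _ => ?_
      have e5 : (MB 0 2 *ᵥ w0 (d := d) (L := L) E δ) k = W k * w0 E δ k := by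
        unfold Matrix.mulVec dotProduct
        rw [Finset.sum_eq_single k]
        · beta_reduce
          rw [hMW]
        · intro l _ hl
          simp only
          rw [hdiag k l hl.symm, zero_mul]
        · intro h
          exact absurd (Finset.mem_univ k) h
      rw [e5, Pi.star_apply]
      unfold w0
      rw [RCLike.star_def, Complex.conj_ofReal]
      have h4 : (Real.sqrt (JJ E δ k))⁻¹ * (Real.sqrt (JJ E δ k))⁻¹ = (JJ E δ k)⁻¹ := by
        rw [← mul_inv, Real.mul_self_sqrt (JJ_pos E δ hδ k).le]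
      have h5 : (Real.sqrt (NN d L))⁻¹ * (Real.sqrt (NN d L))⁻¹ = (NN d L)⁻¹ := by
        rw [← mul_inv, Real.mul_self_sqrt (NN_pos (d := d) (L := L)).le]
      calc (((Real.sqrt (NN d L))⁻¹ * (Real.sqrt (JJ E δ k))⁻¹ : ℝ) : ℂ) *
            (W k * (((Real.sqrt (NN d L))⁻¹ * (Real.sqrt (JJ E δ k))⁻¹ : ℝ) : ℂ)) =
          ((((Real.sqrt (NN d L))⁻¹ * (Real.sqrt (NN d L))⁻¹) *
            ((Real.sqrt (JJ E δ k))⁻¹ * (Real.sqrt (JJ E δ k))⁻¹) : ℝ) : ℂ) * W k := by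
            push_cast
            ring
        _ = _ := by
            rw [h4, h5]
            push_cast
            ring
    rw [hint]
    exact h7

/-- the regularised chain as a trace -/
theorem FQ_trace (E δ θ η : ℝ) (σ : T d L → ℝ) (V : T d L → ℝ) (hη : 0 < η)
    (h0 : (D0 (d := d) (L := L) E δ).IsHermitian)
    (hA : ∀ y, (AA (d := d) (L := L) E δ θ y).IsHermitian) :
    FQ E δ θ η σ V = ((GG (Z3 (D0 E δ) ((η : ℂ) • SD E δ σ) η)
      (A3 (AA (d := d) (L := L) E δ θ)) V * Matrix.vecMulVec (emb 2 (w0 (d := d) (L := L) E δ))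
        (star (emb 0 (w0 (d := d) (L := L) E δ)))).trace).im := by
  rw [tr_vmv, GG_Bf E δ θ η σ V hη h0 hA, form_emb]
  rfl

/-- **concentration of the chain** -/
theorem conc6 (hES : S_ES) (E δ θ η a v2 Q β D : ℝ) (σ : T d L → ℝ)
    (hδ : 0 < δ) (hη : 0 < η) (hη1 : η ≤ 1) (hσ : ∀ k, |σ k| ≤ 1)
    (hadm : Adm (D0 E δ) (AA (d := d) (L := L) E δ θ) a v2 Q)
    (μ : Measure ℝ) [IsProbabilityMeasure μ] (hβ : 0 < β) (hμ : ∀ᵐ s ∂μ, |s| ≤ β)
    (hβv : β ^ 2 * v2 ≤ 1) (hD : 0 < D) (g1 : ℝ)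
    (hg : ∑ k : T d L, (JJ E δ k)⁻¹ ≤ g1 * NN d L)
    (hDD : 4 * β ^ 2 * (3 * Q) * (3 / η) ^ 6 * g1 ^ 2 ≤ D ^ 2) (x : ℝ) :
    Continuous (fun V => FQ (d := d) (L := L) E δ θ η σ V) ∧
    (PP (T d L) μ).real {V | x < |FQ E δ θ η σ V - ∫ U, FQ E δ θ η σ U ∂(PP (T d L) μ)|} ≤
      4 * Real.exp (-(x / (2 * D))) := by
  have hXh := hadm.hX0
  have hAh := hadm.hA
  have hH := adG3 hadm (SD E δ σ) η hη hη1 (SD_nsq E δ σ hδ hσ)
  obtain ⟨Z, hZ⟩ : ∃ Z, Z = Matrix.vecMulVec (emb 2 (w0 (d := d) (L := L) E δ))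
        (star (emb 0 (w0 (d := d) (L := L) E δ))) := ⟨_, rfl⟩
  have hF : ∀ V, FQ E δ θ η σ V = ((GG (Z3 (D0 E δ) ((η : ℂ) • SD E δ σ) η)
      (A3 (AA (d := d) (L := L) E δ θ)) V * Z).trace).im := by
    intro V
    rw [hZ]
    exact FQ_trace E δ θ η σ V hη hXh hAh
  have hc : Continuous fun V => FQ (d := d) (L := L) E δ θ η σ V := by
    have : (fun V => FQ (d := d) (L := L) E δ θ η σ V) = fun V =>
        ((GG (Z3 (D0 E δ) ((η : ℂ) • SD E δ σ) η)
      (A3 (AA (d := d) (L := L) E δ θ)) V * Z).trace).im := funext hF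
    rw [this]
    exact Complex.continuous_im.comp (hH.cont.matrix_mul continuous_const).matrix_trace
  obtain ⟨C, hC0, hC⟩ := hH.trace_bd Z
  have hN := NN_pos (d := d) (L := L)
  have hw : nsq (w0 (d := d) (L := L) E δ) ≤ g1 := by
    have e1 : nsq (w0 (d := d) (L := L) E δ) = (NN d L)⁻¹ * ∑ k : T d L, (JJ E δ k)⁻¹ := by
      unfold nsq w0
      rw [Finset.mul_sum]
      refine Finset.sum_congr rfl fun k _ => ?_
      rw [Complex.norm_real, Real.norm_eq_abs, sq_abs, mul_pow, inv_pow, inv_pow,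
        Real.sq_sqrt hN.le, Real.sq_sqrt (JJ_pos E δ hδ k).le]
    rw [e1, inv_mul_le_iff₀ hN]
    linarith
  have hhs : hs Z ≤ g1 ^ 2 := by
    rw [hZ, hs_vmv, nsq_emb, nsq_emb, sq]
    exact mul_le_mul hw hw (nsq_nonneg _) ((nsq_nonneg _).trans hw)
  refine ⟨hc, addTail hES μ _ hc C (fun V => ?_) D hD ?_ x⟩
  · rw [hF]
    exact (Complex.abs_im_le_norm _).trans (hC V)
  · filter_upwards [ae_PP μ hμ] with V hV
    have h1 := hH.point hβ hβv Z V hV
    refine le_trans (Finset.sum_le_sum fun y _ => ?_) (h1.trans (le_trans ?_ hDD))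
    · rw [hF, hF, ← Complex.sub_im]
      exact pow_le_pow_left₀ (abs_nonneg _) (Complex.abs_im_le_norm _) 2
    · have hQ0 := hadm.hQ0
      gcongr

end Pool.Agent.TH794.QD
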