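import Pool.Agent.TH794.QD.Site5
import Pool.Agent.TH794.QD.Mean6

/-! Comparison of the chain with the regularised chain on the torus. -/

set_option autoImplicit false
set_option linter.unusedSectionVars false

open scoped BigOperators Matrix
open MeasureTheory

namespace Pool.Agent.TH794.QD

open Pool.Agent.W788.BK
open Pool.Agent.W788.MFP.Four
open Pool.Agent.TH794.FG
open Pool.Agent.TH794.LL2 (nn nn_nonneg nn_sq nn_add nn_sub nn_le fc Bq Bq_nonneg sum_fc_one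
  XN nn_inv nsq_mulr)

variable {d L : ℕ} [NeZero L]

theorem nn_smul' {n : Type} [Fintype n] [DecidableEq n] (c : ℂ) (w : n → ℂ) : nn (c • w) = ‖c‖ * nn w := by
  unfold nn
  rw [nsq_smul, Real.sqrt_mul (sq_nonneg _), Real.sqrt_sq (norm_nonneg _)]

/-- the chain as a norm -/
theorem FQ_nsq (E δ θ η : ℝ) (σ : T d L → ℝ) (V : T d L → ℝ) (hη : 0 < η) :
    FQ E δ θ η σ V = η ^ 3 * nsq (RR (D0 E δ) (AA E δ θ) η V *ᵥ (SD E δ σ *ᵥ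
      (RR (D0 E δ) (AA E δ θ) η V *ᵥ w0 (d := d) (L := L) E δ))) := by
  have hX := Pool.Agent.W363.BK.D0_herm (d := d) (L := L) E δ
  have hA := fun y => Pool.Agent.W363.BK.AA_herm (d := d) (L := L) E δ θ y
  obtain ⟨R, hR⟩ : ∃ R, R = RR (D0 (d := d) (L := L) E δ) (AA E δ θ) η V := ⟨_, rfl⟩
  obtain ⟨S, hS⟩ : ∃ S, S = SD (d := d) (L := L) E δ σ := ⟨_, rfl⟩
  have hSh : Sᴴ = S := by
    rw [hS]
    unfold SD
    rw [Matrix.diagonal_conjTranspose]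
    congr 1
    funext k
    simp
  have h1 : FQ E δ θ η σ V = (star (w0 (d := d) (L := L) E δ) ⬝ᵥ
      ((Rᴴ * ((η : ℂ) • S) * R * ((η : ℂ) • S) * R) *ᵥ w0 E δ)).im := by
    rw [hR, hS]
    rfl
  obtain ⟨b, hb⟩ : ∃ b, b = S *ᵥ (R *ᵥ w0 (d := d) (L := L) E δ) := ⟨_, rfl⟩
  have h2 : star (w0 (d := d) (L := L) E δ) ⬝ᵥ
      ((Rᴴ * ((η : ℂ) • S) * R * ((η : ℂ) • S) * R) *ᵥ w0 E δ) =
      ((η ^ 2 : ℝ) : ℂ) * (star b ⬝ᵥ (R *ᵥ b)) := by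
    have e1 : (Rᴴ * ((η : ℂ) • S) * R * ((η : ℂ) • S) * R) *ᵥ w0 (d := d) (L := L) E δ =
        ((η : ℂ) * (η : ℂ)) • (Rᴴ *ᵥ (S *ᵥ (R *ᵥ b))) := by
      rw [hb]
      simp only [Matrix.mul_smul, Matrix.smul_mul, Matrix.smul_mulVec, ← Matrix.mulVec_mulVec,
        smul_smul, Matrix.mulVec_smul, Matrix.mul_assoc]
    rw [e1, dotProduct_smul, adjoint, Matrix.conjTranspose_conjTranspose, adjoint, hSh, ← hb,
      smul_eq_mul]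
    push_cast
    ring
  have h3 := (ward hX hA hη V b).1
  rw [← hR] at h3
  rw [h1, h2, Complex.im_ofReal_mul, h3, ← hR, ← hS, ← hb]
  ring

theorem fc_single (k : T d L) : fc (Pi.single 0 1) (fun _ => 0) k = 1 := by
  unfold fc ft
  rw [Finset.sum_eq_single 0]
  · rw [Pi.single_eq_same, e_zero]
    simp
  · intro x _ hx
    rw [Pi.single_eq_of_ne hx]
    simp
  · intro h
    exact absurd (Finset.mem_univ _) h

theorem wf_single (E δ : ℝ) : wf (d := d) (L := L) E δ (Pi.single 0 1) (fun _ => 0) = w0 E δ := by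
  funext k
  unfold wf w0
  rw [fc_single, mul_one]

/-- **comparison of the chain with the regularised chain** -/
theorem compare5 (E δ θ η κ g1 ρ ρ2 τ : ℝ) (j : Fin d) (hδ : 0 < δ) (hη : 0 < η) (hκ : 0 < κ)
    (hκ2 : κ ≤ 1 / 2)
    {V vr vi rr ri wr wi sr si : T d L → ℝ}
    (h : Sol3 E (η * δ) V (Pi.single 0 1) (fun _ => 0) vr vi rr ri)
    (h2 : Sol3 E (η * δ) V (Dj j vr) (Dj j vi) wr wi sr si)
    (hg : ∑ k : T d L, (JJ E δ k)⁻¹ ≤ g1 * NN d L) (hg0 : 0 ≤ g1)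
    (hf : ∀ w : T d L → ℝ, |∑ x, V x * w x ^ 2| ≤ κ * q (JJ E δ) w)
    (hρ : Real.sqrt (Bq rr ri) ≤ ρ) (hρ2 : Real.sqrt (Bq sr si) ≤ ρ2) (hρ20 : 0 ≤ ρ2)
    (hρ0 : 0 ≤ ρ) (hτ : 0 ≤ τ)
    (hU : ∀ x : T d L, |∑ y : T d L, V y * K (fun Q => 1 - hi θ Q) (x - y)| ≤ τ)
    (hκ' : τ / (η * δ) + 4 * (κ + η) ≤ 1 / 2) (B qq A1 A2 Δ : ℝ)
    (hB : Real.sqrt (Bq vr vi) ≤ B)
    (hq : qq = 2 / δ * Real.sqrt (FQ (d := d) (L := L) E δ θ η (sg j) V / η ^ 3))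
    (hA1 : A1 = 2 / δ * (η⁻¹ * (η⁻¹ * ((Real.sqrt δ)⁻¹ * (ρ + τ * B) + η * (2 * Real.sqrt g1 +
      2 * (κ + η) * (Real.sqrt δ * B) + 2 * ((Real.sqrt δ)⁻¹ * ρ))))))
    (hA2 : A2 = 8 * ((Real.sqrt δ)⁻¹ * B) + (η⁻¹ + 4) * ((Real.sqrt δ)⁻¹ * ρ2))
    (hΔ : Δ = 2 * (A1 + A2 + (τ / (η * δ) + 4 * (κ + η)) * qq)) :
    |δ * Bq wr wi - qq ^ 2| ≤ Δ * (2 * qq + Δ) := by
  have hX := Pool.Agent.W363.BK.D0_herm (d := d) (L := L) E δ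
  have hA := fun y => Pool.Agent.W363.BK.AA_herm (d := d) (L := L) E δ θ y
  have hN := NN_pos (d := d) (L := L)
  have hsN : 0 < Real.sqrt (NN d L) := Real.sqrt_pos.2 hN
  have hsδ : 0 < Real.sqrt δ := Real.sqrt_pos.2 hδ
  have hsδ2 : Real.sqrt δ * Real.sqrt δ = δ := Real.mul_self_sqrt hδ.le
  have hJ : ∀ k : T d L, 0 < JJ E δ k := fun k => Pool.Agent.W788.BK.JJ_pos E δ hδ k
  obtain ⟨R, hR⟩ : ∃ R, R = RR (D0 (d := d) (L := L) E δ) (AA E δ θ) η V := ⟨_, rfl⟩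
  obtain ⟨S, hS⟩ : ∃ S, S = SD (d := d) (L := L) E δ (sg j) := ⟨_, rfl⟩
  have hRn : ∀ w : T d L → ℂ, nn (R *ᵥ w) ≤ η⁻¹ * nn w := by
    intro w
    apply nn_le _ _ (mul_nonneg (inv_nonneg.2 hη.le) (nn_nonneg _))
    rw [mul_pow, nn_sq, hR, inv_pow]
    exact RR_bd hX hA hη V w
  have hSn : ∀ w : T d L → ℂ, nn (S *ᵥ w) ≤ nn w := by
    intro w
    apply nn_le _ _ (nn_nonneg _)
    rw [nn_sq, hS]
    exact SD_nsq E δ (sg j) hδ (fun k => sg_abs j k) w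
  -- the first vector
  have hg' : ∑ k : T d L, (JJ E δ k)⁻¹ * ‖fc (Pi.single 0 1) (fun _ => 0) k‖ ^ 2 ≤
      g1 * NN d L := by
    simp only [fc_single, norm_one, one_pow, mul_one]
    exact hg
  obtain ⟨ψ, hφ, hψ, _⟩ := solR E δ θ η κ g1 ρ τ hδ hη hκ hκ2 h hg' hg0 hf hρ hτ hU
  rw [wf_single, ← hR] at hφ
  obtain ⟨B', hB'⟩ : ∃ B', B' = Real.sqrt (Bq vr vi) := ⟨_, rfl⟩
  rw [← hB'] at hψ hB
  have hB0 : 0 ≤ B' := by rw [hB']; exact Real.sqrt_nonneg _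
  -- the source of the second vector
  have hfc2 : ∀ k : T d L, fc (Dj j vr) (Dj j vi) k =
      -(2 * Complex.I * (sg j k : ℂ)) * fc vr vi k := fun k => fc_Dj j vr vi k
  have hgf2 : ∑ k : T d L, (JJ E δ k)⁻¹ * ‖fc (Dj j vr) (Dj j vi) k‖ ^ 2 ≤
      (2 * ((Real.sqrt δ)⁻¹ * B')) ^ 2 * NN d L := by
    have e1 : (2 * ((Real.sqrt δ)⁻¹ * B')) ^ 2 * NN d L =
        ∑ k : T d L, δ⁻¹ * (4 * ‖fc vr vi k‖ ^ 2) := by
      rw [← Finset.mul_sum, ← Finset.mul_sum, sum_fc_one, hB', mul_pow, mul_pow, inv_pow,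
        Real.sq_sqrt hδ.le, Real.sq_sqrt (Bq_nonneg _ _)]
      ring
    rw [e1]
    refine Finset.sum_le_sum fun k _ => ?_
    apply mul_le_mul _ _ (sq_nonneg _) (inv_nonneg.2 hδ.le)
    · exact inv_anti₀ hδ (Pool.Agent.W363.BK.JJ_ge _ δ hδ k)
    · rw [hfc2, norm_mul, mul_pow]
      apply mul_le_mul_of_nonneg_right _ (sq_nonneg _)
      rw [norm_neg, norm_mul, norm_mul, Complex.norm_I, mul_one, Complex.norm_real,
        Real.norm_eq_abs]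
      have := sg_abs j k
      have h0 := abs_nonneg (sg j k)
      have h3 : ‖(2 : ℂ)‖ = 2 := by simp
      rw [h3]
      nlinarith
  obtain ⟨ψ2, hφ2, hψ2, hX2⟩ := solR E δ θ η κ ((2 * ((Real.sqrt δ)⁻¹ * B')) ^ 2) ρ2 τ hδ hη hκ
    hκ2 h2 hgf2 (sq_nonneg _) hf hρ2 hτ hU
  rw [Real.sqrt_sq (by positivity)] at hψ2 hX2
  obtain ⟨B2, hB2⟩ : ∃ B2, B2 = Real.sqrt (Bq wr wi) := ⟨_, rfl⟩
  rw [← hB2] at hψ2 hX2
  have hB20 : 0 ≤ B2 := by rw [hB2]; exact Real.sqrt_nonneg _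
  obtain ⟨φ, hφd⟩ : ∃ φ : T d L → ℂ, φ = fun k => (Real.sqrt (JJ E δ k) : ℂ) * fc vr vi k :=
    ⟨_, rfl⟩
  obtain ⟨φ2, hφ2d⟩ : ∃ φ : T d L → ℂ, φ = fun k => (Real.sqrt (JJ E δ k) : ℂ) * fc wr wi k :=
    ⟨_, rfl⟩
  rw [← hφd] at hφ
  rw [← hφ2d, ← hR] at hφ2
  have hwf2 : ((Real.sqrt (NN d L) : ℝ) : ℂ) • wf (d := d) (L := L) E δ (Dj j vr) (Dj j vi) =
      (-(2 * Complex.I) * ((δ⁻¹ : ℝ) : ℂ)) • (S *ᵥ φ) := by
    funext k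
    rw [Pi.smul_apply, Pi.smul_apply, smul_eq_mul, smul_eq_mul, hS, hφd]
    unfold wf SD
    rw [Matrix.mulVec_diagonal, hfc2]
    have hJc : ((Real.sqrt (JJ E δ k) : ℝ) : ℂ) ≠ 0 := by
      exact_mod_cast (Real.sqrt_pos.2 (hJ k)).ne'
    have hNc : ((Real.sqrt (NN d L) : ℝ) : ℂ) ≠ 0 := by exact_mod_cast hsN.ne'
    have hδc : ((δ : ℝ) : ℂ) ≠ 0 := by exact_mod_cast hδ.ne'
    have hJJ : ((JJ E δ k : ℝ) : ℂ) = ((Real.sqrt (JJ E δ k) : ℝ) : ℂ) *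
        ((Real.sqrt (JJ E δ k) : ℝ) : ℂ) := by
      rw [← Complex.ofReal_mul, Real.mul_self_sqrt (hJ k).le]
    push_cast
    rw [hJJ]
    field_simp
  -- the difference of the second vector with the chain
  obtain ⟨y0, hy0⟩ : ∃ y0, y0 = R *ᵥ (S *ᵥ (R *ᵥ w0 (d := d) (L := L) E δ)) := ⟨_, rfl⟩
  have hdec : φ2 - ((-(2 * Complex.I) * ((δ⁻¹ : ℝ) : ℂ)) * ((Real.sqrt (NN d L) : ℝ) : ℂ)) • y0 =
      (-(2 * Complex.I) * ((δ⁻¹ : ℝ) : ℂ)) • (R *ᵥ (S *ᵥ (R *ᵥ ψ))) + R *ᵥ ψ2 := by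
    rw [hφ2, hwf2, hφ, hy0]
    simp only [Matrix.mulVec_add, Matrix.mulVec_smul, smul_add, smul_smul]
    abel
  have hcn : ‖(-(2 * Complex.I) * ((δ⁻¹ : ℝ) : ℂ))‖ = 2 / δ := by
    rw [norm_mul, norm_neg, norm_mul, Complex.norm_I, mul_one, Complex.norm_real,
      Real.norm_of_nonneg (inv_nonneg.2 hδ.le)]
    have h3 : ‖(2 : ℂ)‖ = 2 := by simp
    rw [h3, div_eq_mul_inv]
  have hd1 : nn (φ2 - ((-(2 * Complex.I) * ((δ⁻¹ : ℝ) : ℂ)) * ((Real.sqrt (NN d L) : ℝ) : ℂ)) • y0) ≤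
      2 / δ * (η⁻¹ * (η⁻¹ * nn ψ)) + η⁻¹ * nn ψ2 := by
    rw [hdec]
    refine (nn_add _ _).trans (add_le_add ?_ (hRn _))
    rw [nn_smul', hcn]
    gcongr
    refine (hRn _).trans ?_
    gcongr
    refine (hSn _).trans (hRn _)
  have hy0n : nn (((-(2 * Complex.I) * ((δ⁻¹ : ℝ) : ℂ)) * ((Real.sqrt (NN d L) : ℝ) : ℂ)) • y0) =
      Real.sqrt (NN d L) * qq := by
    rw [nn_smul', norm_mul, hcn, Complex.norm_real, Real.norm_of_nonneg hsN.le, hq]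
    have e1 := FQ_nsq E δ θ η (sg j) V hη
    rw [← hR, ← hS, ← hy0] at e1
    rw [e1, mul_div_cancel_left₀ _ (by positivity : η ^ 3 ≠ 0)]
    unfold nn
    ring
  obtain ⟨hl, hu⟩ := norm_phi E δ hδ wr wi
  rw [← hφ2d, ← nn_sq] at hl hu
  -- square roots
  obtain ⟨x2, hx2⟩ : ∃ x2, x2 = Real.sqrt δ * B2 := ⟨_, rfl⟩
  have hx20 : 0 ≤ x2 := by rw [hx2]; positivity
  have hx2s : x2 ^ 2 = δ * Bq wr wi := by
    rw [hx2, mul_pow, Real.sq_sqrt hδ.le, hB2, Real.sq_sqrt (Bq_nonneg _ _)]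
  rw [← hx2s] at hl hu ⊢
  have hNsq : Real.sqrt (NN d L) ^ 2 = NN d L := Real.sq_sqrt hN.le
  have hl' : Real.sqrt (NN d L) * x2 ≤ nn φ2 := by
    apply le_of_sq_le_sq _ (nn_nonneg _)
    rw [mul_pow, hNsq]
    exact hl
  have hXN0 : 0 ≤ XN E δ wr wi := nn_nonneg _
  have hu' : nn φ2 ≤ Real.sqrt (NN d L) * x2 + XN E δ wr wi := by
    apply le_of_sq_le_sq _ (by positivity)
    rw [add_sq, mul_pow, hNsq]
    have := mul_nonneg (mul_nonneg (mul_nonneg zero_le_two hsN.le) hx20) hXN0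
    nlinarith
  have hq0 : 0 ≤ qq := by rw [hq]; positivity
  have t1 : nn φ2 ≤ nn (φ2 - ((-(2 * Complex.I) * ((δ⁻¹ : ℝ) : ℂ)) *
      ((Real.sqrt (NN d L) : ℝ) : ℂ)) • y0) + Real.sqrt (NN d L) * qq := by
    rw [← hy0n]
    refine le_trans (le_of_eq ?_) (nn_add _ _)
    congr 1
    abel
  have t2 : Real.sqrt (NN d L) * qq ≤ nn φ2 + nn (φ2 - ((-(2 * Complex.I) * ((δ⁻¹ : ℝ) : ℂ)) *
      ((Real.sqrt (NN d L) : ℝ) : ℂ)) • y0) := by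
    rw [← hy0n]
    refine le_trans (le_of_eq ?_) (nn_sub _ _)
    congr 1
    abel
  -- the two error terms
  obtain ⟨a1, ha1⟩ : ∃ a1, a1 = (Real.sqrt δ)⁻¹ * (ρ + τ * B) + η * (2 * Real.sqrt g1 +
      2 * (κ + η) * (Real.sqrt δ * B) + 2 * ((Real.sqrt δ)⁻¹ * ρ)) := ⟨_, rfl⟩
  have hψ' : nn ψ ≤ Real.sqrt (NN d L) * a1 := by
    refine hψ.trans ?_
    rw [ha1]
    gcongr
  obtain ⟨X2, hX2d⟩ : ∃ X2, X2 = 2 * (2 * ((Real.sqrt δ)⁻¹ * B')) + 2 * (κ + η) *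
      (Real.sqrt δ * B2) + 2 * ((Real.sqrt δ)⁻¹ * ρ2) := ⟨_, rfl⟩
  rw [← hX2d] at hψ2 hX2
  obtain ⟨κ', hκ'd⟩ : ∃ κ', κ' = τ / (η * δ) + 4 * (κ + η) := ⟨_, rfl⟩
  rw [← hκ'd] at hκ' hΔ
  have hκ'0 : 0 ≤ κ' := by rw [hκ'd]; positivity
  have hsum : 2 / δ * (η⁻¹ * (η⁻¹ * nn ψ)) + η⁻¹ * nn ψ2 + XN E δ wr wi ≤
      Real.sqrt (NN d L) * (A1 + A2 + κ' * x2) := by
    have e1 : 2 / δ * (η⁻¹ * (η⁻¹ * nn ψ)) ≤ Real.sqrt (NN d L) * A1 := by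
      have : Real.sqrt (NN d L) * A1 = 2 / δ * (η⁻¹ * (η⁻¹ * (Real.sqrt (NN d L) * a1))) := by
        rw [hA1, ← ha1]
        ring
      rw [this]
      gcongr
    have e2 : η⁻¹ * nn ψ2 ≤ Real.sqrt (NN d L) * (η⁻¹ * ((Real.sqrt δ)⁻¹ * (ρ2 + τ * B2)) + X2) := by
      have : Real.sqrt (NN d L) * (η⁻¹ * ((Real.sqrt δ)⁻¹ * (ρ2 + τ * B2)) + X2) =
          η⁻¹ * (Real.sqrt (NN d L) * ((Real.sqrt δ)⁻¹ * (ρ2 + τ * B2) + η * X2)) := by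
        field_simp
      rw [this]
      gcongr
    have e3 : η⁻¹ * ((Real.sqrt δ)⁻¹ * (ρ2 + τ * B2)) + X2 + X2 ≤ A2 + κ' * x2 := by
      have f1 : η⁻¹ * ((Real.sqrt δ)⁻¹ * (τ * B2)) = τ / (η * δ) * x2 := by
        rw [hx2]
        nth_rewrite 2 [← hsδ2]
        field_simp
      have f2 : (Real.sqrt δ)⁻¹ * B' ≤ (Real.sqrt δ)⁻¹ * B := by gcongr
      have f5 : κ' * x2 = η⁻¹ * ((Real.sqrt δ)⁻¹ * (τ * B2)) + 4 * (κ + η) * (Real.sqrt δ * B2) := by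
        rw [f1, hκ'd, hx2]
        ring
      rw [f5, hA2, hX2d]
      have f3 : η⁻¹ * ((Real.sqrt δ)⁻¹ * (ρ2 + τ * B2)) = η⁻¹ * ((Real.sqrt δ)⁻¹ * ρ2) +
        η⁻¹ * ((Real.sqrt δ)⁻¹ * (τ * B2)) := by ring
      rw [f3]
      linarith
    have e4 := mul_le_mul_of_nonneg_left e3 hsN.le
    linarith
  -- conclusion
  have c1 : x2 ≤ qq + (A1 + A2 + κ' * x2) := by
    have : Real.sqrt (NN d L) * x2 ≤ Real.sqrt (NN d L) * (qq + (A1 + A2 + κ' * x2)) := by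
      linarith
    exact le_of_mul_le_mul_left this hsN
  have c2 : qq ≤ x2 + (A1 + A2 + κ' * x2) := by
    have : Real.sqrt (NN d L) * qq ≤ Real.sqrt (NN d L) * (x2 + (A1 + A2 + κ' * x2)) := by
      linarith
    exact le_of_mul_le_mul_left this hsN
  have hA10 : 0 ≤ A1 := by
    have hB1 : 0 ≤ B := hB0.trans hB
    rw [hA1]
    positivity
  have hA20 : 0 ≤ A2 := by
    have hB1 : 0 ≤ B := hB0.trans hB
    rw [hA2]
    positivity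
  have c3 : κ' * x2 ≤ 1 / 2 * x2 := mul_le_mul_of_nonneg_right hκ' hx20
  have c4 : x2 ≤ 2 * (qq + A1 + A2) := by linarith
  have c5 : κ' * x2 ≤ κ' * (2 * (qq + A1 + A2)) := mul_le_mul_of_nonneg_left c4 hκ'0
  have c6 : κ' * (2 * (A1 + A2)) ≤ 1 / 2 * (2 * (A1 + A2)) :=
    mul_le_mul_of_nonneg_right hκ' (by positivity)
  have c7 : |x2 - qq| ≤ Δ := by
    rw [hΔ, abs_le]
    have : κ' * (2 * (qq + A1 + A2)) = 2 * (κ' * qq) + κ' * (2 * (A1 + A2)) := by ring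
    constructor <;> linarith
  have hΔ0 : 0 ≤ Δ := (abs_nonneg _).trans c7
  have c8 : |x2 + qq| ≤ 2 * qq + Δ := by
    rw [abs_of_nonneg (by positivity)]
    have := (abs_le.1 c7).2
    linarith
  have c9 : x2 ^ 2 - qq ^ 2 = (x2 - qq) * (x2 + qq) := by ring
  rw [c9, abs_mul]
  exact mul_le_mul c7 c8 (abs_nonneg _) hΔ0

end Pool.Agent.TH794.QD
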