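import Pool.Agent.TH794.QD.Riem
import Pool.Agent.TH794.QD.Mean6

/-! The free resolvent and its weighted version: boundary values. -/

set_option autoImplicit false
set_option linter.unusedSectionVars false

open scoped BigOperators Topology
open MeasureTheory Set Filter

namespace Pool.Agent.TH794.QD

open Pool.Agent.W788.BK
open Pool.Agent.TH794.LL2
open Pool.Agent.W788.MFP.Four (T e NN adj K ft Op q NN_pos e_zero)

theorem pp_cont : Continuous pp := by
  unfold pp ff
  apply intervalIntegral.continuous_parametric_intervalIntegral_of_continuous'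
  fun_prop

theorem qq_cont : Continuous qq := by
  unfold qq fs ff
  apply intervalIntegral.continuous_parametric_intervalIntegral_of_continuous'
  fun_prop

/-- the second difference -/
theorem second_diff (s h x : ℝ) (hh : |h| ≤ 1 / 2) :
    ‖((h ^ 2 * (2 * Real.cos (2 * Real.pi * x)) ^ 2 : ℝ) : ℂ) * ff s x +
      (ff (s + h) x - 2 * ff s x + ff (s - h) x)‖ ≤ 5 / 3 * h ^ 4 := by
  obtain ⟨a, ha⟩ : ∃ a, a = 2 * Real.cos (2 * Real.pi * x) := ⟨_, rfl⟩
  have ha2 : |a| ≤ 2 := by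
    rw [ha, abs_mul, abs_two]
    have := Real.abs_cos_le_one (2 * Real.pi * x)
    linarith
  have e1 : ff (s + h) x + ff (s - h) x = ff s x * ((2 * Real.cos (h * a) : ℝ) : ℂ) := by
    have h1 : ff (s + h) x = ff s x * Complex.exp (-((h * a : ℝ) : ℂ) * Complex.I) := by
      unfold ff
      rw [← Complex.exp_add, ← ha]
      congr 1
      push_cast
      ring
    have h2 : ff (s - h) x = ff s x * Complex.exp (((h * a : ℝ) : ℂ) * Complex.I) := by
      unfold ff
      rw [← Complex.exp_add, ← ha]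
      congr 1
      push_cast
      ring
    rw [h1, h2, ← mul_add]
    congr 1
    push_cast
    rw [Complex.two_cos]
    ring
  have e2 : ((h ^ 2 * a ^ 2 : ℝ) : ℂ) * ff s x + (ff (s + h) x - 2 * ff s x + ff (s - h) x) =
      ff s x * ((2 * (Real.cos (h * a) - (1 - (h * a) ^ 2 / 2)) : ℝ) : ℂ) := by
    have : ff (s + h) x - 2 * ff s x + ff (s - h) x =
        (ff (s + h) x + ff (s - h) x) - 2 * ff s x := by ring
    rw [this, e1]
    push_cast
    ring
  rw [← ha, e2, norm_mul, ff_norm, one_mul, Complex.norm_real, Real.norm_eq_abs, abs_mul, abs_two]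
  have hx : |h * a| ≤ 2 * |h| := by
    rw [abs_mul, mul_comm]
    exact mul_le_mul_of_nonneg_right ha2 (abs_nonneg _)
  have h3 := Real.cos_bound (x := h * a) (by linarith)
  have h4 : |h * a| ^ 4 ≤ 16 * h ^ 4 := by
    calc |h * a| ^ 4 ≤ (2 * |h|) ^ 4 := pow_le_pow_left₀ (abs_nonneg _) hx 4
      _ = 16 * |h| ^ 4 := by ring
      _ = 16 * h ^ 4 := by rw [Even.pow_abs (by decide)]
  have h5 : |h * a| ^ 4 * (5 / 96) ≤ 16 * h ^ 4 * (5 / 96) :=
    mul_le_mul_of_nonneg_right h4 (by norm_num)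
  linarith

theorem qq_decay (hO : S_OSC) (s : ℝ) (hs : 0 ≤ s) : ‖qq s‖ ≤ 80 * (s + 1) ^ (-(1 / 4) : ℝ) := by
  obtain ⟨r, hr⟩ : ∃ r, r = (s + 1) ^ (-(1 / 4) : ℝ) := ⟨_, rfl⟩
  have hs1 : 1 ≤ s + 1 := by linarith
  have hr0 : 0 < r := by rw [hr]; positivity
  have hr1 : r ≤ 1 := by
    rw [hr]
    exact Real.rpow_le_one_of_one_le_of_nonpos hs1 (by norm_num)
  have hrr : r * r = 1 / Real.sqrt (1 + s) := by
    rw [hr, ← Real.rpow_add (by linarith), Real.sqrt_eq_rpow, one_div (_ ^ _ : ℝ),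
      ← Real.rpow_neg (by linarith), add_comm 1 s]
    norm_num
  obtain ⟨h, hh⟩ : ∃ h, h = Real.sqrt r / 2 := ⟨_, rfl⟩
  have hh0 : 0 < h := by rw [hh]; have := Real.sqrt_pos.2 hr0; positivity
  have hh2 : h ^ 2 = r / 4 := by
    rw [hh, div_pow, Real.sq_sqrt hr0.le]
    norm_num
  have hhh : h ≤ 1 / 2 := by
    have : Real.sqrt r ≤ 1 := Real.sqrt_le_one.2 hr1
    rw [hh]
    linarith
  -- the bound of `pp`
  have hpp : ∀ s' : ℝ, s - 1 / 2 ≤ |s'| → ‖pp s'‖ ≤ 15 * (r * r) := by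
    intro s' hs'
    refine (pp_decay hO s').trans ?_
    rw [hrr, ← mul_div_assoc, mul_one]
    have h0 : 0 < Real.sqrt (1 + s) := Real.sqrt_pos.2 (by linarith)
    have h1 : 0 < Real.sqrt (1 + |s'|) := Real.sqrt_pos.2 (by positivity)
    rw [div_le_div_iff₀ h1 h0]
    have h2 : Real.sqrt (1 + s) ≤ 3 / 2 * Real.sqrt (1 + |s'|) := by
      rw [Real.sqrt_le_left (by positivity), mul_pow, Real.sq_sqrt (by positivity)]
      have := abs_nonneg s'
      linarith
    linarith
  -- the integral of `a^2`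
  obtain ⟨X, hX⟩ : ∃ X, X = ∫ x in (0 : ℝ)..1,
    (((2 * Real.cos (2 * Real.pi * x)) ^ 2 : ℝ) : ℂ) * ff s x := ⟨_, rfl⟩
  have hca : Continuous fun x : ℝ => (((2 * Real.cos (2 * Real.pi * x)) ^ 2 : ℝ) : ℂ) * ff s x := by
    have := ff_cont s
    fun_prop
  have h1 : ((h ^ 2 : ℝ) : ℂ) * X + (pp (s + h) - 2 * pp s + pp (s - h)) =
      ∫ x in (0 : ℝ)..1, (((h ^ 2 * (2 * Real.cos (2 * Real.pi * x)) ^ 2 : ℝ) : ℂ) * ff s x +
      (ff (s + h) x - 2 * ff s x + ff (s - h) x)) := by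
    have i1 := (ff_cont (s + h)).intervalIntegrable (μ := volume) 0 1
    have i2 := (ff_cont (s - h)).intervalIntegrable (μ := volume) 0 1
    have i3 : IntervalIntegrable (fun x => (2 : ℂ) * ff s x) volume 0 1 :=
      ((ff_cont s).const_smul (2 : ℂ)).intervalIntegrable (μ := volume) 0 1
    have i4 := hca.intervalIntegrable (μ := volume) 0 1
    have i13 : IntervalIntegrable (fun x => ff (s + h) x - (2 : ℂ) * ff s x) volume 0 1 :=
      i1.sub i3
    have i132 : IntervalIntegrable (fun x => ff (s + h) x - (2 : ℂ) * ff s x + ff (s - h) x)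
      volume 0 1 := i13.add i2
    have e1 : ∀ x : ℝ, ((h ^ 2 * (2 * Real.cos (2 * Real.pi * x)) ^ 2 : ℝ) : ℂ) * ff s x =
        ((h ^ 2 : ℝ) : ℂ) * ((((2 * Real.cos (2 * Real.pi * x)) ^ 2 : ℝ) : ℂ) * ff s x) := by
      intro x
      push_cast
      ring
    simp only [e1]
    rw [intervalIntegral.integral_add (i4.const_mul _) i132,
      intervalIntegral.integral_add i13 i2, intervalIntegral.integral_sub i1 i3,
      intervalIntegral.integral_const_mul, intervalIntegral.integral_const_mul, ← hX]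
    rfl
  have h2 : ‖((h ^ 2 : ℝ) : ℂ) * X + (pp (s + h) - 2 * pp s + pp (s - h))‖ ≤ 5 / 3 * h ^ 4 := by
    rw [h1]
    have := intervalIntegral.norm_integral_le_of_norm_le_const (a := (0 : ℝ)) (b := 1)
      (f := fun x => (((h ^ 2 * (2 * Real.cos (2 * Real.pi * x)) ^ 2 : ℝ) : ℂ) * ff s x +
      (ff (s + h) x - 2 * ff s x + ff (s - h) x)))
      (C := 5 / 3 * h ^ 4) fun x _ => second_diff s h x (by rw [abs_of_pos hh0]; exact hhh)
    simpa using this
  have h3 : h ^ 2 * ‖X‖ ≤ 60 * (r * r) + 5 / 3 * h ^ 4 := by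
    have e1 : ((h ^ 2 : ℝ) : ℂ) * X = (((h ^ 2 : ℝ) : ℂ) * X +
        (pp (s + h) - 2 * pp s + pp (s - h))) - (pp (s + h) - 2 * pp s + pp (s - h)) := by ring
    have e2 : ‖((h ^ 2 : ℝ) : ℂ) * X‖ = h ^ 2 * ‖X‖ := by
      rw [norm_mul, Complex.norm_real, Real.norm_of_nonneg (sq_nonneg _)]
    rw [← e2, e1]
    refine (norm_sub_le _ _).trans ?_
    have e3 : ‖pp (s + h) - 2 * pp s + pp (s - h)‖ ≤ 60 * (r * r) := by
      refine (norm_add_le _ _).trans ?_
      have e4 := norm_sub_le (pp (s + h)) (2 * pp s)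
      rw [norm_mul] at e4
      have e5 := hpp (s + h) (by rw [abs_of_nonneg (by linarith)]; linarith)
      have e6 := hpp s (by rw [abs_of_nonneg hs]; linarith)
      have e7 := hpp (s - h) (by
        have := le_abs_self (s - h)
        linarith)
      have e8 : ‖(2 : ℂ)‖ = 2 := by simp
      rw [e8] at e4
      linarith
    linarith
  have h4 : ‖X‖ ≤ 241 * r := by
    have h5 : h ^ 4 = (r / 4) ^ 2 := by rw [← hh2]; ring
    rw [h5, hh2] at h3
    have h6 : r / 4 * ‖X‖ ≤ r / 4 * (241 * r) := by nlinarith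
    exact le_of_mul_le_mul_left h6 (by positivity)
  have h5 : qq s = pp s - (1 / 4 : ℂ) * X := by
    rw [hX]
    unfold qq pp
    have i5 : IntervalIntegrable (fun x : ℝ => (1 / 4 : ℂ) *
        ((((2 * Real.cos (2 * Real.pi * x)) ^ 2 : ℝ) : ℂ) * ff s x)) volume 0 1 :=
      (hca.const_smul (1 / 4 : ℂ)).intervalIntegrable _ _
    rw [← intervalIntegral.integral_const_mul, ← intervalIntegral.integral_sub
      ((ff_cont s).intervalIntegrable _ _) i5]
    refine intervalIntegral.integral_congr fun x _ => ?_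
    unfold fs
    have : Real.sin (2 * Real.pi * x) ^ 2 = 1 - Real.cos (2 * Real.pi * x) ^ 2 := by
      have := Real.sin_sq_add_cos_sq (2 * Real.pi * x)
      linarith
    rw [this]
    push_cast
    ring
  rw [h5, ← hr]
  refine (norm_sub_le _ _).trans ?_
  rw [norm_mul]
  have h6 : ‖(1 / 4 : ℂ)‖ = 1 / 4 := by simp
  rw [h6]
  have h7 := hpp s (by rw [abs_of_nonneg hs]; linarith)
  have h8 : r * r ≤ 1 * r := mul_le_mul_of_nonneg_right hr1 hr0.le
  linarith

section prod

variable {d L : ℕ} [NeZero L]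

theorem mv_prod (f : Fin d → ZMod L → ℂ) :
    mv (NN d L) (fun k : T d L => ∏ i, f i (k i)) = ∏ i, ((L : ℝ) : ℂ)⁻¹ * ∑ x : ZMod L, f i x := by
  unfold mv
  rw [Finset.prod_mul_distrib, Finset.prod_univ_sum, Fintype.piFinset_univ, Finset.prod_const,
    Finset.card_univ, Fintype.card_fin]
  unfold NN
  push_cast
  rw [inv_pow]

/-- the velocity weight -/
noncomputable def sg (j : Fin d) (k : T d L) : ℝ := (ZMod.stdAddChar (k j) : ℂ).im

theorem sg_sq_le (j : Fin d) (k : T d L) : sg j k ^ 2 ≤ 1 := by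
  unfold sg
  rw [char_im]
  exact Real.sin_sq_le_one _

theorem sg_abs (j : Fin d) (k : T d L) : |sg j k| ≤ 1 := by
  unfold sg
  rw [char_im]
  exact Real.abs_sin_le_one _

/-- the reflection -/
def rfl' (j : Fin d) : T d L ≃ T d L where
  toFun k := Function.update k j (-k j)
  invFun k := Function.update k j (-k j)
  left_inv k := by simp
  right_inv k := by simp

theorem sg_rfl (j : Fin d) (k : T d L) : sg j (rfl' j k) = -sg j k := by
  unfold sg rfl'
  simp only [Equiv.coe_fn_mk, Function.update_self]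
  rw [ZMod.stdAddChar_apply, ZMod.stdAddChar_apply, AddChar.map_neg_eq_inv]
  simp

theorem adj_rfl (j : Fin d) (k : T d L) : adj (rfl' j k) = adj k := by
  unfold adj rfl'
  simp only [Equiv.coe_fn_mk]
  refine Finset.sum_congr rfl fun i _ => ?_
  by_cases h : i = j
  · rw [h, Function.update_self, ZMod.stdAddChar_apply, ZMod.stdAddChar_apply,
      AddChar.map_neg_eq_inv]
    simp
  · rw [Function.update_of_ne h]

theorem exp_adj (s : ℝ) (k : T d L) :
    Complex.exp (Complex.I * ((-s * adj k : ℝ) : ℂ)) = ∏ i, ff s (((k i).val : ℝ) / L) := by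
  simp only [ff_char]
  rw [← Complex.exp_sum, ← Finset.mul_sum, ← Complex.ofReal_sum, ← Finset.mul_sum]
  rfl

theorem mv_exp (s : ℝ) : mv (NN d L) (fun k : T d L =>
    Complex.exp (Complex.I * ((-s * adj k : ℝ) : ℂ))) = cp L s ^ d := by
  simp only [exp_adj]
  rw [mv_prod fun _ x => ff s ((x.val : ℝ) / L), Finset.prod_const, Finset.card_univ,
    Fintype.card_fin]
  rfl

theorem mv_sg (j : Fin d) (s : ℝ) : mv (NN d L) (fun k : T d L => ((sg j k ^ 2 : ℝ) : ℂ) *
    Complex.exp (Complex.I * ((-s * adj k : ℝ) : ℂ))) = cq L s * cp L s ^ (d - 1) := by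
  have h1 : ∀ k : T d L, ((sg j k ^ 2 : ℝ) : ℂ) *
      Complex.exp (Complex.I * ((-s * adj k : ℝ) : ℂ)) =
      ∏ i, (if i = j then fs s (((k i).val : ℝ) / L) else ff s (((k i).val : ℝ) / L)) := by
    intro k
    rw [exp_adj, ← Finset.mul_prod_erase Finset.univ _ (Finset.mem_univ j),
      ← Finset.mul_prod_erase Finset.univ (fun i => (if i = j then fs s (((k i).val : ℝ) / L)
        else ff s (((k i).val : ℝ) / L))) (Finset.mem_univ j), if_pos rfl]
    have h3 : ∏ i ∈ Finset.univ.erase j, ff s (((k i).val : ℝ) / L) =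
        ∏ i ∈ Finset.univ.erase j, (if i = j then fs s (((k i).val : ℝ) / L)
          else ff s (((k i).val : ℝ) / L)) :=
      Finset.prod_congr rfl fun i hi => by rw [if_neg (Finset.ne_of_mem_erase hi)]
    rw [← h3]
    unfold fs sg
    rw [char_im]
    ring
  simp only [h1]
  rw [mv_prod fun i x => (if i = j then fs s ((x.val : ℝ) / L) else ff s ((x.val : ℝ) / L)),
    ← Finset.mul_prod_erase Finset.univ _ (Finset.mem_univ j)]
  simp only [if_true]
  unfold cq
  congr 1
  have h2 : ∀ i ∈ Finset.univ.erase j, ((L : ℝ) : ℂ)⁻¹ * ∑ x : ZMod L,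
      (if i = j then fs s ((x.val : ℝ) / L) else ff s ((x.val : ℝ) / L)) = cp L s := by
    intro i hi
    unfold cp
    congr 1
    refine Finset.sum_congr rfl fun x _ => ?_
    rw [if_neg (Finset.ne_of_mem_erase hi)]
  rw [Finset.prod_congr rfl h2, Finset.prod_const, Finset.card_erase_of_mem (Finset.mem_univ j),
    Finset.card_univ, Fintype.card_fin]

end prod

theorem pow_lip (a b : ℂ) (ha : ‖a‖ ≤ 1) (hb : ‖b‖ ≤ 1) (n : ℕ) :
    ‖a ^ n - b ^ n‖ ≤ n * ‖a - b‖ := by
  induction n with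
  | zero => simp
  | succ n ih =>
    have e1 : a ^ (n + 1) - b ^ (n + 1) = a ^ n * (a - b) + (a ^ n - b ^ n) * b := by ring
    rw [e1]
    refine (norm_add_le _ _).trans ?_
    rw [norm_mul, norm_mul, norm_pow]
    have h1 : ‖a‖ ^ n ≤ 1 := pow_le_one₀ (norm_nonneg _) ha
    have h2 : ‖a‖ ^ n * ‖a - b‖ ≤ 1 * ‖a - b‖ := mul_le_mul_of_nonneg_right h1 (norm_nonneg _)
    have h3 : ‖a ^ n - b ^ n‖ * ‖b‖ ≤ (n * ‖a - b‖) * 1 :=
      mul_le_mul ih hb (norm_nonneg _) (by positivity)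
    push_cast
    linarith

end Pool.Agent.TH794.QD
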