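import Pool.Agent.TH794.QD.Gen2

/-! Chains of three resolvents as blocks of one inverse. -/

set_option autoImplicit false
set_option linter.unusedSectionVars false

open scoped BigOperators Matrix
open MeasureTheory

namespace Pool.Agent.TH794.QD

open Pool.Agent.W788.BK
open Pool.Agent.W261.BK (nn nn_nonneg nn_sq nn_add nn_smul nn_le)

variable {n m : Type} [Fintype n] [DecidableEq n] [Fintype m] [DecidableEq m]

/-- three choices -/
def sel {α : Type*} (a b c : α) (i : Fin 3) : α := if i = 0 then a else if i = 1 then b else c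

theorem sel_0 {α : Type*} (a b c : α) : sel a b c 0 = a := rfl

theorem sel_1 {α : Type*} (a b c : α) : sel a b c 1 = b := rfl

theorem sel_2 {α : Type*} (a b c : α) : sel a b c 2 = c := rfl

theorem all3 {p : Fin 3 → Prop} (h0 : p 0) (h1 : p 1) (h2 : p 2) : ∀ i, p i := by
  intro i
  fin_cases i
  exacts [h0, h1, h2]

/-- the block matrix -/
noncomputable def blk (B : Fin 3 → Fin 3 → Matrix n n ℂ) : Matrix (Fin 3 × n) (Fin 3 × n) ℂ :=
  Matrix.of fun p q => B p.1 q.1 p.2 q.2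

theorem blk_apply (B : Fin 3 → Fin 3 → Matrix n n ℂ) (i j : Fin 3) (k p : n) :
    blk B (i, k) (j, p) = B i j k p := rfl

theorem blk_mul (B C : Fin 3 → Fin 3 → Matrix n n ℂ) :
    blk B * blk C = blk fun i j => ∑ l, B i l * C l j := by
  ext ⟨i, k⟩ ⟨j, p⟩
  rw [blk_apply, Matrix.mul_apply, Fintype.sum_prod_type, Matrix.sum_apply]
  refine Finset.sum_congr rfl fun l _ => ?_
  rw [Matrix.mul_apply]
  rfl

theorem blk_one : (blk fun i j => if i = j then (1 : Matrix n n ℂ) else 0) = 1 := by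
  ext ⟨i, k⟩ ⟨j, p⟩
  rw [blk_apply]
  by_cases h : i = j
  · subst h
    rw [if_pos rfl]
    by_cases h2 : k = p
    · subst h2
      rw [Matrix.one_apply_eq, Matrix.one_apply_eq]
    · rw [Matrix.one_apply_ne h2, Matrix.one_apply_ne fun h3 => h2 (Prod.ext_iff.1 h3).2]
  · rw [if_neg h, Matrix.zero_apply, Matrix.one_apply_ne fun h3 => h (Prod.ext_iff.1 h3).1]

theorem blk_mulVec (B : Fin 3 → Fin 3 → Matrix n n ℂ) (w : Fin 3 × n → ℂ) (i : Fin 3) :
    (fun k => (blk B *ᵥ w) (i, k)) = ∑ j, B i j *ᵥ (fun k => w (j, k)) := by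
  funext k
  rw [Finset.sum_apply]
  unfold Matrix.mulVec dotProduct
  rw [Fintype.sum_prod_type]
  rfl

theorem nsq_blk (w : Fin 3 × n → ℂ) : nsq w = ∑ i, nsq (fun k => w (i, k)) := by
  unfold nsq
  rw [Fintype.sum_prod_type]

theorem hs_blk (W : Matrix (Fin 3 × n) (Fin 3 × n) ℂ) :
    hs W = ∑ i, ∑ j, hs (Matrix.of fun k p => W (i, k) (j, p)) := by
  unfold hs
  rw [Fintype.sum_prod_type]
  refine Finset.sum_congr rfl fun i _ => ?_
  rw [Finset.sum_comm]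
  rw [Fintype.sum_prod_type]
  refine Finset.sum_congr rfl fun j _ => ?_
  rw [Finset.sum_comm]
  rfl

/-- the perturbations -/
noncomputable def A3 (A : m → Matrix n n ℂ) (y : m) : Matrix (Fin 3 × n) (Fin 3 × n) ℂ :=
  blk fun i j => if i = j then A y else 0

/-- the unperturbed operator -/
noncomputable def Z3 (X0 : Matrix n n ℂ) (C : Matrix n n ℂ) (η : ℝ) :
    Matrix (Fin 3 × n) (Fin 3 × n) ℂ :=
  blk (sel (sel (X0 + ((η : ℂ) * Complex.I) • 1) (-C) 0)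
    (sel 0 (X0 - ((η : ℂ) * Complex.I) • 1) (-C))
    (sel 0 0 (X0 - ((η : ℂ) * Complex.I) • 1)))

/-- the inverse -/
noncomputable def H3 (R C : Matrix n n ℂ) : Matrix (Fin 3 × n) (Fin 3 × n) ℂ :=
  blk (sel (sel Rᴴ (Rᴴ * C * R) (Rᴴ * C * R * C * R)) (sel 0 R (R * C * R)) (sel 0 0 R))

theorem XX_blk (B : Fin 3 → Fin 3 → Matrix n n ℂ) (A : m → Matrix n n ℂ) (V : m → ℝ) :
    XX (blk B) (A3 A) V = blk fun i j => B i j + if i = j then ∑ y, (V y : ℂ) • A y else 0 := by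
  ext ⟨i, k⟩ ⟨j, p⟩
  unfold XX A3
  rw [Matrix.add_apply, Matrix.sum_apply, blk_apply, blk_apply, Matrix.add_apply]
  congr 1
  have h1 : ∀ y, ((V y : ℂ) • blk fun i j => if i = j then A y else 0 :
      Matrix (Fin 3 × n) (Fin 3 × n) ℂ) (i, k) (j, p) =
      if i = j then ((V y : ℂ) • A y) k p else 0 := by
    intro y
    rw [Matrix.smul_apply, blk_apply]
    by_cases h : i = j
    · rw [if_pos h, if_pos h, Matrix.smul_apply]
    · rw [if_neg h, if_neg h, Matrix.zero_apply, smul_zero]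
  rw [Finset.sum_congr rfl fun y _ => h1 y]
  by_cases h : i = j
  · simp only [if_pos h]
    rw [Matrix.sum_apply]
  · simp only [if_neg h]
    rw [Finset.sum_const_zero, Matrix.zero_apply]

theorem XX3 (X0 : Matrix n n ℂ) (C : Matrix n n ℂ) (η : ℝ) (A : m → Matrix n n ℂ) (V : m → ℝ) :
    XX (Z3 X0 C η) (A3 A) V = Z3 (XX X0 A V) C η := by
  unfold Z3
  rw [XX_blk]
  congr 1
  funext i j
  revert i j
  unfold XX
  generalize ∑ y, (V y : ℂ) • A y = D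
  refine all3 (all3 ?_ ?_ ?_) (all3 ?_ ?_ ?_) (all3 ?_ ?_ ?_)
  · simp only [sel_0, if_true]
    abel
  · simp only [sel_0, sel_1]
    rw [if_neg (by decide), add_zero]
  · simp only [sel_0, sel_2]
    rw [if_neg (by decide), add_zero]
  · simp only [sel_0, sel_1]
    rw [if_neg (by decide), add_zero]
  · simp only [sel_1, if_true]
    abel
  · simp only [sel_1, sel_2]
    rw [if_neg (by decide), add_zero]
  · simp only [sel_0, sel_2]
    rw [if_neg (by decide), add_zero]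
  · simp only [sel_1, sel_2]
    rw [if_neg (by decide), add_zero]
  · simp only [sel_2, if_true]
    abel

theorem H3_inv (X0 : Matrix n n ℂ) (A : m → Matrix n n ℂ) (C : Matrix n n ℂ) (η : ℝ)
    (h0 : X0.IsHermitian) (hA : ∀ y, (A y).IsHermitian) (hη : 0 < η) (V : m → ℝ) :
    XX (Z3 X0 C η) (A3 A) V * H3 (RR X0 A η V) C = 1 := by
  rw [XX3]
  have r1 := mul_RR h0 hA hη V
  have r2 : (XX X0 A V + ((η : ℂ) * Complex.I) • (1 : Matrix n n ℂ)) * (RR X0 A η V)ᴴ = 1 := by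
    have h3 : star ((η : ℂ) * Complex.I) = -((η : ℂ) * Complex.I) := by
      rw [star_mul']
      simp
    have h5 : (XX X0 A V - ((η : ℂ) * Complex.I) • (1 : Matrix n n ℂ))ᴴ =
        XX X0 A V + ((η : ℂ) * Complex.I) • (1 : Matrix n n ℂ) := by
      rw [Matrix.conjTranspose_sub, (XX_herm h0 hA V).eq, Matrix.conjTranspose_smul,
        Matrix.conjTranspose_one, h3, neg_smul, sub_neg_eq_add]
    have := congrArg Matrix.conjTranspose (RR_mul h0 hA hη V)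
    rw [Matrix.conjTranspose_mul, h5, Matrix.conjTranspose_one] at this
    exact this
  generalize RR X0 A η V = R at r1 r2 ⊢
  unfold Z3 H3
  rw [blk_mul, ← blk_one]
  generalize XX X0 A V + ((η : ℂ) * Complex.I) • (1 : Matrix n n ℂ) = P2 at r2 ⊢
  generalize XX X0 A V - ((η : ℂ) * Complex.I) • (1 : Matrix n n ℂ) = P1 at r1 ⊢
  congr 1
  funext i j
  revert i j
  have a1 : P2 * (Rᴴ * (C * R)) = C * R := by
    rw [← mul_assoc, r2, one_mul]
  have a2 : P2 * (Rᴴ * (C * (R * (C * R)))) = C * (R * (C * R)) := by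
    rw [← mul_assoc, r2, one_mul]
  have a3 : P1 * (R * (C * R)) = C * R := by
    rw [← mul_assoc, r1, one_mul]
  refine all3 (all3 ?_ ?_ ?_) (all3 ?_ ?_ ?_) (all3 ?_ ?_ ?_)
  · rw [Fin.sum_univ_three]
    simp only [sel_0, sel_1, sel_2, if_true]
    rw [r2, mul_zero, mul_zero, add_zero, add_zero]
  · rw [Fin.sum_univ_three, if_neg (by decide)]
    simp only [sel_0, sel_1, sel_2, mul_assoc]
    rw [a1, neg_mul, mul_zero, add_zero, add_neg_cancel]
  · rw [Fin.sum_univ_three, if_neg (by decide)]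
    simp only [sel_0, sel_1, sel_2, mul_assoc]
    rw [a2, neg_mul, zero_mul, add_zero, add_neg_cancel]
  · rw [Fin.sum_univ_three, if_neg (by decide)]
    simp only [sel_0, sel_1, sel_2, mul_assoc]
    rw [zero_mul, mul_zero, mul_zero, add_zero, add_zero]
  · rw [Fin.sum_univ_three]
    simp only [sel_0, sel_1, sel_2, if_true]
    rw [r1, mul_zero, zero_mul, add_zero, zero_add]
  · rw [Fin.sum_univ_three, if_neg (by decide)]
    simp only [sel_0, sel_1, sel_2, mul_assoc]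
    rw [a3, neg_mul, zero_mul, zero_add, add_neg_cancel]
  · rw [Fin.sum_univ_three, if_neg (by decide)]
    simp only [sel_0, sel_1, sel_2, mul_assoc]
    rw [zero_mul, zero_mul, mul_zero, add_zero, add_zero]
  · rw [Fin.sum_univ_three, if_neg (by decide)]
    simp only [sel_0, sel_1, sel_2, mul_assoc]
    rw [zero_mul, zero_mul, mul_zero, add_zero, add_zero]
  · rw [Fin.sum_univ_three]
    simp only [sel_0, sel_1, sel_2, if_true]
    rw [r1, zero_mul, zero_mul, zero_add, zero_add]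

theorem GG3 (X0 : Matrix n n ℂ) (A : m → Matrix n n ℂ) (C : Matrix n n ℂ) (η : ℝ)
    (h0 : X0.IsHermitian) (hA : ∀ y, (A y).IsHermitian) (hη : 0 < η) (V : m → ℝ) :
    GG (Z3 X0 C η) (A3 A) V = H3 (RR X0 A η V) C :=
  Matrix.inv_eq_right_inv (H3_inv X0 A C η h0 hA hη V)

theorem blk_herm (B : Matrix n n ℂ) (hB : B.IsHermitian) :
    (blk fun i j => if i = j then B else 0 : Matrix (Fin 3 × n) (Fin 3 × n) ℂ).IsHermitian := by
  ext ⟨i, k⟩ ⟨j, p⟩
  rw [Matrix.conjTranspose_apply, blk_apply, blk_apply]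
  by_cases h : i = j
  · subst h
    rw [if_pos rfl]
    exact congrFun (congrFun hB k) p
  · rw [if_neg h, if_neg (Ne.symm h), Matrix.zero_apply, Matrix.zero_apply, star_zero]

theorem nn_adj (B : Matrix n n ℂ) (K : ℝ) (hK : 0 ≤ K) (h : ∀ w, nsq (B *ᵥ w) ≤ K ^ 2 * nsq w)
    (w : n → ℂ) : nsq (Bᴴ *ᵥ w) ≤ K ^ 2 * nsq w := by
  have h1 : nn (Bᴴ *ᵥ w) ^ 2 ≤ (K * nn (Bᴴ *ᵥ w)) * nn w := by
    have e1 : ((nn (Bᴴ *ᵥ w) ^ 2 : ℝ) : ℂ) = star w ⬝ᵥ (B *ᵥ (Bᴴ *ᵥ w)) := by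
      rw [nn_sq, nsq_eq, adjoint B w]
    have e2 : nn (Bᴴ *ᵥ w) ^ 2 = ‖star w ⬝ᵥ (B *ᵥ (Bᴴ *ᵥ w))‖ := by
      rw [← e1, Complex.norm_real, Real.norm_of_nonneg (sq_nonneg _)]
    rw [e2]
    refine (cs_norm _ _).trans ?_
    change nn w * nn (B *ᵥ (Bᴴ *ᵥ w)) ≤ _
    have e3 := nn_le B K hK h (Bᴴ *ᵥ w)
    calc nn w * nn (B *ᵥ (Bᴴ *ᵥ w)) ≤ nn w * (K * nn (Bᴴ *ᵥ w)) :=
          mul_le_mul_of_nonneg_left e3 (nn_nonneg _)
      _ = _ := by ring
  have h2 : nn (Bᴴ *ᵥ w) ≤ K * nn w := by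
    rcases (nn_nonneg (Bᴴ *ᵥ w)).eq_or_lt with h3 | h3
    · rw [← h3]
      exact mul_nonneg hK (nn_nonneg _)
    · refine le_of_mul_le_mul_left ?_ h3
      calc nn (Bᴴ *ᵥ w) * nn (Bᴴ *ᵥ w) = nn (Bᴴ *ᵥ w) ^ 2 := by ring
        _ ≤ _ := h1
        _ = _ := by ring
  calc nsq (Bᴴ *ᵥ w) = nn (Bᴴ *ᵥ w) ^ 2 := (nn_sq _).symm
    _ ≤ (K * nn w) ^ 2 := pow_le_pow_left₀ (nn_nonneg _) h2 2
    _ = _ := by rw [mul_pow, nn_sq]

theorem H3_bd (X0 : Matrix n n ℂ) (A : m → Matrix n n ℂ) (S : Matrix n n ℂ) (η : ℝ)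
    (h0 : X0.IsHermitian) (hA : ∀ y, (A y).IsHermitian) (hη : 0 < η)
    (hS : ∀ w, nsq (S *ᵥ w) ≤ nsq w) (V : m → ℝ) (w : Fin 3 × n → ℂ) :
    nsq (H3 (RR X0 A η V) ((η : ℂ) • S) *ᵥ w) ≤ (3 / η) ^ 2 * nsq w := by
  have hR : ∀ u, nn (RR X0 A η V *ᵥ u) ≤ η⁻¹ * nn u := fun u =>
    Pool.Agent.W261.BK.RR_nn h0 hA hη V u
  have hRH : ∀ u, nn ((RR X0 A η V)ᴴ *ᵥ u) ≤ η⁻¹ * nn u := fun u => by
    refine nn_le _ _ (by positivity) (fun w => ?_) u
    rw [inv_pow]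
    exact RRH_bd h0 hA hη V w
  have hC : ∀ u, nn (((η : ℂ) • S) *ᵥ u) ≤ η * nn u := by
    intro u
    rw [Matrix.smul_mulVec, nn_smul, Complex.norm_real, Real.norm_of_nonneg hη.le]
    refine mul_le_mul_of_nonneg_left ?_ hη.le
    have := nn_le S 1 zero_le_one (fun w => by rw [one_pow, one_mul]; exact hS w) u
    rwa [one_mul] at this
  generalize RR X0 A η V = R at hR hRH ⊢
  generalize (η : ℂ) • S = C at hC ⊢
  obtain ⟨w0, hw0⟩ : ∃ w0, w0 = fun k => w (0, k) := ⟨_, rfl⟩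
  obtain ⟨w1, hw1⟩ : ∃ w1, w1 = fun k => w (1, k) := ⟨_, rfl⟩
  obtain ⟨w2, hw2⟩ : ∃ w2, w2 = fun k => w (2, k) := ⟨_, rfl⟩
  have hCR : ∀ u, nn (C *ᵥ (R *ᵥ u)) ≤ nn u := by
    intro u
    refine (hC _).trans ?_
    calc η * nn (R *ᵥ u) ≤ η * (η⁻¹ * nn u) := mul_le_mul_of_nonneg_left (hR u) hη.le
      _ = nn u := by field_simp
  have e2 : (fun k => (H3 R C *ᵥ w) (2, k)) = R *ᵥ w2 := by
    unfold H3
    rw [blk_mulVec, Fin.sum_univ_three, hw2]
    simp only [sel_0, sel_1, sel_2, Matrix.zero_mulVec, zero_add]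
  have e1 : (fun k => (H3 R C *ᵥ w) (1, k)) = R *ᵥ w1 + R *ᵥ (C *ᵥ (R *ᵥ w2)) := by
    unfold H3
    rw [blk_mulVec, Fin.sum_univ_three, hw1, hw2]
    simp only [sel_0, sel_1, sel_2, Matrix.zero_mulVec, zero_add, Matrix.mulVec_mulVec, mul_assoc]
  have e0 : (fun k => (H3 R C *ᵥ w) (0, k)) = Rᴴ *ᵥ w0 + Rᴴ *ᵥ (C *ᵥ (R *ᵥ w1)) +
      Rᴴ *ᵥ (C *ᵥ (R *ᵥ (C *ᵥ (R *ᵥ w2)))) := by
    unfold H3
    rw [blk_mulVec, Fin.sum_univ_three, hw0, hw1, hw2]
    simp only [sel_0, sel_1, sel_2, Matrix.mulVec_mulVec, mul_assoc]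
  have hi : 0 ≤ η⁻¹ := by positivity
  have n0 := nn_nonneg w0
  have n1 := nn_nonneg w1
  have n2 := nn_nonneg w2
  obtain ⟨s, hs⟩ : ∃ s, s = nn w0 + nn w1 + nn w2 := ⟨_, rfl⟩
  have b2 : nn (R *ᵥ w2) ≤ η⁻¹ * s := by
    refine (hR w2).trans (mul_le_mul_of_nonneg_left ?_ hi)
    linarith
  have b1 : nn (R *ᵥ w1 + R *ᵥ (C *ᵥ (R *ᵥ w2))) ≤ η⁻¹ * s := by
    refine (nn_add _ _).trans ?_
    have f1 := hR w1
    have f2 := (hR (C *ᵥ (R *ᵥ w2))).trans (mul_le_mul_of_nonneg_left (hCR w2) hi)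
    have f3 : η⁻¹ * s = η⁻¹ * nn w0 + η⁻¹ * nn w1 + η⁻¹ * nn w2 := by rw [hs]; ring
    have f4 := mul_nonneg hi n0
    linarith
  have b0 : nn (Rᴴ *ᵥ w0 + Rᴴ *ᵥ (C *ᵥ (R *ᵥ w1)) +
      Rᴴ *ᵥ (C *ᵥ (R *ᵥ (C *ᵥ (R *ᵥ w2))))) ≤ η⁻¹ * s := by
    refine (nn_add _ _).trans ((add_le_add (nn_add _ _) le_rfl).trans ?_)
    have f0 := hRH w0
    have f1 := (hRH (C *ᵥ (R *ᵥ w1))).trans (mul_le_mul_of_nonneg_left (hCR w1) hi)
    have f2 := (hRH (C *ᵥ (R *ᵥ (C *ᵥ (R *ᵥ w2))))).trans (mul_le_mul_of_nonneg_left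
      ((hCR _).trans (hCR w2)) hi)
    have f3 : η⁻¹ * s = η⁻¹ * nn w0 + η⁻¹ * nn w1 + η⁻¹ * nn w2 := by rw [hs]; ring
    linarith
  have hs2 : s ^ 2 ≤ 3 * nsq w := by
    rw [nsq_blk, Fin.sum_univ_three, ← hw0, ← hw1, ← hw2, ← nn_sq w0, ← nn_sq w1, ← nn_sq w2, hs]
    nlinarith [sq_nonneg (nn w0 - nn w1), sq_nonneg (nn w1 - nn w2), sq_nonneg (nn w0 - nn w2)]
  have hs0 : 0 ≤ s := by rw [hs]; positivity
  rw [nsq_blk (H3 R C *ᵥ w), Fin.sum_univ_three, e0, e1, e2, ← nn_sq, ← nn_sq, ← nn_sq]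
  have c0 := pow_le_pow_left₀ (nn_nonneg _) b0 2
  have c1 := pow_le_pow_left₀ (nn_nonneg _) b1 2
  have c2 := pow_le_pow_left₀ (nn_nonneg _) b2 2
  have c3 : (η⁻¹ * s) ^ 2 ≤ (η⁻¹) ^ 2 * (3 * nsq w) := by
    rw [mul_pow]
    exact mul_le_mul_of_nonneg_left hs2 (by positivity)
  have c4 : (3 / η) ^ 2 * nsq w = 3 * ((η⁻¹) ^ 2 * (3 * nsq w)) := by
    rw [div_eq_mul_inv]
    ring
  rw [c4]
  linarith

/-- the chain satisfies the hypotheses -/
theorem adG3 {X0 : Matrix n n ℂ} {A : m → Matrix n n ℂ} {a v2 Q : ℝ} (h : Adm X0 A a v2 Q)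
    (S : Matrix n n ℂ) (η : ℝ) (hη : 0 < η) (hη1 : η ≤ 1) (hS : ∀ w, nsq (S *ᵥ w) ≤ nsq w) :
    AdG (Z3 X0 ((η : ℂ) • S) η) (A3 A) a v2 (3 * Q) (3 / η) := by
  have hK0 : 0 ≤ 3 / η := by positivity
  have hrow : ∀ (y : m) (w : Fin 3 × n → ℂ), nsq (A3 A y *ᵥ w) =
      ∑ i, nsq (A y *ᵥ fun k => w (i, k)) := by
    intro y w
    rw [nsq_blk]
    refine Finset.sum_congr rfl fun i _ => ?_
    unfold A3
    rw [blk_mulVec, Finset.sum_eq_single i]
    · rw [if_pos rfl]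
    · intro j _ hj
      rw [if_neg (Ne.symm hj), Matrix.zero_mulVec]
    · intro h
      exact absurd (Finset.mem_univ i) h
  have hb : ∀ (V : m → ℝ) (w : Fin 3 × n → ℂ),
      nsq (GG (Z3 X0 ((η : ℂ) • S) η) (A3 A) V *ᵥ w) ≤ (3 / η) ^ 2 * nsq w := by
    intro V w
    rw [GG3 X0 A _ η h.hX0 h.hA hη V]
    exact H3_bd X0 A S η h.hX0 h.hA hη hS V w
  refine ⟨fun y => blk_herm (A y) (h.hA y), h.ha0, h.hv0, by have := h.hQ0; positivity, ?_, ?_,
    ?_, ?_, ?_, hb, fun V w => nn_adj _ _ hK0 (hb V) w⟩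
  · rw [le_div_iff₀ hη]
    linarith
  · intro y w
    rw [hrow, nsq_blk, Finset.mul_sum]
    exact Finset.sum_le_sum fun i _ => h.ha y _
  · intro w
    simp only [hrow]
    rw [Finset.sum_comm, nsq_blk, Finset.mul_sum]
    exact Finset.sum_le_sum fun i _ => h.hv _
  · intro W
    obtain ⟨D, hD⟩ : ∃ D : Matrix n n ℂ, D = ∑ i : Fin 3, Matrix.of fun k p => W (i, k) (i, p) :=
      ⟨_, rfl⟩
    have h1 : ∀ y, (A3 A y * W).trace = (A y * D).trace := by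
      intro y
      rw [hD, Finset.mul_sum, Matrix.trace_sum]
      unfold Matrix.trace
      rw [Fintype.sum_prod_type]
      refine Finset.sum_congr rfl fun i _ => Finset.sum_congr rfl fun k _ => ?_
      rw [Matrix.diag_apply, Matrix.diag_apply, Matrix.mul_apply, Matrix.mul_apply,
        Fintype.sum_prod_type, Finset.sum_eq_single i]
      · refine Finset.sum_congr rfl fun p _ => ?_
        unfold A3
        rw [blk_apply, if_pos rfl, Matrix.of_apply]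
      · intro j _ hj
        refine Finset.sum_eq_zero fun p _ => ?_
        unfold A3
        rw [blk_apply, if_neg (Ne.symm hj), Matrix.zero_apply, zero_mul]
      · intro h
        exact absurd (Finset.mem_univ i) h
    have h2 : hs D ≤ 3 * hs W := by
      have e1 : hs D ≤ 3 * ∑ i : Fin 3, hs (Matrix.of fun k p => W (i, k) (i, p)) := by
        rw [hD]
        unfold hs
        rw [Finset.sum_comm (s := (Finset.univ : Finset (Fin 3))), Finset.mul_sum]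
        refine Finset.sum_le_sum fun k _ => ?_
        rw [Finset.sum_comm (s := (Finset.univ : Finset (Fin 3))), Finset.mul_sum]
        refine Finset.sum_le_sum fun p _ => ?_
        rw [Matrix.sum_apply]
        simp only [Matrix.of_apply]
        refine (pow_le_pow_left₀ (norm_nonneg _) (norm_sum_le _ _) 2).trans ?_
        have h3 := Finset.sum_mul_sq_le_sq_mul_sq (Finset.univ : Finset (Fin 3))
          (fun _ => (1 : ℝ)) (fun i => ‖W (i, k) (i, p)‖)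
        simpa using h3
      refine e1.trans (mul_le_mul_of_nonneg_left ?_ (by norm_num))
      rw [hs_blk W]
      refine Finset.sum_le_sum fun i _ => ?_
      exact Finset.single_le_sum (f := fun j => hs (Matrix.of fun k p => W (i, k) (j, p)))
        (fun _ _ => hs_nonneg _) (Finset.mem_univ i)
    simp only [h1]
    calc ∑ y, ‖(A y * D).trace‖ ^ 2 ≤ Q * hs D := h.hQ D
      _ ≤ Q * (3 * hs W) := mul_le_mul_of_nonneg_left h2 h.hQ0
      _ = 3 * Q * hs W := by ring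
  · intro V
    exact IsUnit.of_mul_eq_one _ (H3_inv X0 A _ η h.hX0 h.hA hη V)

end Pool.Agent.TH794.QD
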