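import Pool.Agent.TH794.FG.Core3

/-! The self-consistent equations of the chain. -/

set_option autoImplicit false

open scoped BigOperators Matrix

namespace Pool.Agent.TH794.QD

open Pool.Agent.TH794.LL2

/-- one step -/
theorem step1 (D DJ Y X : ℂ) (c1 r : ℝ) (hD : 0 < ‖D‖) (hDJ : 3 / 4 * ‖D‖ ≤ ‖DJ‖)
    (hdiff : ‖DJ - D‖ ≤ c1 * ‖D‖) (h : ‖DJ * Y - X‖ ≤ r) :
    ‖Y - D⁻¹ * X‖ ≤ 4 / 3 * r * ‖D‖⁻¹ + 4 / 3 * c1 * ‖D‖⁻¹ * ‖X‖ := by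
  have hDJ0 : 0 < ‖DJ‖ := lt_of_lt_of_le (by positivity) hDJ
  have n1 : D ≠ 0 := norm_pos_iff.1 hD
  have n2 : DJ ≠ 0 := norm_pos_iff.1 hDJ0
  have e1 : Y - D⁻¹ * X = DJ⁻¹ * (DJ * Y - X) - DJ⁻¹ * ((DJ - D) * (D⁻¹ * X)) := by
    field_simp
    ring
  have hr0 : 0 ≤ r := (norm_nonneg _).trans h
  have hinv : ‖DJ‖⁻¹ ≤ 4 / 3 * ‖D‖⁻¹ := by
    have h1 := inv_anti₀ (by positivity) hDJ
    rw [mul_inv] at h1
    norm_num at h1 ⊢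
    exact h1
  have hi0 : 0 ≤ ‖D‖⁻¹ := inv_nonneg.2 hD.le
  rw [e1]
  refine (norm_sub_le _ _).trans ?_
  rw [norm_mul, norm_mul, norm_mul, norm_mul, norm_inv, norm_inv]
  have f1 : ‖DJ‖⁻¹ * ‖DJ * Y - X‖ ≤ 4 / 3 * ‖D‖⁻¹ * r :=
    mul_le_mul hinv h (norm_nonneg _) (by positivity)
  have f2 : ‖DJ‖⁻¹ * (‖DJ - D‖ * (‖D‖⁻¹ * ‖X‖)) ≤
      4 / 3 * ‖D‖⁻¹ * ((c1 * ‖D‖) * (‖D‖⁻¹ * ‖X‖)) := by
    apply mul_le_mul hinv _ (by positivity) (by positivity)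
    exact mul_le_mul_of_nonneg_right hdiff (by positivity)
  have f3 : 4 / 3 * ‖D‖⁻¹ * ((c1 * ‖D‖) * (‖D‖⁻¹ * ‖X‖)) = 4 / 3 * c1 * ‖D‖⁻¹ * ‖X‖ := by
    have := hD.ne'
    field_simp
  rw [f3] at f2
  linarith

/-- the denominators -/
theorem dj_facts (N δ η s2 g e1 x J S : ℝ) (l m : ℂ) (hN : 0 < N) (hδ : 0 < δ) (hη : 0 < η)
    (hs : 0 ≤ s2) (he0 : 0 ≤ e1) (he1 : e1 ≤ 1 / 4)
    (hJJ : J = Real.sqrt (x ^ 2 + δ ^ 2))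
    (hsl : ‖(s2 : ℂ) * l‖ ≤ e1 * (η * δ)) (hmim : 0 ≤ m.im) (hmn : ‖m‖ ≤ 2 * g)
    (D DJ : ℂ) (hD : D = ((x : ℝ) : ℂ) - (s2 : ℂ) * m - ((η * δ : ℝ) : ℂ) * Complex.I)
    (hDJ : DJ = ((x : ℝ) : ℂ) - ((η * J : ℝ) : ℂ) * Complex.I - (s2 : ℂ) * m + (s2 : ℂ) * l) :
    η * δ + s2 * m.im ≤ ‖D‖ ∧ 3 / 4 * ‖D‖ ≤ ‖DJ‖ ∧
      ‖DJ - D‖ ≤ (e1 + (2 * η + 8 * s2 ^ 2 * g ^ 2 / δ ^ 2)) * ‖D‖ ∧ D.im = -(η * δ + s2 * m.im) ∧
      Real.sqrt ((x - s2 * m.re) ^ 2 + (η * δ) ^ 2) ≤ ‖D‖ := by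
  have hJ : δ ≤ J := by
    rw [hJJ]
    exact Real.le_sqrt_of_sq_le (by linarith [sq_nonneg x])
  have hJ0 : 0 < J := hδ.trans_le hJ
  have hηδ : 0 < η * δ := mul_pos hη hδ
  have hsl4 : ‖(s2 : ℂ) * l‖ ≤ η * δ / 4 := hsl.trans (by nlinarith)
  obtain ⟨jj, hjj⟩ : ∃ jj, jj = ‖D‖ := ⟨_, rfl⟩
  have hD0e : D = (((x - s2 * m.re) : ℝ) : ℂ) +
        ((-(η * δ + s2 * m.im) : ℝ) : ℂ) * Complex.I := by
    rw [hD]
    conv_lhs => rw [← Complex.re_add_im m]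
    push_cast
    ring
  have hsm : 0 ≤ s2 * m.im := mul_nonneg hs hmim
  have hjs : jj = Real.sqrt ((x - s2 * m.re) ^ 2 + (η * δ + s2 * m.im) ^ 2) := by
    rw [hjj, hD0e, Complex.norm_add_mul_I, neg_sq]
  have hj1 : η * δ + s2 * m.im ≤ jj := by
    rw [hjs]
    apply Real.le_sqrt_of_sq_le
    linarith [sq_nonneg (x - s2 * m.re)]
  have hj1' : η * δ ≤ jj := by linarith
  have hj0 : 0 < jj := hηδ.trans_le hj1'
  have hDj : 3 / 4 * jj ≤ ‖DJ‖ := by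
    have h3 : jj ≤ ‖DJ - (s2 : ℂ) * l‖ := by
      have e2 : DJ - (s2 : ℂ) * l = (((x - s2 * m.re) : ℝ) : ℂ) +
          ((-(η * J + s2 * m.im) : ℝ) : ℂ) * Complex.I := by
        rw [hDJ]
        conv_lhs => rw [← Complex.re_add_im m]
        push_cast
        ring
      rw [e2, Complex.norm_add_mul_I, hjs]
      apply Real.sqrt_le_sqrt
      have h4 : η * δ + s2 * m.im ≤ η * J + s2 * m.im := by
        have := mul_le_mul_of_nonneg_left hJ hη.le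
        linarith
      have h5 : (η * δ + s2 * m.im) ^ 2 ≤ (η * J + s2 * m.im) ^ 2 := by gcongr
      rw [neg_sq]
      linarith
    have h4 : jj ≤ ‖DJ‖ + ‖(s2 : ℂ) * l‖ := h3.trans (norm_sub_le _ _)
    linarith
  have hR : (s2 * m.re) ^ 2 ≤ 4 * s2 ^ 2 * g ^ 2 := by
    have h1 : |m.re| ≤ 2 * g := (Complex.abs_re_le_norm m).trans hmn
    have h2 : m.re ^ 2 ≤ (2 * g) ^ 2 := by
      rw [← sq_abs]
      exact pow_le_pow_left₀ (abs_nonneg _) h1 2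
    calc (s2 * m.re) ^ 2 = s2 ^ 2 * m.re ^ 2 := by ring
      _ ≤ s2 ^ 2 * (2 * g) ^ 2 := by gcongr
      _ = _ := by ring
  have e4 : D - DJ = ((η * (J - δ) : ℝ) : ℂ) * Complex.I - (s2 : ℂ) * l := by
    rw [hD, hDJ]
    push_cast
    ring
  have e5 : ‖D - DJ‖ ≤ η * (J - δ) + e1 * (η * δ) := by
    rw [e4]
    refine (norm_sub_le _ _).trans (add_le_add ?_ hsl)
    rw [norm_mul, Complex.norm_I, mul_one, Complex.norm_real, Real.norm_eq_abs,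
      abs_of_nonneg (mul_nonneg hη.le (by linarith [hJ]))]
  have hlast : Real.sqrt ((x - s2 * m.re) ^ 2 + (η * δ) ^ 2) ≤ jj := by
    rw [hjs]
    apply Real.sqrt_le_sqrt
    have h5 : (η * δ) ^ 2 ≤ (η * δ + s2 * m.im) ^ 2 := by gcongr; linarith
    linarith
  have e6 : η * (J - δ) ≤ (2 * η + 8 * s2 ^ 2 * g ^ 2 / δ ^ 2) * jj := by
    have h1 := reg_small δ η x (s2 * m.re) hδ hη
    rw [← hJJ] at h1
    have h3 : 2 * (s2 * m.re) ^ 2 / δ ^ 2 ≤ 8 * s2 ^ 2 * g ^ 2 / δ ^ 2 := by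
      apply div_le_div_of_nonneg_right _ (by positivity)
      linarith
    refine h1.trans (mul_le_mul (by linarith) hlast (Real.sqrt_nonneg _) (by positivity))
  have e7 : ‖D - DJ‖ ≤ (e1 + (2 * η + 8 * s2 ^ 2 * g ^ 2 / δ ^ 2)) * jj := by
    have := mul_le_mul_of_nonneg_left hj1' he0
    rw [add_mul]
    linarith
  rw [← hjj]
  refine ⟨hj1, hDj, ?_, ?_, hlast⟩
  · rw [norm_sub_rev]
    exact e7
  · rw [hD0e]
    simp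

section avg

variable {ι : Type} [Fintype ι]

/-- the mean value -/
noncomputable def mv (N : ℝ) (f : ι → ℂ) : ℂ := ((N : ℝ) : ℂ)⁻¹ * ∑ k, f k

/-- the mean value -/
noncomputable def rv (N : ℝ) (f : ι → ℝ) : ℝ := N⁻¹ * ∑ k, f k

theorem mv_add (N : ℝ) (f g : ι → ℂ) : mv N (fun k => f k + g k) = mv N f + mv N g := by
  unfold mv
  rw [Finset.sum_add_distrib, mul_add]

theorem mv_sub (N : ℝ) (f g : ι → ℂ) : mv N (fun k => f k - g k) = mv N f - mv N g := by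
  unfold mv
  rw [Finset.sum_sub_distrib, mul_sub]

theorem mv_mul (N : ℝ) (c : ℂ) (f : ι → ℂ) : mv N (fun k => c * f k) = c * mv N f := by
  unfold mv
  rw [← Finset.mul_sum]
  ring

theorem rv_add (N : ℝ) (f g : ι → ℝ) : rv N (fun k => f k + g k) = rv N f + rv N g := by
  unfold rv
  rw [Finset.sum_add_distrib, mul_add]

theorem rv_mul (N : ℝ) (c : ℝ) (f : ι → ℝ) : rv N (fun k => c * f k) = c * rv N f := by
  unfold rv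
  rw [← Finset.mul_sum]
  ring

theorem rv_mono {N : ℝ} (hN : 0 < N) {f g : ι → ℝ} (h : ∀ k, f k ≤ g k) : rv N f ≤ rv N g := by
  unfold rv
  exact mul_le_mul_of_nonneg_left (Finset.sum_le_sum fun k _ => h k) (inv_nonneg.2 hN.le)

theorem rv_nonneg {N : ℝ} (hN : 0 < N) {f : ι → ℝ} (h : ∀ k, 0 ≤ f k) : 0 ≤ rv N f :=
  mul_nonneg (inv_nonneg.2 hN.le) (Finset.sum_nonneg fun k _ => h k)

theorem mv_norm {N : ℝ} (hN : 0 < N) (f : ι → ℂ) : ‖mv N f‖ ≤ rv N (fun k => ‖f k‖) := by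
  unfold mv rv
  rw [norm_mul, norm_inv, Complex.norm_real, Real.norm_eq_abs, abs_of_pos hN]
  exact mul_le_mul_of_nonneg_left (norm_sum_le _ _) (inv_nonneg.2 hN.le)

theorem mv_le {N : ℝ} (hN : 0 < N) {f : ι → ℂ} {F : ι → ℝ} (h : ∀ k, ‖f k‖ ≤ F k) :
    ‖mv N f‖ ≤ rv N F := (mv_norm hN f).trans (rv_mono hN h)

theorem mv_im (N : ℝ) (f : ι → ℂ) : (mv N f).im = rv N (fun k => (f k).im) := by
  unfold mv rv
  rw [← Complex.ofReal_inv, Complex.im_ofReal_mul, Complex.im_sum]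

theorem mv_re (N : ℝ) (f : ι → ℂ) : (mv N f).re = rv N (fun k => (f k).re) := by
  unfold mv rv
  rw [← Complex.ofReal_inv, Complex.re_ofReal_mul, Complex.re_sum]

theorem mv_odd (N : ℝ) (τ : ι ≃ ι) (f : ι → ℂ) (h : ∀ k, f (τ k) = -f k) : mv N f = 0 := by
  unfold mv
  have h1 : ∑ k, f k = -∑ k, f k := by
    calc ∑ k, f k = ∑ k, f (τ k) := (Equiv.sum_comp τ f).symm
      _ = ∑ k, -f k := Finset.sum_congr rfl fun k _ => h k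
      _ = _ := by rw [Finset.sum_neg_distrib]
  have h2 : ∑ k, f k = 0 := by
    have h3 : (2 : ℂ) * ∑ k, f k = 0 := by linear_combination h1
    exact (mul_eq_zero.1 h3).resolve_left two_ne_zero
  rw [h2, mul_zero]

end avg

/-- the self-consistent term -/
theorem psi_eq {ι : Type} [Fintype ι] (N δ η s2 e1 Kb : ℝ) (J : ι → ℝ) (h : ι → ι → ℝ) (S : ℝ)
    (B : ι → ℂ) (hN : 0 < N) (hδ : 0 < δ) (hs : 0 ≤ s2) (hJ : ∀ k, δ ≤ J k)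
    (hB : ∀ k, ‖B k‖ ≤ Kb) (hKb : 0 ≤ Kb)
    (hh : ∀ k p, h k p ≤ 1) (hS : ∀ k, ∑ p, (1 - h k p) = S)
    (hS2 : s2 * S ≤ e1 * (η ^ 2 * δ ^ 2) * N) (k : ι) :
    ∃ l : ℂ, ‖(s2 : ℂ) * l‖ ≤ e1 * (η ^ 2 * δ) * Kb ∧
      ∑ p, ((N⁻¹ * h k p * (J k * J p)⁻¹ : ℝ) : ℂ) * B p =
      (((J k)⁻¹ : ℝ) : ℂ) * (mv N (fun p => (((J p)⁻¹ : ℝ) : ℂ) * B p) - l) := by
  have hJ0 : ∀ k, 0 < J k := fun k => hδ.trans_le (hJ k)
  obtain ⟨l, hl⟩ : ∃ l : ℂ, l = ((N⁻¹ : ℝ) : ℂ) *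
    ∑ p, (((1 - h k p) * (J p)⁻¹ : ℝ) : ℂ) * B p := ⟨_, rfl⟩
  have hlk : ‖l‖ ≤ N⁻¹ * (S * (δ⁻¹ * Kb)) := by
    rw [hl, norm_mul, Complex.norm_real, Real.norm_eq_abs, abs_of_pos (inv_pos.2 hN)]
    refine mul_le_mul_of_nonneg_left ?_ (inv_nonneg.2 hN.le)
    rw [← hS k, Finset.sum_mul]
    refine (norm_sum_le _ _).trans (Finset.sum_le_sum fun p _ => ?_)
    have h1 : 0 ≤ 1 - h k p := by have := hh k p; linarith
    rw [norm_mul, Complex.norm_real, Real.norm_eq_abs,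
      abs_of_nonneg (mul_nonneg h1 (inv_nonneg.2 (hJ0 p).le)), mul_assoc]
    refine mul_le_mul_of_nonneg_left ?_ h1
    exact mul_le_mul (inv_anti₀ hδ (hJ p)) (hB p) (norm_nonneg _) (inv_nonneg.2 hδ.le)
  refine ⟨l, ?_, ?_⟩
  · rw [norm_mul, Complex.norm_real, Real.norm_eq_abs, abs_of_nonneg hs]
    calc s2 * ‖l‖ ≤ s2 * (N⁻¹ * (S * (δ⁻¹ * Kb))) := mul_le_mul_of_nonneg_left hlk hs
      _ = (s2 * S) * (N⁻¹ * (δ⁻¹ * Kb)) := by ring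
      _ ≤ (e1 * (η ^ 2 * δ ^ 2) * N) * (N⁻¹ * (δ⁻¹ * Kb)) :=
        mul_le_mul_of_nonneg_right hS2 (by positivity)
      _ = e1 * (η ^ 2 * δ) * Kb := by field_simp
  · unfold mv
    rw [hl, Complex.ofReal_inv N, ← mul_sub, ← Finset.sum_sub_distrib, Finset.mul_sum,
      Finset.mul_sum]
    refine Finset.sum_congr rfl fun k _ => ?_
    rw [mul_inv]
    push_cast
    ring

end Pool.Agent.TH794.QD
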