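import Pool.Agent.TH794.QD.Core4

/-! The self-consistent equations of the chain: averages. -/

set_option autoImplicit false

open scoped BigOperators Matrix

namespace Pool.Agent.TH794.QD

open Pool.Agent.TH794.LL2

/-- a step of the chain -/
theorem chain1 (D D0 DJ x Y A : ℂ) (n c0 c1 ε e : ℝ) (hD : 0 < ‖D‖) (hD0 : ‖D0‖ = ‖D‖)
    (hn : n = ‖D‖⁻¹) (hDJ : 3 / 4 * ‖D‖ ≤ ‖DJ‖) (hdiff : ‖DJ - D‖ ≤ c1 * ‖D‖)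
    (hx : ‖x - D0⁻¹‖ ≤ c0 * n) (he : 0 ≤ e) (h : ‖DJ * Y - A * x‖ ≤ ε + e * ‖x‖)
    (hc0 : 0 ≤ c0) (hc1 : 0 ≤ c1) (hc : c1 ≤ 3 / 4 * c0) (hc4 : c0 ≤ 1 / 4) (hε : 0 ≤ ε) :
    ‖Y - D⁻¹ * D0⁻¹ * A‖ ≤ 3 * c0 * ‖A‖ * n ^ 2 + 2 * ε * n + 2 * e * n ^ 2 := by
  have hn0 : 0 < n := by rw [hn]; exact inv_pos.2 hD
  have hxn : ‖x‖ ≤ 5 / 4 * n := by
    have h1 : ‖x‖ ≤ ‖x - D0⁻¹‖ + ‖D0⁻¹‖ := by
      have := norm_add_le (x - D0⁻¹) D0⁻¹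
      rwa [sub_add_cancel] at this
    rw [norm_inv, hD0, ← hn] at h1
    have h2 : c0 * n ≤ 1 / 4 * n := mul_le_mul_of_nonneg_right hc4 hn0.le
    linarith
  have h1 := step1 D DJ Y (A * x) c1 _ hD hDJ hdiff h
  rw [← hn, norm_mul] at h1
  have e1 : Y - D⁻¹ * D0⁻¹ * A = (Y - D⁻¹ * (A * x)) + D⁻¹ * (A * (x - D0⁻¹)) := by ring
  rw [e1]
  refine (norm_add_le _ _).trans ?_
  rw [norm_mul, norm_mul, norm_inv, ← hn]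
  have hA := norm_nonneg A
  have f1 : n * (‖A‖ * ‖x - D0⁻¹‖) ≤ n * (‖A‖ * (c0 * n)) := by gcongr
  have f2 : 4 / 3 * c1 * n * (‖A‖ * ‖x‖) ≤ 4 / 3 * (3 / 4 * c0) * n * (‖A‖ * (5 / 4 * n)) := by
    gcongr
  have f3 : 4 / 3 * (ε + e * ‖x‖) * n ≤ 4 / 3 * (ε + e * (5 / 4 * n)) * n := by gcongr
  have f4 : 0 ≤ c0 * ‖A‖ * n ^ 2 := by positivity
  have f5 : 0 ≤ ε * n := by positivity
  have f6 : 0 ≤ e * n ^ 2 := by positivity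
  nlinarith

/-- the last step of the chain -/
theorem chain2 (D D0 DJ x P Y A B : ℂ) (n c0 c1 ε e : ℝ) (hD : 0 < ‖D‖) (hD0 : ‖D0‖ = ‖D‖)
    (hn : n = ‖D‖⁻¹) (hDJ : 3 / 4 * ‖D‖ ≤ ‖DJ‖) (hdiff : ‖DJ - D‖ ≤ c1 * ‖D‖)
    (hx : ‖x - D0⁻¹‖ ≤ c0 * n) (he : 0 ≤ e)
    (h : ‖DJ * Y - (A * P + B * x)‖ ≤ ε + e * (‖P‖ + ‖x‖))
    (hc0 : 0 ≤ c0) (hc1 : 0 ≤ c1) (hc : c1 ≤ 3 / 4 * c0) (hc4 : c0 ≤ 1 / 4) (hε : 0 ≤ ε)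
    (hP : ‖P‖ ≤ 4 * n) :
    ‖Y - (D⁻¹ * (A * P) + B * (D⁻¹ * D0⁻¹))‖ ≤ 2 * ε * n + 8 * e * n ^ 2 +
      c0 * n * (‖A‖ * ‖P‖) + 3 * c0 * ‖B‖ * n ^ 2 := by
  have hn0 : 0 < n := by rw [hn]; exact inv_pos.2 hD
  have hxn : ‖x‖ ≤ 5 / 4 * n := by
    have h1 : ‖x‖ ≤ ‖x - D0⁻¹‖ + ‖D0⁻¹‖ := by
      have := norm_add_le (x - D0⁻¹) D0⁻¹
      rwa [sub_add_cancel] at this
    rw [norm_inv, hD0, ← hn] at h1
    have h2 : c0 * n ≤ 1 / 4 * n := mul_le_mul_of_nonneg_right hc4 hn0.le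
    linarith
  have h1 := step1 D DJ Y (A * P + B * x) c1 _ hD hDJ hdiff h
  rw [← hn] at h1
  have e1 : Y - (D⁻¹ * (A * P) + B * (D⁻¹ * D0⁻¹)) = (Y - D⁻¹ * (A * P + B * x)) +
      D⁻¹ * (B * (x - D0⁻¹)) := by ring
  rw [e1]
  refine (norm_add_le _ _).trans ?_
  rw [norm_mul D⁻¹, norm_mul B, norm_inv, ← hn]
  have hA := norm_nonneg A
  have hB := norm_nonneg B
  have hP0 := norm_nonneg P
  have f0 : ‖A * P + B * x‖ ≤ ‖A‖ * ‖P‖ + ‖B‖ * (5 / 4 * n) := by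
    refine (norm_add_le _ _).trans ?_
    rw [norm_mul, norm_mul]
    gcongr
  have f1 : n * (‖B‖ * ‖x - D0⁻¹‖) ≤ n * (‖B‖ * (c0 * n)) := by gcongr
  have f2 : 4 / 3 * c1 * n * ‖A * P + B * x‖ ≤
      4 / 3 * (3 / 4 * c0) * n * (‖A‖ * ‖P‖ + ‖B‖ * (5 / 4 * n)) := by
    gcongr
  have f3 : 4 / 3 * (ε + e * (‖P‖ + ‖x‖)) * n ≤ 4 / 3 * (ε + e * (4 * n + 5 / 4 * n)) * n := by
    gcongr
  have f4 : 0 ≤ c0 * ‖B‖ * n ^ 2 := by positivity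
  have f5 : 0 ≤ ε * n := by positivity
  have f6 : 0 ≤ e * n ^ 2 := by positivity
  nlinarith

section core

variable {ι : Type} [Fintype ι]

/-- the averages of the first chain -/
theorem avg_u (N s2 g ε e t Γ c0 r1 u0 I2 : ℝ) (D D0 : ι → ℂ) (n σ : ι → ℝ) (τ : ι ≃ ι)
    (U : ι → ℂ) (u : ℂ) (hN : 0 < N) (hu : u = mv N U)
    (hI2 : I2 = rv N fun k => n k ^ 2) (hI1 : rv N n ≤ g)
    (hDD : ∀ k, (D k)⁻¹ * (D0 k)⁻¹ = ((n k ^ 2 : ℝ) : ℂ)) (hnτ : ∀ k, n (τ k) = n k)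
    (hστ : ∀ k, σ (τ k) = -σ k) (hσ1 : ∀ k, |σ k| ≤ 1)
    (hU : ∀ k, ‖U k - (D k)⁻¹ * (D0 k)⁻¹ * (((t * σ k : ℝ) : ℂ) + (s2 : ℂ) * u)‖ ≤
      3 * c0 * ‖((t * σ k : ℝ) : ℂ) + (s2 : ℂ) * u‖ * n k ^ 2 + 2 * ε * n k + 2 * e * n k ^ 2)
    (hs : 0 < s2) (ht : 0 < t) (hΓ : 0 < Γ) (hg : 1 ≤ g)
    (hc0 : 0 ≤ c0) (hε : 0 ≤ ε) (he : 0 ≤ e) (hec : e ≤ 9 / 4 * c0 * t)
    (hpole : t * (1 - r1) ≤ Γ * (1 - s2 * I2)) (hsI : s2 * I2 ≤ 1) (hΓg : Γ ≤ 3 * g * s2)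
    (hr1 : r1 = c0 * g * s2 / t) (hr : r1 ≤ 1 / 40) (hu0 : u0 = t / s2) :
    ‖u‖ ≤ u0 * (72 * r1) + 12 * (ε * g ^ 2 / u0) := by
  have hu00 : 0 < u0 := by rw [hu0]; positivity
  have hI20 : 0 ≤ I2 := by rw [hI2]; exact rv_nonneg hN fun k => sq_nonneg _
  have hI2u : I2 ≤ s2⁻¹ := by
    rw [← one_div, le_div_iff₀ hs]
    linarith
  have hn2 := norm_nonneg u
  have h1 : u - (s2 : ℂ) * u * ((I2 : ℝ) : ℂ) = mv N fun k => (U k - (D k)⁻¹ * (D0 k)⁻¹ *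
      (((t * σ k : ℝ) : ℂ) + (s2 : ℂ) * u)) := by
    rw [mv_sub, ← hu]
    congr 1
    have e1 : ∀ k, (D k)⁻¹ * (D0 k)⁻¹ * (((t * σ k : ℝ) : ℂ) + (s2 : ℂ) * u) =
        ((t * σ k * n k ^ 2 : ℝ) : ℂ) + (s2 : ℂ) * u * ((n k ^ 2 : ℝ) : ℂ) := by
      intro k
      rw [hDD]
      push_cast
      ring
    simp only [e1]
    rw [mv_add, mv_mul, mv_odd N τ _ (fun k => ?_), zero_add]
    · congr 1
      rw [hI2]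
      unfold mv rv
      push_cast
      rfl
    · rw [hστ, hnτ]
      push_cast
      ring
  have h2 : ‖u - (s2 : ℂ) * u * ((I2 : ℝ) : ℂ)‖ ≤
      (3 * c0 * (t + s2 * ‖u‖) + 2 * e) * I2 + 2 * ε * g := by
    rw [h1]
    refine (mv_le hN (F := fun k => (3 * c0 * (t + s2 * ‖u‖) + 2 * e) * n k ^ 2 +
      2 * ε * n k) fun k => (hU k).trans ?_).trans ?_
    · have h3 : ‖((t * σ k : ℝ) : ℂ) + (s2 : ℂ) * u‖ ≤ t + s2 * ‖u‖ := by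
        refine (norm_add_le _ _).trans ?_
        rw [Complex.norm_real, Real.norm_eq_abs, abs_mul, abs_of_pos ht, norm_mul,
          Complex.norm_real, Real.norm_eq_abs, abs_of_pos hs]
        have := mul_le_mul_of_nonneg_left (hσ1 k) ht.le
        linarith
      have h4 : 3 * c0 * ‖((t * σ k : ℝ) : ℂ) + (s2 : ℂ) * u‖ * n k ^ 2 ≤
          3 * c0 * (t + s2 * ‖u‖) * n k ^ 2 := by gcongr
      linarith
    · rw [rv_add, rv_mul, rv_mul, ← hI2]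
      have : 2 * ε * rv N n ≤ 2 * ε * g := by gcongr
      linarith
  have h3 : ‖u‖ * (1 - s2 * I2) ≤ ‖u - (s2 : ℂ) * u * ((I2 : ℝ) : ℂ)‖ := by
    have e1 : u - (s2 : ℂ) * u * ((I2 : ℝ) : ℂ) = u * (((1 - s2 * I2) : ℝ) : ℂ) := by
      push_cast
      ring
    rw [e1, norm_mul, Complex.norm_real, Real.norm_eq_abs]
    exact mul_le_mul_of_nonneg_left (le_abs_self _) hn2
  have h4 : (3 * c0 * (t + s2 * ‖u‖) + 2 * e) * I2 ≤ 8 * c0 * u0 + 3 * c0 * ‖u‖ := by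
    calc (3 * c0 * (t + s2 * ‖u‖) + 2 * e) * I2 ≤
        (3 * c0 * (t + s2 * ‖u‖) + 2 * (9 / 4 * c0 * t)) * s2⁻¹ := by gcongr
      _ = 15 / 2 * c0 * (t / s2) + 3 * c0 * ‖u‖ := by field_simp; ring
      _ ≤ _ := by
        rw [← hu0]
        have : 0 ≤ c0 * u0 := by positivity
        linarith
  -- multiply by `Γ`
  have h5 : ‖u‖ * (t * (1 - r1)) ≤ (3 * g * s2) * (8 * c0 * u0 + 3 * c0 * ‖u‖ + 2 * ε * g) := by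
    calc ‖u‖ * (t * (1 - r1)) ≤ ‖u‖ * (Γ * (1 - s2 * I2)) := by gcongr
      _ = Γ * (‖u‖ * (1 - s2 * I2)) := by ring
      _ ≤ Γ * (8 * c0 * u0 + 3 * c0 * ‖u‖ + 2 * ε * g) := by
          apply mul_le_mul_of_nonneg_left _ hΓ.le
          linarith
      _ ≤ _ := by
          apply mul_le_mul_of_nonneg_right hΓg
          positivity
  have h6 : (3 * g * s2) * (8 * c0 * u0 + 3 * c0 * ‖u‖ + 2 * ε * g) =
      t * (24 * r1 * u0 + 9 * r1 * ‖u‖ + 6 * (ε * g ^ 2 / u0)) := by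
    rw [hr1, hu0]
    field_simp
    ring
  rw [h6] at h5
  have h7 : ‖u‖ * (1 - r1) ≤ 24 * r1 * u0 + 9 * r1 * ‖u‖ + 6 * (ε * g ^ 2 / u0) := by
    have h8 : t * (‖u‖ * (1 - r1)) ≤ t * (24 * r1 * u0 + 9 * r1 * ‖u‖ + 6 * (ε * g ^ 2 / u0)) := by
      linarith
    exact le_of_mul_le_mul_left h8 ht
  have h8 : 10 * r1 * ‖u‖ ≤ 1 / 4 * ‖u‖ := by
    have := mul_le_mul_of_nonneg_right hr hn2
    linarith
  have hr10 : 0 ≤ r1 := by rw [hr1]; positivity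
  have h9 : 0 ≤ ε * g ^ 2 / u0 := by positivity
  have h10 : 0 ≤ r1 * u0 := by positivity
  nlinarith

/-- the averages of the second chain -/
theorem avg_p (N s2 g ε e t c0 I2 u0 : ℝ) (D : ι → ℂ) (n σ : ι → ℝ) (τ : ι ≃ ι)
    (U : ι → ℂ) (u : ℂ) (hN : 0 < N) (hu : u = mv N U)
    (hI2 : I2 = rv N fun k => n k ^ 2) (hI1 : rv N n ≤ g)
    (hDτ : ∀ k, D (τ k) = D k)
    (hστ : ∀ k, σ (τ k) = -σ k) (hσ1 : ∀ k, |σ k| ≤ 1)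
    (hU : ∀ k, ‖U k - (D k)⁻¹ * (D k)⁻¹ * (((t * σ k : ℝ) : ℂ) + (s2 : ℂ) * u)‖ ≤
      3 * c0 * ‖((t * σ k : ℝ) : ℂ) + (s2 : ℂ) * u‖ * n k ^ 2 + 2 * ε * n k + 2 * e * n k ^ 2)
    (hs : 0 < s2) (ht : 0 < t)
    (hc0 : 0 ≤ c0) (hε : 0 ≤ ε) (he : 0 ≤ e) (hec : e ≤ 9 / 4 * c0 * t)
    (hg' : s2 * ‖mv N fun k => (D k)⁻¹ * (D k)⁻¹‖ ≤ 1 / 4) (hsI : s2 * I2 ≤ 1)
    (hc : c0 ≤ 1 / 40) (hu0 : u0 = t / s2) :
    ‖u‖ ≤ 16 * c0 * u0 + 4 * (ε * g) := by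
  have hu00 : 0 < u0 := by rw [hu0]; positivity
  have hI20 : 0 ≤ I2 := by rw [hI2]; exact rv_nonneg hN fun k => sq_nonneg _
  have hI2u : I2 ≤ s2⁻¹ := by
    rw [← one_div, le_div_iff₀ hs]
    linarith
  have hn2 := norm_nonneg u
  obtain ⟨G, hG⟩ : ∃ G, G = mv N fun k => (D k)⁻¹ * (D k)⁻¹ := ⟨_, rfl⟩
  rw [← hG] at hg'
  have h1 : u - (s2 : ℂ) * u * G = mv N fun k => (U k - (D k)⁻¹ * (D k)⁻¹ *
      (((t * σ k : ℝ) : ℂ) + (s2 : ℂ) * u)) := by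
    rw [mv_sub, ← hu]
    congr 1
    have e1 : ∀ k, (D k)⁻¹ * (D k)⁻¹ * (((t * σ k : ℝ) : ℂ) + (s2 : ℂ) * u) =
        ((t * σ k : ℝ) : ℂ) * ((D k)⁻¹ * (D k)⁻¹) + (s2 : ℂ) * u * ((D k)⁻¹ * (D k)⁻¹) := by
      intro k
      ring
    simp only [e1]
    rw [mv_add, mv_mul, ← hG, mv_odd N τ _ (fun k => ?_), zero_add]
    rw [hστ, hDτ]
    push_cast
    ring
  have h2 : ‖u - (s2 : ℂ) * u * G‖ ≤
      (3 * c0 * (t + s2 * ‖u‖) + 2 * e) * I2 + 2 * ε * g := by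
    rw [h1]
    refine (mv_le hN (F := fun k => (3 * c0 * (t + s2 * ‖u‖) + 2 * e) * n k ^ 2 +
      2 * ε * n k) fun k => (hU k).trans ?_).trans ?_
    · have h3 : ‖((t * σ k : ℝ) : ℂ) + (s2 : ℂ) * u‖ ≤ t + s2 * ‖u‖ := by
        refine (norm_add_le _ _).trans ?_
        rw [Complex.norm_real, Real.norm_eq_abs, abs_mul, abs_of_pos ht, norm_mul,
          Complex.norm_real, Real.norm_eq_abs, abs_of_pos hs]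
        have := mul_le_mul_of_nonneg_left (hσ1 k) ht.le
        linarith
      have h4 : 3 * c0 * ‖((t * σ k : ℝ) : ℂ) + (s2 : ℂ) * u‖ * n k ^ 2 ≤
          3 * c0 * (t + s2 * ‖u‖) * n k ^ 2 := by gcongr
      linarith
    · rw [rv_add, rv_mul, rv_mul, ← hI2]
      have : 2 * ε * rv N n ≤ 2 * ε * g := by gcongr
      linarith
  have h3 : ‖u‖ * (1 - 1 / 4) ≤ ‖u - (s2 : ℂ) * u * G‖ := by
    have e1 : ‖u‖ ≤ ‖u - (s2 : ℂ) * u * G‖ + ‖(s2 : ℂ) * u * G‖ := by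
      have := norm_add_le (u - (s2 : ℂ) * u * G) ((s2 : ℂ) * u * G)
      rwa [sub_add_cancel] at this
    have e2 : ‖(s2 : ℂ) * u * G‖ ≤ 1 / 4 * ‖u‖ := by
      rw [norm_mul, norm_mul, Complex.norm_real, Real.norm_eq_abs, abs_of_pos hs]
      calc s2 * ‖u‖ * ‖G‖ = (s2 * ‖G‖) * ‖u‖ := by ring
        _ ≤ _ := mul_le_mul_of_nonneg_right hg' hn2
    linarith
  have h4 : (3 * c0 * (t + s2 * ‖u‖) + 2 * e) * I2 ≤ 8 * c0 * u0 + 3 * c0 * ‖u‖ := by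
    calc (3 * c0 * (t + s2 * ‖u‖) + 2 * e) * I2 ≤
        (3 * c0 * (t + s2 * ‖u‖) + 2 * (9 / 4 * c0 * t)) * s2⁻¹ := by gcongr
      _ = 15 / 2 * c0 * (t / s2) + 3 * c0 * ‖u‖ := by field_simp; ring
      _ ≤ _ := by
        rw [← hu0]
        have : 0 ≤ c0 * u0 := by positivity
        linarith
  have h5 : 3 * c0 * ‖u‖ ≤ 1 / 4 * ‖u‖ := by
    have := mul_le_mul_of_nonneg_right hc hn2
    linarith
  linarith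

end core

end Pool.Agent.TH794.QD
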