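import Pool.Agent.TH794.QD.Core5

/-! The self-consistent equations of the chain: the last average. -/

set_option autoImplicit false

open scoped BigOperators Matrix

namespace Pool.Agent.TH794.QD

open Pool.Agent.TH794.LL2

variable {ι : Type} [Fintype ι]

/-- the average of the last chain -/
theorem avg_w (N s2 g ε e t Γ c0 r1 I2 u0 : ℝ) (D D0 : ι → ℂ) (n σ : ι → ℝ) (τ : ι ≃ ι)
    (P W : ι → ℂ) (u p ω : ℂ) (hN : 0 < N) (hω : ω = mv N W)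
    (hI2 : I2 = rv N fun k => n k ^ 2) (hI1 : rv N n ≤ g)
    (hDD : ∀ k, (D k)⁻¹ * (D0 k)⁻¹ = ((n k ^ 2 : ℝ) : ℂ)) (hDn : ∀ k, ‖(D k)⁻¹‖ = n k)
    (hDn0 : ∀ k, ‖(D0 k)⁻¹‖ = n k) (hnΓ : ∀ k, n k ≤ Γ⁻¹) (hn0 : ∀ k, 0 ≤ n k)
    (hDτ : ∀ k, D (τ k) = D k) (hDτ0 : ∀ k, D0 (τ k) = D0 k)
    (hστ : ∀ k, σ (τ k) = -σ k) (hσ1 : ∀ k, |σ k| ≤ 1)
    (hP : ∀ k, ‖P k - (D k)⁻¹ * (D k)⁻¹ * (((t * σ k : ℝ) : ℂ) + (s2 : ℂ) * p)‖ ≤
      3 * c0 * ‖((t * σ k : ℝ) : ℂ) + (s2 : ℂ) * p‖ * n k ^ 2 + 2 * ε * n k + 2 * e * n k ^ 2)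
    (hW : ∀ k, ‖W k - ((D0 k)⁻¹ * ((((t * σ k : ℝ) : ℂ) + (s2 : ℂ) * u) * P k) +
      ((s2 : ℂ) * ω) * ((D0 k)⁻¹ * (D k)⁻¹))‖ ≤ 2 * ε * n k + 8 * e * n k ^ 2 +
      c0 * n k * (‖((t * σ k : ℝ) : ℂ) + (s2 : ℂ) * u‖ * ‖P k‖) +
      3 * c0 * ‖(s2 : ℂ) * ω‖ * n k ^ 2)
    (hs : 0 < s2) (ht : 0 < t) (hΓ : t ≤ Γ) (hg : 1 ≤ g)
    (hc0 : 0 ≤ c0) (hε : 0 ≤ ε) (hε1 : ε ≤ 1) (he : 0 ≤ e) (hec : e ≤ 9 / 4 * c0 * t)
    (hpole : t * (1 - r1) ≤ Γ * (1 - s2 * I2)) (hpole2 : Γ * (1 - s2 * I2) ≤ t * (1 + r1))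
    (hsI : s2 * I2 ≤ 1) (hΓg : Γ ≤ 3 * g * s2)
    (hr1 : r1 = c0 * g * s2 / t) (hr : r1 ≤ 1 / 400) (hu0 : u0 = t / s2) (hu01 : u0 ≤ 1)
    (hsu : s2 * ‖u‖ ≤ t) (hsp : s2 * ‖p‖ ≤ t) :
    ‖ω - ((Γ * t : ℝ) : ℂ) * mv N (fun k => ((σ k ^ 2 * n k ^ 2 : ℝ) : ℂ) * (D k)⁻¹)‖ ≤
      20 * (ε * g ^ 2 / u0) + 150 * r1 * u0 + 2 * (‖u‖ * ‖p‖ / u0) := by
  have hΓ0 : 0 < Γ := ht.trans_le hΓ
  have hu00 : 0 < u0 := by rw [hu0]; positivity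
  have hI20 : 0 ≤ I2 := by rw [hI2]; exact rv_nonneg hN fun k => sq_nonneg _
  have hI2u : I2 ≤ s2⁻¹ := by
    rw [← one_div, le_div_iff₀ hs]
    linarith
  have hr10 : 0 ≤ r1 := by rw [hr1]; positivity
  have hc0r : c0 * g = r1 * u0 := by
    rw [hr1, hu0]
    field_simp
  have hc0r' : c0 ≤ r1 * u0 := by
    rw [← hc0r]
    exact le_mul_of_one_le_right hc0 hg
  have hc0s : c0 ≤ 1 / 400 := by
    have : r1 * u0 ≤ 1 / 400 * 1 := mul_le_mul hr hu01 hu00.le (by norm_num)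
    linarith
  have nu := norm_nonneg u
  have np := norm_nonneg p
  have nω := norm_nonneg ω
  -- the third moments
  have hI3 : rv N (fun k => n k ^ 3) ≤ Γ⁻¹ * I2 := by
    rw [hI2, ← rv_mul]
    refine rv_mono hN fun k => ?_
    have := mul_le_mul_of_nonneg_right (hnΓ k) (sq_nonneg (n k))
    calc n k ^ 3 = n k * n k ^ 2 := by ring
      _ ≤ _ := this
  have hI30 : 0 ≤ rv N (fun k => n k ^ 3) := rv_nonneg hN fun k => by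
    have := hn0 k
    positivity
  have hA : ∀ (v : ℂ), s2 * ‖v‖ ≤ t → ∀ k, ‖((t * σ k : ℝ) : ℂ) + (s2 : ℂ) * v‖ ≤ 2 * t := by
    intro v hv k
    refine (norm_add_le _ _).trans ?_
    rw [Complex.norm_real, Real.norm_eq_abs, abs_mul, abs_of_pos ht, norm_mul,
      Complex.norm_real, Real.norm_eq_abs, abs_of_pos hs]
    have := mul_le_mul_of_nonneg_left (hσ1 k) ht.le
    linarith
  -- the error of `P`
  have hPe : ∀ k, ‖P k - (D k)⁻¹ * (D k)⁻¹ * (((t * σ k : ℝ) : ℂ) + (s2 : ℂ) * p)‖ ≤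
      21 / 2 * c0 * t * n k ^ 2 + 2 * ε * n k := by
    intro k
    refine (hP k).trans ?_
    have h1 : 3 * c0 * ‖((t * σ k : ℝ) : ℂ) + (s2 : ℂ) * p‖ * n k ^ 2 ≤
        3 * c0 * (2 * t) * n k ^ 2 := by
      have := hA p hsp k
      gcongr
    have h2 : 2 * e * n k ^ 2 ≤ 2 * (9 / 4 * c0 * t) * n k ^ 2 := by gcongr
    linarith
  have hPn : ∀ k, ‖P k‖ ≤ 3 * t * n k ^ 2 + 2 * ε * n k := by
    intro k
    have h1 := hPe k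
    have h2 : ‖P k‖ ≤ ‖P k - (D k)⁻¹ * (D k)⁻¹ * (((t * σ k : ℝ) : ℂ) + (s2 : ℂ) * p)‖ +
        ‖(D k)⁻¹ * (D k)⁻¹ * (((t * σ k : ℝ) : ℂ) + (s2 : ℂ) * p)‖ := by
      have := norm_add_le (P k - (D k)⁻¹ * (D k)⁻¹ * (((t * σ k : ℝ) : ℂ) + (s2 : ℂ) * p))
        ((D k)⁻¹ * (D k)⁻¹ * (((t * σ k : ℝ) : ℂ) + (s2 : ℂ) * p))
      rwa [sub_add_cancel] at this
    have h3 : ‖(D k)⁻¹ * (D k)⁻¹ * (((t * σ k : ℝ) : ℂ) + (s2 : ℂ) * p)‖ ≤ 2 * t * n k ^ 2 := by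
      rw [norm_mul, norm_mul, hDn k]
      calc n k * n k * ‖((t * σ k : ℝ) : ℂ) + (s2 : ℂ) * p‖ ≤ n k * n k * (2 * t) := by
            have := hA p hsp k
            have := hn0 k
            gcongr
        _ = _ := by ring
    have h4 : 21 / 2 * c0 * t * n k ^ 2 ≤ 1 * t * n k ^ 2 := by
      have : 21 / 2 * c0 ≤ 1 := by linarith
      gcongr
    linarith
  -- the equation
  obtain ⟨Y, hY⟩ : ∃ Y, Y = mv N (fun k => ((σ k ^ 2 * n k ^ 2 : ℝ) : ℂ) * (D k)⁻¹) := ⟨_, rfl⟩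
  obtain ⟨Z, hZ⟩ : ∃ Z, Z = mv N (fun k => ((n k ^ 2 : ℝ) : ℂ) * (D k)⁻¹) := ⟨_, rfl⟩
  obtain ⟨X1, hX1⟩ : ∃ X1, X1 = mv N (fun k => (W k - ((D0 k)⁻¹ *
    ((((t * σ k : ℝ) : ℂ) + (s2 : ℂ) * u) * P k) +
      ((s2 : ℂ) * ω) * ((D0 k)⁻¹ * (D k)⁻¹)))) := ⟨_, rfl⟩
  obtain ⟨X2, hX2⟩ : ∃ X2, X2 = mv N (fun k => (D0 k)⁻¹ *
    ((((t * σ k : ℝ) : ℂ) + (s2 : ℂ) * u) * (P k - (D k)⁻¹ * (D k)⁻¹ *
      (((t * σ k : ℝ) : ℂ) + (s2 : ℂ) * p)))) := ⟨_, rfl⟩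
  rw [← hY]
  have hmain : ω * (((1 - s2 * I2) : ℝ) : ℂ) = ((t ^ 2 : ℝ) : ℂ) * Y +
      (s2 : ℂ) ^ 2 * u * p * Z + X2 + X1 := by
    have e1 : mv N (fun k => ((D0 k)⁻¹ * (D k)⁻¹)) = ((I2 : ℝ) : ℂ) := by
      rw [hI2]
      unfold mv rv
      push_cast
      congr 1
      refine Finset.sum_congr rfl fun k _ => ?_
      rw [mul_comm, hDD]
      push_cast
      rfl
    have e2 : mv N (fun k => (D0 k)⁻¹ * ((((t * σ k : ℝ) : ℂ) + (s2 : ℂ) * u) * P k)) =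
        ω - (s2 : ℂ) * ω * ((I2 : ℝ) : ℂ) - X1 := by
      rw [hX1, mv_sub, ← hω, mv_add, mv_mul, e1]
      ring
    have e3 : ∀ k, (D0 k)⁻¹ * ((((t * σ k : ℝ) : ℂ) + (s2 : ℂ) * u) * P k) =
        ((((t ^ 2 : ℝ) : ℂ) * (((σ k ^ 2 * n k ^ 2 : ℝ) : ℂ) * (D k)⁻¹) +
        (t * (s2 : ℂ) * (u + p)) * (((σ k * n k ^ 2 : ℝ) : ℂ) * (D k)⁻¹)) +
        ((s2 : ℂ) ^ 2 * u * p) * (((n k ^ 2 : ℝ) : ℂ) * (D k)⁻¹)) +
        (D0 k)⁻¹ *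
        ((((t * σ k : ℝ) : ℂ) + (s2 : ℂ) * u) * (P k - (D k)⁻¹ * (D k)⁻¹ *
        (((t * σ k : ℝ) : ℂ) + (s2 : ℂ) * p))) := by
      intro k
      have h1 := hDD k
      push_cast at h1 ⊢
      linear_combination ((D k)⁻¹ * (t * σ k + s2 * u) * (t * σ k + s2 * p)) * h1
    have e4 : mv N (fun k => (D0 k)⁻¹ * ((((t * σ k : ℝ) : ℂ) + (s2 : ℂ) * u) * P k)) =
        ((t ^ 2 : ℝ) : ℂ) * Y + (s2 : ℂ) ^ 2 * u * p * Z + X2 := by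
      simp only [e3]
      rw [mv_add, mv_add, mv_add, mv_mul, mv_mul, mv_mul, ← hY, ← hZ, ← hX2,
        mv_odd N τ (fun k => ((σ k * n k ^ 2 : ℝ) : ℂ) * (D k)⁻¹) (fun k => ?_)]
      · ring
      · rw [hστ, hDτ]
        have : n (τ k) = n k := by rw [← hDn, hDτ, hDn]
        rw [this]
        push_cast
        ring
    have e5 := e4.symm.trans e2
    push_cast at e5 ⊢
    linear_combination -e5
  -- the bounds
  have bX1 : ‖X1‖ ≤ 2 * ε * g + 28 * c0 * u0 + 3 * c0 * ‖ω‖ := by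
    rw [hX1]
    refine (mv_le hN (F := fun k => (2 * ε) * n k + (8 * e + 4 * c0 * t * ε +
      3 * c0 * (s2 * ‖ω‖)) * n k ^ 2 + (6 * c0 * t ^ 2) * n k ^ 3) fun k => (hW k).trans ?_).trans
      ?_
    · have h1 := hA u hsu k
      have h2 := hPn k
      have h3 := hn0 k
      have h4 : c0 * n k * (‖((t * σ k : ℝ) : ℂ) + (s2 : ℂ) * u‖ * ‖P k‖) ≤
          c0 * n k * ((2 * t) * (3 * t * n k ^ 2 + 2 * ε * n k)) := by gcongr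
      rw [norm_mul (s2 : ℂ) ω, Complex.norm_real, Real.norm_eq_abs, abs_of_pos hs]
      nlinarith
    · rw [rv_add, rv_add, rv_mul, rv_mul, rv_mul, ← hI2]
      have h1 : 2 * ε * rv N n ≤ 2 * ε * g := by gcongr
      have h2 : (8 * e + 4 * c0 * t * ε + 3 * c0 * (s2 * ‖ω‖)) * I2 ≤
          22 * c0 * u0 + 3 * c0 * ‖ω‖ := by
        calc (8 * e + 4 * c0 * t * ε + 3 * c0 * (s2 * ‖ω‖)) * I2 ≤
            (8 * (9 / 4 * c0 * t) + 4 * c0 * t * 1 + 3 * c0 * (s2 * ‖ω‖)) * s2⁻¹ := by gcongr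
          _ = 22 * c0 * (t / s2) + 3 * c0 * ‖ω‖ := by field_simp; ring
          _ = _ := by rw [hu0]
      have h3 : 6 * c0 * t ^ 2 * rv N (fun k => n k ^ 3) ≤ 6 * c0 * u0 := by
        calc 6 * c0 * t ^ 2 * rv N (fun k => n k ^ 3) ≤ 6 * c0 * t ^ 2 * (t⁻¹ * s2⁻¹) := by
              apply mul_le_mul_of_nonneg_left _ (by positivity)
              refine hI3.trans ?_
              have : Γ⁻¹ ≤ t⁻¹ := inv_anti₀ ht hΓ
              gcongr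
          _ = 6 * c0 * (t / s2) := by field_simp
          _ = _ := by rw [hu0]
      linarith
  have bX2 : ‖X2‖ ≤ 21 * c0 * t * u0 * Γ⁻¹ + 4 * ε * u0 := by
    rw [hX2]
    refine (mv_le hN (F := fun k => (21 * c0 * t ^ 2) * n k ^ 3 + (4 * t * ε) * n k ^ 2)
      fun k => ?_).trans ?_
    · rw [norm_mul, norm_mul, hDn0 k]
      have h1 := hA u hsu k
      have h2 := hPe k
      have h3 := hn0 k
      calc n k * (‖((t * σ k : ℝ) : ℂ) + (s2 : ℂ) * u‖ * ‖P k - (D k)⁻¹ * (D k)⁻¹ *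
            (((t * σ k : ℝ) : ℂ) + (s2 : ℂ) * p)‖) ≤
          n k * ((2 * t) * (21 / 2 * c0 * t * n k ^ 2 + 2 * ε * n k)) := by gcongr
        _ = _ := by ring
    · rw [rv_add, rv_mul, rv_mul, ← hI2]
      have h1 : 21 * c0 * t ^ 2 * rv N (fun k => n k ^ 3) ≤ 21 * c0 * t * u0 * Γ⁻¹ := by
        calc 21 * c0 * t ^ 2 * rv N (fun k => n k ^ 3) ≤ 21 * c0 * t ^ 2 * (Γ⁻¹ * s2⁻¹) := by
              apply mul_le_mul_of_nonneg_left _ (by positivity)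
              refine hI3.trans ?_
              gcongr
          _ = 21 * c0 * t * (t / s2) * Γ⁻¹ := by field_simp
          _ = _ := by rw [hu0]
      have h2 : 4 * t * ε * I2 ≤ 4 * ε * u0 := by
        calc 4 * t * ε * I2 ≤ 4 * t * ε * s2⁻¹ := by gcongr
          _ = 4 * ε * (t / s2) := by ring
          _ = _ := by rw [hu0]
      linarith
  have bZ : ‖Z‖ ≤ Γ⁻¹ * s2⁻¹ := by
    rw [hZ]
    refine (mv_le hN (F := fun k => n k ^ 3) fun k => ?_).trans (hI3.trans ?_)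
    · rw [norm_mul, hDn, Complex.norm_real, Real.norm_of_nonneg (sq_nonneg _)]
      exact le_of_eq (by ring)
    · gcongr
  have bY : ‖Y‖ ≤ Γ⁻¹ * s2⁻¹ := by
    rw [hY]
    refine (mv_le hN (F := fun k => n k ^ 3) fun k => ?_).trans (hI3.trans ?_)
    · have h1 : σ k ^ 2 ≤ 1 := by
        rw [← sq_abs]
        exact pow_le_one₀ (abs_nonneg _) (hσ1 k)
      have h3 := hn0 k
      rw [norm_mul, hDn, Complex.norm_real, Real.norm_of_nonneg (by positivity)]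
      calc σ k ^ 2 * n k ^ 2 * n k ≤ 1 * n k ^ 2 * n k := by gcongr
        _ = _ := by ring
    · gcongr
  -- multiply by `Γ / t`
  obtain ⟨e', he'⟩ : ∃ e', e' = ε * g ^ 2 / u0 := ⟨_, rfl⟩
  obtain ⟨q, hq⟩ : ∃ q, q = ‖u‖ * ‖p‖ / u0 := ⟨_, rfl⟩
  rw [← he', ← hq]
  have he'0 : 0 ≤ e' := by rw [he']; positivity
  have hq0 : 0 ≤ q := by rw [hq]; positivity
  have hΓt : Γ / t ≤ 3 * g / u0 := by
    rw [hu0]
    calc Γ / t ≤ (3 * g * s2) / t := div_le_div_of_nonneg_right hΓg ht.le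
      _ = _ := by field_simp
  have hΓt0 : 0 ≤ Γ / t := by positivity
  have k1 : ‖ω * ((Γ * (1 - s2 * I2) / t : ℝ) : ℂ) - ((Γ * t : ℝ) : ℂ) * Y‖ ≤
      18 * e' + 105 * r1 * u0 + 9 * r1 * ‖ω‖ + q := by
    have e1 : ω * ((Γ * (1 - s2 * I2) / t : ℝ) : ℂ) - ((Γ * t : ℝ) : ℂ) * Y =
        ((Γ / t : ℝ) : ℂ) * ((s2 : ℂ) ^ 2 * u * p * Z + X2 + X1) := by
      have htc : (t : ℂ) ≠ 0 := by exact_mod_cast ht.ne'
      have h1 := congrArg (fun x => ((Γ / t : ℝ) : ℂ) * x) hmain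
      have h2 : ((Γ / t : ℝ) : ℂ) * (((t ^ 2 : ℝ) : ℂ) * Y) = ((Γ * t : ℝ) : ℂ) * Y := by
        push_cast
        field_simp
      have h3 : ω * ((Γ * (1 - s2 * I2) / t : ℝ) : ℂ) =
          ((Γ / t : ℝ) : ℂ) * (ω * (((1 - s2 * I2) : ℝ) : ℂ)) := by
        push_cast
        field_simp
      rw [h3, h1, ← h2]
      ring
    rw [e1, norm_mul, Complex.norm_real, Real.norm_of_nonneg hΓt0]
    have h1 : ‖(s2 : ℂ) ^ 2 * u * p * Z + X2 + X1‖ ≤ s2 ^ 2 * ‖u‖ * ‖p‖ * (Γ⁻¹ * s2⁻¹) +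
        (21 * c0 * t * u0 * Γ⁻¹ + 4 * ε * u0) + (2 * ε * g + 28 * c0 * u0 + 3 * c0 * ‖ω‖) := by
      refine (norm_add_le _ _).trans (add_le_add ((norm_add_le _ _).trans
        (add_le_add ?_ bX2)) bX1)
      rw [norm_mul, norm_mul, norm_mul, norm_pow, Complex.norm_real, Real.norm_eq_abs,
        abs_of_pos hs]
      gcongr
    refine (mul_le_mul_of_nonneg_left h1 hΓt0).trans ?_
    have g1 : Γ / t * (s2 ^ 2 * ‖u‖ * ‖p‖ * (Γ⁻¹ * s2⁻¹)) = q := by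
      rw [hq, hu0]
      field_simp
    have g2 : Γ / t * (21 * c0 * t * u0 * Γ⁻¹) = 21 * c0 * u0 := by
      field_simp
    have g3 : 21 * c0 * u0 ≤ 21 * r1 * u0 := by
      have : c0 ≤ r1 := hc0r'.trans (mul_le_of_le_one_right hr10 hu01)
      gcongr
    have g4 : Γ / t * (4 * ε * u0) ≤ 12 * e' := by
      calc Γ / t * (4 * ε * u0) ≤ 3 * g / u0 * (4 * ε * u0) := by gcongr
        _ = 12 * (ε * g) := by field_simp; ring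
        _ ≤ 12 * e' := by
            rw [he', mul_le_mul_iff_right₀ (by norm_num), le_div_iff₀ hu00]
            calc ε * g * u0 ≤ ε * g * 1 := by gcongr
              _ ≤ ε * g * g := by gcongr
              _ = _ := by ring
    have g5 : Γ / t * (2 * ε * g) ≤ 6 * e' := by
      calc Γ / t * (2 * ε * g) ≤ 3 * g / u0 * (2 * ε * g) := by gcongr
        _ = 6 * e' := by
          rw [he']
          ring
    have g6 : Γ / t * (28 * c0 * u0 + 3 * c0 * ‖ω‖) ≤ 84 * r1 * u0 + 9 * r1 * ‖ω‖ := by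
      calc Γ / t * (28 * c0 * u0 + 3 * c0 * ‖ω‖) ≤ 3 * g / u0 * (28 * c0 * u0 + 3 * c0 * ‖ω‖) := by
            gcongr
        _ = (c0 * g) * (84 + 9 * ‖ω‖ / u0) := by field_simp; ring
        _ = (r1 * u0) * (84 + 9 * ‖ω‖ / u0) := by rw [hc0r]
        _ = _ := by field_simp
    nlinarith
  have k2 : ‖ω - ω * ((Γ * (1 - s2 * I2) / t : ℝ) : ℂ)‖ ≤ r1 * ‖ω‖ := by
    have e1 : ω - ω * ((Γ * (1 - s2 * I2) / t : ℝ) : ℂ) =
        ω * ((1 - Γ * (1 - s2 * I2) / t : ℝ) : ℂ) := by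
      push_cast
      ring
    rw [e1, norm_mul, Complex.norm_real, Real.norm_eq_abs, mul_comm]
    apply mul_le_mul_of_nonneg_right _ nω
    rw [abs_le]
    constructor
    · have : Γ * (1 - s2 * I2) / t ≤ 1 + r1 := by
        rw [div_le_iff₀ ht]
        linarith
      linarith
    · have : 1 - r1 ≤ Γ * (1 - s2 * I2) / t := by
        rw [le_div_iff₀ ht]
        linarith
      linarith
  have k3 : ‖((Γ * t : ℝ) : ℂ) * Y‖ ≤ u0 := by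
    rw [norm_mul, Complex.norm_real, Real.norm_of_nonneg (by positivity)]
    calc Γ * t * ‖Y‖ ≤ Γ * t * (Γ⁻¹ * s2⁻¹) := by gcongr
      _ = t / s2 := by field_simp
      _ = u0 := hu0.symm
  have k4 : ‖ω - ((Γ * t : ℝ) : ℂ) * Y‖ ≤ 18 * e' + 105 * r1 * u0 + 10 * r1 * ‖ω‖ + q := by
    have e1 : ω - ((Γ * t : ℝ) : ℂ) * Y = (ω - ω * ((Γ * (1 - s2 * I2) / t : ℝ) : ℂ)) +
        (ω * ((Γ * (1 - s2 * I2) / t : ℝ) : ℂ) - ((Γ * t : ℝ) : ℂ) * Y) := by ring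
    rw [e1]
    refine (norm_add_le _ _).trans ?_
    linarith
  have k5 : ‖ω‖ ≤ ‖ω - ((Γ * t : ℝ) : ℂ) * Y‖ + ‖((Γ * t : ℝ) : ℂ) * Y‖ := by
    have := norm_add_le (ω - ((Γ * t : ℝ) : ℂ) * Y) (((Γ * t : ℝ) : ℂ) * Y)
    rwa [sub_add_cancel] at this
  have k6 : 10 * r1 * ‖ω‖ ≤ 1 / 40 * ‖ω‖ := by
    have := mul_le_mul_of_nonneg_right hr nω
    linarith
  have k7 : 105 * r1 * u0 ≤ 105 / 400 * u0 := by
    have := mul_le_mul_of_nonneg_right hr hu00.le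
    linarith
  have k8 : ‖ω‖ ≤ 2 * u0 + 20 * e' + 2 * q := by linarith
  have k9 : 10 * r1 * ‖ω‖ ≤ 10 * r1 * (2 * u0) + 1 / 40 * (20 * e' + 2 * q) := by
    have h1 : 10 * r1 * ‖ω‖ ≤ 10 * r1 * (2 * u0 + (20 * e' + 2 * q)) := by
      apply mul_le_mul_of_nonneg_left _ (by positivity)
      linarith
    have h2 : 10 * r1 * (20 * e' + 2 * q) ≤ 1 / 40 * (20 * e' + 2 * q) := by
      apply mul_le_mul_of_nonneg_right _ (by positivity)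
      linarith
    linarith
  have k10 : 0 ≤ r1 * u0 := by positivity
  linarith

/-- the imaginary part -/
theorem im_y (N Γ t : ℝ) (D : ι → ℂ) (n σ : ι → ℝ) (hΓ : 0 < Γ)
    (hD : ∀ k, D k ≠ 0) (hDn : ∀ k, ‖(D k)⁻¹‖ = n k) (hDi : ∀ k, (D k).im = -Γ) :
    (((Γ * t : ℝ) : ℂ) * mv N (fun k => ((σ k ^ 2 * n k ^ 2 : ℝ) : ℂ) * (D k)⁻¹)).im =
      t / 2 * ((mv N (fun k => ((σ k ^ 2 : ℝ) : ℂ) * (D k)⁻¹)).im / Γ -
        (mv N (fun k => ((σ k ^ 2 : ℝ) : ℂ) * ((D k)⁻¹ * (D k)⁻¹))).re) := by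
  have h0 : ∀ k, Complex.normSq (D k) * n k ^ 2 = 1 := by
    intro k
    rw [← hDn k, norm_inv, Complex.normSq_eq_norm_sq]
    have : ‖D k‖ ≠ 0 := norm_ne_zero_iff.2 (hD k)
    field_simp
  have h1 : ∀ k, ((D k)⁻¹).im = Γ * n k ^ 2 := by
    intro k
    rw [Complex.inv_im, hDi]
    have h2 := h0 k
    have h3 : Complex.normSq (D k) ≠ 0 := by
      intro h
      rw [h, zero_mul] at h2
      exact zero_ne_one h2
    rw [neg_neg, div_eq_iff h3]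
    linear_combination (-Γ) * h2
  have h2 : ∀ k, ((D k)⁻¹ * (D k)⁻¹).re = n k ^ 2 - 2 * (Γ * n k ^ 2) ^ 2 := by
    intro k
    have h3 : ((D k)⁻¹).re ^ 2 + ((D k)⁻¹).im ^ 2 = n k ^ 2 := by
      rw [← hDn k, ← Complex.normSq_eq_norm_sq, Complex.normSq_apply]
      ring
    rw [Complex.mul_re, ← h1 k]
    linear_combination h3
  rw [Complex.im_ofReal_mul, mv_im, mv_im, mv_re]
  unfold rv
  have e1 : ∀ k, (((σ k ^ 2 * n k ^ 2 : ℝ) : ℂ) * (D k)⁻¹).im =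
      σ k ^ 2 * n k ^ 2 * (Γ * n k ^ 2) := by
    intro k
    rw [Complex.im_ofReal_mul, h1]
  have e2 : ∀ k, (((σ k ^ 2 : ℝ) : ℂ) * (D k)⁻¹).im = σ k ^ 2 * (Γ * n k ^ 2) := by
    intro k
    rw [Complex.im_ofReal_mul, h1]
  have e3 : ∀ k, (((σ k ^ 2 : ℝ) : ℂ) * ((D k)⁻¹ * (D k)⁻¹)).re =
      σ k ^ 2 * (n k ^ 2 - 2 * (Γ * n k ^ 2) ^ 2) := by
    intro k
    rw [Complex.re_ofReal_mul, h2]
  simp only [e1, e2, e3]
  rw [mul_div_assoc, Finset.sum_div, ← mul_sub, ← Finset.sum_sub_distrib, Finset.mul_sum,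
    Finset.mul_sum, Finset.mul_sum, Finset.mul_sum]
  refine Finset.sum_congr rfl fun k _ => ?_
  field_simp
  ring

end Pool.Agent.TH794.QD
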