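import Pool.Agent.TH794.QD.Core6

/-! The self-consistent equations of the chain: assembly. -/

set_option autoImplicit false

open scoped BigOperators Matrix

namespace Pool.Agent.TH794.QD

open Pool.Agent.TH794.LL2
open Pool.Agent.TH794.FG (core3)

theorem core7 {ι : Type} [Fintype ι] (N δ η s2 g ε e1 E c0 : ℝ) (a J : ι → ℝ) (h : ι → ι → ℝ)
    (S : ℝ) (σ : ι → ℝ) (τ : ι ≃ ι) (M U P W : ι → ℂ) (hN : 0 < N) (hδ : 0 < δ) (hη : 0 < η)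
    (hs : 0 < s2) (hε0 : 0 ≤ ε) (he0 : 0 ≤ e1) (he1 : e1 ≤ 1 / 4) (hg : 1 ≤ g)
    (hJJ : ∀ k, J k = Real.sqrt ((a k - E) ^ 2 + δ ^ 2))
    (hM : ∀ k, ‖M k‖ ≤ η⁻¹) (hU : ∀ k, ‖U k‖ ≤ 3 / η) (hP : ∀ k, ‖P k‖ ≤ 3 / η)
    (hW : ∀ k, ‖W k‖ ≤ 3 / η)
    (hh : ∀ k p, h k p ≤ 1) (hS : ∀ k, ∑ p, (1 - h k p) = S)
    (hS2 : s2 * S ≤ e1 * (η ^ 2 * δ ^ 2) * N)
    (eqM : ∀ k, ‖((((a k - E) / J k : ℝ) : ℂ) - (η : ℂ) * Complex.I) * M k -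
      (s2 : ℂ) * (∑ p, ((N⁻¹ * h k p * (J k * J p)⁻¹ : ℝ) : ℂ) * M p) * M k - 1‖ ≤ ε)
    (eqU : ∀ k, ‖((((a k - E) / J k : ℝ) : ℂ) + (η : ℂ) * Complex.I) * U k -
      ((η * (σ k * δ / J k) : ℝ) : ℂ) * M k -
      (s2 : ℂ) * ((starRingEnd ℂ) (∑ p, ((N⁻¹ * h k p * (J k * J p)⁻¹ : ℝ) : ℂ) * M p) * U k +
        (∑ p, ((N⁻¹ * h k p * (J k * J p)⁻¹ : ℝ) : ℂ) * U p) * M k)‖ ≤ ε)
    (eqP : ∀ k, ‖((((a k - E) / J k : ℝ) : ℂ) - (η : ℂ) * Complex.I) * P k -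
      ((η * (σ k * δ / J k) : ℝ) : ℂ) * M k -
      (s2 : ℂ) * ((∑ p, ((N⁻¹ * h k p * (J k * J p)⁻¹ : ℝ) : ℂ) * M p) * P k +
        (∑ p, ((N⁻¹ * h k p * (J k * J p)⁻¹ : ℝ) : ℂ) * P p) * M k)‖ ≤ ε)
    (eqW : ∀ k, ‖((((a k - E) / J k : ℝ) : ℂ) + (η : ℂ) * Complex.I) * W k -
      ((η * (σ k * δ / J k) : ℝ) : ℂ) * P k -
      (s2 : ℂ) * ((starRingEnd ℂ) (∑ p, ((N⁻¹ * h k p * (J k * J p)⁻¹ : ℝ) : ℂ) * M p) * W k +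
        (∑ p, ((N⁻¹ * h k p * (J k * J p)⁻¹ : ℝ) : ℂ) * U p) * P k +
        (∑ p, ((N⁻¹ * h k p * (J k * J p)⁻¹ : ℝ) : ℂ) * W p) * M k)‖ ≤ ε)
    (haτ : ∀ k, a (τ k) = a k) (hστ : ∀ k, σ (τ k) = -σ k) (hσ1 : ∀ k, |σ k| ≤ 1)
    (m : ℂ) (hm : m = mv N fun k => (((J k)⁻¹ : ℝ) : ℂ) * M k) (hmim : 0 ≤ m.im)
    (hmn : ‖m‖ ≤ 2 * g) (D : ι → ℂ)
    (hD : ∀ k, D k = ((a k - E : ℝ) : ℂ) - (s2 : ℂ) * m - ((η * δ : ℝ) : ℂ) * Complex.I)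
    (hc0 : c0 = 4 / 3 * (ε + e1 + (2 * η + 8 * s2 ^ 2 * g ^ 2 / δ ^ 2)))
    (hmg : ‖m - mv N (fun k => (D k)⁻¹)‖ ≤ c0 * g)
    (hI1 : ∀ E' : ℝ, ∑ k, (Real.sqrt ((a k - E') ^ 2 + (η * δ) ^ 2))⁻¹ ≤ g * N)
    (r1 r2 u0 : ℝ) (hr1 : r1 = c0 * g * s2 / (η * δ)) (hr2 : r2 = ε * g ^ 2 * s2 ^ 2 / (η * δ) ^ 2)
    (hr1s : r1 ≤ 1 / 2000) (hr2s : r2 ≤ 1 / 2000) (hts : η * δ ≤ s2) (hu0 : u0 = η * δ / s2)
    (hg' : s2 * ‖mv N (fun k => (D k)⁻¹ * (D k)⁻¹)‖ ≤ 1 / 4) :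
    |(mv N fun k => (((J k)⁻¹ : ℝ) : ℂ) * W k).im - η * δ / 2 *
      ((mv N (fun k => ((σ k ^ 2 : ℝ) : ℂ) * (D k)⁻¹)).im / (η * δ + s2 * m.im))| ≤
      200 * u0 * (r1 + r2) +
        η * δ / 2 * ‖mv N (fun k => ((σ k ^ 2 : ℝ) : ℂ) * ((D k)⁻¹ * (D k)⁻¹))‖ := by
  obtain ⟨t, ht⟩ : ∃ t, t = η * δ := ⟨_, rfl⟩
  have ht0 : 0 < t := by rw [ht]; positivity
  obtain ⟨Γ, hΓ⟩ : ∃ Γ, Γ = t + s2 * m.im := ⟨_, rfl⟩
  have hsm : 0 ≤ s2 * m.im := mul_nonneg hs.le hmim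
  have hΓt : t ≤ Γ := by rw [hΓ]; linarith
  have hΓ0 : 0 < Γ := ht0.trans_le hΓt
  have hJ : ∀ k, δ ≤ J k := by
    intro k
    rw [hJJ]
    exact Real.le_sqrt_of_sq_le (by linarith [sq_nonneg (a k - E)])
  have hJ0 : ∀ k, 0 < J k := fun k => hδ.trans_le (hJ k)
  have hη3 : 0 ≤ 3 / η := by positivity
  have hc00 : 0 ≤ c0 := by rw [hc0]; positivity
  obtain ⟨c1, hc1⟩ : ∃ c1, c1 = e1 + (2 * η + 8 * s2 ^ 2 * g ^ 2 / δ ^ 2) := ⟨_, rfl⟩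
  have hc10 : 0 ≤ c1 := by rw [hc1]; positivity
  have hc1c : c1 ≤ 3 / 4 * c0 := by
    rw [hc0, hc1]
    linarith
  have hu00 : 0 < u0 := by rw [hu0]; positivity
  have hu01 : u0 ≤ 1 := by rw [hu0, div_le_one hs]; exact hts
  have hr10 : 0 ≤ r1 := by rw [hr1]; positivity
  have hr20 : 0 ≤ r2 := by rw [hr2]; positivity
  have hc0r : c0 * g = r1 * u0 := by
    rw [hr1, hu0]
    field_simp
  have hc0r' : c0 ≤ r1 * u0 := by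
    rw [← hc0r]
    exact le_mul_of_one_le_right hc00 hg
  have hc0s : c0 ≤ 1 / 2000 := by
    have : r1 * u0 ≤ 1 / 2000 * 1 := mul_le_mul hr1s hu01 hu00.le (by norm_num)
    linarith
  have hεr : ε * g ^ 2 = r2 * u0 ^ 2 := by
    rw [hr2, hu0]
    field_simp
  have hεr' : ε * g ≤ r2 * u0 ^ 2 := by
    rw [← hεr]
    calc ε * g = ε * g * 1 := by ring
      _ ≤ ε * g * g := by gcongr
      _ = _ := by ring
  have hε1 : ε ≤ 1 := by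
    have h1 : ε ≤ c0 := by
      rw [hc0]
      have : 0 ≤ 8 * s2 ^ 2 * g ^ 2 / δ ^ 2 := by positivity
      linarith
    linarith
  -- the self-consistent terms
  obtain ⟨u, hu⟩ : ∃ u, u = mv N fun k => (((J k)⁻¹ : ℝ) : ℂ) * U k := ⟨_, rfl⟩
  obtain ⟨p, hp⟩ : ∃ p, p = mv N fun k => (((J k)⁻¹ : ℝ) : ℂ) * P k := ⟨_, rfl⟩
  obtain ⟨ω, hω⟩ : ∃ ω, ω = mv N fun k => (((J k)⁻¹ : ℝ) : ℂ) * W k := ⟨_, rfl⟩
  have pM := psi_eq N δ η s2 e1 η⁻¹ J h S M hN hδ hs.le hJ hM (by positivity) hh hS hS2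
  have pU := psi_eq N δ η s2 e1 (3 / η) J h S U hN hδ hs.le hJ hU hη3 hh hS hS2
  have pP := psi_eq N δ η s2 e1 (3 / η) J h S P hN hδ hs.le hJ hP hη3 hh hS hS2
  have pW := psi_eq N δ η s2 e1 (3 / η) J h S W hN hδ hs.le hJ hW hη3 hh hS hS2
  rw [← hm] at pM
  rw [← hu] at pU
  rw [← hp] at pP
  rw [← hω] at pW ⊢
  have hsc : e1 * (η ^ 2 * δ) * η⁻¹ = e1 * (η * δ) := by field_simp
  have hsc3 : e1 * (η ^ 2 * δ) * (3 / η) = 3 * e1 * t := by rw [ht]; field_simp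
  -- the facts
  obtain ⟨n, hn⟩ : ∃ n : ι → ℝ, n = fun k => ‖D k‖⁻¹ := ⟨_, rfl⟩
  have hnk : ∀ k, n k = ‖D k‖⁻¹ := fun k => by rw [hn]
  have hx : ∀ k, ‖(((J k)⁻¹ : ℝ) : ℂ) * M k - (D k)⁻¹‖ ≤ c0 * n k := by
    intro k
    have := core3 N δ η s2 g ε e1 E a J h S M hN hδ hη hs.le hε0 he0 he1 hJJ hM hh hS hS2 eqM m
      (by rw [hm]; unfold mv; simp only [Complex.ofReal_inv]) hmim hmn k
    rw [← hD, ← hc0, ← hnk] at this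
    exact this
  have hfacts : ∀ k, ∃ DJ : ℂ, ∃ l : ℂ, ‖(s2 : ℂ) * l‖ ≤ e1 * (η * δ) ∧
      ∑ p, ((N⁻¹ * h k p * (J k * J p)⁻¹ : ℝ) : ℂ) * M p = (((J k)⁻¹ : ℝ) : ℂ) * (m - l) ∧
      DJ = ((a k - E : ℝ) : ℂ) - ((η * J k : ℝ) : ℂ) * Complex.I - (s2 : ℂ) * m +
        (s2 : ℂ) * l ∧ Γ ≤ ‖D k‖ ∧ 3 / 4 * ‖D k‖ ≤ ‖DJ‖ ∧ ‖DJ - D k‖ ≤ c1 * ‖D k‖ ∧
      (D k).im = -Γ ∧
      Real.sqrt ((a k - (E + s2 * m.re)) ^ 2 + (η * δ) ^ 2) ≤ ‖D k‖ := by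
    intro k
    obtain ⟨l, hl1, hl2⟩ := pM k
    rw [hsc] at hl1
    obtain ⟨f1, f2, f3, f4, f5⟩ := dj_facts N δ η s2 g e1 (a k - E) (J k) S l m hN hδ hη hs.le he0
      he1 (hJJ k) hl1 hmim hmn (D k) _ (hD k) rfl
    refine ⟨_, l, hl1, hl2, rfl, ?_, f2, ?_, ?_, ?_⟩
    · rw [hΓ, ht]
      exact f1
    · rw [hc1]
      exact f3
    · rw [hΓ, ht]
      exact f4
    · have e1 : a k - (E + s2 * m.re) = a k - E - s2 * m.re := by ring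
      rw [e1]
      exact f5
  have hDp : ∀ k, 0 < ‖D k‖ := fun k => by
    obtain ⟨DJ, l, -, -, -, h1, -⟩ := hfacts k
    exact hΓ0.trans_le h1
  have hDne : ∀ k, D k ≠ 0 := fun k => norm_pos_iff.1 (hDp k)
  have hn0 : ∀ k, 0 ≤ n k := fun k => by rw [hnk]; exact inv_nonneg.2 (hDp k).le
  have hnΓ : ∀ k, n k ≤ Γ⁻¹ := fun k => by
    obtain ⟨DJ, l, -, -, -, h1, -⟩ := hfacts k
    rw [hnk]
    exact inv_anti₀ hΓ0 h1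
  have hDi : ∀ k, (D k).im = -Γ := fun k => by
    obtain ⟨DJ, l, -, -, -, -, -, -, h1, -⟩ := hfacts k
    exact h1
  have hnI : rv N n ≤ g := by
    unfold rv
    rw [inv_mul_le_iff₀ hN]
    have h1 := hI1 (E + s2 * m.re)
    rw [mul_comm N g]
    refine le_trans (Finset.sum_le_sum fun k _ => ?_) h1
    obtain ⟨DJ, l, -, -, -, -, -, -, -, h1⟩ := hfacts k
    rw [hnk]
    apply inv_anti₀ _ h1
    apply Real.sqrt_pos.2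
    positivity
  -- conjugates
  obtain ⟨D0, hD0⟩ : ∃ D0 : ι → ℂ, D0 = fun k => (starRingEnd ℂ) (D k) := ⟨_, rfl⟩
  have hD0k : ∀ k, D0 k = (starRingEnd ℂ) (D k) := fun k => by rw [hD0]
  have hD0n : ∀ k, ‖D0 k‖ = ‖D k‖ := fun k => by rw [hD0k, RCLike.norm_conj]
  have hDD : ∀ k, (D k)⁻¹ * (D0 k)⁻¹ = ((n k ^ 2 : ℝ) : ℂ) := by
    intro k
    rw [hD0k, ← mul_inv, Complex.mul_conj, Complex.normSq_eq_norm_sq, hnk, inv_pow]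
    push_cast
    rfl
  have hDD' : ∀ k, (D0 k)⁻¹ * (D k)⁻¹ = ((n k ^ 2 : ℝ) : ℂ) := fun k => by
    rw [mul_comm, hDD]
  have hDτ : ∀ k, D (τ k) = D k := fun k => by rw [hD, hD, haτ]
  have hDτ0 : ∀ k, D0 (τ k) = D0 k := fun k => by rw [hD0k, hD0k, hDτ]
  have hnτ : ∀ k, n (τ k) = n k := fun k => by rw [hnk, hnk, hDτ]
  have hxn : ∀ k, ‖(((J k)⁻¹ : ℝ) : ℂ) * M k‖ ≤ 5 / 4 * n k := by
    intro k
    have h1 : ‖(((J k)⁻¹ : ℝ) : ℂ) * M k‖ ≤ ‖(((J k)⁻¹ : ℝ) : ℂ) * M k - (D k)⁻¹‖ +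
        ‖(D k)⁻¹‖ := by
      have := norm_add_le ((((J k)⁻¹ : ℝ) : ℂ) * M k - (D k)⁻¹) (D k)⁻¹
      rwa [sub_add_cancel] at this
    rw [norm_inv, ← hnk] at h1
    have h2 := hx k
    have h3 : c0 * n k ≤ 1 / 4 * n k := mul_le_mul_of_nonneg_right (by linarith) (hn0 k)
    linarith
  obtain ⟨e, he⟩ : ∃ e, e = 3 * e1 * t := ⟨_, rfl⟩
  have he00 : 0 ≤ e := by rw [he]; positivity
  have hec : e ≤ 9 / 4 * c0 * t := by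
    rw [he]
    have : e1 ≤ 3 / 4 * c0 := by
      rw [hc0]
      have : 0 ≤ 8 * s2 ^ 2 * g ^ 2 / δ ^ 2 := by positivity
      linarith
    calc 3 * e1 * t ≤ 3 * (3 / 4 * c0) * t := by gcongr
      _ = _ := by ring
  -- the first chain
  have cU : ∀ k, ‖(((J k)⁻¹ : ℝ) : ℂ) * U k - (D k)⁻¹ * (D0 k)⁻¹ *
      (((t * σ k : ℝ) : ℂ) + (s2 : ℂ) * u)‖ ≤
      3 * c0 * ‖((t * σ k : ℝ) : ℂ) + (s2 : ℂ) * u‖ * n k ^ 2 + 2 * ε * n k +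
        2 * e * n k ^ 2 := by
    intro k
    obtain ⟨DJ, l, hl1, hl2, hDJ, h1, h2, h3, -, -⟩ := hfacts k
    obtain ⟨l', hl1', hl2'⟩ := pU k
    rw [hsc3] at hl1'
    have hJc : ((J k : ℝ) : ℂ) ≠ 0 := by exact_mod_cast (hJ0 k).ne'
    have e0 := eqU k
    rw [hl2, hl2'] at e0
    have e1 : ((((a k - E) / J k : ℝ) : ℂ) + (η : ℂ) * Complex.I) * U k -
        ((η * (σ k * δ / J k) : ℝ) : ℂ) * M k -
        (s2 : ℂ) * ((starRingEnd ℂ) ((((J k)⁻¹ : ℝ) : ℂ) * (m - l)) * U k +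
          (((J k)⁻¹ : ℝ) : ℂ) * (u - l') * M k) =
        ((starRingEnd ℂ) DJ * ((((J k)⁻¹ : ℝ) : ℂ) * U k) -
          (((t * σ k : ℝ) : ℂ) + (s2 : ℂ) * u) * ((((J k)⁻¹ : ℝ) : ℂ) * M k)) +
          ((s2 : ℂ) * l') * ((((J k)⁻¹ : ℝ) : ℂ) * M k) := by
      rw [hDJ, ht]
      simp only [map_mul, map_sub, map_add, Complex.conj_ofReal, Complex.conj_I]
      push_cast
      field_simp
      ring
    rw [e1] at e0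
    have e2 : ‖(starRingEnd ℂ) DJ * ((((J k)⁻¹ : ℝ) : ℂ) * U k) -
          (((t * σ k : ℝ) : ℂ) + (s2 : ℂ) * u) * ((((J k)⁻¹ : ℝ) : ℂ) * M k)‖ ≤
        ε + e * ‖(((J k)⁻¹ : ℝ) : ℂ) * M k‖ := by
      have f1 := norm_sub_le (((starRingEnd ℂ) DJ * ((((J k)⁻¹ : ℝ) : ℂ) * U k) -
          (((t * σ k : ℝ) : ℂ) + (s2 : ℂ) * u) * ((((J k)⁻¹ : ℝ) : ℂ) * M k)) +
          ((s2 : ℂ) * l') * ((((J k)⁻¹ : ℝ) : ℂ) * M k))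
          (((s2 : ℂ) * l') * ((((J k)⁻¹ : ℝ) : ℂ) * M k))
      rw [add_sub_cancel_right, norm_mul ((s2 : ℂ) * l')] at f1
      have f2 : ‖(s2 : ℂ) * l'‖ * ‖(((J k)⁻¹ : ℝ) : ℂ) * M k‖ ≤
          e * ‖(((J k)⁻¹ : ℝ) : ℂ) * M k‖ := by
        rw [he]
        exact mul_le_mul_of_nonneg_right hl1' (norm_nonneg _)
      linarith
    have e3 := chain1 (D0 k) (D k) ((starRingEnd ℂ) DJ) _ _ _ (n k) c0 c1 ε e
      (by rw [hD0n]; exact hDp k) (hD0n k).symm (by rw [hD0n]; exact hnk k)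
      (by rw [hD0n, RCLike.norm_conj]; exact h2)
      (by rw [hD0n, hD0k, ← map_sub, RCLike.norm_conj]; exact h3) (hx k) he00 e2 hc00 hc10
      hc1c (by linarith) hε0
    rw [hDD' k] at e3
    rw [hDD k]
    exact e3
  have bu := avg_u N s2 g ε e t Γ c0 r1 u0 (rv N fun k => n k ^ 2) D D0 n σ τ
    (fun k => (((J k)⁻¹ : ℝ) : ℂ) * U k) u hN hu rfl hnI hDD hnτ hστ hσ1 cU hs ht0 hΓ0 hg
    hc00 hε0 he00 hec
  -- the pole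
  have hIm : (mv N (fun k => (D k)⁻¹)).im = Γ * rv N (fun k => n k ^ 2) := by
    rw [mv_im, ← rv_mul]
    unfold rv
    refine congrArg (fun s => N⁻¹ * s) (Finset.sum_congr rfl fun k _ => ?_)
    beta_reduce
    rw [Complex.inv_im, hDi, neg_neg, hnk, inv_pow, ← Complex.normSq_eq_norm_sq]
    rfl
  obtain ⟨I2, hI2⟩ : ∃ I2, I2 = rv N fun k => n k ^ 2 := ⟨_, rfl⟩
  rw [← hI2] at hIm bu
  have hr1t : s2 * (c0 * g) = r1 * t := by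
    rw [hr1, ← ht]
    field_simp
  have hdiff : |s2 * m.im - s2 * (Γ * I2)| ≤ r1 * t := by
    rw [← mul_sub, abs_mul, abs_of_pos hs, ← hr1t]
    apply mul_le_mul_of_nonneg_left _ hs.le
    rw [← hIm, ← Complex.sub_im]
    exact (Complex.abs_im_le_norm _).trans hmg
  have hpole : t * (1 - r1) ≤ Γ * (1 - s2 * I2) := by
    have := (abs_le.1 hdiff).1
    have e1 : Γ * (1 - s2 * I2) = t + (s2 * m.im - s2 * (Γ * I2)) := by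
      rw [hΓ]
      ring
    rw [e1]
    linarith
  have hpole2 : Γ * (1 - s2 * I2) ≤ t * (1 + r1) := by
    have := (abs_le.1 hdiff).2
    have e1 : Γ * (1 - s2 * I2) = t + (s2 * m.im - s2 * (Γ * I2)) := by
      rw [hΓ]
      ring
    rw [e1]
    linarith
  have hsI : s2 * I2 ≤ 1 := by
    have h1 : 0 ≤ Γ * (1 - s2 * I2) := by
      refine le_trans ?_ hpole
      exact mul_nonneg ht0.le (by linarith)
    have h2 : 0 ≤ 1 - s2 * I2 := by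
      by_contra hcon
      push Not at hcon
      have := mul_neg_of_pos_of_neg hΓ0 hcon
      linarith
    linarith
  have hΓg : Γ ≤ 3 * g * s2 := by
    have h1 : m.im ≤ 2 * g := (le_abs_self _).trans ((Complex.abs_im_le_norm m).trans hmn)
    have h2 : s2 * m.im ≤ s2 * (2 * g) := mul_le_mul_of_nonneg_left h1 hs.le
    have h3 : s2 ≤ g * s2 := le_mul_of_one_le_left hs.le hg
    rw [hΓ, ht]
    linarith
  rw [← ht] at hr1 hu0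
  have bu' := bu hpole hsI hΓg hr1 (by linarith) hu0
  have he' : ε * g ^ 2 / u0 = r2 * u0 := by
    rw [hεr]
    field_simp
  rw [he'] at bu'
  -- the second chain
  have cP : ∀ k, ‖(((J k)⁻¹ : ℝ) : ℂ) * P k - (D k)⁻¹ * (D k)⁻¹ *
      (((t * σ k : ℝ) : ℂ) + (s2 : ℂ) * p)‖ ≤
      3 * c0 * ‖((t * σ k : ℝ) : ℂ) + (s2 : ℂ) * p‖ * n k ^ 2 + 2 * ε * n k +
        2 * e * n k ^ 2 := by
    intro k
    obtain ⟨DJ, l, hl1, hl2, hDJ, h1, h2, h3, -, -⟩ := hfacts k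
    obtain ⟨l', hl1', hl2'⟩ := pP k
    rw [hsc3] at hl1'
    have hJc : ((J k : ℝ) : ℂ) ≠ 0 := by exact_mod_cast (hJ0 k).ne'
    have e0 := eqP k
    rw [hl2, hl2'] at e0
    have e1 : ((((a k - E) / J k : ℝ) : ℂ) - (η : ℂ) * Complex.I) * P k -
        ((η * (σ k * δ / J k) : ℝ) : ℂ) * M k -
        (s2 : ℂ) * (((((J k)⁻¹ : ℝ) : ℂ) * (m - l)) * P k +
          (((J k)⁻¹ : ℝ) : ℂ) * (p - l') * M k) =
        (DJ * ((((J k)⁻¹ : ℝ) : ℂ) * P k) -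
          (((t * σ k : ℝ) : ℂ) + (s2 : ℂ) * p) * ((((J k)⁻¹ : ℝ) : ℂ) * M k)) +
          ((s2 : ℂ) * l') * ((((J k)⁻¹ : ℝ) : ℂ) * M k) := by
      rw [hDJ, ht]
      push_cast
      field_simp
      ring
    rw [e1] at e0
    have e2 : ‖DJ * ((((J k)⁻¹ : ℝ) : ℂ) * P k) -
          (((t * σ k : ℝ) : ℂ) + (s2 : ℂ) * p) * ((((J k)⁻¹ : ℝ) : ℂ) * M k)‖ ≤
        ε + e * ‖(((J k)⁻¹ : ℝ) : ℂ) * M k‖ := by
      have f1 := norm_sub_le ((DJ * ((((J k)⁻¹ : ℝ) : ℂ) * P k) -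
          (((t * σ k : ℝ) : ℂ) + (s2 : ℂ) * p) * ((((J k)⁻¹ : ℝ) : ℂ) * M k)) +
          ((s2 : ℂ) * l') * ((((J k)⁻¹ : ℝ) : ℂ) * M k))
          (((s2 : ℂ) * l') * ((((J k)⁻¹ : ℝ) : ℂ) * M k))
      rw [add_sub_cancel_right, norm_mul ((s2 : ℂ) * l')] at f1
      have f2 : ‖(s2 : ℂ) * l'‖ * ‖(((J k)⁻¹ : ℝ) : ℂ) * M k‖ ≤
          e * ‖(((J k)⁻¹ : ℝ) : ℂ) * M k‖ := by
        rw [he]
        exact mul_le_mul_of_nonneg_right hl1' (norm_nonneg _)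
      linarith
    exact chain1 (D k) (D k) DJ _ _ _ (n k) c0 c1 ε e (hDp k) rfl (hnk k) h2 h3 (hx k) he00 e2
      hc00 hc10 hc1c (by linarith) hε0
  have bp := avg_p N s2 g ε e t c0 I2 u0 D n σ τ
    (fun k => (((J k)⁻¹ : ℝ) : ℂ) * P k) p hN hp hI2 hnI hDτ hστ hσ1 cP hs ht0 hc00 hε0 he00 hec
    hg' hsI (by linarith) hu0
  have bp' : ‖p‖ ≤ u0 * (16 * r1 + 4 * r2) * u0 := by
    have h1 : 16 * c0 * u0 ≤ 16 * (r1 * u0) * u0 := by gcongr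
    nlinarith
  have hbig : 16 * r1 + 4 * r2 ≤ 1 / 100 := by linarith
  have hsu : s2 * ‖u‖ ≤ t := by
    have h1 : s2 * ‖u‖ ≤ s2 * (u0 * (72 * r1) + 12 * (r2 * u0)) := by gcongr
    have h2 : s2 * (u0 * (72 * r1) + 12 * (r2 * u0)) = t * (72 * r1 + 12 * r2) := by
      rw [hu0]
      field_simp
    have h3 : t * (72 * r1 + 12 * r2) ≤ t * 1 := by
      apply mul_le_mul_of_nonneg_left _ ht0.le
      linarith
    linarith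
  have hsp : s2 * ‖p‖ ≤ t := by
    have h1 : s2 * ‖p‖ ≤ s2 * (u0 * (16 * r1 + 4 * r2) * u0) := by gcongr
    have h2 : s2 * (u0 * (16 * r1 + 4 * r2) * u0) = t * ((16 * r1 + 4 * r2) * u0) := by
      nth_rewrite 1 [hu0]
      field_simp
    have h3 : t * ((16 * r1 + 4 * r2) * u0) ≤ t * (1 * 1) := by
      apply mul_le_mul_of_nonneg_left _ ht0.le
      exact mul_le_mul (by linarith) hu01 hu00.le zero_le_one
    linarith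
  -- the size of the second chain
  have hPn : ∀ k, ‖(((J k)⁻¹ : ℝ) : ℂ) * P k‖ ≤ 4 * n k := by
    intro k
    have h1 := cP k
    have h2 : ‖(((J k)⁻¹ : ℝ) : ℂ) * P k‖ ≤ ‖(((J k)⁻¹ : ℝ) : ℂ) * P k - (D k)⁻¹ * (D k)⁻¹ *
      (((t * σ k : ℝ) : ℂ) + (s2 : ℂ) * p)‖ +
        ‖(D k)⁻¹ * (D k)⁻¹ * (((t * σ k : ℝ) : ℂ) + (s2 : ℂ) * p)‖ := by
      have := norm_add_le ((((J k)⁻¹ : ℝ) : ℂ) * P k - (D k)⁻¹ * (D k)⁻¹ *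
        (((t * σ k : ℝ) : ℂ) + (s2 : ℂ) * p))
        ((D k)⁻¹ * (D k)⁻¹ * (((t * σ k : ℝ) : ℂ) + (s2 : ℂ) * p))
      rwa [sub_add_cancel] at this
    rw [norm_mul ((D k)⁻¹ * (D k)⁻¹), norm_mul (D k)⁻¹, norm_inv, ← hnk] at h2
    have h3 : ‖((t * σ k : ℝ) : ℂ) + (s2 : ℂ) * p‖ ≤ 2 * t := by
      refine (norm_add_le _ _).trans ?_
      rw [Complex.norm_real, Real.norm_eq_abs, abs_mul, abs_of_pos ht0, norm_mul,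
        Complex.norm_real, Real.norm_eq_abs, abs_of_pos hs]
      have := mul_le_mul_of_nonneg_left (hσ1 k) ht0.le
      linarith
    have h4 : t * n k ≤ 1 := by
      calc t * n k ≤ Γ * Γ⁻¹ := mul_le_mul hΓt (hnΓ k) (hn0 k) hΓ0.le
        _ = 1 := mul_inv_cancel₀ hΓ0.ne'
    have h5 := hn0 k
    have h6 : n k * n k * ‖((t * σ k : ℝ) : ℂ) + (s2 : ℂ) * p‖ ≤ 2 * n k := by
      calc n k * n k * ‖((t * σ k : ℝ) : ℂ) + (s2 : ℂ) * p‖ ≤ n k * n k * (2 * t) := by gcongr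
        _ = 2 * n k * (t * n k) := by ring
        _ ≤ 2 * n k * 1 := by gcongr
        _ = _ := by ring
    have h7 : 3 * c0 * ‖((t * σ k : ℝ) : ℂ) + (s2 : ℂ) * p‖ * n k ^ 2 ≤ 1 / 100 * n k := by
      calc 3 * c0 * ‖((t * σ k : ℝ) : ℂ) + (s2 : ℂ) * p‖ * n k ^ 2 =
          3 * c0 * (n k * n k * ‖((t * σ k : ℝ) : ℂ) + (s2 : ℂ) * p‖) := by ring
        _ ≤ 3 * (1 / 2000) * (2 * n k) := by gcongr
        _ ≤ _ := by linarith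
    have h8 : 2 * e * n k ^ 2 ≤ 1 / 100 * n k := by
      calc 2 * e * n k ^ 2 ≤ 2 * (9 / 4 * (1 / 2000) * t) * n k ^ 2 := by
            gcongr
            exact hec.trans (by gcongr)
        _ = 9 / 4000 * n k * (t * n k) := by ring
        _ ≤ 9 / 4000 * n k * 1 := by gcongr
        _ ≤ _ := by linarith
    have h9 : 2 * ε * n k ≤ 1 * n k := by
      apply mul_le_mul_of_nonneg_right _ h5
      have : ε ≤ c0 := by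
        rw [hc0]
        have : 0 ≤ 8 * s2 ^ 2 * g ^ 2 / δ ^ 2 := by positivity
        linarith
      linarith
    linarith
  -- the last chain
  have cW : ∀ k, ‖(((J k)⁻¹ : ℝ) : ℂ) * W k - ((D0 k)⁻¹ *
      ((((t * σ k : ℝ) : ℂ) + (s2 : ℂ) * u) * ((((J k)⁻¹ : ℝ) : ℂ) * P k)) +
      ((s2 : ℂ) * ω) * ((D0 k)⁻¹ * (D k)⁻¹))‖ ≤ 2 * ε * n k + 8 * e * n k ^ 2 +
      c0 * n k * (‖((t * σ k : ℝ) : ℂ) + (s2 : ℂ) * u‖ * ‖(((J k)⁻¹ : ℝ) : ℂ) * P k‖) +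
      3 * c0 * ‖(s2 : ℂ) * ω‖ * n k ^ 2 := by
    intro k
    obtain ⟨DJ, l, hl1, hl2, hDJ, h1, h2, h3, -, -⟩ := hfacts k
    obtain ⟨lu, hlu1, hlu2⟩ := pU k
    obtain ⟨lw, hlw1, hlw2⟩ := pW k
    rw [hsc3] at hlu1 hlw1
    have hJc : ((J k : ℝ) : ℂ) ≠ 0 := by exact_mod_cast (hJ0 k).ne'
    have e0 := eqW k
    rw [hl2, hlu2, hlw2] at e0
    have e1 : ((((a k - E) / J k : ℝ) : ℂ) + (η : ℂ) * Complex.I) * W k -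
        ((η * (σ k * δ / J k) : ℝ) : ℂ) * P k -
        (s2 : ℂ) * ((starRingEnd ℂ) ((((J k)⁻¹ : ℝ) : ℂ) * (m - l)) * W k +
          (((J k)⁻¹ : ℝ) : ℂ) * (u - lu) * P k + (((J k)⁻¹ : ℝ) : ℂ) * (ω - lw) * M k) =
        ((starRingEnd ℂ) DJ * ((((J k)⁻¹ : ℝ) : ℂ) * W k) -
          ((((t * σ k : ℝ) : ℂ) + (s2 : ℂ) * u) * ((((J k)⁻¹ : ℝ) : ℂ) * P k) +
            ((s2 : ℂ) * ω) * ((((J k)⁻¹ : ℝ) : ℂ) * M k))) +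
          (((s2 : ℂ) * lu) * ((((J k)⁻¹ : ℝ) : ℂ) * P k) +
            ((s2 : ℂ) * lw) * ((((J k)⁻¹ : ℝ) : ℂ) * M k)) := by
      rw [hDJ, ht]
      simp only [map_mul, map_sub, map_add, Complex.conj_ofReal, Complex.conj_I]
      push_cast
      field_simp
      ring
    rw [e1] at e0
    have e2 : ‖(starRingEnd ℂ) DJ * ((((J k)⁻¹ : ℝ) : ℂ) * W k) -
          ((((t * σ k : ℝ) : ℂ) + (s2 : ℂ) * u) * ((((J k)⁻¹ : ℝ) : ℂ) * P k) +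
            ((s2 : ℂ) * ω) * ((((J k)⁻¹ : ℝ) : ℂ) * M k))‖ ≤
        ε + e * (‖(((J k)⁻¹ : ℝ) : ℂ) * P k‖ + ‖(((J k)⁻¹ : ℝ) : ℂ) * M k‖) := by
      have f1 := norm_sub_le (((starRingEnd ℂ) DJ * ((((J k)⁻¹ : ℝ) : ℂ) * W k) -
          ((((t * σ k : ℝ) : ℂ) + (s2 : ℂ) * u) * ((((J k)⁻¹ : ℝ) : ℂ) * P k) +
            ((s2 : ℂ) * ω) * ((((J k)⁻¹ : ℝ) : ℂ) * M k))) +
          (((s2 : ℂ) * lu) * ((((J k)⁻¹ : ℝ) : ℂ) * P k) +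
            ((s2 : ℂ) * lw) * ((((J k)⁻¹ : ℝ) : ℂ) * M k)))
          (((s2 : ℂ) * lu) * ((((J k)⁻¹ : ℝ) : ℂ) * P k) +
            ((s2 : ℂ) * lw) * ((((J k)⁻¹ : ℝ) : ℂ) * M k))
      rw [add_sub_cancel_right] at f1
      have f2 := norm_add_le (((s2 : ℂ) * lu) * ((((J k)⁻¹ : ℝ) : ℂ) * P k))
        (((s2 : ℂ) * lw) * ((((J k)⁻¹ : ℝ) : ℂ) * M k))
      rw [norm_mul ((s2 : ℂ) * lu), norm_mul ((s2 : ℂ) * lw)] at f2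
      have f3 : ‖(s2 : ℂ) * lu‖ * ‖(((J k)⁻¹ : ℝ) : ℂ) * P k‖ ≤
          e * ‖(((J k)⁻¹ : ℝ) : ℂ) * P k‖ := by
        rw [he]
        exact mul_le_mul_of_nonneg_right hlu1 (norm_nonneg _)
      have f4 : ‖(s2 : ℂ) * lw‖ * ‖(((J k)⁻¹ : ℝ) : ℂ) * M k‖ ≤
          e * ‖(((J k)⁻¹ : ℝ) : ℂ) * M k‖ := by
        rw [he]
        exact mul_le_mul_of_nonneg_right hlw1 (norm_nonneg _)
      linarith
    exact chain2 (D0 k) (D k) ((starRingEnd ℂ) DJ) _ _ _ _ _ (n k) c0 c1 ε e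
      (by rw [hD0n]; exact hDp k) (hD0n k).symm (by rw [hD0n]; exact hnk k)
      (by rw [hD0n, RCLike.norm_conj]; exact h2)
      (by rw [hD0n, hD0k, ← map_sub, RCLike.norm_conj]; exact h3) (hx k) he00 e2 hc00 hc10
      hc1c (by linarith) hε0 (hPn k)
  have bw := avg_w N s2 g ε e t Γ c0 r1 I2 u0 D D0 n σ τ
    (fun k => (((J k)⁻¹ : ℝ) : ℂ) * P k) (fun k => (((J k)⁻¹ : ℝ) : ℂ) * W k) u p ω hN hω hI2
    hnI hDD (fun k => by rw [norm_inv, hnk]) (fun k => by rw [norm_inv, hD0n, hnk]) hnΓ hn0 hDτ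
    hDτ0 hστ hσ1 cP cW hs ht0 hΓt hg hc00 hε0 hε1 he00 hec hpole hpole2 hsI hΓg hr1 (by linarith)
    hu0 hu01 hsu hsp
  rw [he'] at bw
  have bup : ‖u‖ * ‖p‖ / u0 ≤ (u0 * (72 * r1) + 12 * (r2 * u0)) * (1 / 100) := by
    rw [div_le_iff₀ hu00]
    calc ‖u‖ * ‖p‖ ≤ (u0 * (72 * r1) + 12 * (r2 * u0)) * (u0 * (16 * r1 + 4 * r2) * u0) :=
          mul_le_mul bu' bp' (norm_nonneg _) (by positivity)
      _ ≤ (u0 * (72 * r1) + 12 * (r2 * u0)) * (1 * (1 / 100) * u0) := by gcongr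
      _ = _ := by ring
  have hY := im_y N Γ t D n σ hΓ0 hDne (fun k => by rw [norm_inv, hnk]) hDi
  rw [← ht, ← hΓ]
  obtain ⟨G1, hG1⟩ : ∃ G1, G1 = (mv N (fun k => ((σ k ^ 2 : ℝ) : ℂ) * (D k)⁻¹)).im := ⟨_, rfl⟩
  obtain ⟨G2, hG2⟩ : ∃ G2, G2 = mv N (fun k => ((σ k ^ 2 : ℝ) : ℂ) * ((D k)⁻¹ * (D k)⁻¹)) :=
    ⟨_, rfl⟩
  rw [← hG1, ← hG2] at hY ⊢
  obtain ⟨Y, hYd⟩ : ∃ Y, Y = ((Γ * t : ℝ) : ℂ) *
    mv N (fun k => ((σ k ^ 2 * n k ^ 2 : ℝ) : ℂ) * (D k)⁻¹) := ⟨_, rfl⟩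
  rw [← hYd] at hY bw
  have f1 : |ω.im - Y.im| ≤ ‖ω - Y‖ := by
    rw [← Complex.sub_im]
    exact Complex.abs_im_le_norm _
  have f2 : |Y.im - t / 2 * (G1 / Γ)| ≤ t / 2 * ‖G2‖ := by
    rw [hY]
    have e1 : t / 2 * (G1 / Γ - G2.re) - t / 2 * (G1 / Γ) = -(t / 2 * G2.re) := by ring
    rw [e1, abs_neg, abs_mul, abs_of_pos (by positivity)]
    exact mul_le_mul_of_nonneg_left (Complex.abs_re_le_norm _) (by positivity)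
  have f3 := abs_sub_le ω.im Y.im (t / 2 * (G1 / Γ))
  have f4 : 0 ≤ u0 * r1 := by positivity
  have f5 : 0 ≤ u0 * r2 := by positivity
  have f6 : 20 * (r2 * u0) + 150 * r1 * u0 +
      2 * ((u0 * (72 * r1) + 12 * (r2 * u0)) * (1 / 100)) ≤ 200 * u0 * (r1 + r2) := by
    nlinarith
  linarith

end Pool.Agent.TH794.QD
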