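import Pool.Agent.W475.BK.Inv
import Pool.Agent.W788.BK.Mean
import Pool.Agent.TH794.QD.Block

/-! Translation covariance and the momentum blocks. -/

set_option autoImplicit false
set_option linter.unusedSectionVars false

open scoped BigOperators Matrix
open MeasureTheory

namespace Pool.Agent.TH794.QD

open Pool.Agent.W788.BK
open Pool.Agent.W475.BK
open Pool.Agent.W788.MFP.Four (T e NN adj K ft Op q NN_pos e_zero e_comm e_add_left e_add e_neg
  e_neg_left e_normSq sum_e)

variable {d L : ℕ} [NeZero L]

/-- covariance -/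
def Cov (F : (T d L → ℝ) → Matrix (T d L) (T d L) ℂ) : Prop :=
  ∀ (V : T d L → ℝ) (z k p : T d L), F (fun y => V (y - z)) k p = e (k - p) z * F V k p

theorem e_split (k l p z : T d L) : e (k - l) z * e (l - p) z = e (k - p) z := by
  rw [← e_add_left]
  congr 1
  abel

theorem Cov.mul {F G : (T d L → ℝ) → Matrix (T d L) (T d L) ℂ} (hF : Cov F) (hG : Cov G) :
    Cov fun V => F V * G V := by
  intro V z k p
  beta_reduce
  rw [Matrix.mul_apply, Matrix.mul_apply, Finset.mul_sum]
  refine Finset.sum_congr rfl fun l _ => ?_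
  rw [hF, hG, ← e_split k l p z]
  ring

theorem Cov.conj {F : (T d L → ℝ) → Matrix (T d L) (T d L) ℂ} (hF : Cov F) :
    Cov fun V => (F V)ᴴ := by
  intro V z k p
  beta_reduce
  rw [Matrix.conjTranspose_apply, Matrix.conjTranspose_apply, hF, star_mul']
  congr 1
  have h1 : e (k - p) z = e (-(p - k)) z := by rw [neg_sub]
  rw [h1, e_neg_left]
  rfl

theorem Cov.diag (c : T d L → ℂ) : Cov fun _ : T d L → ℝ => Matrix.diagonal c := by
  intro V z k p
  beta_reduce
  rcases eq_or_ne k p with h | h
  · subst h
    rw [sub_self]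
    have : e (0 : T d L) z = 1 := by rw [e_comm, e_zero]
    rw [this, one_mul]
  · rw [Matrix.diagonal_apply_ne _ h, mul_zero]

theorem Cov.res (E δ θ η : ℝ) :
    Cov fun V : T d L → ℝ => RR (D0 E δ) (AA (d := d) (L := L) E δ θ) η V := fun V z k p =>
  RR_shift E δ θ η V z k p

/-- the mean is diagonal -/
theorem Cov.off {F : (T d L → ℝ) → Matrix (T d L) (T d L) ℂ} (hF : Cov F) (μ : Measure ℝ)
    [IsProbabilityMeasure μ] (k p : T d L) (hkp : k ≠ p) : ∫ V, F V k p ∂(PP (T d L) μ) = 0 := by
  have hinv : ∀ z : T d L, ∫ V, F V k p ∂(PP (T d L) μ) =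
      e (k - p) z * ∫ V, F V k p ∂(PP (T d L) μ) := by
    intro z
    have h1 := (measurePreserving_piCongrLeft (fun _ : T d L => μ) (Equiv.addRight z)).integral_comp'
      (fun V : T d L → ℝ => F V k p)
    have h2 : ∀ V : T d L → ℝ, (MeasurableEquiv.piCongrLeft (fun _ : T d L => ℝ)
        (Equiv.addRight z)) V = fun y => V (y - z) := by
      intro V
      funext y
      have h3 := Equiv.piCongrLeft_apply_apply (fun _ : T d L => ℝ) (Equiv.addRight z) V (y - z)
      have h4 : (Equiv.addRight z) (y - z) = y := sub_add_cancel y z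
      rw [h4] at h3
      exact h3
    simp only [h2] at h1
    have h3 : ∀ V : T d L → ℝ, F (fun y => V (y - z)) k p = e (k - p) z * F V k p :=
      fun V => hF V z k p
    simp only [h3] at h1
    rw [integral_const_mul] at h1
    exact h1.symm
  have hsum : ∑ z : T d L, ∫ V, F V k p ∂(PP (T d L) μ) =
      (∑ z : T d L, e z (k - p)) * ∫ V, F V k p ∂(PP (T d L) μ) := by
    rw [Finset.sum_mul]
    refine Finset.sum_congr rfl fun z _ => ?_
    rw [e_comm z]
    exact hinv z
  rw [sum_e, if_neg (sub_ne_zero.2 hkp), zero_mul, Finset.sum_const, nsmul_eq_mul] at hsum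
  rcases mul_eq_zero.1 hsum with h | h
  · exfalso
    have : (Finset.univ : Finset (T d L)).card ≠ 0 := by
      rw [Finset.card_univ]; exact Fintype.card_ne_zero
    exact this (by exact_mod_cast h)
  · exact h

section blocks

variable {n m : Type} [Fintype n] [DecidableEq n] [Fintype m] [DecidableEq m]

theorem psi_blk (A : m → Matrix n n ℂ) (B : Fin 3 → Fin 3 → Matrix n n ℂ) :
    Psi (A3 A) (blk B) = blk fun i j => Psi A (B i j) := by
  unfold Psi
  have h1 : ∀ y, A3 A y * blk B * A3 A y = blk fun i j => A y * B i j * A y := by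
    intro y
    unfold A3
    rw [blk_mul, blk_mul]
    congr 1
    funext i j
    rw [Finset.sum_eq_single j]
    · rw [if_pos rfl, Finset.sum_eq_single i]
      · rw [if_pos rfl]
      · intro l _ hl
        rw [if_neg (Ne.symm hl), zero_mul]
      · intro h
        exact absurd (Finset.mem_univ i) h
    · intro l _ hl
      rw [if_neg hl, mul_zero]
    · intro h
      exact absurd (Finset.mem_univ j) h
  simp only [h1]
  ext ⟨i, k⟩ ⟨j, p⟩
  rw [Matrix.sum_apply, blk_apply, Matrix.sum_apply]
  rfl

/-- the product of blocks, the second being diagonal -/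
theorem blk_mul_diag (B C : Fin 3 → Fin 3 → Matrix n n ℂ)
    (hC : ∀ i j k p, k ≠ p → C i j k p = 0) (i j : Fin 3) (k : n) :
    (blk B * blk C) (i, k) (j, k) = ∑ l, B i l k k * C l j k k := by
  rw [blk_mul, blk_apply, Matrix.sum_apply]
  refine Finset.sum_congr rfl fun l _ => ?_
  rw [Matrix.mul_apply, Finset.sum_eq_single k]
  · intro p _ hp
    rw [hC l j p k hp, mul_zero]
  · intro h
    exact absurd (Finset.mem_univ k) h

theorem nsq_single' (k : n) : nsq (Pi.single k (1 : ℂ)) = 1 := nsq_single k

end blocks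

end Pool.Agent.TH794.QD
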