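import Pool.Agent.TH794.QD.Par6
import Pool.Agent.TH794.QD.Tim5
import Pool.Agent.TH794.QD.Evo

/-! Quantum diffusion, from the parts. -/

set_option autoImplicit false
set_option linter.unusedSectionVars false

open scoped BigOperators Topology
open MeasureTheory Filter Set

namespace Pool.Agent.TH794.QD

open Pool.Agent.W788.BK
open Pool.Agent.H4R2.LO (Zd)
open Pool.Agent.W788.BK.Num
open Pool.Agent.TH794.LL2

/-- **quantum diffusion** -/
theorem fin6 (hES : S_ES) (hTH : S_THIRD) (hFL : S_FLUCT) (hIN : S_INV)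
    (hSU : S_SUP) (hQB : S_QB) (hLO : S_LOW) (hAD : S_ADM) (hFA : S_FAC) (hO : S_OSC)
    (d : ℕ) (hd : 3 ≤ d) (b v : ℝ) (hb : 0 < b) (hv : 0 < v) :
    ∃ lam0 : ℝ, 0 < lam0 ∧ ∀ (μ : Measure ℝ), IsProbabilityMeasure μ →
      (∀ᵐ s ∂μ, |s| ≤ b) → ∀ M V : ℝ, ∫ s, s ∂μ = M → ∫ s, (s - M) ^ 2 ∂μ = V → v ≤ V →
      ∀ lam : ℝ, 0 < lam → lam ≤ lam0 → ∀ T : ℝ, 0 < T → 1 ≤ 2 * lam ^ 2 * V * T →
      T ≤ lam ^ (-(81 / 40) : ℝ) / 2 →
      ∃ G : Set (Zd d → ℝ), MeasurableSet G ∧
        1 - Real.exp (-lam ^ (-(1 / 100) : ℝ)) ≤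
          (Measure.infinitePi fun _ : Zd d => μ).real G ∧
        ∀ ω ∈ G, (∀ a : Zd d, ∃ ψ : ℝ → Zd d → ℂ, Sol d (fun x => 2 * d + lam * ω x) a ψ) ∧
          ∀ a : Zd d, ‖a‖ ≤ Real.exp (lam ^ (-(1 / 100) : ℝ)) →
          ∀ ψ : ℝ → Zd d → ℂ, Sol d (fun x => 2 * d + lam * ω x) a ψ → ∀ j : Fin d,
            IntegrableOn (fun s => Real.exp (-s / T) *
              ∑' x, ((x j : ℝ) - a j) ^ 2 * ‖ψ s x‖ ^ 2) (Ioi 0) ∧
            (∀ᵐ s ∂(volume.restrict (Ioi (0 : ℝ))),
              Summable fun x => ((x j : ℝ) - a j) ^ 2 * ‖ψ s x‖ ^ 2) ∧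
            |lam ^ 2 * V / (2 * T ^ 2) * (∫ s in Ioi (0 : ℝ), Real.exp (-s / T) *
              ∑' x, ((x j : ℝ) - a j) ^ 2 * ‖ψ s x‖ ^ 2) -
                2 / Real.pi * PfI d (1 / (2 * lam ^ 2 * V * T))| ≤ lam ^ (1 / 300 : ℝ) := by
  obtain ⟨y0, h0⟩ := engine6 hES hTH hFL hIN hSU hQB hLO hAD hFA hO d hd (2 * b) v
    (by linarith) hv
  obtain ⟨y2, hy2⟩ := Filter.eventually_atTop.1
    ((ev2 (4 * d) (-(1 / 250)) (-(1 / 300)) 0 (by norm_num)).and
    ((ev2 (42 * (2 * b) ^ 2) (-2) (-(1 / 300)) 0 (by norm_num)).and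
    (ev2 (2 * b) (-1) 0 0 (by norm_num))))
  obtain ⟨y1, hy1⟩ : ∃ y1, y1 = max (max y0 y2) 1 := ⟨_, rfl⟩
  refine ⟨Real.exp (-y1), Real.exp_pos _, ?_⟩
  intro μ hμ hμb M V hM hV hvV lam hlam hlam0 T hT0 hT1 hT
  obtain ⟨y, hy⟩ : ∃ y, y = Real.log (1 / lam) := ⟨_, rfl⟩
  have hloglam : Real.log lam = -y := by
    rw [hy, one_div, Real.log_inv, neg_neg]
  have hyy1 : y1 ≤ y := by
    have h1 := Real.log_le_log hlam hlam0
    rw [Real.log_exp, hloglam] at h1
    linarith
  have hyy0 : y0 ≤ y := le_trans (by rw [hy1]; exact (le_max_left _ _).trans (le_max_left _ _)) hyy1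
  have hyy2 : y2 ≤ y := le_trans (by rw [hy1]; exact (le_max_right _ _).trans (le_max_left _ _))
    hyy1
  have hyone : 1 ≤ y := le_trans (by rw [hy1]; exact le_max_right _ _) hyy1
  obtain ⟨n1, n2, n5⟩ := hy2 y hyy2
  simp only [pow_zero, mul_one, zero_mul, Real.exp_zero] at n1 n2 n5
  have hrp : ∀ p q : ℝ, q = -p → lam ^ p = Real.exp (q * y) := by
    intro p q hpq
    rw [Real.rpow_def_of_pos hlam, hloglam, hpq]
    congr 1
    ring
  have e1 : lam ^ (-(1 / 100) : ℝ) = Real.exp (y / 100) := by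
    rw [hrp _ (1 / 100) (by norm_num)]
    congr 1
    ring
  have e2 : lam ^ (-(81 / 40) : ℝ) = Real.exp (81 / 40 * y) := hrp _ _ (by norm_num)
  have e6 : lam = Real.exp (-1 * y) := by
    rw [neg_one_mul, ← hloglam, Real.exp_log hlam]
  have e7 : lam ^ 2 = Real.exp (-2 * y) := by
    rw [e6, ex_pow]
    norm_num
  have e3 : lam ^ (1 / 300 : ℝ) = Real.exp (-(1 / 300) * y) := hrp _ _ (by norm_num)
  rw [e1, e3]
  rw [e2] at hT
  -- the centred law
  have hint : Integrable (fun s : ℝ => s) μ := by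
    refine Integrable.of_bound (C := b) measurable_id.aestronglyMeasurable ?_
    filter_upwards [hμb] with s hs
    rw [Real.norm_eq_abs]
    exact hs
  have hM0b : |M| ≤ b := by
    rw [← hM, ← Real.norm_eq_abs]
    have h1 := norm_integral_le_of_norm_le_const (μ := μ) (f := fun s : ℝ => s) (C := b) (by
      filter_upwards [hμb] with s hs
      rw [Real.norm_eq_abs]
      exact hs)
    rw [probReal_univ, mul_one] at h1
    exact h1
  have hmm : Measurable fun s : ℝ => M - s := by fun_prop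
  have hνp : IsProbabilityMeasure (μ.map fun s => M - s) :=
    Measure.isProbabilityMeasure_map hmm.aemeasurable
  have hνb : ∀ᵐ s ∂(μ.map fun s => M - s), |s| ≤ 2 * b := by
    rw [ae_map_iff hmm.aemeasurable (measurableSet_le (by fun_prop) (by fun_prop))]
    filter_upwards [hμb] with s hs
    have h1 := abs_sub M s
    linarith
  have hν0 : ∫ s, s ∂(μ.map fun s => M - s) = 0 := by
    rw [integral_map hmm.aemeasurable (by fun_prop), integral_sub (integrable_const _) hint,
      integral_const, probReal_univ, one_smul, hM, sub_self]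
  have hν2 : ∫ s, s ^ 2 ∂(μ.map fun s => M - s) = V := by
    rw [integral_map hmm.aemeasurable (by fun_prop), ← hV]
    refine integral_congr_ae (Filter.Eventually.of_forall fun s => ?_)
    simp only
    ring
  have hVb : V ≤ (2 * b) ^ 2 := by
    rw [← hV]
    have h1 : ∫ s, (s - M) ^ 2 ∂μ ≤ ∫ _s, (2 * b) ^ 2 ∂μ := by
      apply integral_mono_of_nonneg (Filter.Eventually.of_forall fun s => sq_nonneg _)
        (integrable_const _)
      filter_upwards [hμb] with s hs
      rw [← sq_abs (s - M)]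
      refine pow_le_pow_left₀ (abs_nonneg _) ?_ 2
      have h1 := abs_sub s M
      linarith
    rw [integral_const, probReal_univ, one_smul] at h1
    exact h1
  have hV0 : 0 < V := hv.trans_le hvV
  obtain ⟨t, ht⟩ : ∃ t, t = 1 / (2 * T) := ⟨_, rfl⟩
  have ht0 : 0 < t := by rw [ht]; positivity
  have hTt : T = 1 / (2 * t) := by
    rw [ht]
    field_simp
  have htl : Real.exp (-(81 / 40) * y) ≤ t := by
    rw [ht, le_div_iff₀ (by positivity)]
    calc Real.exp (-(81 / 40) * y) * (2 * T) ≤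
        Real.exp (-(81 / 40) * y) * (2 * (Real.exp (81 / 40 * y) / 2)) := by gcongr
      _ = Real.exp (-(81 / 40) * y) * Real.exp (81 / 40 * y) := by ring
      _ = 1 := by
        rw [ex_mul]
        norm_num
  have htV : t ≤ Real.exp (-2 * y) * V := by
    rw [ht, div_le_iff₀ (by positivity), ← e7]
    linarith
  obtain ⟨G, hG, hP, hL⟩ := h0 y hyy0 _ hνp hνb hν0 V hν2 hvV t htl htV
  have hTm : Measurable (fun (ω : Zd d → ℝ) x => M - ω x) := by fun_prop
  have hlaw : (Measure.infinitePi fun _ : Zd d => μ).map (fun ω x => M - ω x) =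
      Measure.infinitePi fun _ : Zd d => μ.map fun s => M - s :=
    Measure.infinitePi_map_pi (μ := fun _ : Zd d => μ)
      (f := fun _ (s : ℝ) => M - s) (fun _ => by fun_prop)
  -- the bounded configurations
  obtain ⟨B, hB⟩ : ∃ B : Set (Zd d → ℝ), B = ⋂ x : Zd d, {ω | |ω x| ≤ b} := ⟨_, rfl⟩
  have hBm : MeasurableSet B := by
    rw [hB]
    refine MeasurableSet.iInter fun x => ?_
    exact measurableSet_le (by fun_prop) measurable_const
  have hBae : ∀ᵐ ω ∂(Measure.infinitePi fun _ : Zd d => μ), ω ∈ B := by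
    rw [hB]
    simp only [mem_iInter, mem_ofPred_eq]
    rw [ae_all_iff]
    intro x
    have h1 : (Measure.infinitePi fun _ : Zd d => μ).map (fun ω : Zd d → ℝ => ω x) = μ :=
      Measure.infinitePi_map_eval (fun _ : Zd d => μ) x
    have h2 : ∀ᵐ s ∂((Measure.infinitePi fun _ : Zd d => μ).map (fun ω : Zd d → ℝ => ω x)),
        |s| ≤ b := by
      rw [h1]
      exact hμb
    exact ae_of_ae_map (measurable_pi_apply x).aemeasurable h2
  refine ⟨(fun ω x => M - ω x) ⁻¹' G ∩ B, (hTm hG).inter hBm, ?_, ?_⟩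
  · have h1 : (Measure.infinitePi fun _ : Zd d => μ).real ((fun ω x => M - ω x) ⁻¹' G) =
        (Measure.infinitePi fun _ : Zd d => μ.map fun s => M - s).real G := by
      rw [← hlaw, map_measureReal_apply hTm hG]
    have h2 : (Measure.infinitePi fun _ : Zd d => μ).real ((fun ω x => M - ω x) ⁻¹' G ∩ B) =
        (Measure.infinitePi fun _ : Zd d => μ).real ((fun ω x => M - ω x) ⁻¹' G) := by
      apply measureReal_congr
      filter_upwards [hBae] with ω hω
      apply propext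
      constructor
      · intro h
        exact h.1
      · intro h
        exact ⟨h, hω⟩
    rw [h2, h1]
    exact hP
  · intro ω hω
    have hωb : ∀ x, |ω x| ≤ b := by
      have := hω.2
      rw [hB] at this
      exact fun x => mem_iInter.1 this x
    refine ⟨fun a => exists_sol _ (2 * d + lam * b) (fun x => ?_) a, fun a ha ψ hψ j => ?_⟩
    · refine (abs_add_le _ _).trans ?_
      rw [abs_of_nonneg (by positivity : (0 : ℝ) ≤ 2 * d), abs_mul, abs_of_pos hlam]
      have := hωb x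
      gcongr
    have hs2b : Real.exp (-2 * y) * V ≤ (2 * b) ^ 2 * Real.exp (-2 * y) := by
      calc Real.exp (-2 * y) * V ≤ Real.exp (-2 * y) * (2 * b) ^ 2 := by gcongr
        _ = _ := by ring
    have h42 : 42 * ((2 * b) ^ 2 * Real.exp (-2 * y)) ≤ 1 := by
      have h1 : Real.exp (-(1 / 300) * y) ≤ 1 := Real.exp_le_one_iff.2 (by linarith)
      have h2 : 42 * ((2 * b) ^ 2 * Real.exp (-2 * y)) =
        42 * (2 * b) ^ 2 * Real.exp (-2 * y) := by ring
      rw [h2]
      exact n2.trans h1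
    have ht1 : t ≤ 1 := by
      have h3 : 0 ≤ (2 * b) ^ 2 * Real.exp (-2 * y) := by positivity
      linarith
    obtain ⟨s2, hs2⟩ : ∃ s2, s2 = Real.exp (-2 * y) * V := ⟨_, rfl⟩
    have hs20 : 0 < s2 := by rw [hs2]; positivity
    have hQ := hL _ hω.1
    rw [← hs2] at hQ
    have hξ : ∀ x, |Real.exp (-1 * y) * (fun x => M - ω x) x| ≤ 1 := by
      intro x
      rw [abs_mul, abs_of_pos (Real.exp_pos _)]
      have h1 : |M - ω x| ≤ 2 * b := by
        have := abs_sub M (ω x)
        linarith [hωb x]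
      calc Real.exp (-1 * y) * |M - ω x| ≤ Real.exp (-1 * y) * (2 * b) := by gcongr
        _ ≤ 1 := by linarith
    obtain ⟨i1, i2, i3⟩ := tim5 hO hd (fun x => 2 * d + lam * ω x) (fun x => M - ω x)
      (2 * d + lam * M) (Real.exp (-1 * y)) t (Real.exp (-(1 / 250) * y)) s2 (t / s2)
      (Real.exp (Real.exp (y / 100))) (fun x => by rw [← e6]; ring) ht0 ht1 hs20.le
      (by positivity) hξ hQ a ha ψ hψ j
    have e8 : ∀ s : ℝ, -(2 * t) * s = -s / T := by
      intro s
      rw [hTt]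
      field_simp
    simp only [e8] at i1 i3
    refine ⟨i1, i2, ?_⟩
    obtain ⟨I, hI⟩ : ∃ I, I = ∫ s in Ioi (0 : ℝ), Real.exp (-s / T) *
      ∑' x, ((x j : ℝ) - a j) ^ 2 * ‖ψ s x‖ ^ 2 := ⟨_, rfl⟩
    rw [← hI] at i3 ⊢
    have hpi := Real.pi_pos
    have e9 : lam ^ 2 * V / (2 * T ^ 2) * I = (t ^ 2 * s2 * (2 * Real.pi * I)) / Real.pi := by
      rw [hTt, e7, hs2]
      field_simp
    have hu : 1 / (2 * lam ^ 2 * V * T) = t / s2 := by
      rw [ht, hs2, ← e7]
      field_simp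
    rw [hu]
    have h5 : |t ^ 2 * s2 * (2 * Real.pi * I) - 2 * PfI d (t / s2)| ≤
        Real.pi * Real.exp (-(1 / 300) * y) := by
      refine i3.trans ?_
      have h11 : 3 < Real.pi := Real.pi_gt_three
      have h6 : 21 * Real.pi * (t ^ 2 * s2) ≤ Real.pi / 2 * Real.exp (-(1 / 300) * y) := by
        have h7 : t ^ 2 * s2 ≤ (2 * b) ^ 2 * Real.exp (-2 * y) := by
          calc t ^ 2 * s2 ≤ 1 * s2 := by
                gcongr
                exact pow_le_one₀ ht0.le ht1
            _ ≤ _ := by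
                rw [one_mul, hs2]
                exact hs2b
        calc 21 * Real.pi * (t ^ 2 * s2) ≤
            21 * Real.pi * ((2 * b) ^ 2 * Real.exp (-2 * y)) := by gcongr
          _ = Real.pi / 2 * (42 * (2 * b) ^ 2 * Real.exp (-2 * y)) := by ring
          _ ≤ _ := by gcongr
      have h8 : 6 * d * Real.exp (-(1 / 250) * y) ≤ Real.pi / 2 * Real.exp (-(1 / 300) * y) := by
        calc 6 * d * Real.exp (-(1 / 250) * y) = 3 / 2 * (4 * d * Real.exp (-(1 / 250) * y)) := by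
              ring
          _ ≤ Real.pi / 2 * Real.exp (-(1 / 300) * y) := by
              have h9 : (3 : ℝ) / 2 ≤ Real.pi / 2 := by linarith
              gcongr
      linarith
    have e10 : lam ^ 2 * V / (2 * T ^ 2) * I - 2 / Real.pi * PfI d (t / s2) =
        (t ^ 2 * s2 * (2 * Real.pi * I) - 2 * PfI d (t / s2)) / Real.pi := by
      rw [e9]
      field_simp
    rw [e10, abs_div, abs_of_pos hpi, div_le_iff₀ hpi]
    linarith

end Pool.Agent.TH794.QD
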