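import Pool.Agent.W261.BK.Third
import Pool.Agent.W240.BK.Fluct

/-! The Dyson equation for a general family of invertible matrices. -/

set_option autoImplicit false
set_option linter.unusedSectionVars false

open scoped BigOperators Matrix
open MeasureTheory

namespace Pool.Agent.TH794.QD

open Pool.Agent.W788.BK
open Pool.Agent.W261.BK (nn nn_nonneg nn_sq nn_add nn_smul nn_le triple IB IM int_bl XX_cont)
open Pool.Agent.W240.BK (BC BM)

variable {n m : Type} [Fintype n] [DecidableEq n] [Fintype m] [DecidableEq m]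

/-- the inverse -/
noncomputable def GG (Z0 : Matrix n n ℂ) (A : m → Matrix n n ℂ) (V : m → ℝ) : Matrix n n ℂ :=
  (XX Z0 A V)⁻¹

/-- the hypotheses -/
structure AdG (Z0 : Matrix n n ℂ) (A : m → Matrix n n ℂ) (a v2 Q K : ℝ) : Prop where
  hA : ∀ y, (A y).IsHermitian
  ha0 : 0 ≤ a
  hv0 : 0 ≤ v2
  hQ0 : 0 ≤ Q
  hK1 : 1 ≤ K
  ha : ∀ (y : m) (w : n → ℂ), nsq (A y *ᵥ w) ≤ a ^ 2 * nsq w
  hv : ∀ w : n → ℂ, ∑ y, nsq (A y *ᵥ w) ≤ v2 * nsq w
  hQ : ∀ W : Matrix n n ℂ, ∑ y, ‖(A y * W).trace‖ ^ 2 ≤ Q * hs W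
  hU : ∀ V : m → ℝ, IsUnit (XX Z0 A V)
  hb : ∀ (V : m → ℝ) (w : n → ℂ), nsq (GG Z0 A V *ᵥ w) ≤ K ^ 2 * nsq w
  hbH : ∀ (V : m → ℝ) (w : n → ℂ), nsq ((GG Z0 A V)ᴴ *ᵥ w) ≤ K ^ 2 * nsq w

/-- the mean -/
noncomputable def MG (Z0 : Matrix n n ℂ) (A : m → Matrix n n ℂ) (μ : Measure ℝ) : Matrix n n ℂ :=
  Matrix.of fun i j => ∫ V, GG Z0 A V i j ∂(PP m μ)

/-- the mean of `Psi(G) G` -/
noncomputable def SG (Z0 : Matrix n n ℂ) (A : m → Matrix n n ℂ) (μ : Measure ℝ) : Matrix n n ℂ :=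
  Matrix.of fun i j => ∫ V, (Psi A (GG Z0 A V) * GG Z0 A V) i j ∂(PP m μ)

section res

variable {Z0 : Matrix n n ℂ} {A : m → Matrix n n ℂ} {a v2 Q K : ℝ} {P : Measure (m → ℝ)}

theorem AdG.mulG (H : AdG Z0 A a v2 Q K) (V : m → ℝ) : XX Z0 A V * GG Z0 A V = 1 :=
  Matrix.mul_nonsing_inv _ ((Matrix.isUnit_iff_isUnit_det _).1 (H.hU V))

theorem AdG.Gmul (H : AdG Z0 A a v2 Q K) (V : m → ℝ) : GG Z0 A V * XX Z0 A V = 1 :=
  Matrix.nonsing_inv_mul _ ((Matrix.isUnit_iff_isUnit_det _).1 (H.hU V))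

theorem AdG.K0 (H : AdG Z0 A a v2 Q K) : 0 ≤ K := zero_le_one.trans H.hK1

/-- the resolvent identity -/
theorem AdG.update (H : AdG Z0 A a v2 Q K) (V : m → ℝ) (y : m) :
    GG Z0 A V = GG Z0 A (Function.update V y 0) -
      (V y : ℂ) • (GG Z0 A V * A y * GG Z0 A (Function.update V y 0)) ∧
    GG Z0 A V = GG Z0 A (Function.update V y 0) -
      (V y : ℂ) • (GG Z0 A (Function.update V y 0) * A y * GG Z0 A V) := by
  obtain ⟨U, hU⟩ : ∃ U, U = Function.update V y 0 := ⟨_, rfl⟩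
  rw [← hU]
  have h1 := H.mulG V
  have h2 := H.Gmul V
  have h3 := H.mulG U
  have h4 := H.Gmul U
  have h5 := XX_update (X0 := Z0) (A := A) V y 0
  rw [← hU, sub_zero] at h5
  have hd : (V y : ℂ) • A y = XX Z0 A V - XX Z0 A U := by
    rw [h5]
    abel
  constructor
  · have e1 : (V y : ℂ) • (GG Z0 A V * A y * GG Z0 A U) =
        GG Z0 A V * ((V y : ℂ) • A y) * GG Z0 A U := by
      rw [mul_smul_comm, smul_mul_assoc]
    rw [e1, hd, mul_sub, sub_mul, h2, one_mul, mul_assoc, h3, mul_one]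
    abel
  · have e1 : (V y : ℂ) • (GG Z0 A U * A y * GG Z0 A V) =
        GG Z0 A U * ((V y : ℂ) • A y) * GG Z0 A V := by
      rw [mul_smul_comm, smul_mul_assoc]
    rw [e1, hd, mul_sub, sub_mul, h4, one_mul, mul_assoc, h1, mul_one]
    abel

theorem AdG.cont (H : AdG Z0 A a v2 Q K) : Continuous (fun V : m → ℝ => GG Z0 A V) := by
  have h1 : Continuous (fun V : m → ℝ => XX Z0 A V) := XX_cont
  have h2 : ∀ V : m → ℝ, (XX Z0 A V).det ≠ 0 := fun V =>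
    ((Matrix.isUnit_iff_isUnit_det _).1 (H.hU V)).ne_zero
  have h3 : (fun V : m → ℝ => GG Z0 A V) = fun V : m → ℝ =>
      ((XX Z0 A V).det)⁻¹ • (XX Z0 A V).adjugate := by
    funext V
    unfold GG
    rw [Matrix.inv_def, Ring.inverse_eq_inv']
  rw [h3]
  exact (h1.matrix_det.inv₀ h2).smul h1.matrix_adjugate

theorem AdG.entry (H : AdG Z0 A a v2 Q K) (V : m → ℝ) (i j : n) : ‖GG Z0 A V i j‖ ≤ K := by
  have h1 := H.hb V (Pi.single j 1)
  rw [Pool.Agent.W240.BK.nsq_single, mul_one] at h1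
  have h3 : ‖GG Z0 A V i j‖ ^ 2 ≤ nsq (GG Z0 A V *ᵥ Pi.single j 1) := by
    have := Finset.single_le_sum (f := fun k => ‖(GG Z0 A V *ᵥ Pi.single j 1) k‖ ^ 2)
      (fun _ _ => by positivity) (Finset.mem_univ i)
    simpa [nsq] using this
  exact le_of_sq_le_sq (h3.trans h1) H.K0

theorem AdG.im (H : AdG Z0 A a v2 Q K) : IM P (fun V : m → ℝ => GG Z0 A V) := fun i j =>
  ⟨H.cont.matrix_elem i j, K, Filter.Eventually.of_forall fun V => H.entry V i j⟩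

theorem AdG.bm (H : AdG Z0 A a v2 Q K) : BM (fun V : m → ℝ => GG Z0 A V) := fun i j =>
  ⟨H.cont.matrix_elem i j, K, fun V => H.entry V i j⟩

theorem AdG.imy (H : AdG Z0 A a v2 Q K) (y : m) :
    IM P (fun V : m → ℝ => GG Z0 A (Function.update V y 0)) := fun i j =>
  ⟨(H.cont.comp (continuous_id.update y continuous_const)).matrix_elem i j, K,
    Filter.Eventually.of_forall fun _ => H.entry _ i j⟩

theorem AdG.nnb (H : AdG Z0 A a v2 Q K) (V : m → ℝ) (w : n → ℂ) :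
    nn (GG Z0 A V *ᵥ w) ≤ K * nn w :=
  nn_le _ _ H.K0 (fun w => H.hb V w) w

/-- the expansion -/
theorem AdG.expand (H : AdG Z0 A a v2 Q K) (V : m → ℝ) (y : m) (s2 : ℝ) :
    (V y : ℂ) • (A y * GG Z0 A V) + (s2 : ℂ) • (A y * GG Z0 A V * A y * GG Z0 A V) =
      (V y : ℂ) • (A y * GG Z0 A (Function.update V y 0)) -
      (((V y) ^ 2 : ℝ) : ℂ) • (A y * GG Z0 A (Function.update V y 0) * A y *
        GG Z0 A (Function.update V y 0)) +
      (s2 : ℂ) • (A y * GG Z0 A (Function.update V y 0) * A y *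
        GG Z0 A (Function.update V y 0)) +
      ((((V y) ^ 3 : ℝ) : ℂ) • (A y * (GG Z0 A (Function.update V y 0) * (A y *
        (GG Z0 A (Function.update V y 0) * (A y * GG Z0 A V))))) -
      (s2 * V y : ℂ) • (A y * (GG Z0 A V * (A y *
        (GG Z0 A (Function.update V y 0) * (A y * GG Z0 A (Function.update V y 0))))) +
        A y * (GG Z0 A V * (A y *
        (GG Z0 A (Function.update V y 0) * (A y * GG Z0 A V)))))) := by
  obtain ⟨r1, r2⟩ := H.update V y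
  generalize GG Z0 A (Function.update V y 0) = S at r1 r2 ⊢
  generalize GG Z0 A V = R at r1 r2 ⊢
  generalize A y = B at r1 r2 ⊢
  obtain ⟨t, ht⟩ : ∃ t : ℂ, t = (V y : ℂ) := ⟨_, rfl⟩
  push_cast
  rw [← ht] at r1 r2 ⊢
  generalize (s2 : ℂ) = c
  -- `B R = B S - t B S B R` and `B S B R = B S B S - t B S B S B R`
  have k1 : B * R = B * S - t • (B * (S * (B * R))) := by
    calc B * R = B * (S - t • (S * B * R)) := by rw [← r2]
      _ = _ := by rw [mul_sub, mul_smul_comm]; simp only [mul_assoc]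
  have k2 : B * (S * (B * R)) = B * (S * (B * S)) - t • (B * (S * (B * (S * (B * R))))) := by
    calc B * (S * (B * R)) = B * (S * (B * S - t • (B * (S * (B * R))))) := by rw [← k1]
      _ = _ := by rw [mul_sub, mul_sub, mul_smul_comm, mul_smul_comm]
  have k3 : t • (B * R) = t • (B * S) - (t ^ 2) • (B * (S * (B * S))) +
      (t ^ 3) • (B * (S * (B * (S * (B * R))))) := by
    calc t • (B * R) = t • (B * S - t • (B * (S * (B * S)) -
          t • (B * (S * (B * (S * (B * R))))))) := by rw [← k2, ← k1]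
      _ = _ := by
          simp only [smul_sub, smul_smul]
          rw [pow_two, pow_succ, pow_two]
          simp only [mul_assoc]
          abel
  -- `B S = B R + t B R B S`
  have k4 : B * (R * (B * S)) = B * (R * (B * R)) + t • (B * (R * (B * (S * (B * R))))) := by
    have : B * S = B * R + t • (B * (S * (B * R))) := by
      rw [eq_sub_iff_add_eq.1 k1]
    rw [this, mul_add, mul_add, mul_smul_comm, mul_smul_comm]
  have k5 : B * (S * (B * S)) = B * (R * (B * S)) + t • (B * (R * (B * (S * (B * S))))) := by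
    have e : S = R + t • (R * B * S) := (eq_sub_iff_add_eq.1 r1).symm
    calc B * (S * (B * S)) = B * ((R + t • (R * B * S)) * (B * S)) := by rw [← e]
      _ = _ := by rw [add_mul, mul_add, smul_mul_assoc, mul_smul_comm]; simp only [mul_assoc]
  rw [k3]
  simp only [mul_assoc]
  clear k1 k2 k3
  generalize B * (R * (B * (S * (B * S)))) = x3 at k5 ⊢
  generalize B * (R * (B * (S * (B * R)))) = x4 at k4 ⊢
  generalize B * (S * (B * (S * (B * R)))) = x5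
  generalize B * (S * (B * S)) = x1 at k5 ⊢
  generalize B * (R * (B * R)) = x2 at k4 ⊢
  generalize B * (R * (B * S)) = x6 at k4 k5
  rw [k5, k4]
  module

/-- third order terms -/
noncomputable def T1 (Z0 : Matrix n n ℂ) (A : m → Matrix n n ℂ) (y : m) (V : m → ℝ) :
    Matrix n n ℂ :=
  A y * (GG Z0 A (Function.update V y 0) * (A y *
        (GG Z0 A (Function.update V y 0) * (A y * GG Z0 A V))))

/-- third order terms -/
noncomputable def T2 (Z0 : Matrix n n ℂ) (A : m → Matrix n n ℂ) (y : m) (V : m → ℝ) :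
    Matrix n n ℂ :=
  A y * (GG Z0 A V * (A y *
        (GG Z0 A (Function.update V y 0) * (A y * GG Z0 A (Function.update V y 0)))))

/-- third order terms -/
noncomputable def T3 (Z0 : Matrix n n ℂ) (A : m → Matrix n n ℂ) (y : m) (V : m → ℝ) :
    Matrix n n ℂ :=
  A y * (GG Z0 A V * (A y *
        (GG Z0 A (Function.update V y 0) * (A y * GG Z0 A V))))

/-- the sum of the third order terms -/
noncomputable def G3 (Z0 : Matrix n n ℂ) (A : m → Matrix n n ℂ) (s2 : ℝ) (f g : n → ℂ)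
    (V : m → ℝ) : ℂ :=
  ∑ y, ((((V y) ^ 3 : ℝ) : ℂ) * (star f ⬝ᵥ (T1 Z0 A y V *ᵥ g)) -
    (s2 * V y : ℂ) * (star f ⬝ᵥ (T2 Z0 A y V *ᵥ g) + star f ⬝ᵥ (T3 Z0 A y V *ᵥ g)))

theorem AdG.bound (H : AdG Z0 A a v2 Q K) (β s2 : ℝ) (hβ : 0 < β) (hs0 : 0 ≤ s2)
    (hs : s2 ≤ β ^ 2) (hβa : β * a * K ≤ 1) (f g : n → ℂ) (hf : nsq f = 1)
    (hg : nsq g = 1) (V : m → ℝ) (hV : ∀ y, |V y| ≤ β) :
    ‖G3 Z0 A s2 f g V‖ ≤ 4 * β ^ 3 * a * v2 * K ^ 3 := by
  have hAn : ∀ y w, nn (A y *ᵥ w) ≤ a * nn w := fun y w => nn_le _ _ H.ha0 (H.ha y) w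
  have hR : ∀ (U : m → ℝ) w, nn (GG Z0 A U *ᵥ w) ≤ K * nn w := fun U w => H.nnb U w
  have hη' : 0 ≤ K := H.K0
  have ha0 := H.ha0
  -- terms
  have t1 : ∀ y, ‖star f ⬝ᵥ (T1 Z0 A y V *ᵥ g)‖ ≤
      K ^ 2 * a * (nn (A y *ᵥ f) * nn (A y *ᵥ (GG Z0 A V *ᵥ g))) := by
    intro y
    have := triple (A y) (GG Z0 A (Function.update V y 0)) (GG Z0 A (Function.update V y 0))
      (H.hA y) a K H.ha0 hη' (hAn y) (hR _) (hR _) f (A y *ᵥ (GG Z0 A V *ᵥ g))
    simpa only [T1, ← Matrix.mulVec_mulVec] using this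
  have t3 : ∀ y, ‖star f ⬝ᵥ (T3 Z0 A y V *ᵥ g)‖ ≤
      K ^ 2 * a * (nn (A y *ᵥ f) * nn (A y *ᵥ (GG Z0 A V *ᵥ g))) := by
    intro y
    have := triple (A y) (GG Z0 A V) (GG Z0 A (Function.update V y 0))
      (H.hA y) a K H.ha0 hη' (hAn y) (hR _) (hR _) f (A y *ᵥ (GG Z0 A V *ᵥ g))
    simpa only [T3, ← Matrix.mulVec_mulVec] using this
  have two : ∀ y, nn (A y *ᵥ (GG Z0 A (Function.update V y 0) *ᵥ g)) ≤
      2 * nn (A y *ᵥ (GG Z0 A V *ᵥ g)) := by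
    intro y
    have r2 := (H.update V y).2
    have e1 : A y *ᵥ (GG Z0 A (Function.update V y 0) *ᵥ g) = A y *ᵥ (GG Z0 A V *ᵥ g) +
        (V y : ℂ) • (A y *ᵥ (GG Z0 A (Function.update V y 0) *ᵥ
          (A y *ᵥ (GG Z0 A V *ᵥ g)))) := by
      have e2 : GG Z0 A (Function.update V y 0) = GG Z0 A V +
          (V y : ℂ) • (GG Z0 A (Function.update V y 0) * A y * GG Z0 A V) :=
        (eq_sub_iff_add_eq.1 r2).symm
      have e3 := congrArg (fun M => A y *ᵥ (M *ᵥ g)) e2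
      simp only [Matrix.add_mulVec, Matrix.mulVec_add, Matrix.smul_mulVec, Matrix.mulVec_smul,
        ← Matrix.mulVec_mulVec] at e3
      exact e3
    rw [e1]
    refine (nn_add _ _).trans ?_
    rw [nn_smul, Complex.norm_real, Real.norm_eq_abs]
    have e4 : nn (A y *ᵥ (GG Z0 A (Function.update V y 0) *ᵥ (A y *ᵥ (GG Z0 A V *ᵥ g)))) ≤
        a * (K * nn (A y *ᵥ (GG Z0 A V *ᵥ g))) :=
      (hAn y _).trans (mul_le_mul_of_nonneg_left (hR _ _) ha0)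
    have e5 : |V y| * nn (A y *ᵥ (GG Z0 A (Function.update V y 0) *ᵥ
        (A y *ᵥ (GG Z0 A V *ᵥ g)))) ≤ 1 * nn (A y *ᵥ (GG Z0 A V *ᵥ g)) := by
      calc |V y| * nn (A y *ᵥ (GG Z0 A (Function.update V y 0) *ᵥ
            (A y *ᵥ (GG Z0 A V *ᵥ g)))) ≤ β * (a * (K * nn (A y *ᵥ (GG Z0 A V *ᵥ g)))) :=
            mul_le_mul (hV y) e4 (nn_nonneg _) hβ.le
        _ = (β * a * K) * nn (A y *ᵥ (GG Z0 A V *ᵥ g)) := by ring
        _ ≤ 1 * nn (A y *ᵥ (GG Z0 A V *ᵥ g)) :=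
            mul_le_mul_of_nonneg_right hβa (nn_nonneg _)
    linarith
  have t2 : ∀ y, ‖star f ⬝ᵥ (T2 Z0 A y V *ᵥ g)‖ ≤
      2 * (K ^ 2 * a * (nn (A y *ᵥ f) * nn (A y *ᵥ (GG Z0 A V *ᵥ g)))) := by
    intro y
    have := triple (A y) (GG Z0 A V) (GG Z0 A (Function.update V y 0))
      (H.hA y) a K H.ha0 hη' (hAn y) (hR _) (hR _) f
      (A y *ᵥ (GG Z0 A (Function.update V y 0) *ᵥ g))
    have e : ‖star f ⬝ᵥ (T2 Z0 A y V *ᵥ g)‖ ≤ K ^ 2 * a * (nn (A y *ᵥ f) *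
        nn (A y *ᵥ (GG Z0 A (Function.update V y 0) *ᵥ g))) := by
      simpa only [T2, ← Matrix.mulVec_mulVec] using this
    refine e.trans ?_
    calc K ^ 2 * a * (nn (A y *ᵥ f) * nn (A y *ᵥ (GG Z0 A (Function.update V y 0) *ᵥ g)))
        ≤ K ^ 2 * a * (nn (A y *ᵥ f) * (2 * nn (A y *ᵥ (GG Z0 A V *ᵥ g)))) := by
          have := nn_nonneg (A y *ᵥ f)
          have := two y
          gcongr
      _ = _ := by ring
  -- the sum
  have hsum : ∑ y, nn (A y *ᵥ f) * nn (A y *ᵥ (GG Z0 A V *ᵥ g)) ≤ v2 * K := by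
    refine le_of_sq_le_sq ?_ (mul_nonneg H.hv0 hη')
    calc (∑ y, nn (A y *ᵥ f) * nn (A y *ᵥ (GG Z0 A V *ᵥ g))) ^ 2
        ≤ (∑ y, nn (A y *ᵥ f) ^ 2) * ∑ y, nn (A y *ᵥ (GG Z0 A V *ᵥ g)) ^ 2 :=
          Finset.sum_mul_sq_le_sq_mul_sq _ _ _
      _ = (∑ y, nsq (A y *ᵥ f)) * ∑ y, nsq (A y *ᵥ (GG Z0 A V *ᵥ g)) := by
          simp only [nn_sq]
      _ ≤ (v2 * nsq f) * (v2 * nsq (GG Z0 A V *ᵥ g)) := by
          refine mul_le_mul (H.hv f) (H.hv _) ?_ (mul_nonneg H.hv0 (nsq_nonneg f))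
          exact Finset.sum_nonneg fun _ _ => nsq_nonneg _
      _ ≤ (v2 * 1) * (v2 * (K ^ 2 * nsq g)) := by
          rw [hf]
          have := H.hb V g
          have h0 := H.hv0
          gcongr
      _ = (v2 * K) ^ 2 := by
          rw [hg]
          ring
  unfold G3
  calc ‖∑ y, ((((V y) ^ 3 : ℝ) : ℂ) * (star f ⬝ᵥ (T1 Z0 A y V *ᵥ g)) -
      (s2 * V y : ℂ) * (star f ⬝ᵥ (T2 Z0 A y V *ᵥ g) + star f ⬝ᵥ (T3 Z0 A y V *ᵥ g)))‖
      ≤ ∑ y, 4 * β ^ 3 * (K ^ 2 * a *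
        (nn (A y *ᵥ f) * nn (A y *ᵥ (GG Z0 A V *ᵥ g)))) := by
        refine (norm_sum_le _ _).trans (Finset.sum_le_sum fun y _ => ?_)
        have h1 := t1 y
        have h2 := t2 y
        have h3 := t3 y
        set q : ℝ := K ^ 2 * a * (nn (A y *ᵥ f) * nn (A y *ᵥ (GG Z0 A V *ᵥ g))) with hq
        have hq0 : 0 ≤ q := (norm_nonneg _).trans h1
        refine (norm_sub_le _ _).trans ?_
        rw [norm_mul, norm_mul, norm_mul, Complex.norm_real, Complex.norm_real, Complex.norm_real,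
          Real.norm_eq_abs, Real.norm_eq_abs, Real.norm_eq_abs, abs_pow, abs_of_nonneg hs0]
        have h4 : |V y| ^ 3 * ‖star f ⬝ᵥ (T1 Z0 A y V *ᵥ g)‖ ≤ β ^ 3 * q :=
          mul_le_mul (pow_le_pow_left₀ (abs_nonneg _) (hV y) 3) h1 (norm_nonneg _) (by positivity)
        have h5 : ‖star f ⬝ᵥ (T2 Z0 A y V *ᵥ g) + star f ⬝ᵥ (T3 Z0 A y V *ᵥ g)‖ ≤ 3 * q :=
          (norm_add_le _ _).trans (by linarith)
        have h6 : s2 * |V y| * ‖star f ⬝ᵥ (T2 Z0 A y V *ᵥ g) +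
            star f ⬝ᵥ (T3 Z0 A y V *ᵥ g)‖ ≤ β ^ 2 * β * (3 * q) :=
          mul_le_mul (mul_le_mul hs (hV y) (abs_nonneg _) (by positivity)) h5 (norm_nonneg _)
            (by positivity)
        calc _ ≤ β ^ 3 * q + β ^ 2 * β * (3 * q) := add_le_add h4 h6
          _ = _ := by ring
    _ = 4 * β ^ 3 * (K ^ 2 * a) *
        ∑ y, nn (A y *ᵥ f) * nn (A y *ᵥ (GG Z0 A V *ᵥ g)) := by
        rw [Finset.mul_sum]
        exact Finset.sum_congr rfl fun y _ => by ring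
    _ ≤ 4 * β ^ 3 * (K ^ 2 * a) * (v2 * K) := by
        gcongr
    _ = 4 * β ^ 3 * a * v2 * K ^ 3 := by ring

/-- the pointwise identity -/
theorem AdG.pointwise (H : AdG Z0 A a v2 Q K) (V : m → ℝ) (s2 : ℝ) (f g : n → ℂ) :
    (star f ᵥ* Z0) ⬝ᵥ (GG Z0 A V *ᵥ g) -
      (s2 : ℂ) * (star f ⬝ᵥ ((Psi A (GG Z0 A V) * GG Z0 A V) *ᵥ g)) - star f ⬝ᵥ g =
    -(∑ y, ((V y : ℂ) * (star f ⬝ᵥ ((A y * GG Z0 A (Function.update V y 0)) *ᵥ g)) -
      (((V y) ^ 2 : ℝ) : ℂ) * (star f ⬝ᵥ ((A y * GG Z0 A (Function.update V y 0) * A y *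
        GG Z0 A (Function.update V y 0)) *ᵥ g)) +
      (s2 : ℂ) * (star f ⬝ᵥ ((A y * GG Z0 A (Function.update V y 0) * A y *
        GG Z0 A (Function.update V y 0)) *ᵥ g)))) - G3 Z0 A s2 f g V := by
  have h1 := H.mulG V
  -- the functional
  have hl : ∀ y, (V y : ℂ) * (star f ⬝ᵥ ((A y * GG Z0 A V) *ᵥ g)) +
      (s2 : ℂ) * (star f ⬝ᵥ ((A y * GG Z0 A V * A y * GG Z0 A V) *ᵥ g)) =
      ((V y : ℂ) * (star f ⬝ᵥ ((A y * GG Z0 A (Function.update V y 0)) *ᵥ g)) -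
      (((V y) ^ 2 : ℝ) : ℂ) * (star f ⬝ᵥ ((A y * GG Z0 A (Function.update V y 0) * A y *
        GG Z0 A (Function.update V y 0)) *ᵥ g)) +
      (s2 : ℂ) * (star f ⬝ᵥ ((A y * GG Z0 A (Function.update V y 0) * A y *
        GG Z0 A (Function.update V y 0)) *ᵥ g))) +
      ((((V y) ^ 3 : ℝ) : ℂ) * (star f ⬝ᵥ (T1 Z0 A y V *ᵥ g)) -
    (s2 * V y : ℂ) * (star f ⬝ᵥ (T2 Z0 A y V *ᵥ g) + star f ⬝ᵥ (T3 Z0 A y V *ᵥ g))) := by
    intro y
    have h := congrArg (fun M : Matrix n n ℂ => star f ⬝ᵥ (M *ᵥ g)) (H.expand V y s2)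
    simp only [Matrix.add_mulVec, Matrix.sub_mulVec, Matrix.smul_mulVec, dotProduct_add,
      dotProduct_sub, dotProduct_smul, smul_eq_mul] at h
    exact h
  have h2 : Z0 * GG Z0 A V = 1 - ∑ y, (V y : ℂ) • (A y * GG Z0 A V) := by
    refine eq_sub_of_add_eq (Eq.trans ?_ h1)
    unfold XX
    rw [add_mul, Finset.sum_mul]
    simp only [smul_mul_assoc]
  have h3 : (star f ᵥ* Z0) ⬝ᵥ (GG Z0 A V *ᵥ g) = star f ⬝ᵥ g -
        ∑ y, (V y : ℂ) * (star f ⬝ᵥ ((A y * GG Z0 A V) *ᵥ g)) := by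
    rw [← Matrix.dotProduct_mulVec, Matrix.mulVec_mulVec, h2, Matrix.sub_mulVec,
      Matrix.one_mulVec, dotProduct_sub, Matrix.sum_mulVec, dotProduct_sum]
    simp only [Matrix.smul_mulVec, dotProduct_smul, smul_eq_mul]
  have h4 : (s2 : ℂ) * (star f ⬝ᵥ ((Psi A (GG Z0 A V) * GG Z0 A V) *ᵥ g)) =
      ∑ y, (s2 : ℂ) * (star f ⬝ᵥ ((A y * GG Z0 A V * A y * GG Z0 A V) *ᵥ g)) := by
    unfold Psi
    rw [Finset.sum_mul, Matrix.sum_mulVec, dotProduct_sum, Finset.mul_sum]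
  rw [h3, h4]
  unfold G3
  have h5 : ∀ a b c : ℂ, a - b - c - a = -(b + c) := fun a b c => by ring
  rw [h5, ← neg_add', ← Finset.sum_add_distrib, ← Finset.sum_add_distrib]
  congr 1
  exact Finset.sum_congr rfl fun y _ => hl y

end res

theorem thirdG (h : S_FAC) {Z0 : Matrix n n ℂ} {A : m → Matrix n n ℂ} {a v2 Q K : ℝ}
    (H : AdG Z0 A a v2 Q K) (μ : Measure ℝ) [IsProbabilityMeasure μ] (β s2 : ℝ) (hβ : 0 < β)
    (hsup : ∀ᵐ s ∂μ, |s| ≤ β) (hmean : ∫ s, s ∂μ = 0) (hvar : ∫ s, s ^ 2 ∂μ = s2)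
    (hβa : β * a * K ≤ 1) (f g : n → ℂ) (hf : nsq f = 1) (hg : nsq g = 1) :
    ‖star f ⬝ᵥ ((Z0 * MG Z0 A μ - (s2 : ℂ) • SG Z0 A μ - 1) *ᵥ g)‖ ≤
      4 * β ^ 3 * a * v2 * K ^ 3 := by
  have hP : IsProbabilityMeasure (PP m μ) := by
    unfold PP
    infer_instance
  -- the potential is bounded
  have hV : ∀ᵐ V ∂(PP m μ), ∀ y, |V y| ≤ β := by
    rw [ae_all_iff]
    intro y
    have h1 := (MeasureTheory.measurePreserving_eval (fun _ : m => μ) y).quasiMeasurePreserving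
    exact h1.ae hsup
  have hs0 : 0 ≤ s2 := by
    rw [← hvar]
    exact integral_nonneg fun s => sq_nonneg s
  have hs : s2 ≤ β ^ 2 := by
    rw [← hvar]
    have hb : ∀ᵐ s ∂μ, s ^ 2 ≤ β ^ 2 := by
      filter_upwards [hsup] with s h1
      exact sq_le_sq' (abs_le.1 h1).1 (abs_le.1 h1).2
    have hi : Integrable (fun s : ℝ => s ^ 2) μ := by
      refine Integrable.of_bound (by fun_prop) (β ^ 2) ?_
      filter_upwards [hb] with s h1
      rwa [Real.norm_of_nonneg (sq_nonneg s)]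
    calc ∫ s, s ^ 2 ∂μ ≤ ∫ _, β ^ 2 ∂μ := integral_mono_ae hi (integrable_const _) hb
      _ = β ^ 2 := by simp
  have hVI : ∀ y, IB (PP m μ) (fun V => (V y : ℂ)) := fun y =>
    ⟨Complex.continuous_ofReal.comp (continuous_apply y), β, by
      filter_upwards [hV] with V h1
      rw [Complex.norm_real]
      exact h1 y⟩
  have hR : IM (PP m μ) (fun V => GG Z0 A V) := H.im
  have hRy : ∀ y, IM (PP m μ) (fun V => GG Z0 A (Function.update V y 0)) := fun y => H.imy y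
  have hPsi : IM (PP m μ) (fun V => Psi A (GG Z0 A V)) := by
    intro i j
    unfold Psi
    simp only [Matrix.sum_apply]
    exact IB.sum _ fun y => (((IM.const (A y)).mul hR).mul (IM.const (A y))) i j
  set G1 : m → (m → ℝ) → ℂ := fun y V =>
    star f ⬝ᵥ ((A y * GG Z0 A (Function.update V y 0)) *ᵥ g) with hG1
  set G2 : m → (m → ℝ) → ℂ := fun y V =>
    star f ⬝ᵥ ((A y * GG Z0 A (Function.update V y 0) * A y *
        GG Z0 A (Function.update V y 0)) *ᵥ g) with hG2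
  have iG1 : ∀ y, IB (PP m μ) (G1 y) := fun y => ((IM.const (A y)).mul (hRy y)).bl _ _
  have iG2 : ∀ y, IB (PP m μ) (G2 y) := fun y =>
    ((((IM.const (A y)).mul (hRy y)).mul (IM.const (A y))).mul (hRy y)).bl _ _
  have iT1 : ∀ y, IB (PP m μ) (fun V => star f ⬝ᵥ (T1 Z0 A y V *ᵥ g)) := fun y =>
    (((IM.const (A y)).mul ((hRy y).mul ((IM.const (A y)).mul ((hRy y).mul
      ((IM.const (A y)).mul hR)))))).bl _ _
  have iT2 : ∀ y, IB (PP m μ) (fun V => star f ⬝ᵥ (T2 Z0 A y V *ᵥ g)) := fun y =>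
    (((IM.const (A y)).mul (hR.mul ((IM.const (A y)).mul ((hRy y).mul
      ((IM.const (A y)).mul (hRy y))))))).bl _ _
  have iT3 : ∀ y, IB (PP m μ) (fun V => star f ⬝ᵥ (T3 Z0 A y V *ᵥ g)) := fun y =>
    (((IM.const (A y)).mul (hR.mul ((IM.const (A y)).mul ((hRy y).mul
      ((IM.const (A y)).mul hR)))))).bl _ _
  have iG3 : IB (PP m μ) (G3 Z0 A s2 f g) := by
    have e : G3 Z0 A s2 f g = fun V => ∑ y, (((V y : ℂ) * ((V y : ℂ) * (V y : ℂ))) *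
        (star f ⬝ᵥ (T1 Z0 A y V *ᵥ g)) + (-(s2 : ℂ) * (V y : ℂ)) *
        (star f ⬝ᵥ (T2 Z0 A y V *ᵥ g) + star f ⬝ᵥ (T3 Z0 A y V *ᵥ g))) := by
      funext V
      unfold G3
      refine Finset.sum_congr rfl fun y _ => ?_
      push_cast
      ring
    rw [e]
    exact IB.sum _ fun y => (((hVI y).mul ((hVI y).mul (hVI y))).mul (iT1 y)).add
      (((IB.const (-(s2 : ℂ))).mul (hVI y)).mul ((iT2 y).add (iT3 y)))
  -- the first and second order terms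
  have z1 : ∀ y, ∫ V, (V y : ℂ) * G1 y V ∂(PP m μ) = 0 := by
    intro y
    have := h m μ y (fun s => s) (G1 y) continuous_id (iG1 y).1 (by
      intro V t
      simp only [hG1, Function.update_idem])
    rw [this, hmean]
    simp
  have z2 : ∀ y, ∫ V, (((V y) ^ 2 : ℝ) : ℂ) * G2 y V ∂(PP m μ) =
      (s2 : ℂ) * ∫ V, G2 y V ∂(PP m μ) := by
    intro y
    have := h m μ y (fun s => s ^ 2) (G2 y) (by fun_prop) (iG2 y).1 (by
      intro V t
      simp only [hG2, Function.update_idem])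
    rw [this, hvar]
  -- the left side as an integral
  have hleft : star f ⬝ᵥ ((Z0 * MG Z0 A μ -
      (s2 : ℂ) • SG Z0 A μ - 1) *ᵥ g) = - ∫ V, G3 Z0 A s2 f g V ∂(PP m μ) := by
    have e1 : star f ⬝ᵥ ((Z0 * MG Z0 A μ - (s2 : ℂ) • SG Z0 A μ - 1) *ᵥ g) =
        (star f ᵥ* Z0) ⬝ᵥ (MG Z0 A μ *ᵥ g) -
        (s2 : ℂ) * (star f ⬝ᵥ (SG Z0 A μ *ᵥ g)) - star f ⬝ᵥ g := by
      rw [Matrix.sub_mulVec, Matrix.sub_mulVec, Matrix.one_mulVec, dotProduct_sub,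
        dotProduct_sub, Matrix.smul_mulVec, dotProduct_smul, smul_eq_mul,
        ← Matrix.mulVec_mulVec, Matrix.dotProduct_mulVec (star f)]
    rw [e1]
    unfold MG SG
    rw [int_bl hR, int_bl (hPsi.mul hR), ← integral_const_mul]
    have i1 : Integrable (fun V => (star f ᵥ* Z0) ⬝ᵥ (GG Z0 A V *ᵥ g)) (PP m μ) :=
      (hR.bl _ _).int
    have i2 : Integrable (fun V => (s2 : ℂ) * (star f ⬝ᵥ ((Psi A (GG Z0 A V) * GG Z0 A V) *ᵥ
        g))) (PP m μ) := ((IB.const (s2 : ℂ)).mul ((hPsi.mul hR).bl _ _)).int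
    rw [← integral_sub i1 i2]
    have e2 : star f ⬝ᵥ g = ∫ _V : m → ℝ, star f ⬝ᵥ g ∂(PP m μ) := by simp
    have i12 : Integrable (fun V => (star f ᵥ* Z0) ⬝ᵥ (GG Z0 A V *ᵥ g) - (s2 : ℂ) * (star f ⬝ᵥ
        ((Psi A (GG Z0 A V) * GG Z0 A V) *ᵥ g))) (PP m μ) := i1.sub i2
    rw [e2, ← integral_sub i12 (integrable_const _)]
    have i3 : ∀ y, IB (PP m μ) (fun V => (V y : ℂ) * G1 y V) := fun y => (hVI y).mul (iG1 y)
    have i4 : ∀ y, IB (PP m μ) (fun V => (((V y) ^ 2 : ℝ) : ℂ) * G2 y V) := by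
      intro y
      have : (fun V : m → ℝ => (((V y) ^ 2 : ℝ) : ℂ) * G2 y V) = fun V : m → ℝ =>
          ((V y : ℂ) * (V y : ℂ)) * G2 y V := by
        funext V
        push_cast
        ring
      rw [this]
      exact ((hVI y).mul (hVI y)).mul (iG2 y)
    have i5 : ∀ y, IB (PP m μ) (fun V => (s2 : ℂ) * G2 y V) := fun y =>
      (IB.const (s2 : ℂ)).mul (iG2 y)
    have e3 : ∀ V : m → ℝ, (star f ᵥ* Z0) ⬝ᵥ (GG Z0 A V *ᵥ g) -
        (s2 : ℂ) * (star f ⬝ᵥ ((Psi A (GG Z0 A V) * GG Z0 A V) *ᵥ g)) - star f ⬝ᵥ g =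
        -(∑ y, ((V y : ℂ) * G1 y V - (((V y) ^ 2 : ℝ) : ℂ) * G2 y V + (s2 : ℂ) * G2 y V)) -
          G3 Z0 A s2 f g V := fun V => H.pointwise V s2 f g
    simp only [e3]
    have i6 : ∀ y, Integrable (fun V => (V y : ℂ) * G1 y V -
        (((V y) ^ 2 : ℝ) : ℂ) * G2 y V + (s2 : ℂ) * G2 y V) (PP m μ) := fun y =>
      ((i3 y).int.sub (i4 y).int).add (i5 y).int
    have i7 : Integrable (fun V : m → ℝ => -(∑ y, ((V y : ℂ) * G1 y V -
        (((V y) ^ 2 : ℝ) : ℂ) * G2 y V + (s2 : ℂ) * G2 y V))) (PP m μ) :=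
      (integrable_finsetSum _ fun y _ => i6 y).neg
    rw [integral_sub i7 iG3.int, integral_neg, integral_finsetSum _ fun y _ => i6 y]
    have e4 : ∀ y, ∫ V, ((V y : ℂ) * G1 y V - (((V y) ^ 2 : ℝ) : ℂ) * G2 y V +
        (s2 : ℂ) * G2 y V) ∂(PP m μ) = 0 := by
      intro y
      have i8 : Integrable (fun V : m → ℝ => (V y : ℂ) * G1 y V -
        (((V y) ^ 2 : ℝ) : ℂ) * G2 y V) (PP m μ) := (i3 y).int.sub (i4 y).int
      rw [integral_add i8 (i5 y).int, integral_sub (i3 y).int (i4 y).int,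
        z1, z2, integral_const_mul]
      ring
    rw [Finset.sum_eq_zero fun y _ => e4 y]
    ring
  rw [hleft, norm_neg]
  refine (norm_integral_le_of_norm_le_const (C := 4 * β ^ 3 * a * v2 * K ^ 3) ?_).trans ?_
  · filter_upwards [hV] with V h1
    exact H.bound β s2 hβ hs0 hs hβa f g hf hg V h1
  · simp

end Pool.Agent.TH794.QD
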