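import Pool.Agent.TH794.QD.Gen

/-! The variance and the fluctuation of the self-energy for a general family. -/

set_option autoImplicit false
set_option linter.unusedSectionVars false

open scoped BigOperators Matrix
open MeasureTheory

namespace Pool.Agent.TH794.QD

open Pool.Agent.W788.BK
open Pool.Agent.W240.BK

variable {n m : Type} [Fintype n] [DecidableEq n] [Fintype m] [DecidableEq m]

variable {Z0 : Matrix n n ℂ} {A : m → Matrix n n ℂ} {a v2 Q K : ℝ}

theorem AdG.adm (H : AdG Z0 A a v2 Q K) : Adm (0 : Matrix n n ℂ) A a v2 Q :=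
  ⟨Matrix.isHermitian_zero, H.hA, H.ha0, H.hv0, H.hQ0, H.ha, H.hv, H.hQ⟩

theorem AdG.diff (H : AdG Z0 A a v2 Q K) (V : m → ℝ) (y : m) (Z : Matrix n n ℂ) :
    (GG Z0 A V * Z).trace - (GG Z0 A (Function.update V y 0) * Z).trace =
      -((V y : ℂ) * (A y * (GG Z0 A V * Z * GG Z0 A V)).trace) -
      (V y : ℂ) ^ 2 * ((A y * GG Z0 A (Function.update V y 0)) *
        (A y * (GG Z0 A V * Z * GG Z0 A V))).trace := by
  obtain ⟨h1, h2⟩ := H.update V y
  generalize GG Z0 A (Function.update V y 0) = S at h1 h2 ⊢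
  generalize GG Z0 A V = R at h1 h2 ⊢
  generalize A y = B at h1 h2 ⊢
  generalize (V y : ℂ) = c at h1 h2 ⊢
  have e1 : S = R + c • (S * B * R) := by
    rw [eq_sub_iff_add_eq] at h2
    exact h2.symm
  have e2 : R - S = -(c • (R * B * R)) - c ^ 2 • (R * B * (S * (B * R))) := by
    have e3 : R - S = -(c • (R * B * S)) := by
      conv_lhs => rw [h1]
      abel
    rw [e3]
    conv_lhs => rw [e1]
    rw [mul_add, mul_smul_comm, smul_add, smul_smul, ← sq, neg_add, sub_eq_add_neg,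
      mul_assoc S B R]
  rw [← Matrix.trace_sub, ← sub_mul, e2, sub_mul, neg_mul, smul_mul_assoc, smul_mul_assoc,
    Matrix.trace_sub, Matrix.trace_neg, Matrix.trace_smul, Matrix.trace_smul, smul_eq_mul,
    smul_eq_mul]
  have t1 : (R * B * R * Z).trace = (B * (R * Z * R)).trace := by
    rw [mul_assoc, mul_assoc, Matrix.trace_mul_comm]
    congr 1
    noncomm_ring
  have t2 : (R * B * (S * (B * R)) * Z).trace = (B * S * (B * (R * Z * R))).trace := by
    rw [mul_assoc, mul_assoc, Matrix.trace_mul_comm]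
    congr 1
    noncomm_ring
  rw [t1, t2]

theorem AdG.point (H : AdG Z0 A a v2 Q K) {β : ℝ} (hβ : 0 < β) (hv : β ^ 2 * v2 ≤ 1)
    (Z : Matrix n n ℂ) (V : m → ℝ) (hV : ∀ y, |V y| ≤ β) :
    ∑ y, ‖(GG Z0 A V * Z).trace - (GG Z0 A (Function.update V y 0) * Z).trace‖ ^ 2 ≤
      4 * β ^ 2 * Q * K ^ 6 * hs Z := by
  obtain ⟨W, hW⟩ : ∃ W, W = GG Z0 A V * Z * GG Z0 A V := ⟨_, rfl⟩
  have hQ0 := H.hQ0
  have hK0 := H.K0
  have hWn := hs_nonneg W
  have hWle : hs W ≤ K ^ 2 * (K ^ 2 * hs Z) := by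
    rw [hW]
    refine (hs_mul_right _ _ _ (H.hbH V)).trans ?_
    exact mul_le_mul_of_nonneg_left (hs_mul_left _ _ _ (H.hb V)) (by positivity)
  have h1 : ∀ y, ‖(GG Z0 A V * Z).trace -
      (GG Z0 A (Function.update V y 0) * Z).trace‖ ^ 2 ≤
      2 * β ^ 2 * ‖(A y * W).trace‖ ^ 2 + 2 * β ^ 4 * (K ^ 2 * Q * hs (A y * W)) := by
    intro y
    rw [H.diff V y Z, ← hW]
    have b1 : ‖(V y : ℂ)‖ ≤ β := by
      rw [Complex.norm_real]
      exact hV y
    have b2 : ‖(A y * GG Z0 A (Function.update V y 0) * (A y * W)).trace‖ ^ 2 ≤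
        K ^ 2 * Q * hs (A y * W) := by
      refine (cs_trace _ _).trans ?_
      refine mul_le_mul_of_nonneg_right ?_ (hs_nonneg _)
      refine (hs_mul_right _ _ _ (H.hbH _)).trans ?_
      exact mul_le_mul_of_nonneg_left (hs_A_le H.adm y) (by positivity)
    have b3 : ‖-((V y : ℂ) * (A y * W).trace) -
        (V y : ℂ) ^ 2 * (A y * GG Z0 A (Function.update V y 0) * (A y * W)).trace‖ ≤
        β * ‖(A y * W).trace‖ +
        β ^ 2 * ‖(A y * GG Z0 A (Function.update V y 0) * (A y * W)).trace‖ := by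
      refine (norm_sub_le _ _).trans ?_
      rw [norm_neg, norm_mul, norm_mul, norm_pow]
      gcongr
    calc _ ≤ (β * ‖(A y * W).trace‖ +
        β ^ 2 * ‖(A y * GG Z0 A (Function.update V y 0) * (A y * W)).trace‖) ^ 2 :=
          pow_le_pow_left₀ (norm_nonneg _) b3 2
      _ ≤ 2 * β ^ 2 * ‖(A y * W).trace‖ ^ 2 + 2 * β ^ 4 *
        ‖(A y * GG Z0 A (Function.update V y 0) * (A y * W)).trace‖ ^ 2 := by
          nlinarith [sq_nonneg (β * ‖(A y * W).trace‖ -
            β ^ 2 * ‖(A y * GG Z0 A (Function.update V y 0) * (A y * W)).trace‖)]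
      _ ≤ _ := by gcongr
  have h2 : ∑ y, ‖(GG Z0 A V * Z).trace -
      (GG Z0 A (Function.update V y 0) * Z).trace‖ ^ 2 ≤
      2 * β ^ 2 * (Q * hs W) + 2 * β ^ 4 * (K ^ 2 * Q * (v2 * hs W)) := by
    refine (Finset.sum_le_sum fun y _ => h1 y).trans ?_
    rw [Finset.sum_add_distrib, ← Finset.mul_sum, ← Finset.mul_sum, ← Finset.mul_sum]
    have := H.hQ W
    have := sum_hs_AW H.adm W
    gcongr
  have h3 : 2 * β ^ 4 * (K ^ 2 * Q * (v2 * hs W)) ≤
      2 * β ^ 2 * (K ^ 2 * Q * hs W) := by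
    have e1 : 2 * β ^ 4 * (K ^ 2 * Q * (v2 * hs W)) =
      (β ^ 2 * v2) * (2 * β ^ 2 * (K ^ 2 * Q * hs W)) := by ring
    rw [e1]
    have : 0 ≤ 2 * β ^ 2 * (K ^ 2 * Q * hs W) := by positivity
    exact mul_le_of_le_one_left this hv
  have h4 : 1 ≤ K ^ 2 := one_le_pow₀ H.hK1
  have h5 : 2 * β ^ 2 * (Q * hs W) ≤ 2 * β ^ 2 * (K ^ 2 * Q * hs W) := by
    rw [mul_assoc (K ^ 2)]
    have : 0 ≤ Q * hs W := by positivity
    exact mul_le_mul_of_nonneg_left (le_mul_of_one_le_left this h4) (by positivity)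
  calc _ ≤ 4 * β ^ 2 * (K ^ 2 * Q * hs W) := by linarith
    _ ≤ 4 * β ^ 2 * (K ^ 2 * Q * (K ^ 2 * (K ^ 2 * hs Z))) := by gcongr
    _ = 4 * β ^ 2 * Q * K ^ 6 * hs Z := by ring

theorem AdG.trace_bd (H : AdG Z0 A a v2 Q K) (Z : Matrix n n ℂ) :
    ∃ C : ℝ, 0 ≤ C ∧ ∀ V, ‖(GG Z0 A V * Z).trace‖ ≤ C := by
  refine ⟨Real.sqrt (K ^ 2 * hs (1 : Matrix n n ℂ) * hs Z), Real.sqrt_nonneg _, fun V => ?_⟩
  refine Real.le_sqrt_of_sq_le ((cs_trace _ _).trans ?_)
  refine mul_le_mul_of_nonneg_right ?_ (hs_nonneg Z)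
  have := hs_mul_left (GG Z0 A V) 1 _ (H.hb V)
  rwa [mul_one] at this

theorem varG (h : S_ES) (H : AdG Z0 A a v2 Q K) (μ : Measure ℝ) [IsProbabilityMeasure μ] (β : ℝ)
    (hβ : 0 < β) (hμ : ∀ᵐ s ∂μ, |s| ≤ β) (hv : β ^ 2 * v2 ≤ 1) (Z : Matrix n n ℂ) :
    ∫ V, ‖(GG Z0 A V * Z).trace - ∫ U, (GG Z0 A U * Z).trace ∂(PP m μ)‖ ^ 2 ∂(PP m μ) ≤
      4 * β ^ 2 * Q * K ^ 6 * hs Z := by
  have hc : Continuous fun V => (GG Z0 A V * Z).trace :=
    (H.cont.matrix_mul continuous_const).matrix_trace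
  obtain ⟨C, hC0, hC⟩ := H.trace_bd Z
  have h1 := h m μ (fun V => (GG Z0 A V * Z).trace) hc ⟨C, hC⟩
  refine h1.trans ?_
  have hint : ∀ y, Integrable (fun V : m → ℝ => ‖(GG Z0 A V * Z).trace -
      (GG Z0 A (Function.update V y 0) * Z).trace‖ ^ 2) (PP m μ) := by
    intro y
    have c1 : Continuous fun V : m → ℝ => Function.update V y (0 : ℝ) :=
      continuous_id.update y continuous_const
    have c2 : Continuous fun V : m → ℝ => ‖(GG Z0 A V * Z).trace -
      (GG Z0 A (Function.update V y 0) * Z).trace‖ ^ 2 :=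
      ((hc.sub (hc.comp c1)).norm).pow 2
    refine Integrable.of_bound c2.aestronglyMeasurable ((C + C) ^ 2) ?_
    refine Filter.Eventually.of_forall fun V => ?_
    rw [Real.norm_of_nonneg (by positivity)]
    refine pow_le_pow_left₀ (norm_nonneg _) ((norm_sub_le _ _).trans ?_) 2
    exact add_le_add (hC _) (hC _)
  rw [← integral_finsetSum _ fun y _ => hint y]
  have h2 : ∫ V, ∑ y, ‖(GG Z0 A V * Z).trace -
      (GG Z0 A (Function.update V y 0) * Z).trace‖ ^ 2 ∂(PP m μ) ≤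
      ∫ _, 4 * β ^ 2 * Q * K ^ 6 * hs Z ∂(PP m μ) := by
    refine integral_mono_ae (integrable_finsetSum _ fun y _ => hint y)
      (integrable_const _) ?_
    filter_upwards [ae_PP μ hμ] with V hV
    exact H.point hβ hv Z V hV
  rwa [integral_const, smul_eq_mul, probReal_univ, one_mul] at h2

theorem fluctG (h : S_ES) (H : AdG Z0 A a v2 Q K) (μ : Measure ℝ) [IsProbabilityMeasure μ]
    (β : ℝ) (hβ : 0 < β) (hμ : ∀ᵐ s ∂μ, |s| ≤ β) (hv : β ^ 2 * v2 ≤ 1)
    (f g : n → ℂ) (hf : nsq f = 1) (hg : nsq g = 1) :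
    ‖star f ⬝ᵥ ((SG Z0 A μ - Psi A (MG Z0 A μ) * MG Z0 A μ) *ᵥ g)‖ ≤
      2 * β * Q * Real.sqrt v2 * K ^ 4 := by
  obtain ⟨R, hR⟩ : ∃ R, R = GG Z0 A := ⟨_, rfl⟩
  obtain ⟨M, hM⟩ : ∃ M, M = MG Z0 A μ := ⟨_, rfl⟩
  have hM' : M = Matrix.of fun i j => ∫ V, R V i j ∂(PP m μ) := by rw [hM, hR]; rfl
  have bR : BM R := by
    rw [hR]
    exact H.bm
  have bR0 : BM fun V => R V - M := bR.sub (BM.const M)
  have bP : BM fun V => Psi A (R V - M) := bR0.psi A
  have bPR : BM fun V => Psi A (R V) * R V := (bR.psi A).mul bR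
  have hSE : SG Z0 A μ = Matrix.of fun i j => ∫ V, (Psi A (R V) * R V) i j ∂(PP m μ) := by
    rw [hR]
    rfl
  -- the quantity as an integral
  have key : star f ⬝ᵥ ((SG Z0 A μ - Psi A (MG Z0 A μ) * MG Z0 A μ) *ᵥ g) =
      ∫ V, star f ⬝ᵥ ((Psi A (R V - M) * (R V - M)) *ᵥ g) ∂(PP m μ) := by
    rw [← hM]
    have e1 : ∀ V, star f ⬝ᵥ ((Psi A (R V - M) * (R V - M)) *ᵥ g) =
        l3 f g (Psi A (R V) * R V) - l1 A M f g (R V) - l2 A M f g (R V) +
          l3 f g (Psi A M * M) := by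
      intro V
      have e2 : Psi A (R V - M) * (R V - M) = Psi A (R V) * R V - Psi A (R V) * M -
          Psi A M * R V + Psi A M * M := by
        rw [Psi_sub, sub_mul, mul_sub, mul_sub]
        abel
      have e3 : star f ⬝ᵥ ((Psi A (R V - M) * (R V - M)) *ᵥ g) =
        l3 f g (Psi A (R V - M) * (R V - M)) := rfl
      rw [e3, e2, map_add, map_sub, map_sub]
      rfl
    simp only [e1]
    have c3 : BC fun V => l3 f g (Psi A (R V) * R V) := bPR.dot (star f) g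
    have c1 : BC fun V => l1 A M f g (R V) := ((bR.psi A).mul (BM.const M)).dot (star f) g
    have c2 : BC fun V => l2 A M f g (R V) := ((BM.const (Psi A M)).mul bR).dot (star f) g
    have j1 : Integrable (fun V => l3 f g (Psi A (R V) * R V) - l1 A M f g (R V)) (PP m μ) :=
      (c3.integrable μ).sub (c1.integrable μ)
    have j2 : Integrable (fun V => l3 f g (Psi A (R V) * R V) - l1 A M f g (R V) -
      l2 A M f g (R V)) (PP m μ) := j1.sub (c2.integrable μ)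
    rw [integral_add j2 (integrable_const _), integral_sub j1
      (c2.integrable μ), integral_sub (c3.integrable μ) (c1.integrable μ),
      int_lin μ bPR (l3 f g), int_lin μ bR (l1 A M f g), int_lin μ bR (l2 A M f g), ← hM',
      ← hSE, integral_const, probReal_univ, one_smul]
    have e4 : l1 A M f g M = l3 f g (Psi A M * M) := rfl
    have e5 : l2 A M f g M = l3 f g (Psi A M * M) := rfl
    have e6 : star f ⬝ᵥ ((SG Z0 A μ - Psi A M * M) *ᵥ g) =
      l3 f g (SG Z0 A μ - Psi A M * M) := rfl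
    rw [e4, e5, e6, map_sub]
    ring
  rw [key]
  -- the two factors
  obtain ⟨a1, ha1⟩ : ∃ a1 : (m → ℝ) → ℝ, a1 = fun V =>
    Real.sqrt (nsq ((Psi A (R V - M))ᴴ *ᵥ f)) := ⟨_, rfl⟩
  obtain ⟨b1, hb1⟩ : ∃ b1 : (m → ℝ) → ℝ, b1 = fun V =>
    Real.sqrt (nsq ((R V - M) *ᵥ g)) := ⟨_, rfl⟩
  have sa : ∀ V, a1 V ^ 2 = ∑ i, ‖((R V - M) * ZZ A f i).trace‖ ^ 2 := by
    intro V
    rw [ha1]
    simp only
    rw [Real.sq_sqrt (nsq_nonneg _)]
    unfold nsq
    exact Finset.sum_congr rfl fun i _ => by rw [psi_entry H.hA]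
  have sb : ∀ V, b1 V ^ 2 = ∑ i, ‖((R V - M) *ᵥ g) i‖ ^ 2 := by
    intro V
    rw [hb1]
    simp only
    rw [Real.sq_sqrt (nsq_nonneg _)]
    rfl
  have bt : ∀ i, BC fun V => ((R V - M) * ZZ A f i).trace := fun i =>
    (bR0.mul (BM.const _)).trace
  have bv : ∀ i, BC fun V => ((R V - M) *ᵥ g) i := fun i => bR0.vec g i
  have sqint : ∀ c : (m → ℝ) → ℂ, BC c → Integrable (fun V => ‖c V‖ ^ 2) (PP m μ) ∧
      Continuous (fun V => ‖c V‖ ^ 2) ∧ ∃ C : ℝ, ∀ V, ‖c V‖ ^ 2 ≤ C := by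
    intro c hc
    obtain ⟨g1, C, hC⟩ := hc
    refine ⟨Integrable.of_bound (g1.norm.pow 2).aestronglyMeasurable (C ^ 2)
      (Filter.Eventually.of_forall fun V => ?_), g1.norm.pow 2, C ^ 2, fun V =>
      pow_le_pow_left₀ (norm_nonneg _) (hC V) 2⟩
    rw [Real.norm_of_nonneg (by positivity)]
    exact pow_le_pow_left₀ (norm_nonneg _) (hC V) 2
  have ia : Integrable (fun V => a1 V ^ 2) (PP m μ) := by
    simp only [sa]
    exact integrable_finsetSum _ fun i _ => (sqint _ (bt i)).1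
  have ib : Integrable (fun V => b1 V ^ 2) (PP m μ) := by
    simp only [sb]
    exact integrable_finsetSum _ fun i _ => (sqint _ (bv i)).1
  have ca : Continuous fun V => a1 V ^ 2 := by
    simp only [sa]
    exact continuous_finsetSum _ fun i _ => (sqint _ (bt i)).2.1
  have cb : Continuous fun V => b1 V ^ 2 := by
    simp only [sb]
    exact continuous_finsetSum _ fun i _ => (sqint _ (bv i)).2.1
  have a0 : ∀ V, 0 ≤ a1 V := fun V => by rw [ha1]; exact Real.sqrt_nonneg _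
  have b0 : ∀ V, 0 ≤ b1 V := fun V => by rw [hb1]; exact Real.sqrt_nonneg _
  have ca' : Continuous a1 := by
    have : a1 = fun V => Real.sqrt (a1 V ^ 2) := by
      funext V
      rw [Real.sqrt_sq (a0 V)]
    rw [this]
    exact ca.sqrt
  have cb' : Continuous b1 := by
    have : b1 = fun V => Real.sqrt (b1 V ^ 2) := by
      funext V
      rw [Real.sqrt_sq (b0 V)]
    rw [this]
    exact cb.sqrt
  have iab : Integrable (fun V => a1 V * b1 V) (PP m μ) := by
    refine Integrable.mono' (ia.add ib) (ca'.mul cb').aestronglyMeasurable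
      (Filter.Eventually.of_forall fun V => ?_)
    rw [Real.norm_of_nonneg (mul_nonneg (a0 V) (b0 V))]
    simp only [Pi.add_apply]
    nlinarith [sq_nonneg (a1 V - b1 V), sq_nonneg (a1 V), sq_nonneg (b1 V)]
  have h1 : ‖∫ V, star f ⬝ᵥ ((Psi A (R V - M) * (R V - M)) *ᵥ g) ∂(PP m μ)‖ ≤
      ∫ V, a1 V * b1 V ∂(PP m μ) := by
    refine norm_integral_le_of_norm_le iab (Filter.Eventually.of_forall fun V => ?_)
    rw [← Matrix.mulVec_mulVec, adjoint, ha1, hb1]
    exact cs_norm _ _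
  -- first factor
  have h2 : ∫ V, a1 V ^ 2 ∂(PP m μ) ≤ 4 * β ^ 2 * Q * K ^ 6 * (Q * v2) := by
    simp only [sa]
    rw [integral_finsetSum _ fun i _ => (sqint _ (bt i)).1]
    have e1 : ∀ i, ∫ V, ‖((R V - M) * ZZ A f i).trace‖ ^ 2 ∂(PP m μ) ≤
        4 * β ^ 2 * Q * K ^ 6 * hs (ZZ A f i) := by
      intro i
      have e2 := varG h H μ β hβ hμ hv (ZZ A f i)
      have e3 : (M * ZZ A f i).trace = ∫ U, (R U * ZZ A f i).trace ∂(PP m μ) := by
        have := int_lin μ bR (l5 (ZZ A f i))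
        rw [← hM'] at this
        exact this.symm
      rw [← hR, ← e3] at e2
      have e4 : ∀ V, ((R V - M) * ZZ A f i).trace =
          (R V * ZZ A f i).trace - (M * ZZ A f i).trace := fun V => by
        rw [sub_mul, Matrix.trace_sub]
      simp only [e4]
      exact e2
    refine (Finset.sum_le_sum fun i _ => e1 i).trans ?_
    rw [← Finset.mul_sum]
    have hQ0 := H.hQ0
    have hK0 := H.K0
    exact mul_le_mul_of_nonneg_left (sum_ZZ H.adm f hf) (by positivity)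
  -- second factor
  have h3 : ∫ V, b1 V ^ 2 ∂(PP m μ) ≤ K ^ 2 := by
    simp only [sb]
    rw [integral_finsetSum _ fun i _ => (sqint _ (bv i)).1]
    have bw : ∀ i, BC fun V => (R V *ᵥ g) i := fun i => bR.vec g i
    have e1 : ∀ i, ∫ V, ‖((R V - M) *ᵥ g) i‖ ^ 2 ∂(PP m μ) ≤
        ∫ V, ‖(R V *ᵥ g) i‖ ^ 2 ∂(PP m μ) := by
      intro i
      have e2 := var_le μ (bw i)
      have e3 : (M *ᵥ g) i = ∫ U, (R U *ᵥ g) i ∂(PP m μ) := by
        have := int_lin μ bR (l4 g i)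
        rw [← hM'] at this
        exact this.symm
      rw [← e3] at e2
      have e4 : ∀ V, ((R V - M) *ᵥ g) i = (R V *ᵥ g) i - (M *ᵥ g) i := fun V => by
        rw [Matrix.sub_mulVec, Pi.sub_apply]
      simp only [e4]
      exact e2
    refine (Finset.sum_le_sum fun i _ => e1 i).trans ?_
    rw [← integral_finsetSum _ fun i _ => (sqint _ (bw i)).1]
    have e5 : ∫ V, ∑ i, ‖(R V *ᵥ g) i‖ ^ 2 ∂(PP m μ) ≤ ∫ _, K ^ 2 ∂(PP m μ) := by
      refine integral_mono_ae (integrable_finsetSum _ fun i _ => (sqint _ (bw i)).1)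
        (integrable_const _) (Filter.Eventually.of_forall fun V => ?_)
      have := H.hb V g
      rw [hg, mul_one] at this
      rw [hR]
      exact this
    rwa [integral_const, smul_eq_mul, probReal_univ, one_mul] at e5
  have h4 := cs_int μ ia ib iab
  have hQ0 := H.hQ0
  have hv0 := H.hv0
  have hK0 := H.K0
  have h5 : (∫ V, a1 V * b1 V ∂(PP m μ)) ^ 2 ≤ (2 * β * Q * Real.sqrt v2 * K ^ 4) ^ 2 := by
    refine h4.trans ?_
    have e1 : (2 * β * Q * Real.sqrt v2 * K ^ 4) ^ 2 =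
        (4 * β ^ 2 * Q * K ^ 6 * (Q * v2)) * K ^ 2 := by
      rw [mul_pow, mul_pow, mul_pow, mul_pow, Real.sq_sqrt hv0]
      ring
    rw [e1]
    exact mul_le_mul h2 h3 (integral_nonneg fun V => sq_nonneg _) (by positivity)
  exact h1.trans (le_of_sq_le_sq h5 (by positivity))

end Pool.Agent.TH794.QD
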