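import Pool.Agent.TH794.QD.Cov
import Pool.Agent.TH794.QD.Core7
import Pool.Agent.TH794.LL2.Mean2

/-! The mean of the chain on the torus: the block equations. -/

set_option autoImplicit false
set_option linter.unusedSectionVars false

open scoped BigOperators Matrix
open MeasureTheory

namespace Pool.Agent.TH794.QD

open Pool.Agent.W788.BK
open Pool.Agent.TH794.LL2
open Pool.Agent.W788.MFP.Four (T e NN adj K ft Op q NN_pos e_zero)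

variable {d L : ℕ} [NeZero L]

/-- the weight -/
noncomputable def SD (E δ : ℝ) (σ : T d L → ℝ) : Matrix (T d L) (T d L) ℂ :=
  Matrix.diagonal fun k => ((σ k * δ / JJ E δ k : ℝ) : ℂ)

theorem SD_nsq (E δ : ℝ) (σ : T d L → ℝ) (hδ : 0 < δ) (hσ : ∀ k, |σ k| ≤ 1) (w : T d L → ℂ) :
    nsq (SD E δ σ *ᵥ w) ≤ nsq w := by
  unfold nsq SD
  refine Finset.sum_le_sum fun k _ => ?_
  rw [Matrix.mulVec_diagonal, norm_mul, mul_pow, Complex.norm_real, Real.norm_eq_abs]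
  apply mul_le_of_le_one_left (sq_nonneg _)
  apply pow_le_one₀ (abs_nonneg _)
  have h1 := JJ_pos (d := d) (L := L) E δ hδ k
  have h2 : δ ≤ JJ E δ k := Real.le_sqrt_of_sq_le (by linarith [sq_nonneg (adj k - E)])
  rw [abs_div, abs_mul, abs_of_pos h1, abs_of_pos hδ, div_le_one h1]
  calc |σ k| * δ ≤ 1 * δ := mul_le_mul_of_nonneg_right (hσ k) hδ.le
    _ ≤ _ := by linarith

/-- the blocks of the inverse -/
noncomputable def Bf (E δ θ η : ℝ) (σ : T d L → ℝ) (V : T d L → ℝ) (i j : Fin 3) :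
    Matrix (T d L) (T d L) ℂ :=
  sel (sel (RR (D0 E δ) (AA E δ θ) η V)ᴴ
      ((RR (D0 E δ) (AA E δ θ) η V)ᴴ * ((η : ℂ) • SD E δ σ) * RR (D0 E δ) (AA E δ θ) η V)
      ((RR (D0 E δ) (AA E δ θ) η V)ᴴ * ((η : ℂ) • SD E δ σ) * RR (D0 E δ) (AA E δ θ) η V *
        ((η : ℂ) • SD E δ σ) * RR (D0 E δ) (AA E δ θ) η V))
    (sel 0 (RR (D0 E δ) (AA E δ θ) η V)
      (RR (D0 E δ) (AA E δ θ) η V * ((η : ℂ) • SD E δ σ) * RR (D0 E δ) (AA E δ θ) η V))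
    (sel 0 0 (RR (D0 E δ) (AA E δ θ) η V)) i j

theorem cov_zero : Cov fun _ : T d L → ℝ => (0 : Matrix (T d L) (T d L) ℂ) := by
  intro V z k p
  simp

theorem cov_Bf (E δ θ η : ℝ) (σ : T d L → ℝ) (i j : Fin 3) :
    Cov fun V : T d L → ℝ => Bf E δ θ η σ V i j := by
  have hR := Cov.res (d := d) (L := L) E δ θ η
  have hC : Cov fun _ : T d L → ℝ => ((η : ℂ) • SD E δ σ : Matrix (T d L) (T d L) ℂ) := by
    have h1 : ((η : ℂ) • SD E δ σ : Matrix (T d L) (T d L) ℂ) =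
        Matrix.diagonal ((η : ℂ) • fun k => ((σ k * δ / JJ E δ k : ℝ) : ℂ)) := by
      unfold SD
      rw [Matrix.diagonal_smul]
    rw [h1]
    exact Cov.diag _
  revert i j
  refine all3 (all3 ?_ ?_ ?_) (all3 ?_ ?_ ?_) (all3 ?_ ?_ ?_)
  · exact hR.conj
  · exact (hR.conj.mul hC).mul hR
  · exact (((hR.conj.mul hC).mul hR).mul hC).mul hR
  · exact cov_zero
  · exact hR
  · exact (hR.mul hC).mul hR
  · exact cov_zero
  · exact cov_zero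
  · exact hR

/-- the unperturbed blocks -/
noncomputable def Zb (E δ η : ℝ) (σ : T d L → ℝ) (i j : Fin 3) : Matrix (T d L) (T d L) ℂ :=
  sel (sel (D0 E δ + ((η : ℂ) * Complex.I) • 1) (-((η : ℂ) • SD E δ σ)) 0)
    (sel 0 (D0 E δ - ((η : ℂ) * Complex.I) • 1) (-((η : ℂ) • SD E δ σ)))
    (sel 0 0 (D0 E δ - ((η : ℂ) * Complex.I) • 1)) i j

/-- the mean blocks -/
noncomputable def Mb (E δ θ η : ℝ) (σ : T d L → ℝ) (μ : Measure ℝ) (i j : Fin 3)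
    (k : T d L) : ℂ := ∫ V, Bf E δ θ η σ V i j k k ∂(PP (T d L) μ)

/-- the self-consistent term -/
noncomputable def Ps (E δ θ : ℝ) (B : T d L → ℂ) (k : T d L) : ℂ :=
  ∑ p, (((NN d L)⁻¹ * hi θ (k - p) * (JJ E δ k * JJ E δ p)⁻¹ : ℝ) : ℂ) * B p

theorem GG_Bf (E δ θ η : ℝ) (σ : T d L → ℝ) (V : T d L → ℝ) (hη : 0 < η)
    (h0 : (D0 (d := d) (L := L) E δ).IsHermitian)
    (hA : ∀ y, (AA (d := d) (L := L) E δ θ y).IsHermitian) :
    GG (Z3 (D0 E δ) ((η : ℂ) • SD E δ σ) η) (A3 (AA (d := d) (L := L) E δ θ)) V =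
      blk (Bf E δ θ η σ V) := GG3 _ _ _ η h0 hA hη V

theorem sel_Z3 (E δ η : ℝ) (σ : T d L → ℝ) :
    Z3 (D0 (d := d) (L := L) E δ) ((η : ℂ) • SD E δ σ) η = blk (Zb E δ η σ) := rfl

/-- the block equations -/
theorem block_eq (hES : S_ES) (hFA : S_FAC) (E δ θ η a v2 Q β s2 ε : ℝ) (σ : T d L → ℝ)
    (hδ : 0 < δ) (hη : 0 < η) (hη1 : η ≤ 1) (hσ : ∀ k, |σ k| ≤ 1)
    (hadm : Adm (D0 E δ) (AA (d := d) (L := L) E δ θ) a v2 Q)
    (μ : Measure ℝ) [IsProbabilityMeasure μ] (hβ : 0 < β) (hμ : ∀ᵐ s ∂μ, |s| ≤ β)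
    (h0 : ∫ s, s ∂μ = 0) (h2 : ∫ s, s ^ 2 ∂μ = s2) (hs2 : 0 ≤ s2)
    (hβa : β * a * (3 / η) ≤ 1) (hβv : β ^ 2 * v2 ≤ 1)
    (hε : 4 * β ^ 3 * a * v2 * (3 / η) ^ 3 +
      s2 * (2 * β * (3 * Q) * Real.sqrt v2 * (3 / η) ^ 4) ≤ ε) (i j : Fin 3) (k : T d L) :
    ‖∑ l, Zb E δ η σ i l k k * Mb E δ θ η σ μ l j k -
      (s2 : ℂ) * ∑ l, Ps E δ θ (Mb E δ θ η σ μ i l) k * Mb E δ θ η σ μ l j k -
      (1 : Matrix (Fin 3 × T d L) (Fin 3 × T d L) ℂ) (i, k) (j, k)‖ ≤ ε := by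
  have hH := adG3 hadm (SD E δ σ) η hη hη1 (SD_nsq E δ σ hδ hσ)
  have hXh := hadm.hX0
  have hAh := hadm.hA
  obtain ⟨MB, hMB⟩ : ∃ MB : Fin 3 → Fin 3 → Matrix (T d L) (T d L) ℂ, MB = fun i j =>
    Matrix.of fun k p => MG (Z3 (D0 E δ) ((η : ℂ) • SD E δ σ) η) (A3 (AA E δ θ)) μ (i, k) (j, p) :=
    ⟨_, rfl⟩
  have hMG : MG (Z3 (D0 E δ) ((η : ℂ) • SD E δ σ) η) (A3 (AA (d := d) (L := L) E δ θ)) μ =
      blk MB := by
    rw [hMB]
    ext ⟨i, k⟩ ⟨j, p⟩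
    rfl
  have hMBi : ∀ i j k p, MB i j k p = ∫ V, Bf E δ θ η σ V i j k p ∂(PP (T d L) μ) := by
    intro i j k p
    rw [hMB]
    simp only [Matrix.of_apply]
    unfold MG
    rw [Matrix.of_apply]
    refine integral_congr_ae (Filter.Eventually.of_forall fun V => ?_)
    simp only
    rw [GG_Bf E δ θ η σ V hη hXh hAh]
    rfl
  have hdiag : ∀ i j k p, k ≠ p → MB i j k p = 0 := by
    intro i j k p hkp
    rw [hMBi]
    exact (cov_Bf E δ θ η σ i j).off μ k p hkp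
  have hMk : ∀ i j k, MB i j k k = Mb E δ θ η σ μ i j k := fun i j k => hMBi i j k k
  have e1 := thirdG hFA hH μ β s2 hβ hμ h0 h2 hβa (Pi.single (i, k) 1) (Pi.single (j, k) 1)
    (nsq_single _) (nsq_single _)
  have e2 := fluctG hES hH μ β hβ hμ hβv (Pi.single (i, k) 1) (Pi.single (j, k) 1)
    (nsq_single _) (nsq_single _)
  rw [form_single] at e1 e2
  rw [hMG, sel_Z3] at e1
  rw [hMG, psi_blk] at e2
  rw [Matrix.sub_apply, Matrix.sub_apply, Matrix.smul_apply, smul_eq_mul,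
    blk_mul_diag _ _ hdiag] at e1
  rw [Matrix.sub_apply, blk_mul_diag _ _ hdiag] at e2
  have e3 : ∀ l, Psi (AA (d := d) (L := L) E δ θ) (MB i l) k k =
      Ps E δ θ (Mb E δ θ η σ μ i l) k := by
    intro l
    rw [Psi_diag E δ θ hδ (MB i l) (hdiag i l) k]
    unfold Ps
    simp only [hMk]
  simp only [e3, hMk] at e1 e2
  obtain ⟨X, hX⟩ : ∃ X, X = SG (Z3 (D0 E δ) ((η : ℂ) • SD E δ σ) η)
    (A3 (AA (d := d) (L := L) E δ θ)) μ (i, k) (j, k) := ⟨_, rfl⟩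
  rw [sel_Z3] at hX
  rw [← hX] at e1
  rw [sel_Z3, ← hX] at e2
  obtain ⟨Y, hY⟩ : ∃ Y, Y = ∑ l, Ps E δ θ (Mb E δ θ η σ μ i l) k * Mb E δ θ η σ μ l j k :=
    ⟨_, rfl⟩
  rw [← hY] at e2 ⊢
  have e4 : ∑ l, Zb E δ η σ i l k k * Mb E δ θ η σ μ l j k - (s2 : ℂ) * Y -
      (1 : Matrix (Fin 3 × T d L) (Fin 3 × T d L) ℂ) (i, k) (j, k) =
      (∑ l, Zb E δ η σ i l k k * Mb E δ θ η σ μ l j k - (s2 : ℂ) * X -
      (1 : Matrix (Fin 3 × T d L) (Fin 3 × T d L) ℂ) (i, k) (j, k)) + (s2 : ℂ) * (X - Y) := by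
    ring
  rw [e4]
  refine (norm_add_le _ _).trans (le_trans (add_le_add e1 ?_) hε)
  rw [norm_mul, Complex.norm_real, Real.norm_of_nonneg hs2]
  exact mul_le_mul_of_nonneg_left e2 hs2

/-- the four equations -/
theorem four_eq (hES : S_ES) (hFA : S_FAC) (E δ θ η a v2 Q β s2 ε : ℝ) (σ : T d L → ℝ)
    (hδ : 0 < δ) (hη : 0 < η) (hη1 : η ≤ 1) (hσ : ∀ k, |σ k| ≤ 1)
    (hadm : Adm (D0 E δ) (AA (d := d) (L := L) E δ θ) a v2 Q)
    (μ : Measure ℝ) [IsProbabilityMeasure μ] (hβ : 0 < β) (hμ : ∀ᵐ s ∂μ, |s| ≤ β)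
    (h0 : ∫ s, s ∂μ = 0) (h2 : ∫ s, s ^ 2 ∂μ = s2) (hs2 : 0 ≤ s2)
    (hβa : β * a * (3 / η) ≤ 1) (hβv : β ^ 2 * v2 ≤ 1)
    (hε : 4 * β ^ 3 * a * v2 * (3 / η) ^ 3 +
      s2 * (2 * β * (3 * Q) * Real.sqrt v2 * (3 / η) ^ 4) ≤ ε) (M U P W : T d L → ℂ)
    (hM : M = Mb E δ θ η σ μ 2 2) (hU : U = Mb E δ θ η σ μ 0 1) (hP : P = Mb E δ θ η σ μ 1 2)
    (hW : W = Mb E δ θ η σ μ 0 2) (k : T d L) :
    ‖((((adj k - E) / JJ E δ k : ℝ) : ℂ) - (η : ℂ) * Complex.I) * M k -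
      (s2 : ℂ) * (Ps E δ θ M k) * M k - 1‖ ≤ ε ∧
    ‖((((adj k - E) / JJ E δ k : ℝ) : ℂ) + (η : ℂ) * Complex.I) * U k -
      ((η * (σ k * δ / JJ E δ k) : ℝ) : ℂ) * M k -
      (s2 : ℂ) * ((starRingEnd ℂ) (Ps E δ θ M k) * U k + (Ps E δ θ U k) * M k)‖ ≤ ε ∧
    ‖((((adj k - E) / JJ E δ k : ℝ) : ℂ) - (η : ℂ) * Complex.I) * P k -
      ((η * (σ k * δ / JJ E δ k) : ℝ) : ℂ) * M k -
      (s2 : ℂ) * ((Ps E δ θ M k) * P k + (Ps E δ θ P k) * M k)‖ ≤ ε ∧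
    ‖((((adj k - E) / JJ E δ k : ℝ) : ℂ) + (η : ℂ) * Complex.I) * W k -
      ((η * (σ k * δ / JJ E δ k) : ℝ) : ℂ) * P k -
      (s2 : ℂ) * ((starRingEnd ℂ) (Ps E δ θ M k) * W k + (Ps E δ θ U k) * P k +
        (Ps E δ θ W k) * M k)‖ ≤ ε := by
  have hbe := fun i j => block_eq hES hFA E δ θ η a v2 Q β s2 ε σ hδ hη hη1 hσ hadm μ hβ hμ h0 h2
    hs2 hβa hβv hε i j k
  have hz : ∀ (i j : Fin 3), (∀ V, Bf E δ θ η σ V i j = (0 : Matrix (T d L) (T d L) ℂ)) →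
      Mb E δ θ η σ μ i j = fun _ => 0 := by
    intro i j h
    funext k
    unfold Mb
    simp [h]
  have z10 : Mb E δ θ η σ μ 1 0 = fun _ : T d L => 0 := hz 1 0 fun V => rfl
  have z20 : Mb E δ θ η σ μ 2 0 = fun _ : T d L => 0 := hz 2 0 fun V => rfl
  have z21 : Mb E δ θ η σ μ 2 1 = fun _ : T d L => 0 := hz 2 1 fun V => rfl
  have z11 : Mb E δ θ η σ μ 1 1 = M := by rw [hM]; rfl
  have z00 : Mb E δ θ η σ μ 0 0 = fun k => (starRingEnd ℂ) (M k) := by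
    rw [hM]
    funext k
    unfold Mb
    rw [← integral_conj]
    rfl
  have hPz : ∀ k, Ps E δ θ (fun _ : T d L => (0 : ℂ)) k = 0 := by
    intro k
    unfold Ps
    simp
  have hPc : ∀ k, Ps E δ θ (fun k => (starRingEnd ℂ) (M k)) k =
      (starRingEnd ℂ) (Ps E δ θ M k) := by
    intro k
    unfold Ps
    rw [map_sum]
    refine Finset.sum_congr rfl fun p _ => ?_
    rw [map_mul, Complex.conj_ofReal]
  have zm : Zb E δ η σ 1 1 k k = (((adj k - E) / JJ E δ k : ℝ) : ℂ) - (η : ℂ) * Complex.I := by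
    change (D0 E δ - ((η : ℂ) * Complex.I) • (1 : Matrix (T d L) (T d L) ℂ) :
      Matrix (T d L) (T d L) ℂ) k k = _
    unfold D0
    rw [Matrix.sub_apply, Matrix.smul_apply, Matrix.one_apply_eq, Matrix.diagonal_apply_eq,
      smul_eq_mul, mul_one]
  have zm2 : Zb E δ η σ 2 2 k k = (((adj k - E) / JJ E δ k : ℝ) : ℂ) - (η : ℂ) * Complex.I := zm
  have zp : Zb E δ η σ 0 0 k k = (((adj k - E) / JJ E δ k : ℝ) : ℂ) + (η : ℂ) * Complex.I := by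
    change (D0 E δ + ((η : ℂ) * Complex.I) • (1 : Matrix (T d L) (T d L) ℂ) :
      Matrix (T d L) (T d L) ℂ) k k = _
    unfold D0
    rw [Matrix.add_apply, Matrix.smul_apply, Matrix.one_apply_eq, Matrix.diagonal_apply_eq,
      smul_eq_mul, mul_one]
  have zc : Zb E δ η σ 0 1 k k = -((η * (σ k * δ / JJ E δ k) : ℝ) : ℂ) := by
    change (-((η : ℂ) • SD E δ σ) : Matrix (T d L) (T d L) ℂ) k k = _
    unfold SD
    rw [Matrix.neg_apply, Matrix.smul_apply, Matrix.diagonal_apply_eq, smul_eq_mul]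
    push_cast
    ring
  have zc2 : Zb E δ η σ 1 2 k k = -((η * (σ k * δ / JJ E δ k) : ℝ) : ℂ) := zc
  have zz : ∀ i j, (Zb E δ η σ i j = (0 : Matrix (T d L) (T d L) ℂ)) → Zb E δ η σ i j k k = 0 := by
    intro i j h
    rw [h]
    rfl
  have w02 : Zb E δ η σ 0 2 k k = 0 := zz 0 2 rfl
  have w10 : Zb E δ η σ 1 0 k k = 0 := zz 1 0 rfl
  have w20 : Zb E δ η σ 2 0 k k = 0 := zz 2 0 rfl
  have w21 : Zb E δ η σ 2 1 k k = 0 := zz 2 1 rfl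
  have o1 : (1 : Matrix (Fin 3 × T d L) (Fin 3 × T d L) ℂ) (2, k) (2, k) = 1 :=
    Matrix.one_apply_eq _
  have o2 : ∀ i j : Fin 3, i ≠ j →
      (1 : Matrix (Fin 3 × T d L) (Fin 3 × T d L) ℂ) (i, k) (j, k) = 0 := by
    intro i j h
    exact Matrix.one_apply_ne fun h3 => h (Prod.ext_iff.1 h3).1
  refine ⟨?_, ?_, ?_, ?_⟩
  · have := hbe 2 2
    rw [Fin.sum_univ_three, Fin.sum_univ_three, w20, w21, zm2, z20, z21, ← hM, hPz, o1] at this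
    simp only [zero_mul, zero_add, mul_assoc] at this ⊢
    exact this
  · have := hbe 0 1
    rw [Fin.sum_univ_three, Fin.sum_univ_three, zp, zc, w02, z00, z11, z21, ← hU, hPc,
      o2 0 1 (by decide)] at this
    refine le_trans (le_of_eq ?_) this
    congr 1
    ring
  · have := hbe 1 2
    rw [Fin.sum_univ_three, Fin.sum_univ_three, w10, zm, zc2, z10, z11, ← hP, ← hM, hPz,
      o2 1 2 (by decide)] at this
    refine le_trans (le_of_eq ?_) this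
    congr 1
    ring
  · have := hbe 0 2
    rw [Fin.sum_univ_three, Fin.sum_univ_three, zp, zc, w02, z00, ← hU, ← hW, ← hP, ← hM, hPc,
      o2 0 2 (by decide)] at this
    refine le_trans (le_of_eq ?_) this
    congr 1
    ring

end Pool.Agent.TH794.QD
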