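import Pool.Agent.TH794.FG.Lat4

/-! Moments of the resolvent on the lattice. -/

set_option autoImplicit false
set_option linter.unusedSectionVars false

open scoped BigOperators
open MeasureTheory

namespace Pool.Agent.TH794.QD

open Pool.Agent.W788
open Pool.Agent.W788.LD.Main Pool.Agent.H4R2
open Pool.Agent.H4R2.LO (Zd)
open Pool.Agent.TH794.FG

variable {d : ℕ}

theorem sq_cs (a b c e t : ℝ) (ht : 0 < t) :
    a * b - c * e ≤ (a ^ 2 + c ^ 2) / (2 * t) + t / 2 * (e ^ 2 + b ^ 2) := by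
  have h1 : 0 ≤ (a - t * b) ^ 2 / (2 * t) := by positivity
  have h2 : 0 ≤ (c + t * e) ^ 2 / (2 * t) := by positivity
  have h3 : (a ^ 2 + c ^ 2) / (2 * t) + t / 2 * (e ^ 2 + b ^ 2) - (a * b - c * e) =
      (a - t * b) ^ 2 / (2 * t) + (c + t * e) ^ 2 / (2 * t) := by
    field_simp
    ring
  linarith

theorem summable_mul_sq {f g : Zd d → ℝ} (hf : Summable fun x => f x ^ 2)
    (hg : Summable fun x => g x ^ 2) : Summable fun x => f x * g x := by
  refine Summable.of_norm_bounded (hf.add hg) fun x => ?_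
  rw [Real.norm_eq_abs, abs_mul, ← sq_abs (f x), ← sq_abs (g x)]
  nlinarith [sq_nonneg (|f x| - |g x|), abs_nonneg (f x), abs_nonneg (g x)]

/-- the Ward identity, general source -/
theorem ward2 {σ : ℝ} {ξ fr fi : Zd d → ℝ} {E t : ℝ} {ur ui : Zd d → ℝ}
    (h : LS d σ ξ fr fi E t ur ui) (hr : Summable fun x => fr x ^ 2)
    (hi : Summable fun x => fi x ^ 2) :
    t * (∑' x, ur x ^ 2 + ∑' x, ui x ^ 2) = ∑' x, (fr x * ui x - fi x * ur x) := by
  have hc : ∀ u : Zd d → ℝ, (Summable fun x => u x ^ 2) →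
      Summable fun x => ‖((u x : ℝ) : ℂ)‖ ^ 2 := by
    intro u hu
    refine hu.congr fun x => ?_
    rw [Complex.norm_real, Real.norm_eq_abs, sq_abs]
  obtain ⟨s1, s2, e1⟩ := Pool.Agent.W788.LD.Spec.symm (fun x => ((ui x : ℝ) : ℂ))
    (fun x => ((ur x : ℝ) : ℂ)) (hc ui h.si) (hc ur h.sr)
  have hS : ∀ (u : Zd d → ℝ) x, Pool.Agent.W788.LD.Spec.S (fun x => ((u x : ℝ) : ℂ)) x =
      ((∑ i, (u (x + Pi.single i 1) + u (x - Pi.single i 1)) : ℝ) : ℂ) := by
    intro u x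
    unfold Pool.Agent.W788.LD.Spec.S
    push_cast
    rfl
  have e2 : ∀ x, (starRingEnd ℂ) ((ui x : ℝ) : ℂ) *
      Pool.Agent.W788.LD.Spec.S (fun x => ((ur x : ℝ) : ℂ)) x -
      (starRingEnd ℂ) (Pool.Agent.W788.LD.Spec.S (fun x => ((ui x : ℝ) : ℂ)) x) *
        ((ur x : ℝ) : ℂ) =
      (((fr x * ui x - fi x * ur x) - t * (ur x ^ 2 + ui x ^ 2) : ℝ) : ℂ) := by
    intro x
    rw [hS, hS, Complex.conj_ofReal, Complex.conj_ofReal, ← Complex.ofReal_mul,
      ← Complex.ofReal_mul, ← Complex.ofReal_sub]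
    congr 1
    have a1 := h.er x
    have a2 := h.ei x
    linear_combination (ui x) * a1 - (ur x) * a2
  have e3 : ∑' x, ((starRingEnd ℂ) ((ui x : ℝ) : ℂ) *
      Pool.Agent.W788.LD.Spec.S (fun x => ((ur x : ℝ) : ℂ)) x -
      (starRingEnd ℂ) (Pool.Agent.W788.LD.Spec.S (fun x => ((ui x : ℝ) : ℂ)) x) *
        ((ur x : ℝ) : ℂ)) = 0 := by
    rw [s1.tsum_sub s2, e1, sub_self]
  rw [tsum_congr (L := .unconditional _) e2, ← Complex.ofReal_tsum] at e3
  have e4 : ∑' x, ((fr x * ui x - fi x * ur x) - t * (ur x ^ 2 + ui x ^ 2)) = 0 := by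
    exact_mod_cast e3
  have s3 : Summable fun x => (fr x * ui x - fi x * ur x) :=
    (summable_mul_sq hr h.si).sub (summable_mul_sq hi h.sr)
  rw [s3.tsum_sub ((h.sr.add h.si).mul_left t), tsum_mul_left,
    h.sr.tsum_add h.si] at e4
  linarith

/-- the norm, general source -/
theorem norm2 {σ : ℝ} {ξ fr fi : Zd d → ℝ} {E t : ℝ} {ur ui : Zd d → ℝ}
    (h : LS d σ ξ fr fi E t ur ui) (hr : Summable fun x => fr x ^ 2)
    (hi : Summable fun x => fi x ^ 2) (ht : 0 < t) :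
    t ^ 2 * (∑' x, ur x ^ 2 + ∑' x, ui x ^ 2) ≤ ∑' x, fr x ^ 2 + ∑' x, fi x ^ 2 := by
  have h1 := ward2 h hr hi
  have s3 : Summable fun x => (fr x * ui x - fi x * ur x) :=
    (summable_mul_sq hr h.si).sub (summable_mul_sq hi h.sr)
  have h2 : ∑' x, (fr x * ui x - fi x * ur x) ≤
      ∑' x, ((fr x ^ 2 + fi x ^ 2) / (2 * t) + t / 2 * (ur x ^ 2 + ui x ^ 2)) := by
    refine s3.tsum_le_tsum (fun x => sq_cs _ _ _ _ t ht)
      (((hr.add hi).div_const _).add ((h.sr.add h.si).mul_left _))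
  rw [((hr.add hi).div_const _).tsum_add ((h.sr.add h.si).mul_left _), tsum_div_const,
    tsum_mul_left, hr.tsum_add hi, h.sr.tsum_add h.si, ← h1] at h2
  obtain ⟨T, hT⟩ : ∃ T, T = ∑' x, ur x ^ 2 + ∑' x, ui x ^ 2 := ⟨_, rfl⟩
  obtain ⟨F, hF⟩ : ∃ F, F = ∑' x, fr x ^ 2 + ∑' x, fi x ^ 2 := ⟨_, rfl⟩
  rw [← hT, ← hF] at h2
  rw [← hT, ← hF]
  have h3 : t * T / 2 ≤ F / (2 * t) := by linarith
  rw [le_div_iff₀ (by positivity)] at h3
  nlinarith

/-- the commutator with a weight depending on one coordinate -/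
noncomputable def cm (j : Fin d) (b u : Zd d → ℝ) (x : Zd d) : ℝ :=
  (b (x + Pi.single j 1) - b x) * u (x + Pi.single j 1) +
    (b (x - Pi.single j 1) - b x) * u (x - Pi.single j 1)

/-- the product with a weight -/
theorem mulw {σ : ℝ} {ξ fr fi : Zd d → ℝ} {E t : ℝ} {ur ui : Zd d → ℝ}
    (h : LS d σ ξ fr fi E t ur ui) (j : Fin d) (b : Zd d → ℝ)
    (hb : ∀ i, i ≠ j → ∀ x, b (x + Pi.single i 1) = b x ∧ b (x - Pi.single i 1) = b x)
    (hr : Summable fun x => (b x * ur x) ^ 2) (hi : Summable fun x => (b x * ui x) ^ 2) :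
    LS d σ ξ (fun x => b x * fr x + cm j b ur x) (fun x => b x * fi x + cm j b ui x) E t
      (fun x => b x * ur x) (fun x => b x * ui x) := by
  have key : ∀ (u : Zd d → ℝ) x, ∑ i, (b (x + Pi.single i 1) * u (x + Pi.single i 1) +
      b (x - Pi.single i 1) * u (x - Pi.single i 1)) =
      b x * ∑ i, (u (x + Pi.single i 1) + u (x - Pi.single i 1)) + cm j b u x := by
    intro u x
    have e1 : ∀ i, b (x + Pi.single i 1) * u (x + Pi.single i 1) +
        b (x - Pi.single i 1) * u (x - Pi.single i 1) =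
        b x * (u (x + Pi.single i 1) + u (x - Pi.single i 1)) +
        (if i = j then cm j b u x else 0) := by
      intro i
      by_cases hij : i = j
      · rw [if_pos hij, hij]
        unfold cm
        ring
      · rw [if_neg hij, (hb i hij x).1, (hb i hij x).2]
        ring
    rw [Finset.sum_congr rfl fun i _ => e1 i, Finset.sum_add_distrib, ← Finset.mul_sum,
      Finset.sum_ite_eq' Finset.univ j, if_pos (Finset.mem_univ _)]
  refine ⟨hr, hi, fun x => ?_, fun x => ?_⟩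
  · rw [key]
    have := h.er x
    linear_combination (b x) * this
  · rw [key]
    have := h.ei x
    linear_combination (b x) * this

theorem shift_sum (u : Zd d → ℝ) (a : Zd d) (hu : Summable fun x => u x ^ 2) :
    (Summable fun x => u (x + a) ^ 2) ∧ (Summable fun x => u (x - a) ^ 2) ∧
    ∑' x, u (x + a) ^ 2 = ∑' x, u x ^ 2 ∧ ∑' x, u (x - a) ^ 2 = ∑' x, u x ^ 2 :=
  ⟨(Equiv.addRight a).summable_iff.2 hu, (Equiv.subRight a).summable_iff.2 hu,
    (Equiv.addRight a).tsum_eq fun x => u x ^ 2, (Equiv.subRight a).tsum_eq fun x => u x ^ 2⟩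

/-- the norm of the commutator -/
theorem cm_sum (j : Fin d) (b u : Zd d → ℝ) (hb : ∀ x, |b (x + Pi.single j 1) - b x| ≤ 1)
    (hu : Summable fun x => u x ^ 2) :
    (Summable fun x => cm j b u x ^ 2) ∧ ∑' x, cm j b u x ^ 2 ≤ 4 * ∑' x, u x ^ 2 := by
  obtain ⟨s1, s2, t1, t2⟩ := shift_sum u (Pi.single j 1) hu
  have hb2 : ∀ x, |b (x - Pi.single j 1) - b x| ≤ 1 := by
    intro x
    have := hb (x - Pi.single j 1)
    rwa [sub_add_cancel, abs_sub_comm] at this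
  have h1 : ∀ x, cm j b u x ^ 2 ≤
      2 * (u (x + Pi.single j 1) ^ 2 + u (x - Pi.single j 1) ^ 2) := by
    intro x
    unfold cm
    have e1 : ((b (x + Pi.single j 1) - b x) * u (x + Pi.single j 1)) ^ 2 ≤
        u (x + Pi.single j 1) ^ 2 := by
      rw [mul_pow, ← sq_abs (b (x + Pi.single j 1) - b x)]
      exact mul_le_of_le_one_left (sq_nonneg _) (pow_le_one₀ (abs_nonneg _) (hb x))
    have e2 : ((b (x - Pi.single j 1) - b x) * u (x - Pi.single j 1)) ^ 2 ≤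
        u (x - Pi.single j 1) ^ 2 := by
      rw [mul_pow, ← sq_abs (b (x - Pi.single j 1) - b x)]
      exact mul_le_of_le_one_left (sq_nonneg _) (pow_le_one₀ (abs_nonneg _) (hb2 x))
    refine add_sq_le.trans ?_
    linarith
  have s3 : Summable fun x => 2 * (u (x + Pi.single j 1) ^ 2 + u (x - Pi.single j 1) ^ 2) :=
    (s1.add s2).mul_left 2
  have s4 : Summable fun x => cm j b u x ^ 2 :=
    Summable.of_nonneg_of_le (fun x => sq_nonneg _) h1 s3
  refine ⟨s4, (s4.tsum_le_tsum h1 s3).trans (le_of_eq ?_)⟩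
  rw [tsum_mul_left, s1.tsum_add s2, t1, t2]
  ring

/-- the coordinate -/
def cj (j : Fin d) (x : Zd d) : ℝ := (x j : ℝ)

/-- the truncated coordinate -/
noncomputable def cR (R : ℝ) (j : Fin d) (x : Zd d) : ℝ := max (-R) (min R (cj j x))

theorem cj_add (j : Fin d) (x : Zd d) : cj j (x + Pi.single j 1) = cj j x + 1 := by
  unfold cj
  rw [Pi.add_apply, Pi.single_eq_same]
  push_cast
  ring

theorem cj_sub (j : Fin d) (x : Zd d) : cj j (x - Pi.single j 1) = cj j x - 1 := by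
  unfold cj
  rw [Pi.sub_apply, Pi.single_eq_same]
  push_cast
  ring

theorem cj_ne (j i : Fin d) (h : i ≠ j) (x : Zd d) : cj j (x + Pi.single i 1) = cj j x ∧
    cj j (x - Pi.single i 1) = cj j x := by
  unfold cj
  rw [Pi.add_apply, Pi.sub_apply, Pi.single_eq_of_ne h.symm]
  simp

theorem clamp_lip (R a b : ℝ) : |max (-R) (min R a) - max (-R) (min R b)| ≤ |a - b| := by
  have h1 := abs_max_sub_max_le_max (-R) (min R a) (-R) (min R b)
  have h2 := abs_min_sub_min_le_max R a R b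
  rw [sub_self, abs_zero, max_eq_right (abs_nonneg (min R a - min R b))] at h1
  rw [sub_self, abs_zero, max_eq_right (abs_nonneg (a - b))] at h2
  exact h1.trans h2

theorem cR_step (R : ℝ) (j : Fin d) (x : Zd d) : |cR R j (x + Pi.single j 1) - cR R j x| ≤ 1 := by
  unfold cR
  refine (clamp_lip _ _ _).trans ?_
  rw [cj_add, add_sub_cancel_left, abs_one]

theorem cR_ne (R : ℝ) (j i : Fin d) (h : i ≠ j) (x : Zd d) :
    cR R j (x + Pi.single i 1) = cR R j x ∧ cR R j (x - Pi.single i 1) = cR R j x := by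
  unfold cR
  rw [(cj_ne j i h x).1, (cj_ne j i h x).2]
  exact ⟨rfl, rfl⟩

theorem cR_eq (R : ℝ) (j : Fin d) (x : Zd d) (h : |cj j x| ≤ R) : cR R j x = cj j x := by
  have h1 := abs_le.1 h
  unfold cR
  rw [min_eq_right h1.2, max_eq_right h1.1]

theorem cR_abs (R : ℝ) (hR : 0 ≤ R) (j : Fin d) (x : Zd d) : |cR R j x| ≤ R := by
  unfold cR
  rw [abs_le]
  refine ⟨le_max_left _ _, max_le (by linarith) (min_le_left _ _)⟩

theorem cR_le (R : ℝ) (hR : 0 ≤ R) (j : Fin d) (x : Zd d) : |cR R j x| ≤ |cj j x| := by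
  have h := clamp_lip R (cj j x) 0
  rw [min_eq_right hR, max_eq_right (by linarith : -R ≤ 0), sub_zero, sub_zero] at h
  exact h

/-- **first moments** -/
theorem mom {σ : ℝ} {ξ fr fi : Zd d → ℝ} {E t : ℝ} {ur ui : Zd d → ℝ}
    (h : LS d σ ξ fr fi E t ur ui) (ht : 0 < t) (j : Fin d) (F : ℝ)
    (hxr : Summable fun x => (cj j x * fr x) ^ 2) (hxi : Summable fun x => (cj j x * fi x) ^ 2)
    (hF : ∑' x, (cj j x * fr x) ^ 2 + ∑' x, (cj j x * fi x) ^ 2 ≤ F) :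
    (Summable fun x => (cj j x * ur x) ^ 2) ∧ (Summable fun x => (cj j x * ui x) ^ 2) ∧
    t ^ 2 * (∑' x, (cj j x * ur x) ^ 2 + ∑' x, (cj j x * ui x) ^ 2) ≤
      2 * F + 8 * (∑' x, ur x ^ 2 + ∑' x, ui x ^ 2) := by
  obtain ⟨C, hC⟩ : ∃ C, C = (2 * F + 8 * (∑' x, ur x ^ 2 + ∑' x, ui x ^ 2)) / t ^ 2 := ⟨_, rfl⟩
  have hbu : ∀ (u : Zd d → ℝ) (R : ℝ), 0 ≤ R → (Summable fun x => u x ^ 2) →
      Summable fun x => (cR R j x * u x) ^ 2 := by
    intro u R hR hu
    refine Summable.of_nonneg_of_le (fun x => sq_nonneg _) (fun x => ?_) (hu.mul_left (R ^ 2))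
    rw [mul_pow, ← sq_abs (cR R j x)]
    exact mul_le_mul_of_nonneg_right (pow_le_pow_left₀ (abs_nonneg _) (cR_abs R hR j x) 2)
      (sq_nonneg _)
  have hbf : ∀ (f : Zd d → ℝ) (R : ℝ), 0 ≤ R → (Summable fun x => (cj j x * f x) ^ 2) →
      (Summable fun x => (cR R j x * f x) ^ 2) ∧
      ∑' x, (cR R j x * f x) ^ 2 ≤ ∑' x, (cj j x * f x) ^ 2 := by
    intro f R hR hf
    have h1 : ∀ x, (cR R j x * f x) ^ 2 ≤ (cj j x * f x) ^ 2 := by
      intro x
      rw [mul_pow, mul_pow, ← sq_abs (cR R j x), ← sq_abs (cj j x)]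
      exact mul_le_mul_of_nonneg_right (pow_le_pow_left₀ (abs_nonneg _) (cR_le R hR j x) 2)
        (sq_nonneg _)
    have s1 : Summable fun x => (cR R j x * f x) ^ 2 :=
      Summable.of_nonneg_of_le (fun x => sq_nonneg _) h1 hf
    exact ⟨s1, s1.tsum_le_tsum h1 hf⟩
  have hadd : ∀ f g : Zd d → ℝ, (Summable fun x => f x ^ 2) → (Summable fun x => g x ^ 2) →
      (Summable fun x => (f x + g x) ^ 2) ∧
      ∑' x, (f x + g x) ^ 2 ≤ 2 * ∑' x, f x ^ 2 + 2 * ∑' x, g x ^ 2 := by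
    intro f g hf hg
    have h1 : ∀ x, (f x + g x) ^ 2 ≤ 2 * f x ^ 2 + 2 * g x ^ 2 := fun x => by
      have := add_sq_le (a := f x) (b := g x)
      linarith
    have s1 : Summable fun x => 2 * f x ^ 2 + 2 * g x ^ 2 := (hf.mul_left 2).add (hg.mul_left 2)
    have s2 : Summable fun x => (f x + g x) ^ 2 :=
      Summable.of_nonneg_of_le (fun x => sq_nonneg _) h1 s1
    refine ⟨s2, (s2.tsum_le_tsum h1 s1).trans (le_of_eq ?_)⟩
    rw [(hf.mul_left 2).tsum_add (hg.mul_left 2), tsum_mul_left, tsum_mul_left]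
  have key : ∀ R : ℝ, 0 ≤ R →
      ∑' x, (cR R j x * ur x) ^ 2 + ∑' x, (cR R j x * ui x) ^ 2 ≤ C := by
    intro R hR
    have h1 := mulw h j (cR R j) (fun i hi x => cR_ne R j i hi x) (hbu ur R hR h.sr)
      (hbu ui R hR h.si)
    obtain ⟨a1, a2⟩ := hbf fr R hR hxr
    obtain ⟨b1, b2⟩ := hbf fi R hR hxi
    obtain ⟨c1, c2⟩ := cm_sum j (cR R j) ur (cR_step R j) h.sr
    obtain ⟨d1, d2⟩ := cm_sum j (cR R j) ui (cR_step R j) h.si
    obtain ⟨e1, e2⟩ := hadd _ _ a1 c1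
    obtain ⟨f1, f2⟩ := hadd _ _ b1 d1
    have h2 := norm2 h1 e1 f1 ht
    rw [hC, le_div_iff₀ (by positivity)]
    linarith
  have hfs : ∀ s : Finset (Zd d), ∑ x ∈ s, ((cj j x * ur x) ^ 2 + (cj j x * ui x) ^ 2) ≤ C := by
    intro s
    obtain ⟨R, hR⟩ : ∃ R : ℝ, 0 ≤ R ∧ ∀ x ∈ s, |cj j x| ≤ R := by
      refine ⟨∑ x ∈ s, |cj j x|, Finset.sum_nonneg fun _ _ => abs_nonneg _, fun x hx => ?_⟩
      exact Finset.single_le_sum (f := fun x => |cj j x|) (fun _ _ => abs_nonneg _) hx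
    have s1 := hbu ur R hR.1 h.sr
    have s2 := hbu ui R hR.1 h.si
    refine le_trans ?_ (key R hR.1)
    rw [← s1.tsum_add s2]
    refine le_trans (le_of_eq ?_) ((s1.add s2).sum_le_tsum s fun x _ => by positivity)
    refine Finset.sum_congr rfl fun x hx => ?_
    rw [cR_eq R j x (hR.2 x hx)]
  have hs : Summable fun x => ((cj j x * ur x) ^ 2 + (cj j x * ui x) ^ 2) :=
    summable_of_sum_le (fun x => by positivity) hfs
  have s1 : Summable fun x => (cj j x * ur x) ^ 2 :=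
    Summable.of_nonneg_of_le (fun x => sq_nonneg _) (fun x => by
      have := sq_nonneg (cj j x * ui x)
      linarith) hs
  have s2 : Summable fun x => (cj j x * ui x) ^ 2 :=
    Summable.of_nonneg_of_le (fun x => sq_nonneg _) (fun x => by
      have := sq_nonneg (cj j x * ur x)
      linarith) hs
  refine ⟨s1, s2, ?_⟩
  rw [← s1.tsum_add s2]
  have h3 := hs.tsum_le_of_sum_le hfs
  calc t ^ 2 * ∑' x, ((cj j x * ur x) ^ 2 + (cj j x * ui x) ^ 2) ≤ t ^ 2 * C := by gcongr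
    _ = _ := by
        rw [hC]
        field_simp

/-- the difference along a coordinate -/
def Df (j : Fin d) (u : Zd d → ℝ) (x : Zd d) : ℝ := u (x + Pi.single j 1) - u (x - Pi.single j 1)

theorem Df_sum (j : Fin d) (u : Zd d → ℝ) (hu : Summable fun x => u x ^ 2) :
    (Summable fun x => Df j u x ^ 2) ∧ ∑' x, Df j u x ^ 2 ≤ 4 * ∑' x, u x ^ 2 := by
  obtain ⟨s1, s2, t1, t2⟩ := shift_sum u (Pi.single j 1) hu
  have h1 : ∀ x, Df j u x ^ 2 ≤
      2 * (u (x + Pi.single j 1) ^ 2 + u (x - Pi.single j 1) ^ 2) := by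
    intro x
    unfold Df
    nlinarith [sq_nonneg (u (x + Pi.single j 1) + u (x - Pi.single j 1))]
  have s3 : Summable fun x => 2 * (u (x + Pi.single j 1) ^ 2 + u (x - Pi.single j 1) ^ 2) :=
    (s1.add s2).mul_left 2
  have s4 : Summable fun x => Df j u x ^ 2 :=
    Summable.of_nonneg_of_le (fun x => sq_nonneg _) h1 s3
  refine ⟨s4, (s4.tsum_le_tsum h1 s3).trans (le_of_eq ?_)⟩
  rw [tsum_mul_left, s1.tsum_add s2, t1, t2]
  ring

/-- the weighted difference -/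
theorem cjDf_sum (i j : Fin d) (u : Zd d → ℝ) (hu : Summable fun x => u x ^ 2)
    (hxu : Summable fun x => (cj i x * u x) ^ 2) :
    (Summable fun x => (cj i x * Df j u x) ^ 2) ∧
    ∑' x, (cj i x * Df j u x) ^ 2 ≤ 8 * ∑' x, (cj i x * u x) ^ 2 + 8 * ∑' x, u x ^ 2 := by
  obtain ⟨s1, s2, t1, t2⟩ := shift_sum u (Pi.single j 1) hu
  obtain ⟨p1, p2, q1, q2⟩ := shift_sum (fun x => cj i x * u x) (Pi.single j 1) hxu
  have hc : ∀ x, |cj i (x + Pi.single j 1) - cj i x| ≤ 1 := by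
    intro x
    by_cases hij : j = i
    · rw [hij, cj_add, add_sub_cancel_left, abs_one]
    · rw [(cj_ne i j hij x).1, sub_self, abs_zero]
      exact zero_le_one
  have hc2 : ∀ x, |cj i (x - Pi.single j 1) - cj i x| ≤ 1 := by
    intro x
    by_cases hij : j = i
    · rw [hij, cj_sub, sub_sub_cancel_left, abs_neg, abs_one]
    · rw [(cj_ne i j hij x).2, sub_self, abs_zero]
      exact zero_le_one
  have hsq : ∀ a b w : ℝ, |a - b| ≤ 1 → (b * w) ^ 2 ≤ 2 * (a * w) ^ 2 + 2 * w ^ 2 := by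
    intro a b w h
    have h1 : b ^ 2 ≤ 2 * a ^ 2 + 2 := by
      have h2 := abs_le.1 h
      have h3 : (a - b) ^ 2 ≤ 1 := by
        rw [← sq_abs]
        exact pow_le_one₀ (abs_nonneg _) h
      nlinarith [sq_nonneg (a + (a - b))]
    have := mul_le_mul_of_nonneg_right h1 (sq_nonneg w)
    nlinarith
  have h1 : ∀ x, (cj i x * Df j u x) ^ 2 ≤
      4 * ((cj i (x + Pi.single j 1) * u (x + Pi.single j 1)) ^ 2 +
        (cj i (x - Pi.single j 1) * u (x - Pi.single j 1)) ^ 2) +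
      4 * (u (x + Pi.single j 1) ^ 2 + u (x - Pi.single j 1) ^ 2) := by
    intro x
    unfold Df
    have e1 := hsq _ _ (u (x + Pi.single j 1)) (hc x)
    have e2 := hsq _ _ (u (x - Pi.single j 1)) (hc2 x)
    have e3 : (cj i x * (u (x + Pi.single j 1) - u (x - Pi.single j 1))) ^ 2 ≤
        2 * (cj i x * u (x + Pi.single j 1)) ^ 2 + 2 * (cj i x * u (x - Pi.single j 1)) ^ 2 := by
      nlinarith [sq_nonneg (cj i x * u (x + Pi.single j 1) + cj i x * u (x - Pi.single j 1))]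
    linarith
  have s3 := ((p1.add p2).mul_left 4).add ((s1.add s2).mul_left 4)
  have s4 : Summable fun x => (cj i x * Df j u x) ^ 2 :=
    Summable.of_nonneg_of_le (fun x => sq_nonneg _) h1 s3
  refine ⟨s4, (s4.tsum_le_tsum h1 s3).trans (le_of_eq ?_)⟩
  rw [((p1.add p2).mul_left 4).tsum_add ((s1.add s2).mul_left 4), tsum_mul_left, tsum_mul_left,
    p1.tsum_add p2, s1.tsum_add s2, t1, t2, q1, q2]
  ring

/-- the coordinate times the resolvent -/
theorem coord {σ : ℝ} {ξ fr fi : Zd d → ℝ} {E t : ℝ} {ur ui : Zd d → ℝ}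
    (h : LS d σ ξ fr fi E t ur ui) (j : Fin d)
    (hr : Summable fun x => (cj j x * ur x) ^ 2) (hi : Summable fun x => (cj j x * ui x) ^ 2) :
    LS d σ ξ (fun x => cj j x * fr x + Df j ur x) (fun x => cj j x * fi x + Df j ui x) E t
      (fun x => cj j x * ur x) (fun x => cj j x * ui x) := by
  have h1 := mulw h j (cj j) (fun i hi x => cj_ne j i hi x) hr hi
  have h2 : ∀ u : Zd d → ℝ, (fun x => cm j (cj j) u x) = Df j u := by
    intro u
    funext x
    unfold cm Df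
    rw [cj_add, cj_sub]
    ring
  have h3 : ∀ (f u : Zd d → ℝ), (fun x => cj j x * f x + cm j (cj j) u x) =
      fun x => cj j x * f x + Df j u x := by
    intro f u
    funext x
    rw [← h2]
  rw [h3, h3] at h1
  exact h1

/-- **the moments of the Green function** -/
theorem green {σ : ℝ} {ξ : Zd d → ℝ} {E t : ℝ} {ur ui : Zd d → ℝ}
    (h : LS d σ ξ (Pi.single 0 1) (fun _ => 0) E t ur ui) (ht : 0 < t) (ht1 : t ≤ 1)
    (j : Fin d) :
    ∑' x, ur x ^ 2 + ∑' x, ui x ^ 2 ≤ (t⁻¹) ^ 2 ∧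
    LS d σ ξ (Df j ur) (Df j ui) E t (fun x => cj j x * ur x) (fun x => cj j x * ui x) ∧
    ∑' x, (cj j x * ur x) ^ 2 + ∑' x, (cj j x * ui x) ^ 2 ≤ (2 * (t⁻¹) ^ 2) ^ 2 ∧
    ∀ i, (Summable fun x => (cj i x * (cj j x * ur x)) ^ 2) ∧
      (Summable fun x => (cj i x * (cj j x * ui x)) ^ 2) ∧
      ∑' x, (cj i x * (cj j x * ur x)) ^ 2 + ∑' x, (cj i x * (cj j x * ui x)) ^ 2 ≤
        176 * (t⁻¹) ^ 6 := by
  have hs1 : HasSum (fun x : Zd d => (Pi.single (M := fun _ => ℝ) 0 1 : Zd d → ℝ) x ^ 2) 1 := by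
    have := hasSum_single (f := fun x : Zd d => (Pi.single (M := fun _ => ℝ) 0 1 : Zd d → ℝ) x ^ 2)
      0 (fun x hx => by
        rw [Pi.single_eq_of_ne hx]
        ring)
    simp only [Pi.single_eq_same, one_pow] at this
    exact this
  have hz : Summable fun _ : Zd d => (0 : ℝ) ^ 2 := by
    simp only [zero_pow two_ne_zero]
    exact summable_zero
  have hz0 : ∑' _ : Zd d, (0 : ℝ) ^ 2 = 0 := by
    simp
  have hT := norm2 h hs1.summable hz ht
  rw [hs1.tsum_eq, hz0, add_zero] at hT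
  obtain ⟨T, hTd⟩ : ∃ T, T = ∑' x, ur x ^ 2 + ∑' x, ui x ^ 2 := ⟨_, rfl⟩
  have hT2 : T ≤ (t⁻¹) ^ 2 := by
    rw [← hTd] at hT
    rw [inv_pow, ← one_div, le_div_iff₀ (by positivity)]
    linarith
  have hx0 : ∀ (i : Fin d) (x : Zd d), cj i x * (Pi.single (M := fun _ => ℝ) 0 1 : Zd d → ℝ) x = 0 := by
    intro i x
    by_cases hx : x = 0
    · rw [hx]
      unfold cj
      simp
    · rw [Pi.single_eq_of_ne hx, mul_zero]
  have hxs : ∀ i : Fin d, Summable fun x : Zd d =>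
      (cj i x * (Pi.single (M := fun _ => ℝ) 0 1 : Zd d → ℝ) x) ^ 2 := by
    intro i
    simp only [hx0]
    exact hz
  have hxz : ∀ i : Fin d, Summable fun x : Zd d => (cj i x * 0) ^ 2 := by
    intro i
    simp only [mul_zero]
    exact hz
  have m1 : ∀ i, (Summable fun x => (cj i x * ur x) ^ 2) ∧ (Summable fun x => (cj i x * ui x) ^ 2) ∧
      t ^ 2 * (∑' x, (cj i x * ur x) ^ 2 + ∑' x, (cj i x * ui x) ^ 2) ≤
      2 * 0 + 8 * (∑' x, ur x ^ 2 + ∑' x, ui x ^ 2) := by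
    intro i
    refine mom h ht i 0 (hxs i) (hxz i) ?_
    simp only [hx0, mul_zero]
    rw [hz0, add_zero]
  have hti : 1 ≤ t⁻¹ := by
    rw [one_le_inv₀ ht]
    exact ht1
  have hLS : ∀ i, LS d σ ξ (Df i ur) (Df i ui) E t (fun x => cj i x * ur x)
      (fun x => cj i x * ui x) := by
    intro i
    have h1 := coord h i (m1 i).1 (m1 i).2.1
    have e1 : (fun x => cj i x * (Pi.single (M := fun _ => ℝ) 0 1 : Zd d → ℝ) x + Df i ur x) =
        Df i ur := by
      funext x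
      rw [hx0, zero_add]
    have e2 : (fun x => cj i x * 0 + Df i ui x) = Df i ui := by
      funext x
      rw [mul_zero, zero_add]
    rw [e1, e2] at h1
    exact h1
  have hq : ∀ i, ∑' x, (cj i x * ur x) ^ 2 + ∑' x, (cj i x * ui x) ^ 2 ≤ (2 * (t⁻¹) ^ 2) ^ 2 := by
    intro i
    obtain ⟨a1, a2⟩ := Df_sum i ur h.sr
    obtain ⟨b1, b2⟩ := Df_sum i ui h.si
    have h2 := norm2 (hLS i) a1 b1 ht
    have h3 : t ^ 2 * (∑' x, (cj i x * ur x) ^ 2 + ∑' x, (cj i x * ui x) ^ 2) ≤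
        4 * (t⁻¹) ^ 2 := by
      rw [← hTd] at hT
      linarith
    calc ∑' x, (cj i x * ur x) ^ 2 + ∑' x, (cj i x * ui x) ^ 2 =
        (t⁻¹) ^ 2 * (t ^ 2 * (∑' x, (cj i x * ur x) ^ 2 + ∑' x, (cj i x * ui x) ^ 2)) := by
          field_simp
      _ ≤ (t⁻¹) ^ 2 * (4 * (t⁻¹) ^ 2) := by gcongr
      _ = _ := by ring
  refine ⟨by rw [← hTd]; exact hT2, hLS j, hq j, fun i => ?_⟩
  obtain ⟨a1, a2⟩ := cjDf_sum i j ur h.sr (m1 i).1
  obtain ⟨b1, b2⟩ := cjDf_sum i j ui h.si (m1 i).2.1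
  have hqi := hq i
  have hqj := hq j
  have h4 : (t⁻¹) ^ 2 ≤ (t⁻¹) ^ 4 := pow_le_pow_right₀ hti (by norm_num)
  have hF : ∑' x, (cj i x * Df j ur x) ^ 2 + ∑' x, (cj i x * Df j ui x) ^ 2 ≤ 40 * (t⁻¹) ^ 4 := by
    have : (2 * (t⁻¹) ^ 2) ^ 2 = 4 * (t⁻¹) ^ 4 := by ring
    rw [this] at hqi
    rw [hTd] at hT2
    linarith
  obtain ⟨c1, c2, c3⟩ := mom (hLS j) ht i (40 * (t⁻¹) ^ 4) a1 b1 hF
  refine ⟨c1, c2, ?_⟩
  calc ∑' x, (cj i x * (cj j x * ur x)) ^ 2 + ∑' x, (cj i x * (cj j x * ui x)) ^ 2 =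
      (t⁻¹) ^ 2 * (t ^ 2 * (∑' x, (cj i x * (cj j x * ur x)) ^ 2 +
        ∑' x, (cj i x * (cj j x * ui x)) ^ 2)) := by
        field_simp
    _ ≤ (t⁻¹) ^ 2 * (2 * (40 * (t⁻¹) ^ 4) + 8 * (2 * (t⁻¹) ^ 2) ^ 2) := by
        apply mul_le_mul_of_nonneg_left _ (by positivity)
        linarith
    _ = 112 * (t⁻¹) ^ 6 := by ring
    _ ≤ _ := by
        have : (0 : ℝ) ≤ (t⁻¹) ^ 6 := by positivity
        linarith

end Pool.Agent.TH794.QD
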