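import Pool.Agent.TH794.LL2.Free

/-! Riemann sums on the circle and the decay of the one-dimensional integrals. -/

set_option autoImplicit false
set_option linter.unusedSectionVars false

open scoped BigOperators Topology
open MeasureTheory Set Filter

namespace Pool.Agent.TH794.QD

open Pool.Agent.W788.BK
open Pool.Agent.TH794.LL2

theorem sum_zmod (L : ℕ) [NeZero L] (h : ℕ → ℂ) :
    ∑ k : ZMod L, h k.val = ∑ i ∈ Finset.range L, h i := by
  refine Finset.sum_nbij (fun k => k.val) ?_ ?_ ?_ ?_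
  · intro k _
    exact Finset.mem_range.2 (ZMod.val_lt k)
  · intro a _ b _ hab
    exact ZMod.val_injective L hab
  · intro i hi
    have hi' : i < L := Finset.mem_range.1 hi
    refine ⟨(i : ZMod L), Finset.mem_coe.2 (Finset.mem_univ _), ?_⟩
    exact ZMod.val_natCast_of_lt hi'
  · intro k _
    rfl

theorem char_val (L : ℕ) [NeZero L] (k : ZMod L) :
    (ZMod.stdAddChar k : ℂ) = Complex.exp (((2 * Real.pi * ((k.val : ℝ) / L) : ℝ) : ℂ) *
      Complex.I) := by
  have h1 : ((k.val : ℤ) : ZMod L) = k := by simp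
  conv_lhs => rw [← h1, ZMod.stdAddChar_coe]
  congr 1
  push_cast
  ring

theorem char_re (L : ℕ) [NeZero L] (k : ZMod L) :
    (ZMod.stdAddChar k : ℂ).re = Real.cos (2 * Real.pi * ((k.val : ℝ) / L)) := by
  rw [char_val, Complex.exp_ofReal_mul_I_re]

theorem char_im (L : ℕ) [NeZero L] (k : ZMod L) :
    (ZMod.stdAddChar k : ℂ).im = Real.sin (2 * Real.pi * ((k.val : ℝ) / L)) := by
  rw [char_val, Complex.exp_ofReal_mul_I_im]

/-- Riemann sums -/
theorem riemann (L : ℕ) [NeZero L] (f : ℝ → ℂ) (K : ℝ) (hf : Continuous f)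
    (hK : ∀ x y, ‖f x - f y‖ ≤ K * |x - y|) :
    ‖((L : ℝ) : ℂ)⁻¹ * ∑ k : ZMod L, f ((k.val : ℝ) / L) - ∫ x in (0 : ℝ)..1, f x‖ ≤ K / L := by
  have hLp : (0 : ℝ) < L := by exact_mod_cast Nat.pos_of_ne_zero (NeZero.ne L)
  have hLc : ((L : ℝ) : ℂ) ≠ 0 := by exact_mod_cast hLp.ne'
  rw [sum_zmod L (fun i => f ((i : ℝ) / L))]
  have h1 : ∫ x in (0 : ℝ)..1, f x =
      ∑ i ∈ Finset.range L, ∫ x in ((i : ℝ) / L)..(((i + 1 : ℕ) : ℝ) / L), f x := by
    have := intervalIntegral.sum_integral_adjacent_intervals (f := f) (μ := volume)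
      (a := fun i : ℕ => (i : ℝ) / L) (n := L) (fun k _ => hf.intervalIntegrable _ _)
    rw [this]
    simp only [Nat.cast_zero, zero_div]
    rw [div_self hLp.ne']
  have h2 : ((L : ℝ) : ℂ)⁻¹ * ∑ i ∈ Finset.range L, f ((i : ℝ) / L) =
      ∑ i ∈ Finset.range L, ∫ x in ((i : ℝ) / L)..(((i + 1 : ℕ) : ℝ) / L), f ((i : ℝ) / L) := by
    rw [Finset.mul_sum]
    refine Finset.sum_congr rfl fun i _ => ?_
    rw [intervalIntegral.integral_const, Complex.real_smul]
    congr 1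
    rw [← Complex.ofReal_inv]
    congr 1
    push_cast
    field_simp
    ring
  rw [h1, h2, ← Finset.sum_sub_distrib]
  refine (norm_sum_le _ _).trans ?_
  have h3 : ∀ i ∈ Finset.range L, ‖(∫ x in ((i : ℝ) / L)..(((i + 1 : ℕ) : ℝ) / L),
      f ((i : ℝ) / L)) - ∫ x in ((i : ℝ) / L)..(((i + 1 : ℕ) : ℝ) / L), f x‖ ≤
      (K / L) * (1 / L) := by
    intro i _
    rw [← intervalIntegral.integral_sub intervalIntegrable_const (hf.intervalIntegrable _ _)]
    have h4 : |((i + 1 : ℕ) : ℝ) / L - (i : ℝ) / L| = 1 / L := by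
      rw [← sub_div]
      push_cast
      rw [add_sub_cancel_left, abs_of_pos (by positivity)]
    have h5 := intervalIntegral.norm_integral_le_of_norm_le_const (a := (i : ℝ) / L)
      (b := ((i + 1 : ℕ) : ℝ) / L) (f := fun x => f ((i : ℝ) / L) - f x) (C := K / L) ?_
    · rw [h4] at h5
      exact h5
    · intro x hx
      have hle : (i : ℝ) / L ≤ ((i + 1 : ℕ) : ℝ) / L := by
        apply div_le_div_of_nonneg_right _ hLp.le
        push_cast
        linarith
      rw [uIoc_of_le hle] at hx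
      have hK0 : 0 ≤ K := by
        have := (norm_nonneg _).trans (hK 0 1)
        simpa using this
      refine (hK _ _).trans ?_
      rw [div_eq_mul_inv K]
      apply mul_le_mul_of_nonneg_left _ hK0
      rw [abs_sub_comm, abs_of_nonneg (by linarith [hx.1])]
      have : ((i + 1 : ℕ) : ℝ) / L - (i : ℝ) / L = (L : ℝ)⁻¹ := by
        rw [← sub_div]
        push_cast
        rw [add_sub_cancel_left, one_div]
      linarith [hx.2]
  refine (Finset.sum_le_sum h3).trans (le_of_eq ?_)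
  rw [Finset.sum_const, Finset.card_range, nsmul_eq_mul]
  field_simp

/-- the integrand -/
noncomputable def ff (s : ℝ) (x : ℝ) : ℂ :=
  Complex.exp (Complex.I * ((-s * (2 * Real.cos (2 * Real.pi * x)) : ℝ) : ℂ))

theorem ff_norm (s x : ℝ) : ‖ff s x‖ = 1 := by
  unfold ff
  rw [mul_comm, Complex.norm_exp_ofReal_mul_I]

theorem ff_cont (s : ℝ) : Continuous (ff s) := by
  unfold ff
  fun_prop

theorem exp_I_lip (x y : ℝ) : ‖Complex.exp (Complex.I * (x : ℂ)) - Complex.exp (Complex.I * (y : ℂ))‖ ≤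
    |x - y| := by
  refine (exp_sub_le _ _ (by simp) (by simp)).trans (le_of_eq ?_)
  rw [← mul_sub, norm_mul, Complex.norm_I, one_mul, ← Complex.ofReal_sub, Complex.norm_real,
    Real.norm_eq_abs]

theorem cos_lip (x y : ℝ) : |Real.cos x - Real.cos y| ≤ |x - y| := by
  have h := Convex.norm_image_sub_le_of_norm_deriv_le (𝕜 := ℝ) (f := Real.cos)
    (s := Set.univ) (C := 1) (x := y) (y := x)
    (fun x _ => Real.differentiableAt_cos)
    (fun x hx => by
      rw [Real.deriv_cos, norm_neg, Real.norm_eq_abs]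
      exact Real.abs_sin_le_one x)
    convex_univ (mem_univ _) (mem_univ _)
  rw [one_mul] at h
  exact h

theorem sin_lip (x y : ℝ) : |Real.sin x - Real.sin y| ≤ |x - y| := by
  have h := Convex.norm_image_sub_le_of_norm_deriv_le (𝕜 := ℝ) (f := Real.sin)
    (s := Set.univ) (C := 1) (x := y) (y := x)
    (fun x _ => Real.differentiableAt_sin)
    (fun x hx => by
      rw [Real.deriv_sin, Real.norm_eq_abs]
      exact Real.abs_cos_le_one x)
    convex_univ (mem_univ _) (mem_univ _)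
  rw [one_mul] at h
  exact h

theorem ff_lip (s x y : ℝ) : ‖ff s x - ff s y‖ ≤ 14 * |s| * |x - y| := by
  unfold ff
  refine (exp_I_lip _ _).trans ?_
  have e1 : -s * (2 * Real.cos (2 * Real.pi * x)) - -s * (2 * Real.cos (2 * Real.pi * y)) =
      -(2 * s) * (Real.cos (2 * Real.pi * x) - Real.cos (2 * Real.pi * y)) := by ring
  rw [e1, abs_mul]
  have h1 := cos_lip (2 * Real.pi * x) (2 * Real.pi * y)
  rw [← mul_sub, abs_mul, abs_of_pos (by positivity : (0 : ℝ) < 2 * Real.pi)] at h1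
  have h2 : 2 * Real.pi ≤ 7 := by have := Real.pi_lt_d2; linarith
  calc |-(2 * s)| * |Real.cos (2 * Real.pi * x) - Real.cos (2 * Real.pi * y)| ≤
      (2 * |s|) * (7 * |x - y|) := by
        rw [abs_neg, abs_mul, abs_two]
        apply mul_le_mul_of_nonneg_left _ (by positivity)
        exact h1.trans (mul_le_mul_of_nonneg_right h2 (abs_nonneg _))
    _ = _ := by ring

/-- the weighted integrand -/
noncomputable def fs (s : ℝ) (x : ℝ) : ℂ := ((Real.sin (2 * Real.pi * x) ^ 2 : ℝ) : ℂ) * ff s x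

theorem fs_cont (s : ℝ) : Continuous (fs s) := by
  unfold fs
  have := ff_cont s
  fun_prop

theorem fs_norm (s x : ℝ) : ‖fs s x‖ ≤ 1 := by
  unfold fs
  rw [norm_mul, ff_norm, mul_one, Complex.norm_real, Real.norm_of_nonneg (sq_nonneg _)]
  exact Real.sin_sq_le_one _

theorem fs_lip (s x y : ℝ) : ‖fs s x - fs s y‖ ≤ (14 + 14 * |s|) * |x - y| := by
  unfold fs
  have e1 : ((Real.sin (2 * Real.pi * x) ^ 2 : ℝ) : ℂ) * ff s x -
      ((Real.sin (2 * Real.pi * y) ^ 2 : ℝ) : ℂ) * ff s y =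
      ((Real.sin (2 * Real.pi * x) ^ 2 : ℝ) : ℂ) * (ff s x - ff s y) +
      ((Real.sin (2 * Real.pi * x) ^ 2 - Real.sin (2 * Real.pi * y) ^ 2 : ℝ) : ℂ) * ff s y := by
    push_cast
    ring
  rw [e1]
  refine (norm_add_le _ _).trans ?_
  rw [norm_mul, norm_mul, ff_norm, mul_one, Complex.norm_real, Complex.norm_real,
    Real.norm_of_nonneg (sq_nonneg _), Real.norm_eq_abs]
  have h1 := sin_lip (2 * Real.pi * x) (2 * Real.pi * y)
  rw [← mul_sub, abs_mul, abs_of_pos (by positivity : (0 : ℝ) < 2 * Real.pi)] at h1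
  have h2 : 2 * Real.pi ≤ 7 := by have := Real.pi_lt_d2; linarith
  have h3 : |Real.sin (2 * Real.pi * x) ^ 2 - Real.sin (2 * Real.pi * y) ^ 2| ≤
      2 * (7 * |x - y|) := by
    rw [sq_sub_sq, abs_mul]
    apply mul_le_mul _ _ (abs_nonneg _) (by norm_num)
    · refine (abs_add_le _ _).trans ?_
      have := Real.abs_sin_le_one (2 * Real.pi * x)
      have := Real.abs_sin_le_one (2 * Real.pi * y)
      linarith
    · exact h1.trans (mul_le_mul_of_nonneg_right h2 (abs_nonneg _))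
  have h4 : Real.sin (2 * Real.pi * x) ^ 2 * ‖ff s x - ff s y‖ ≤ 1 * (14 * |s| * |x - y|) :=
    mul_le_mul (Real.sin_sq_le_one _) (ff_lip s x y) (norm_nonneg _) zero_le_one
  calc _ ≤ 1 * (14 * |s| * |x - y|) + 2 * (7 * |x - y|) := add_le_add h4 h3
    _ = _ := by ring

/-- the one-dimensional amplitude -/
noncomputable def pp (s : ℝ) : ℂ := ∫ x in (0 : ℝ)..1, ff s x

/-- the weighted one-dimensional amplitude -/
noncomputable def qq (s : ℝ) : ℂ := ∫ x in (0 : ℝ)..1, fs s x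

/-- the discrete amplitude -/
noncomputable def cp (L : ℕ) [NeZero L] (s : ℝ) : ℂ :=
  ((L : ℝ) : ℂ)⁻¹ * ∑ k : ZMod L, ff s ((k.val : ℝ) / L)

/-- the discrete weighted amplitude -/
noncomputable def cq (L : ℕ) [NeZero L] (s : ℝ) : ℂ :=
  ((L : ℝ) : ℂ)⁻¹ * ∑ k : ZMod L, fs s ((k.val : ℝ) / L)

theorem cp_pp (L : ℕ) [NeZero L] (s : ℝ) : ‖cp L s - pp s‖ ≤ 14 * |s| / L :=
  riemann L (ff s) _ (ff_cont s) (ff_lip s)

theorem cq_qq (L : ℕ) [NeZero L] (s : ℝ) : ‖cq L s - qq s‖ ≤ (14 + 14 * |s|) / L :=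
  riemann L (fs s) _ (fs_cont s) (fs_lip s)

theorem avg_le_one (L : ℕ) [NeZero L] (f : ZMod L → ℂ) (h : ∀ k, ‖f k‖ ≤ 1) :
    ‖((L : ℝ) : ℂ)⁻¹ * ∑ k : ZMod L, f k‖ ≤ 1 := by
  have hLp : (0 : ℝ) < L := by exact_mod_cast Nat.pos_of_ne_zero (NeZero.ne L)
  rw [norm_mul, norm_inv, Complex.norm_real, Real.norm_eq_abs, abs_of_pos hLp,
    inv_mul_le_iff₀ hLp, mul_one]
  refine (norm_sum_le _ _).trans ((Finset.sum_le_sum fun k _ => h k).trans (le_of_eq ?_))
  rw [Finset.sum_const, Finset.card_univ, ZMod.card, nsmul_eq_mul, mul_one]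

theorem cp_le (L : ℕ) [NeZero L] (s : ℝ) : ‖cp L s‖ ≤ 1 :=
  avg_le_one L _ fun k => (ff_norm _ _).le

theorem cq_le (L : ℕ) [NeZero L] (s : ℝ) : ‖cq L s‖ ≤ 1 :=
  avg_le_one L _ fun k => fs_norm _ _

theorem pp_le (s : ℝ) : ‖pp s‖ ≤ 1 := by
  have := intervalIntegral.norm_integral_le_of_norm_le_const (a := (0 : ℝ)) (b := 1) (f := ff s)
    (C := 1) fun x _ => (ff_norm s x).le
  simpa [pp, qq] using this

theorem qq_le (s : ℝ) : ‖qq s‖ ≤ 1 := by
  have := intervalIntegral.norm_integral_le_of_norm_le_const (a := (0 : ℝ)) (b := 1) (f := fs s)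
    (C := 1) fun x _ => fs_norm s x
  simpa [pp, qq] using this

theorem ff_char (L : ℕ) [NeZero L] (s : ℝ) (k : ZMod L) :
    ff s ((k.val : ℝ) / L) =
      Complex.exp (Complex.I * ((-s * (2 * (ZMod.stdAddChar k : ℂ).re) : ℝ) : ℂ)) := by
  unfold ff
  rw [char_re]

theorem cp_decay (hO : S_OSC) (L : ℕ) [NeZero L] (s : ℝ) (h : (1 + |s|) ^ 3 ≤ (L : ℝ) ^ 2) :
    ‖cp L s‖ ≤ 10 / Real.sqrt (1 + |s|) := by
  have hLp : (0 : ℝ) < L := by exact_mod_cast Nat.pos_of_ne_zero (NeZero.ne L)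
  have hn : ‖((-s : ℝ) : ℂ)‖ = |s| := by rw [Complex.norm_real, Real.norm_eq_abs, abs_neg]
  have h1 := hO L ((-s : ℝ) : ℂ) (by rw [hn]; exact h)
  rw [hn] at h1
  unfold cp
  rw [norm_mul, norm_inv, Complex.norm_real, Real.norm_eq_abs, abs_of_pos hLp,
    inv_mul_le_iff₀ hLp]
  have h2 : ∀ k : ZMod L, ff s ((k.val : ℝ) / L) =
      Complex.exp (Complex.I * ((2 * (((-s : ℝ) : ℂ) * ZMod.stdAddChar k).re : ℝ) : ℂ)) := by
    intro k
    rw [ff_char, Complex.re_ofReal_mul]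
    congr 3
    ring
  simp only [h2]
  refine h1.trans (le_of_eq ?_)
  ring

/-- the decay of the one-dimensional amplitude -/
theorem pp_decay (hO : S_OSC) (s : ℝ) : ‖pp s‖ ≤ 10 / Real.sqrt (1 + |s|) := by
  have key : ∀ᶠ n : ℕ in atTop, ‖pp s‖ ≤ 10 / Real.sqrt (1 + |s|) + 14 * |s| / ((n : ℝ) + 1) := by
    obtain ⟨n0, hn0⟩ := exists_nat_ge ((1 + |s|) ^ 3)
    filter_upwards [eventually_ge_atTop n0] with n hn
    have hn' : (n0 : ℝ) ≤ n := by exact_mod_cast hn
    have hne : NeZero (n + 1) := ⟨by positivity⟩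
    have h1 := cp_decay hO (n + 1) s (by
      push_cast
      nlinarith [abs_nonneg s])
    have h2 := cp_pp (n + 1) s
    have h3 := norm_sub_norm_le (pp s) (cp (n + 1) s)
    rw [norm_sub_rev] at h3
    push_cast at h2
    linarith
  have l1 : Tendsto (fun n : ℕ => 10 / Real.sqrt (1 + |s|) + 14 * |s| / ((n : ℝ) + 1)) atTop
      (𝓝 (10 / Real.sqrt (1 + |s|) + 14 * |s| * 0)) := by
    refine Tendsto.const_add _ ?_
    have := (tendsto_one_div_add_atTop_nhds_zero_nat (𝕜 := ℝ)).const_mul (14 * |s|)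
    refine this.congr fun n => ?_
    rw [mul_one_div]
  rw [mul_zero, add_zero] at l1
  exact ge_of_tendsto l1 key

end Pool.Agent.TH794.QD
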