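import Pool.Agent.TH794.FG.Tor3
import Pool.Agent.TH794.QD.Free3

/-! Comparison of the chain with the regularised chain on the torus. -/

set_option autoImplicit false
set_option linter.unusedSectionVars false

open scoped BigOperators Matrix
open MeasureTheory

namespace Pool.Agent.TH794.QD

open Pool.Agent.W788.BK
open Pool.Agent.W788.MFP.Four
open Pool.Agent.TH794.LL2
open Pool.Agent.TH794.FG

variable {d L : ℕ} [NeZero L]

/-- the approximate solution as a resolvent vector -/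
theorem solR (E δ θ η κ gf ρ τ : ℝ) (hδ : 0 < δ) (hη : 0 < η) (hκ : 0 < κ)
    (hκ2 : κ ≤ 1 / 2)
    {V fr fi vr vi rr ri : T d L → ℝ} (h : Sol3 E (η * δ) V fr fi vr vi rr ri)
    (hg : ∑ k : T d L, (JJ E δ k)⁻¹ * ‖fc fr fi k‖ ^ 2 ≤ gf * NN d L) (hg0 : 0 ≤ gf)
    (hf : ∀ w : T d L → ℝ, |∑ x, V x * w x ^ 2| ≤ κ * q (JJ E δ) w)
    (hρ : Real.sqrt (Bq rr ri) ≤ ρ) (hτ : 0 ≤ τ)
    (hU : ∀ x : T d L, |∑ y : T d L, V y * K (fun Q => 1 - hi θ Q) (x - y)| ≤ τ) :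
    ∃ ψ : T d L → ℂ, (fun k => (Real.sqrt (JJ E δ k) : ℂ) * fc vr vi k) =
      RR (D0 E δ) (AA E δ θ) η V *ᵥ
        (((Real.sqrt (NN d L) : ℝ) : ℂ) • wf (d := d) (L := L) E δ fr fi + ψ) ∧
      nn ψ ≤ Real.sqrt (NN d L) * ((Real.sqrt δ)⁻¹ *
      (ρ + τ * Real.sqrt (Bq vr vi)) + η * (2 * Real.sqrt gf + 2 * (κ + η) *
      (Real.sqrt δ * Real.sqrt (Bq vr vi)) + 2 * ((Real.sqrt δ)⁻¹ * ρ))) ∧
      XN E δ vr vi ≤ Real.sqrt (NN d L) * (2 * Real.sqrt gf + 2 * (κ + η) *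
      (Real.sqrt δ * Real.sqrt (Bq vr vi)) + 2 * ((Real.sqrt δ)⁻¹ * ρ)) := by
  have hN := NN_pos (d := d) (L := L)
  have hsN : 0 < Real.sqrt (NN d L) := Real.sqrt_pos.2 hN
  have hsNc : ((Real.sqrt (NN d L) : ℝ) : ℂ) ≠ 0 := by exact_mod_cast hsN.ne'
  have hsδ : 0 < Real.sqrt δ := Real.sqrt_pos.2 hδ
  have hJ : ∀ k : T d L, 0 < JJ E δ k := fun k => JJ_pos E δ hδ k
  have hsJ : ∀ k : T d L, 0 < Real.sqrt (JJ E δ k) := fun k => Real.sqrt_pos.2 (hJ k)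
  have hsJc : ∀ k : T d L, ((Real.sqrt (JJ E δ k) : ℝ) : ℂ) ≠ 0 := fun k => by
    exact_mod_cast (hsJ k).ne'
  have hJsq : ∀ k : T d L, JJ E δ k ^ 2 = (adj k - E) ^ 2 + δ ^ 2 := fun k => by
    unfold JJ
    rw [Real.sq_sqrt (by positivity)]
  have hX1 := XN3_le E δ η κ gf ρ hδ hη hκ hκ2 h hg hg0 hf hρ
  obtain ⟨B, hB⟩ : ∃ B, B = Real.sqrt (Bq vr vi) := ⟨_, rfl⟩
  rw [← hB] at hX1 ⊢
  obtain ⟨Xb, hXb⟩ : ∃ Xb, Xb = 2 * Real.sqrt gf + 2 * (κ + η) * (Real.sqrt δ * B) +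
    2 * ((Real.sqrt δ)⁻¹ * ρ) := ⟨_, rfl⟩
  rw [← hXb] at hX1 ⊢
  obtain ⟨U, hUd⟩ : ∃ U : T d L → ℝ, U = Op (fun Q => 1 - hi θ Q) V := ⟨_, rfl⟩
  have hUx : ∀ x, |U x| ≤ τ := by
    intro x
    have : U x = ∑ y : T d L, V y * K (fun Q => 1 - hi θ Q) (x - y) := by
      rw [hUd]
      unfold Op
      exact Finset.sum_congr rfl fun y _ => mul_comm _ _
    rw [this]
    exact hU x
  obtain ⟨φ, hφ⟩ : ∃ φ : T d L → ℂ, φ = fun k => (Real.sqrt (JJ E δ k) : ℂ) * fc vr vi k :=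
    ⟨_, rfl⟩
  rw [← hφ]
  -- the matrix equation
  have hXφ : ∀ k, (XX (D0 E δ) (AA E δ θ) V *ᵥ φ) k =
      (((Real.sqrt (JJ E δ k))⁻¹ : ℝ) : ℂ) * (fc fr fi k +
        ((η * δ : ℝ) : ℂ) * Complex.I * fc vr vi k +
        fc rr ri k - fc (fun x => U x * vr x) (fun x => U x * vi x) k) := by
    intro k
    have e1 := XX_ft E δ θ hδ V vr k
    have e2 := XX_ft E δ θ hδ V vi k
    rw [← hUd] at e1 e2
    have e3 : φ = (fun k => (Real.sqrt (JJ E δ k) : ℂ) * ft vr k) +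
        Complex.I • (fun k => (Real.sqrt (JJ E δ k) : ℂ) * ft vi k) := by
      funext k
      rw [hφ]
      simp only [Pi.add_apply, Pi.smul_apply, smul_eq_mul]
      unfold fc
      ring
    rw [e3, Matrix.mulVec_add, Matrix.mulVec_smul, Pi.add_apply, Pi.smul_apply, e1, e2,
      smul_eq_mul]
    have e4 := fc_eq3 h k
    have e5 : fc (fun x => V x * vr x) (fun x => V x * vi x) k =
      ft (fun x => V x * vr x) k + Complex.I * ft (fun x => V x * vi x) k := rfl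
    have e6 : fc (fun x => U x * vr x) (fun x => U x * vi x) k =
      ft (fun x => U x * vr x) k + Complex.I * ft (fun x => U x * vi x) k := rfl
    have e7 : fc vr vi k = ft vr k + Complex.I * ft vi k := rfl
    rw [e5] at e4
    rw [e6]
    linear_combination (((Real.sqrt (JJ E δ k))⁻¹ : ℝ) : ℂ) * (e4 - ((adj k - E : ℝ) : ℂ) * e7)
  obtain ⟨ψ, hψ⟩ : ∃ ψ : T d L → ℂ, ψ = ((fun k : T d L =>
      (((Real.sqrt (JJ E δ k))⁻¹ : ℝ) : ℂ) * fc rr ri k) -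
      (fun k : T d L => (((Real.sqrt (JJ E δ k))⁻¹ : ℝ) : ℂ) *
        fc (fun x => U x * vr x) (fun x => U x * vi x) k)) -
      (fun k : T d L => ((η : ℂ) * Complex.I) *
        (((Real.sqrt (JJ E δ k) - δ * (Real.sqrt (JJ E δ k))⁻¹ : ℝ) : ℂ) * fc vr vi k)) :=
    ⟨_, rfl⟩
  obtain ⟨w, hw⟩ : ∃ w, w = wf (d := d) (L := L) E δ fr fi := ⟨_, rfl⟩
  have hw0 : ∀ k : T d L, ((Real.sqrt (NN d L) : ℝ) : ℂ) * w k =
      (((Real.sqrt (JJ E δ k))⁻¹ : ℝ) : ℂ) * fc fr fi k := by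
    intro k
    rw [hw]
    unfold wf
    push_cast
    rw [← mul_assoc, ← mul_assoc, mul_inv_cancel₀ hsNc, one_mul]
  have hsol : (XX (D0 E δ) (AA E δ θ) V - ((η : ℂ) * Complex.I) •
      (1 : Matrix (T d L) (T d L) ℂ)) *ᵥ φ =
      ((Real.sqrt (NN d L) : ℝ) : ℂ) • w + ψ := by
    rw [Matrix.sub_mulVec, Matrix.smul_mulVec, Matrix.one_mulVec]
    funext k
    rw [Pi.sub_apply, hXφ k, Pi.add_apply, Pi.smul_apply, Pi.smul_apply, smul_eq_mul,
      smul_eq_mul, hw0, hψ, hφ]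
    simp only [Pi.sub_apply]
    have e1 : (((Real.sqrt (JJ E δ k))⁻¹ : ℝ) : ℂ) * ((η * δ : ℝ) : ℂ) =
        (η : ℂ) * ((δ * (Real.sqrt (JJ E δ k))⁻¹ : ℝ) : ℂ) := by
      push_cast
      ring
    have e2 : ((Real.sqrt (JJ E δ k) - δ * (Real.sqrt (JJ E δ k))⁻¹ : ℝ) : ℂ) =
        (Real.sqrt (JJ E δ k) : ℂ) - ((δ * (Real.sqrt (JJ E δ k))⁻¹ : ℝ) : ℂ) := by
      push_cast
      ring
    rw [e2]
    linear_combination (Complex.I * fc vr vi k) * e1
  have hφR : φ = RR (D0 E δ) (AA E δ θ) η V *ᵥ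
      (((Real.sqrt (NN d L) : ℝ) : ℂ) • w + ψ) := by
    have h1 := RR_mul (Pool.Agent.W363.BK.D0_herm (d := d) (L := L) E δ)
      (fun y => Pool.Agent.W363.BK.AA_herm E δ θ y) hη V
    rw [← hsol, Matrix.mulVec_mulVec, h1, Matrix.one_mulVec]
  have hψn : nn ψ ≤ Real.sqrt (NN d L) * ((Real.sqrt δ)⁻¹ * (ρ + τ * B) + η * Xb) := by
    have c1 : nn (fun k : T d L => (((Real.sqrt (JJ E δ k))⁻¹ : ℝ) : ℂ) * fc rr ri k) ≤
        Real.sqrt (NN d L) * ((Real.sqrt δ)⁻¹ * ρ) := by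
      refine (nn_inv E δ hδ rr ri).trans ?_
      gcongr
    have c2 : nn (fun k : T d L => (((Real.sqrt (JJ E δ k))⁻¹ : ℝ) : ℂ) *
        fc (fun x => U x * vr x) (fun x => U x * vi x) k) ≤
        Real.sqrt (NN d L) * ((Real.sqrt δ)⁻¹ * (τ * B)) := by
      refine (nn_inv E δ hδ _ _).trans ?_
      have : Real.sqrt (Bq (fun x => U x * vr x) (fun x => U x * vi x)) ≤ τ * B := by
        rw [hB, Real.sqrt_le_left (by positivity), mul_pow, Real.sq_sqrt (Bq_nonneg _ _)]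
        unfold Bq
        have e1 : ∀ f : T d L → ℝ, ∑ x, (U x * f x) ^ 2 ≤ τ ^ 2 * ∑ x, f x ^ 2 := by
          intro f
          rw [Finset.mul_sum]
          refine Finset.sum_le_sum fun x _ => ?_
          rw [mul_pow]
          refine mul_le_mul_of_nonneg_right ?_ (sq_nonneg _)
          rw [← sq_abs]
          exact pow_le_pow_left₀ (abs_nonneg _) (hUx x) 2
        have := e1 vr
        have := e1 vi
        rw [mul_add]
        linarith
      gcongr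
    have c3 : nn (fun k : T d L => ((η : ℂ) * Complex.I) *
        (((Real.sqrt (JJ E δ k) - δ * (Real.sqrt (JJ E δ k))⁻¹ : ℝ) : ℂ) * fc vr vi k)) ≤
        η * XN E δ vr vi := by
      apply nn_le _ _ (mul_nonneg hη.le (nn_nonneg _))
      rw [mul_pow, nn_sq]
      unfold nsq
      rw [Finset.mul_sum]
      refine Finset.sum_le_sum fun k _ => ?_
      rw [norm_mul, norm_mul, norm_mul, norm_mul, norm_mul, Complex.norm_I, mul_one,
        Complex.norm_real, Complex.norm_real, Complex.norm_real, Complex.norm_real,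
        Real.norm_eq_abs, Real.norm_eq_abs, Real.norm_eq_abs, Real.norm_eq_abs,
        abs_of_pos hη, mul_pow, mul_pow, mul_pow, mul_pow, sq_abs, sq_abs, sq_abs]
      apply mul_le_mul_of_nonneg_left _ (sq_nonneg _)
      rw [← mul_assoc]
      apply mul_le_mul_of_nonneg_right _ (sq_nonneg _)
      rw [inv_sqrt_sq E δ hδ]
      have h3 := hJ k
      have h4 := Pool.Agent.W363.BK.JJ_ge (d := d) (L := L) E δ hδ k
      have h5 : (Real.sqrt (JJ E δ k) - δ * (Real.sqrt (JJ E δ k))⁻¹) ^ 2 =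
          (JJ E δ k)⁻¹ * (JJ E δ k - δ) ^ 2 := by
        rw [← inv_sqrt_sq E δ hδ k, ← mul_pow]
        have h8 : (Real.sqrt (JJ E δ k))⁻¹ * JJ E δ k = Real.sqrt (JJ E δ k) := by
          rw [inv_mul_eq_div, Real.div_sqrt]
        rw [mul_sub, h8]
        ring
      rw [h5]
      apply mul_le_mul_of_nonneg_left _ (inv_nonneg.2 h3.le)
      have := hJsq k
      nlinarith
    rw [hψ]
    refine (nn_sub _ _).trans ?_
    have c4 := nn_sub (fun k : T d L => (((Real.sqrt (JJ E δ k))⁻¹ : ℝ) : ℂ) * fc rr ri k)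
      (fun k : T d L => (((Real.sqrt (JJ E δ k))⁻¹ : ℝ) : ℂ) *
        fc (fun x => U x * vr x) (fun x => U x * vi x) k)
    have c5 := mul_le_mul_of_nonneg_left hX1 hη.le
    have c6 : Real.sqrt (NN d L) * ((Real.sqrt δ)⁻¹ * (ρ + τ * B) + η * Xb) =
        Real.sqrt (NN d L) * ((Real.sqrt δ)⁻¹ * ρ) +
        Real.sqrt (NN d L) * ((Real.sqrt δ)⁻¹ * (τ * B)) +
        η * (Real.sqrt (NN d L) * Xb) := by ring
    rw [c6]
    linarith
  refine ⟨ψ, ?_, hψn, hX1⟩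
  rw [hφR, hw]

/-- the norm of the solution -/
theorem norm_phi (E δ : ℝ) (hδ : 0 < δ) (vr vi : T d L → ℝ) :
    NN d L * (δ * Bq vr vi) ≤ nsq (fun k : T d L => (Real.sqrt (JJ E δ k) : ℂ) * fc vr vi k) ∧
    nsq (fun k : T d L => (Real.sqrt (JJ E δ k) : ℂ) * fc vr vi k) ≤
      NN d L * (δ * Bq vr vi) + XN E δ vr vi ^ 2 := by
  have hJ : ∀ k : T d L, 0 < JJ E δ k := fun k => JJ_pos E δ hδ k
  have hJsq : ∀ k : T d L, JJ E δ k ^ 2 = (adj k - E) ^ 2 + δ ^ 2 := fun k => by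
    unfold JJ
    rw [Real.sq_sqrt (by positivity)]
  have h1 : nsq (fun k : T d L => (Real.sqrt (JJ E δ k) : ℂ) * fc vr vi k) =
      ∑ k, JJ E δ k * ‖fc vr vi k‖ ^ 2 := by
    rw [nsq_mulr]
    refine Finset.sum_congr rfl fun k _ => ?_
    rw [Real.sq_sqrt (hJ k).le]
  have h2 : NN d L * (δ * Bq vr vi) = ∑ k, δ * ‖fc vr vi k‖ ^ 2 := by
    rw [← Finset.mul_sum, sum_fc_one]
    ring
  have hX2 : XN E δ vr vi ^ 2 =
      ∑ k, ((JJ E δ k)⁻¹ * (adj k - E) ^ 2) * ‖fc vr vi k‖ ^ 2 := by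
    unfold XN
    rw [nn_sq, nsq_mulr]
    refine Finset.sum_congr rfl fun k _ => ?_
    rw [norm_mul, mul_pow, Complex.norm_real, Real.norm_eq_abs, sq_abs, inv_sqrt_sq E δ hδ]
    ring
  rw [h1, h2, hX2, ← Finset.sum_add_distrib]
  refine ⟨Finset.sum_le_sum fun k _ => ?_, Finset.sum_le_sum fun k _ => ?_⟩
  · exact mul_le_mul_of_nonneg_right (Pool.Agent.W363.BK.JJ_ge (d := d) (L := L) E δ hδ k)
      (sq_nonneg _)
  · rw [← add_mul]
    apply mul_le_mul_of_nonneg_right _ (sq_nonneg _)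
    have h3 := hJ k
    have h4 := Pool.Agent.W363.BK.JJ_ge (d := d) (L := L) E δ hδ k
    have h5 : (JJ E δ k)⁻¹ * (adj k - E) ^ 2 = JJ E δ k - (JJ E δ k)⁻¹ * δ ^ 2 := by
      have := hJsq k
      field_simp
      linarith
    rw [h5]
    have h6 : (JJ E δ k)⁻¹ * δ ^ 2 ≤ δ := by
      rw [inv_mul_le_iff₀ h3]
      nlinarith
    linarith

/-- the commutator with the coordinate -/
def Dj (j : Fin d) (f : T d L → ℝ) (x : T d L) : ℝ := f (x + Pi.single j 1) - f (x - Pi.single j 1)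

theorem ft_shift (f : T d L → ℝ) (y k : T d L) : ft (fun x => f (x + y)) k = e k (-y) * ft f k := by
  unfold ft
  rw [← (Equiv.subRight y).sum_comp, Finset.mul_sum]
  refine Finset.sum_congr rfl fun x _ => ?_
  simp only [Equiv.subRight_apply, sub_add_cancel]
  rw [sub_eq_add_neg, e_add]
  ring

theorem ft_Dj (j : Fin d) (f : T d L → ℝ) (k : T d L) :
    ft (Dj j f) k = -(2 * Complex.I * (sg j k : ℂ)) * ft f k := by
  have h1 : ft (Dj j f) k = ft (fun x => f (x + Pi.single j 1)) k -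
      ft (fun x => f (x + -Pi.single j 1)) k := by
    unfold ft Dj
    rw [← Finset.sum_sub_distrib]
    refine Finset.sum_congr rfl fun x _ => ?_
    have e1 : x + -(Pi.single j 1 : T d L) = x - Pi.single j 1 := (sub_eq_add_neg _ _).symm
    simp only [e1]
    push_cast
    ring
  rw [h1, ft_shift, ft_shift, neg_neg, e_neg, e_single]
  unfold sg
  obtain ⟨c, hc⟩ : ∃ c : ℂ, c = ZMod.stdAddChar (k j) := ⟨_, rfl⟩
  rw [← hc]
  have h2 : (starRingEnd ℂ) c - c = -(2 * Complex.I * (c.im : ℂ)) := by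
    apply Complex.ext <;> simp
    ring
  linear_combination (ft f k) * h2

theorem fc_Dj (j : Fin d) (f g : T d L → ℝ) (k : T d L) :
    fc (Dj j f) (Dj j g) k = -(2 * Complex.I * (sg j k : ℂ)) * fc f g k := by
  unfold fc
  rw [ft_Dj, ft_Dj]
  ring

end Pool.Agent.TH794.QD
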