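import Pool.Agent.TH794.QD.Site6
import Pool.Agent.TH794.QD.Prof
import Pool.Agent.TH794.FG.Tor3
import Pool.Agent.TH794.LL2.Conc2

/-! The event on the torus. -/

set_option autoImplicit false
set_option linter.unusedSectionVars false

open scoped BigOperators Matrix
open MeasureTheory

namespace Pool.Agent.TH794.QD

open Pool.Agent.W788.BK
open Pool.Agent.W788.MFP.Four (T e NN adj K ft Op q NN_pos e_zero)
open Pool.Agent.TH794.FG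
open Pool.Agent.TH794.LL2 (fc Bq Bq_nonneg sum_fc_one conc2 gL
  sqrt_Bq_add)

variable {d L : ℕ} [NeZero L]

/-- **the mean of the chain and the profile** -/
theorem mean7 (hES : S_ES) (hFA : S_FAC) (hO : S_OSC) (hd : 3 ≤ d) (j : Fin d)
    (E δ θ η a v2 Q β s2 g ε e1 c0 τ1 : ℝ)
    (hδ : 0 < δ) (hη : 0 < η) (hη1 : η ≤ 1)
    (hadm : Adm (D0 E δ) (AA (d := d) (L := L) E δ θ) a v2 Q)
    (μ : Measure ℝ) [IsProbabilityMeasure μ] (hβ : 0 < β) (hμ : ∀ᵐ s ∂μ, |s| ≤ β)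
    (h0 : ∫ s, s ∂μ = 0) (h2 : ∫ s, s ^ 2 ∂μ = s2) (hs2 : 0 < s2)
    (hβa : β * a * (3 / η) ≤ 1) (hβv : β ^ 2 * v2 ≤ 1)
    (hε0 : 0 ≤ ε) (hε1 : ε ≤ 1 / 2) (he0 : 0 ≤ e1) (he1 : e1 ≤ 1 / 4)
    (hε : 4 * β ^ 3 * a * v2 * (3 / η) ^ 3 +
      s2 * (2 * β * (3 * Q) * Real.sqrt v2 * (3 / η) ^ 4) ≤ ε)
    (hg : ∀ E' : ℝ, ∑ k : T d L, (JJ E' (η * δ) k)⁻¹ ≤ g * NN d L) (hg1 : 1 ≤ g)
    (hlow : s2 * (∑ P : T d L, (1 - hi θ P)) ≤ e1 * (η ^ 2 * δ ^ 2) * NN d L)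
    (hc0 : c0 = 4 / 3 * (ε + e1 + (2 * η + 8 * s2 ^ 2 * g ^ 2 / δ ^ 2)))
    (r1 r2 u0 : ℝ) (hr1 : r1 = c0 * g * s2 / (η * δ)) (hr2 : r2 = ε * g ^ 2 * s2 ^ 2 / (η * δ) ^ 2)
    (hr1s : r1 ≤ 1 / 2000) (hr2s : r2 ≤ 1 / 2000) (hts : η * δ ≤ s2) (hu0 : u0 = η * δ / s2)
    (ht1 : η * δ ≤ 1) (hτ1 : 0 < τ1) (ω2 X ω1 : ℝ)
    (hω2 : s2 * (CH d * (τ1 * (η * δ)) ^ (-(7 / 8) : ℝ) +
      56 * d / L / (η * δ) ^ 2 / (τ1 * (η * δ))) + τ1 * (1 + c0 * g * s2 / (η * δ)) ≤ ω2)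
    (hω2' : ω2 ≤ 1 / 4)
    (hX : X = 28 * d / L / (η * δ) ^ 2 + CH d * (s2 * (2 * g) + η * δ) ^ (1 / 8 : ℝ))
    (hω1 : 200 * (r1 + r2) + ω2 / 2 + (2 * X + c0 * g) / (2 * u0) ≤ ω1) :
    |∫ V, FQ E δ θ η (sg j) V ∂(PP (T d L) μ) - u0 / 2 * Pf d u0 E| ≤ u0 * ω1 := by
  have ht : 0 < η * δ := by positivity
  have hu : 0 < u0 := by rw [hu0]; positivity
  obtain ⟨m, z, hm, hm2, hz, hmg, hmain⟩ := mean6 hES hFA E δ θ η a v2 Q β s2 g ε e1 c0 (sg j)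
    (rfl' j) hδ hη hη1 (fun k => sg_abs j k) (fun k => adj_rfl j k) (fun k => sg_rfl j k) hadm μ hβ
    hμ h0 h2 hs2 hβa hβv hε0 hε1 he0 he1 hε hg hg1 hlow hc0 r1 r2 u0 hr1 hr2 hr1s hr2s hts hu0
  have hzi : z.im = s2 * m.im + η * δ := by
    rw [hz]
    simp
  have b1 := gW2_small hO d hd (fun _ : T d L => 1) (fun k => by simp) (F0 d) (amp0 hO d hd)
    (η * δ) s2 τ1 c0 g m z (fun z hz => by rw [gW_one]; exact fin0 hO d hd (η * δ) ht ht1 z hz)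
    ht hs2 hτ1 hzi hm hmg
  have b2 := gW2_small hO d hd (fun k : T d L => sg j k ^ 2) (fun k => by
    rw [abs_of_nonneg (sq_nonneg _)]
    exact sg_sq_le j k) (F1 d) (amp1 hO d hd)
    (η * δ) s2 τ1 c0 g m z (fun z hz => fin1 hO d hd j (η * δ) ht ht1 z hz)
    ht hs2 hτ1 hzi hm hmg
  have h3 := hmain ((b1.trans hω2).trans hω2')
  have h4 := prof hO d hd j (η * δ) s2 c0 g E u0 X m z ht ht1 hs2 hz hm hm2 (by linarith) hmg hu0 hX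
  obtain ⟨A, hA⟩ : ∃ A, A = (gW (fun k : T d L => sg j k ^ 2) z).im := ⟨_, rfl⟩
  rw [← hA] at h3 h4
  have e1 : η * δ = u0 * s2 := by
    rw [hu0]
    field_simp
  have h5 : 0 < u0 + m.im := by linarith
  have e2 : η * δ / 2 * (A / (η * δ + s2 * m.im)) = u0 / 2 * (A / (u0 + m.im)) := by
    rw [e1]
    have : u0 * s2 + s2 * m.im ≠ 0 := by
      have : 0 < u0 * s2 + s2 * m.im := by
        have := mul_pos hs2 h5
        linarith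
      exact this.ne'
    field_simp
  rw [e2] at h3
  have e3 : η * δ / 2 * ‖gW2 (fun k : T d L => sg j k ^ 2) z‖ ≤ u0 / 2 * ω2 := by
    rw [e1]
    have := mul_le_mul_of_nonneg_left (b2.trans hω2) (by linarith : 0 ≤ u0 / 2)
    linarith
  have e4 : |u0 / 2 * (A / (u0 + m.im)) - u0 / 2 * Pf d u0 E| ≤
      u0 / 2 * ((2 * X + c0 * g) / u0) := by
    rw [← mul_sub, abs_mul, abs_of_pos (by linarith : 0 < u0 / 2)]
    gcongr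
  have e5 := abs_sub_le (∫ V, FQ E δ θ η (sg j) V ∂(PP (T d L) μ)) (u0 / 2 * (A / (u0 + m.im)))
    (u0 / 2 * Pf d u0 E)
  have e6 := mul_le_mul_of_nonneg_left hω1 hu.le
  have e7 : u0 * (200 * (r1 + r2) + ω2 / 2 + (2 * X + c0 * g) / (2 * u0)) =
      200 * u0 * (r1 + r2) + u0 / 2 * ω2 + u0 / 2 * ((2 * X + c0 * g) / u0) := by
    field_simp
  rw [e7] at e6
  linarith

/-- the mean of the local density of states -/
theorem meanS (hTH : S_THIRD) (hFL : S_FLUCT) (hIN : S_INV)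
    (E δ θ η a v2 Q β s2 g ε e1 : ℝ) (hδ : 0 < δ) (hη : 0 < η) (hη1 : η ≤ 1)
    (hadm : Adm (D0 E δ) (AA (d := d) (L := L) E δ θ) a v2 Q)
    (μ : Measure ℝ) [IsProbabilityMeasure μ] (hβ : 0 < β) (hμ : ∀ᵐ s ∂μ, |s| ≤ β)
    (h0 : ∫ s, s ∂μ = 0) (h2 : ∫ s, s ^ 2 ∂μ = s2) (hs2 : 0 ≤ s2)
    (hβa : β * a ≤ η) (hβv : β ^ 2 * v2 ≤ 1) (hε0 : 0 ≤ ε) (hε1 : ε ≤ 1 / 2)
    (he0 : 0 ≤ e1) (he1 : e1 ≤ 1 / 4)
    (hε : 4 * β ^ 3 * a * v2 / η ^ 3 + s2 * (2 * β * Q * Real.sqrt v2 / η ^ 4) ≤ ε)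
    (hg : ∀ E' : ℝ, ∑ k : T d L, (JJ E' (η * δ) k)⁻¹ ≤ g * NN d L)
    (hlow : s2 * (∑ P : T d L, (1 - hi θ P)) ≤ e1 * (η ^ 2 * δ ^ 2) * NN d L)
    (hc : 4 / 3 * (ε + e1 + (2 * η + 8 * s2 ^ 2 * g ^ 2 / δ ^ 2)) ≤ 1) :
    ∫ V, FS (d := d) (L := L) E δ θ η (Pi.single 0 1) (fun _ => 0) V ∂(PP (T d L) μ) ≤ 2 * g := by
  obtain ⟨m, hm, -, -, hall⟩ := mean3 hTH hFL hIN E δ θ η a v2 Q β s2 g ε e1 hδ hη hη1 hadm μ hβ hμ
    h0 h2 hs2 hβa hβv hε0 hε1 he0 he1 hε hg hlow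
  obtain ⟨I, hI, hI2⟩ := hall (Pi.single 0 1) (fun _ => 0)
  have hN := NN_pos (d := d) (L := L)
  have ht : 0 < η * δ := by positivity
  simp only [fc_single, norm_one, one_pow, one_mul, Complex.ofReal_one] at hI2
  obtain ⟨S, hS⟩ : ∃ S, S = (NN d L)⁻¹ * ∑ k : T d L,
    ‖((adj k - E : ℝ) : ℂ) - (s2 : ℂ) * m - ((η * δ : ℝ) : ℂ) * Complex.I‖⁻¹ := ⟨_, rfl⟩
  rw [← hS] at hI2
  have h1 : S ≤ g := by
    rw [hS, inv_mul_le_iff₀ hN]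
    refine le_trans (Finset.sum_le_sum fun k _ => ?_) ((hg (E + s2 * m.re)).trans (le_of_eq
      (mul_comm _ _)))
    apply inv_anti₀ (Pool.Agent.W788.BK.JJ_pos _ _ ht k)
    unfold JJ
    rw [Complex.norm_def]
    apply Real.sqrt_le_sqrt
    rw [Complex.normSq_apply]
    have e1 : (((adj k - E : ℝ) : ℂ) - (s2 : ℂ) * m - ((η * δ : ℝ) : ℂ) * Complex.I).re =
        adj k - (E + s2 * m.re) := by
      simp
      ring
    have e2 : (((adj k - E : ℝ) : ℂ) - (s2 : ℂ) * m - ((η * δ : ℝ) : ℂ) * Complex.I).im =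
        -(s2 * m.im + η * δ) := by
      simp
      ring
    rw [e1, e2]
    have h3 := mul_nonneg hs2 hm
    nlinarith
  have h2' : ‖((NN d L : ℝ) : ℂ)⁻¹ * ∑ k : T d L,
      (((adj k - E : ℝ) : ℂ) - (s2 : ℂ) * m - ((η * δ : ℝ) : ℂ) * Complex.I)⁻¹‖ ≤ S := by
    rw [hS, norm_mul, norm_inv, Complex.norm_real, Real.norm_of_nonneg hN.le]
    apply mul_le_mul_of_nonneg_left _ (by positivity)
    refine (norm_sum_le _ _).trans (Finset.sum_le_sum fun k _ => ?_)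
    rw [norm_inv]
  have hS0 : 0 ≤ S := by
    rw [hS]
    positivity
  rw [hI]
  have h3 : ‖I‖ ≤ 2 * g := by
    have h4 := norm_add_le (I - ((NN d L : ℝ) : ℂ)⁻¹ * ∑ k : T d L,
      (((adj k - E : ℝ) : ℂ) - (s2 : ℂ) * m - ((η * δ : ℝ) : ℂ) * Complex.I)⁻¹)
      (((NN d L : ℝ) : ℂ)⁻¹ * ∑ k : T d L,
      (((adj k - E : ℝ) : ℂ) - (s2 : ℂ) * m - ((η * δ : ℝ) : ℂ) * Complex.I)⁻¹)
    rw [sub_add_cancel] at h4
    have h5 := mul_le_mul_of_nonneg_right hc hS0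
    linarith
  exact ((le_abs_self _).trans (Complex.abs_im_le_norm I)).trans h3

/-- the good event -/
def Good5 (δ θ η τ ζ Kf u0 ω1 : ℝ) (M : ℕ) : Set (T d L → ℝ) :=
  {V | (∀ x, |UU θ V x| ≤ τ) ∧
    ∀ i ∈ Finset.Icc (-(M : ℤ)) M,
      FS (ζ * i) δ θ η (Pi.single 0 1) (fun _ => 0) V ≤ Kf ∧
      ∀ j : Fin d, |FQ (ζ * i) δ θ η (sg j) V - u0 / 2 * Pf d u0 (ζ * i)| ≤ 2 * (u0 * ω1)}

theorem good5_meas (δ θ η τ ζ Kf u0 ω1 : ℝ) (M : ℕ) (hη : 0 < η)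
    (hcF : ∀ E j, Continuous fun V : T d L → ℝ => FQ E δ θ η (sg j) V) :
    MeasurableSet (Good5 (d := d) (L := L) δ θ η τ ζ Kf u0 ω1 M) := by
  have hX := fun E => Pool.Agent.W363.BK.D0_herm (d := d) (L := L) E δ
  have hA := fun E y => Pool.Agent.W363.BK.AA_herm (d := d) (L := L) E δ θ y
  have h1 : Good5 (d := d) (L := L) δ θ η τ ζ Kf u0 ω1 M = (⋂ x, {V | |UU θ V x| ≤ τ}) ∩
      ⋂ i ∈ Finset.Icc (-(M : ℤ)) M,
        ({V | FS (ζ * i) δ θ η (Pi.single 0 1) (fun _ => 0) V ≤ Kf} ∩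
        ⋂ j : Fin d, {V | |FQ (ζ * i) δ θ η (sg j) V - u0 / 2 * Pf d u0 (ζ * i)| ≤
          2 * (u0 * ω1)}) := by
    ext V
    simp [Good5]
  rw [h1]
  refine MeasurableSet.inter (MeasurableSet.iInter fun x => ?_)
    (Finset.measurableSet_biInter _ fun i _ => MeasurableSet.inter ?_
      (MeasurableSet.iInter fun j => ?_))
  · exact (isClosed_le (continuous_UU θ x).abs continuous_const).measurableSet
  · exact (isClosed_le (continuous_FS _ δ θ η hη (hX _) (hA _) _ _) continuous_const).measurableSet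
  · exact (isClosed_le ((hcF _ j).sub continuous_const).abs continuous_const).measurableSet

/-- the probability of the good event -/
theorem good5_prob (hES : S_ES) (hTH : S_THIRD) (hFL : S_FLUCT) (hIN : S_INV)
    (hSU : S_SUP) (hFA : S_FAC) (hO : S_OSC) (hd : 3 ≤ d)
    (δ θ η τ ζ a v2 Q β s2 g g1 ε e1 c0 τ1 D1 D2 : ℝ) (M : ℕ) (hδ : 0 < δ) (hη : 0 < η)
    (hη1 : η ≤ 1) (hτ : 0 < τ)
    (hadm : ∀ E, Adm (D0 E δ) (AA (d := d) (L := L) E δ θ) a v2 Q)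
    (μ : Measure ℝ) [IsProbabilityMeasure μ] (hβ : 0 < β) (hμ : ∀ᵐ s ∂μ, |s| ≤ β)
    (h0 : ∫ s, s ∂μ = 0) (h2 : ∫ s, s ^ 2 ∂μ = s2) (hs2 : 0 < s2)
    (hβa0 : β * a ≤ η)
    (hβa : β * a * (3 / η) ≤ 1) (hβv : β ^ 2 * v2 ≤ 1)
    (hε0 : 0 ≤ ε) (hε1 : ε ≤ 1 / 2) (he0 : 0 ≤ e1) (he1 : e1 ≤ 1 / 4)
    (hεa : 4 * β ^ 3 * a * v2 / η ^ 3 + s2 * (2 * β * Q * Real.sqrt v2 / η ^ 4) ≤ ε)
    (hε : 4 * β ^ 3 * a * v2 * (3 / η) ^ 3 +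
      s2 * (2 * β * (3 * Q) * Real.sqrt v2 * (3 / η) ^ 4) ≤ ε)
    (hg : ∀ E' : ℝ, ∑ k : T d L, (JJ E' (η * δ) k)⁻¹ ≤ g * NN d L) (hg1 : 1 ≤ g)
    (hgg : ∀ E' : ℝ, ∑ k : T d L, (JJ E' δ k)⁻¹ ≤ g1 * NN d L)
    (hlow : s2 * (∑ P : T d L, (1 - hi θ P)) ≤ e1 * (η ^ 2 * δ ^ 2) * NN d L)
    (hc0 : c0 = 4 / 3 * (ε + e1 + (2 * η + 8 * s2 ^ 2 * g ^ 2 / δ ^ 2))) (hc01 : c0 ≤ 1)
    (r1 r2 u0 : ℝ) (hr1 : r1 = c0 * g * s2 / (η * δ)) (hr2 : r2 = ε * g ^ 2 * s2 ^ 2 / (η * δ) ^ 2)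
    (hr1s : r1 ≤ 1 / 2000) (hr2s : r2 ≤ 1 / 2000) (hts : η * δ ≤ s2) (hu0 : u0 = η * δ / s2)
    (ht1 : η * δ ≤ 1) (hτ1 : 0 < τ1) (ω2 X ω1 : ℝ)
    (hω2 : s2 * (CH d * (τ1 * (η * δ)) ^ (-(7 / 8) : ℝ) +
      56 * d / L / (η * δ) ^ 2 / (τ1 * (η * δ))) + τ1 * (1 + c0 * g * s2 / (η * δ)) ≤ ω2)
    (hω2' : ω2 ≤ 1 / 4)
    (hX : X = 28 * d / L / (η * δ) ^ 2 + CH d * (s2 * (2 * g) + η * δ) ^ (1 / 8 : ℝ))
    (hω1 : 200 * (r1 + r2) + ω2 / 2 + (2 * X + c0 * g) / (2 * u0) ≤ ω1)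
    (hD1 : 0 < D1) (hDD1 : 4 * β ^ 2 * (3 * Q) * (3 / η) ^ 6 * g1 ^ 2 ≤ D1 ^ 2)
    (hD2 : 0 < D2) (hD21 : 40 * Real.sqrt D2 ≤ 1) (hD22 : D2 ≤ 1 / 128)
    (hDD2 : 2 * β ^ 2 / η ^ 2 * (Q + a ^ 2 / η ^ 2) ≤ D2 ^ 2) :
    (PP (T d L) μ).real (Good5 (d := d) (L := L) δ θ η τ ζ (4 * g) u0 ω1 M)ᶜ ≤
      2 * NN d L * Real.exp (-(τ ^ 2 * NN d L /
        (2 * β ^ 2 * ∑ P : T d L, (1 - hi θ P)))) +
      (2 * M + 1) * (2 * Real.exp (1 / 2 - 1 / Real.sqrt (2 * D2)) +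
        d * (4 * Real.exp (-(u0 * ω1 / (2 * D1))))) := by
  have hsub : (Good5 (d := d) (L := L) δ θ η τ ζ (4 * g) u0 ω1 M)ᶜ ⊆
      {V | ∃ x : T d L, τ < |∑ y : T d L, V y * K (fun Q => 1 - hi θ Q) (x - y)|} ∪
      ⋃ i ∈ Finset.Icc (-(M : ℤ)) M,
        ({V | 4 * g < FS (ζ * i) δ θ η (Pi.single 0 1) (fun _ => 0) V} ∪
        ⋃ j ∈ (Finset.univ : Finset (Fin d)),
          {V | 2 * (u0 * ω1) < |FQ (ζ * i) δ θ η (sg j) V - u0 / 2 * Pf d u0 (ζ * i)|}) := by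
    intro V hV
    simp only [Good5, Set.mem_compl_iff, Set.mem_ofPred_eq, not_and_or, not_forall, not_le] at hV
    rcases hV with ⟨x, hx⟩ | ⟨i, hi, hx | ⟨j, hx⟩⟩
    · exact Or.inl ⟨x, hx⟩
    · exact Or.inr (Set.mem_iUnion₂.2 ⟨i, hi, Or.inl hx⟩)
    · exact Or.inr (Set.mem_iUnion₂.2 ⟨i, hi, Or.inr (Set.mem_iUnion₂.2
        ⟨j, Finset.mem_univ _, hx⟩)⟩)
  refine (measureReal_mono hsub).trans ((measureReal_union_le _ _).trans (add_le_add ?_ ?_))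
  · exact hSU d L μ β θ τ hβ hμ h0 hτ
  · refine (measureReal_biUnion_finset_le _ _).trans ?_
    have h1 : ∀ i ∈ Finset.Icc (-(M : ℤ)) M,
        (PP (T d L) μ).real ({V | 4 * g < FS (ζ * i) δ θ η (Pi.single 0 1) (fun _ => 0) V} ∪
        ⋃ j ∈ (Finset.univ : Finset (Fin d)),
          {V | 2 * (u0 * ω1) < |FQ (ζ * i) δ θ η (sg j) V - u0 / 2 * Pf d u0 (ζ * i)|}) ≤
          2 * Real.exp (1 / 2 - 1 / Real.sqrt (2 * D2)) +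
          d * (4 * Real.exp (-(u0 * ω1 / (2 * D1)))) := by
      intro i _
      refine (measureReal_union_le _ _).trans (add_le_add ?_ ?_)
      · have e1 := meanS hTH hFL hIN (ζ * i) δ θ η a v2 Q β s2 g ε e1 hδ hη hη1
          (hadm _) μ hβ hμ h0 h2 hs2.le hβa0 hβv hε0 hε1 he0 he1 hεa hg hlow (by rw [← hc0]; exact hc01)
        have e2' := conc2 hES (hadm (ζ * i)) μ β η D2 hβ hμ hη hβv hD2 hD22 hDD2
          (wf (ζ * i) δ (Pi.single 0 1) (fun _ => 0))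
        refine le_trans (measureReal_mono ?_) e2'
        intro V hV
        simp only [Set.mem_ofPred_eq] at hV ⊢
        obtain ⟨m, hm⟩ : ∃ m, m = ∫ V, FS (d := d) (L := L) (ζ * i) δ θ η (Pi.single 0 1)
          (fun _ => 0) V ∂(PP (T d L) μ) := ⟨_, rfl⟩
        rw [← hm] at e1
        change 40 * Real.sqrt D2 * (∫ V, FS (d := d) (L := L) (ζ * i) δ θ η (Pi.single 0 1)
          (fun _ => 0) V ∂(PP (T d L) μ)) <
          |FS (ζ * i) δ θ η (Pi.single 0 1) (fun _ => 0) V -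
            ∫ V, FS (d := d) (L := L) (ζ * i) δ θ η (Pi.single 0 1) (fun _ => 0) V
            ∂(PP (T d L) μ)|
        rw [← hm]
        have h4 := le_abs_self (FS (ζ * i) δ θ η (Pi.single 0 1) (fun _ => 0) V - m)
        have hm0 : 0 ≤ m := by
          rw [hm]
          apply integral_nonneg
          intro V
          have hX := Pool.Agent.W363.BK.D0_herm (d := d) (L := L) (ζ * i) δ
          have hA := fun y => Pool.Agent.W363.BK.AA_herm (d := d) (L := L) (ζ * i) δ θ y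
          have e3 := (ward hX hA hη V (wf (d := d) (L := L) (ζ * i) δ (Pi.single 0 1)
            (fun _ => 0))).1
          change 0 ≤ FS (ζ * i) δ θ η (Pi.single 0 1) (fun _ => 0) V
          change FS (ζ * i) δ θ η (Pi.single 0 1) (fun _ => 0) V = _ at e3
          rw [e3]
          exact mul_nonneg hη.le (nsq_nonneg _)
        have h5 := mul_le_mul_of_nonneg_right hD21 hm0
        linarith
      · refine (measureReal_biUnion_finset_le _ _).trans ?_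
        have h6 : ∀ j ∈ (Finset.univ : Finset (Fin d)), (PP (T d L) μ).real
            {V | 2 * (u0 * ω1) < |FQ (ζ * i) δ θ η (sg j) V - u0 / 2 * Pf d u0 (ζ * i)|} ≤
            4 * Real.exp (-(u0 * ω1 / (2 * D1))) := by
          intro j _
          have e1 := mean7 hES hFA hO hd j (ζ * i) δ θ η a v2 Q β s2 g ε e1 c0 τ1 hδ hη hη1
            (hadm _) μ hβ hμ h0 h2 hs2 hβa hβv hε0 hε1 he0 he1 hε hg hg1 hlow hc0 r1 r2 u0 hr1 hr2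
            hr1s hr2s hts hu0 ht1 hτ1 ω2 X ω1 hω2 hω2' hX hω1
          have e2 := (conc6 hES (ζ * i) δ θ η a v2 Q β D1 (sg j) hδ hη hη1 (fun k => sg_abs j k)
            (hadm _) μ hβ hμ hβv hD1 g1 (hgg _) hDD1 (u0 * ω1)).2
          refine le_trans (measureReal_mono ?_) e2
          intro V hV
          simp only [Set.mem_ofPred_eq] at hV ⊢
          have h7 := abs_sub_le (FQ (ζ * i) δ θ η (sg j) V)
            (∫ U, FQ (d := d) (L := L) (ζ * i) δ θ η (sg j) U ∂(PP (T d L) μ))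
            (u0 / 2 * Pf d u0 (ζ * i))
          linarith
        refine (Finset.sum_le_sum h6).trans ?_
        rw [Finset.sum_const, nsmul_eq_mul, Finset.card_univ, Fintype.card_fin]
    refine (Finset.sum_le_sum h1).trans ?_
    rw [Finset.sum_const, nsmul_eq_mul, Int.card_Icc]
    have e1 : ((M : ℤ) + 1 - -(M : ℤ)).toNat = 2 * M + 1 := by omega
    rw [e1]
    push_cast
    exact le_refl _

end Pool.Agent.TH794.QD
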